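import Pool.Agent.H83.OWN.Pdi
import Pool.Agent.H68.OWN.Ktz

/-!
# The dictionary: entropies

`R` is the own path over one label in the relative time, `u` the relative time of the sample, `c`
its first `g` digits, `M` side information which contains the deeper digits of the time. The context
is `Wc`: `M`, the path known to `q` digits. `Xn`, `An`, `Nn` are the near digits of the position, of
the velocity and of the height.
-/

set_option autoImplicit false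

namespace Pool.OWN83

open Finset Real
open Pool.Agent.H49.Ent Pool.Agent.H32.Dense Pool.STK

variable {Ω 𝓜 : Type} [Fintype Ω] {p : Ω → ℝ}

/-- **An integer near a function of the condition.** -/
theorem CH_int {γ : Type} (hp : IsLaw p) (X : Ω → ℤ) (W : Ω → γ) (κ : γ → ℝ) {D : ℝ}
    (hD : 0 ≤ D) (h : ∀ ω, 0 < p ω → |(X ω : ℝ) - κ (W ω)| ≤ D) :
    CH p X W ≤ Real.log (2 * D + 1) := by
  have h0 := hp.nonneg
  have s3 := CH_le_card h0 hp.sum_one X W (fun w => Finset.Icc ⌈κ w - D⌉ ⌊κ w + D⌋) (by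
    intro ω hω
    have h1 := abs_le.1 (h ω hω)
    rw [Finset.mem_Icc]
    constructor
    · rw [Int.ceil_le]
      linarith [h1.1]
    · rw [Int.le_floor]
      linarith [h1.2])
  refine s3.trans ?_
  have h2 : Ex p (fun ω => Real.log ((Finset.Icc ⌈κ (W ω) - D⌉ ⌊κ (W ω) + D⌋).card)) ≤
      Ex p (fun _ => Real.log (2 * D + 1)) := by
    refine Ex_mono h0 fun ω hω => ?_
    have h1 := abs_le.1 (h ω hω)
    have h4 : (1 : ℝ) ≤ ((Finset.Icc ⌈κ (W ω) - D⌉ ⌊κ (W ω) + D⌋).card : ℝ) := by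
      have : 0 < (Finset.Icc ⌈κ (W ω) - D⌉ ⌊κ (W ω) + D⌋).card := by
        refine Finset.card_pos.2 ⟨X ω, ?_⟩
        rw [Finset.mem_Icc]
        constructor
        · rw [Int.ceil_le]
          linarith [h1.1]
        · rw [Int.le_floor]
          linarith [h1.2]
      exact_mod_cast this
    refine Real.log_le_log (by linarith) ?_
    rw [Int.card_Icc]
    have h5 : (⌊κ (W ω) + D⌋ : ℝ) ≤ κ (W ω) + D := Int.floor_le _
    have h6 : κ (W ω) - D ≤ (⌈κ (W ω) - D⌉ : ℝ) := Int.le_ceil _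
    have h7 : ((⌊κ (W ω) + D⌋ + 1 - ⌈κ (W ω) - D⌉ : ℤ) : ℝ) ≤ 2 * D + 1 := by
      push_cast
      linarith
    rcases le_total 0 (⌊κ (W ω) + D⌋ + 1 - ⌈κ (W ω) - D⌉) with h8 | h8
    · have h9 : (((⌊κ (W ω) + D⌋ + 1 - ⌈κ (W ω) - D⌉).toNat : ℤ) : ℝ) =
          ((⌊κ (W ω) + D⌋ + 1 - ⌈κ (W ω) - D⌉ : ℤ) : ℝ) := by
        rw [Int.toNat_of_nonneg h8]
      rw [← h9] at h7
      exact_mod_cast h7
    · rw [Int.toNat_of_nonpos h8]
      push_cast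
      linarith
  rw [Ex_const hp.sum_one] at h2
  exact h2

/-- Finitely many integers near functions of the condition. -/
theorem CH_vec {γ : Type} (hp : ∀ ω, 0 ≤ p ω) (W : Ω → γ) {c : ℝ} :
    ∀ (n : ℕ) (X : Ω → Fin n → ℤ), (∀ i, CH p (fun ω => X ω i) W ≤ c) → CH p X W ≤ n * c := by
  intro n
  induction n with
  | zero =>
    intro X _
    rw [CH_eq_zero hp (fun ω ω' _ _ _ => funext fun i => Fin.elim0 i)]
    simp
  | succ n ih =>
    intro X hX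
    have h1 := CH_subadd hp (fun ω => X ω 0) (fun ω (i : Fin n) => X ω i.succ) W
    have h2 := ih (fun ω i => X ω i.succ) (fun i => hX i.succ)
    have h3 := hX 0
    have h4 : CH p X W ≤ CH p (fun ω => (X ω 0, fun i : Fin n => X ω i.succ)) W := by
      refine CH_mono_left hp fun ω ω' _ _ e => ?_
      have e1 := (Prod.ext_iff.mp e).1
      funext i
      refine Fin.cases ?_ (fun j => ?_) i
      · exact (Prod.ext_iff.mp e1).1
      · exact congrFun (Prod.ext_iff.mp e1).2 j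
    push_cast
    linarith

/-- The coefficients of order at least `2`, to `Q` digits. -/
noncomputable def Cv (D Q : ℕ) (R : Polynomial ℝ) : Fin (D + 1) → ℤ := fun j =>
  if 2 ≤ (j : ℕ) then ⌊(2 : ℝ) ^ Q * R.coeff j⌋ else 0

/-- The extension by `0`. -/
def Cx {D : ℕ} (C : Fin (D + 1) → ℤ) : ℕ → ℤ := fun j => if h : j < D + 1 then C ⟨j, h⟩ else 0

theorem Cx_Cv {D Q : ℕ} (R : Polynomial ℝ) {j : ℕ} (hj : j ∈ Icc 2 D) :
    Cx (Cv D Q R) j = ⌊(2 : ℝ) ^ Q * R.coeff j⌋ := by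
  rw [mem_Icc] at hj
  unfold Cx Cv
  rw [dif_pos (by omega), if_pos hj.1]

theorem pth_Cx {D n Q : ℕ} (R : Polynomial ℝ) (a b : ℤ) (u : ℝ) :
    pth D n Q a b (Cx (Cv D Q R)) u = pth D n Q a b (fun j => ⌊(2 : ℝ) ^ Q * R.coeff j⌋) u := by
  unfold pth
  congr 1
  refine Finset.sum_congr rfl fun j hj => ?_
  rw [Cx_Cv R hj]

theorem pvl_Cx {D n Q : ℕ} (R : Polynomial ℝ) (b : ℤ) (u : ℝ) :
    pvl D n Q b (Cx (Cv D Q R)) u = pvl D n Q b (fun j => ⌊(2 : ℝ) ^ Q * R.coeff j⌋) u := by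
  unfold pvl
  congr 1
  refine Finset.sum_congr rfl fun j hj => ?_
  rw [Cx_Cv R hj]

/-- The context. -/
noncomputable def Wc (D q Q : ℕ) (R : Ω → Polynomial ℝ) (M : Ω → 𝓜) (ω : Ω) :
    𝓜 × (ℤ × ℤ) × (Fin (D + 1) → ℤ) :=
  (M ω, (⌊(2 : ℝ) ^ q * (R ω).coeff 0⌋, ⌊(2 : ℝ) ^ q * (R ω).coeff 1⌋), Cv D Q (R ω))

/-- The near digits of the position. -/
noncomputable def Xn (D q g Q : ℕ) (R : Ω → Polynomial ℝ) (u : Ω → ℝ) (ω : Ω) : ℤ :=
  ⌊(2 : ℝ) ^ (q + g) * (R ω).eval (u ω)⌋ -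
    ⌊pth D (q + g) Q (2 ^ g * ⌊(2 : ℝ) ^ q * (R ω).coeff 0⌋)
      (2 ^ g * ⌊(2 : ℝ) ^ q * (R ω).coeff 1⌋) (Cx (Cv D Q (R ω))) (u ω)⌋

/-- The near digits of the velocity. -/
noncomputable def An (q g : ℕ) (R : Ω → Polynomial ℝ) (ω : Ω) : ℤ := ndg q g ((R ω).coeff 1)

/-- The near digits of the height. -/
noncomputable def Nn (q g : ℕ) (R : Ω → Polynomial ℝ) (ω : Ω) : ℤ := ndg q g ((R ω).coeff 0)

/-- The data of one path. -/
structure PDa (D q g Q : ℕ) (R : Ω → Polynomial ℝ) (u : Ω → ℝ) (c : Ω → ℤ) (M : Ω → 𝓜) :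
    Prop where
  deg : ∀ ω, (R ω).natDegree ≤ D
  u0 : ∀ ω, 0 ≤ u ω
  u1 : ∀ ω, u ω ≤ 1
  clo : ∀ ω, (c ω : ℝ) ≤ 2 ^ g * u ω
  chi : ∀ ω, 2 ^ g * u ω ≤ c ω + 1
  fu : ∃ φ : ℤ × 𝓜 → ℝ, ∀ ω, u ω = φ (c ω, M ω)
  qgQ : q + g ≤ Q

section

variable {D q g Q : ℕ} {R : Ω → Polynomial ℝ} {u : Ω → ℝ} {c : Ω → ℤ} {M : Ω → 𝓜}

omit [Fintype Ω] in
theorem PDa.hX (P : PDa D q g Q R u c M) (ω : Ω) :
    |2 ^ g * Xn D q g Q R u ω - (2 ^ g * Nn q g R ω + An q g R ω * c ω)| ≤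
      ((D + 5 : ℕ) : ℤ) * 2 ^ g := by
  have h := dic_X (R ω) (P.deg ω) P.qgQ (P.u0 ω) (P.u1 ω) (P.clo ω) (P.chi ω)
  unfold Xn Nn An
  rw [pth_Cx]
  exact h

/-- The position from the near digits. -/
theorem PDa.f1 (hp : IsLaw p) (P : PDa D q g Q R u c M) {s : ℝ} (hs : 0 < s)
    (hs' : s ≤ 2 * 2 ^ (q + g)) :
    CH p (fun ω => ⌊s * (R ω).eval (u ω)⌋)
      (fun ω => (Xn D q g Q R u ω, (c ω, Wc D q Q R M ω))) ≤ Real.log (2 * 3 + 1) := by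
  obtain ⟨φ, hφ⟩ := P.fu
  refine CH_int hp _ _ (fun x => s / 2 ^ (q + g) * (x.1 + ⌊pth D (q + g) Q (2 ^ g * x.2.2.2.1.1)
    (2 ^ g * x.2.2.2.1.2) (Cx x.2.2.2.2) (φ (x.2.1, x.2.2.1))⌋)) (by norm_num) ?_
  intro ω _
  have hu := hφ ω
  simp only [Wc]
  rw [← hu]
  obtain ⟨y, hy⟩ : ∃ y, y = (R ω).eval (u ω) := ⟨_, rfl⟩
  have e1 : ((Xn D q g Q R u ω : ℤ) : ℝ) + ⌊pth D (q + g) Q
      (2 ^ g * ⌊(2 : ℝ) ^ q * (R ω).coeff 0⌋) (2 ^ g * ⌊(2 : ℝ) ^ q * (R ω).coeff 1⌋)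
      (Cx (Cv D Q (R ω))) (u ω)⌋ = (⌊(2 : ℝ) ^ (q + g) * y⌋ : ℝ) := by
    unfold Xn
    rw [← hy]
    push_cast
    ring
  rw [e1, ← hy]
  have hg : (0 : ℝ) < 2 ^ (q + g) := by positivity
  have h1 := fl_abs (s * y)
  have h2 := fl_abs ((2 : ℝ) ^ (q + g) * y)
  have e2 : (⌊s * y⌋ : ℝ) - s / 2 ^ (q + g) * ⌊(2 : ℝ) ^ (q + g) * y⌋ =
      s / 2 ^ (q + g) * ((2 : ℝ) ^ (q + g) * y - ⌊(2 : ℝ) ^ (q + g) * y⌋) - (s * y - ⌊s * y⌋) := by
    field_simp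
    ring
  rw [e2]
  have h3 : |s / 2 ^ (q + g) * ((2 : ℝ) ^ (q + g) * y - ⌊(2 : ℝ) ^ (q + g) * y⌋)| ≤ 2 * 1 := by
    rw [abs_mul, abs_of_pos (div_pos hs hg)]
    refine mul_le_mul ?_ h2 (abs_nonneg _) (by norm_num)
    rw [div_le_iff₀ hg]
    exact hs'
  have h4 := abs_sub (s / 2 ^ (q + g) * ((2 : ℝ) ^ (q + g) * y - ⌊(2 : ℝ) ^ (q + g) * y⌋))
    (s * y - ⌊s * y⌋)
  linarith

/-- The near digits from the position. -/
theorem PDa.f2 (hp : IsLaw p) (P : PDa D q g Q R u c M) {s : ℝ} (hs' : 2 ^ (q + g) ≤ 2 * s) :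
    CH p (Xn D q g Q R u)
      (fun ω => (⌊s * (R ω).eval (u ω)⌋, (c ω, Wc D q Q R M ω))) ≤ Real.log (2 * 3 + 1) := by
  obtain ⟨φ, hφ⟩ := P.fu
  have hg : (0 : ℝ) < 2 ^ (q + g) := by positivity
  have hs : 0 < s := by linarith
  refine CH_int hp _ _ (fun x => 2 ^ (q + g) / s * x.1 - ⌊pth D (q + g) Q (2 ^ g * x.2.2.2.1.1)
    (2 ^ g * x.2.2.2.1.2) (Cx x.2.2.2.2) (φ (x.2.1, x.2.2.1))⌋) (by norm_num) ?_
  intro ω _
  have hu := hφ ω
  simp only [Wc]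
  rw [← hu]
  obtain ⟨y, hy⟩ : ∃ y, y = (R ω).eval (u ω) := ⟨_, rfl⟩
  have e1 : ((Xn D q g Q R u ω : ℤ) : ℝ) + ⌊pth D (q + g) Q
      (2 ^ g * ⌊(2 : ℝ) ^ q * (R ω).coeff 0⌋) (2 ^ g * ⌊(2 : ℝ) ^ q * (R ω).coeff 1⌋)
      (Cx (Cv D Q (R ω))) (u ω)⌋ = (⌊(2 : ℝ) ^ (q + g) * y⌋ : ℝ) := by
    unfold Xn
    rw [← hy]
    push_cast
    ring
  have h1 := fl_abs (s * y)
  have h2 := fl_abs ((2 : ℝ) ^ (q + g) * y)
  have e2 : ((Xn D q g Q R u ω : ℤ) : ℝ) - (2 ^ (q + g) / s * ⌊s * y⌋ - ⌊pth D (q + g) Q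
      (2 ^ g * ⌊(2 : ℝ) ^ q * (R ω).coeff 0⌋) (2 ^ g * ⌊(2 : ℝ) ^ q * (R ω).coeff 1⌋)
      (Cx (Cv D Q (R ω))) (u ω)⌋) =
      2 ^ (q + g) / s * (s * y - ⌊s * y⌋) - ((2 : ℝ) ^ (q + g) * y -
        ⌊(2 : ℝ) ^ (q + g) * y⌋) := by
    have : 2 ^ (q + g) / s * (s * y) = (2 : ℝ) ^ (q + g) * y := by field_simp
    linear_combination e1 - this
  rw [← hy, e2]
  have h3 : |2 ^ (q + g) / s * (s * y - ⌊s * y⌋)| ≤ 2 * 1 := by
    rw [abs_mul, abs_of_pos (div_pos hg hs)]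
    refine mul_le_mul ?_ h1 (abs_nonneg _) (by norm_num)
    rw [div_le_iff₀ hs]
    exact hs'
  have h4 := abs_sub (2 ^ (q + g) / s * (s * y - ⌊s * y⌋))
    ((2 : ℝ) ^ (q + g) * y - ⌊(2 : ℝ) ^ (q + g) * y⌋)
  linarith

/-- Rescaling of an approximate value. -/
theorem resc {s y P C a : ℝ} {n : ℕ} (hs : 0 < s) (ha : 0 ≤ a) (hs' : s ≤ a * 2 ^ n)
    (h : |(2 : ℝ) ^ n * y - P| ≤ C) : |(⌊s * y⌋ : ℝ) - s / 2 ^ n * P| ≤ a * C + 1 := by
  have hg : (0 : ℝ) < 2 ^ n := by positivity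
  have h1 := fl_abs (s * y)
  have e2 : (⌊s * y⌋ : ℝ) - s / 2 ^ n * P =
      s / 2 ^ n * ((2 : ℝ) ^ n * y - P) - (s * y - ⌊s * y⌋) := by
    field_simp
    ring
  rw [e2]
  have h3 : |s / 2 ^ n * ((2 : ℝ) ^ n * y - P)| ≤ a * C := by
    rw [abs_mul, abs_of_pos (div_pos hs hg)]
    refine mul_le_mul ?_ h (abs_nonneg _) ha
    rw [div_le_iff₀ hg]
    exact hs'
  have h4 := abs_sub (s / 2 ^ n * ((2 : ℝ) ^ n * y - P)) (s * y - ⌊s * y⌋)
  linarith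

theorem log_resc {a C : ℝ} (ha : 1 ≤ a) (hC : 0 ≤ C) :
    Real.log (2 * (a * C + 1) + 1) ≤ Real.log a + Real.log (2 * C + 3) := by
  rw [← Real.log_mul (by linarith) (by linarith)]
  refine Real.log_le_log (by positivity) ?_
  nlinarith

/-- **The position to `q + i` digits** from `i` near digits of the velocity and of the height. -/
theorem PDa.f3 (hp : IsLaw p) (P : PDa D q g Q R u c M) {i : ℕ} (hi : i ≤ g) {s a : ℝ}
    (hs : 0 < s) (ha : 1 ≤ a) (hs' : s ≤ a * 2 ^ (q + i)) :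
    CH p (fun ω => ⌊s * (R ω).eval (u ω)⌋)
      (fun ω => (c ω, ((An q g R ω / 2 ^ (g - i), Nn q g R ω / 2 ^ (g - i)),
        Wc D q Q R M ω))) ≤ Real.log a + Real.log (2 * (D + 2) + 3) := by
  obtain ⟨φ, hφ⟩ := P.fu
  refine (CH_int hp _ _ (fun x => s / 2 ^ (q + i) * pth D (q + i) Q
    (2 ^ i * x.2.2.2.1.1 + x.2.1.2) (2 ^ i * x.2.2.2.1.2 + x.2.1.1) (Cx x.2.2.2.2)
    (φ (x.1, x.2.2.1))) (D := a * (D + 2) + 1) (by positivity) ?_).trans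
    (log_resc ha (by positivity))
  intro ω _
  have hu := hφ ω
  simp only [Wc]
  rw [← hu]
  unfold An Nn
  rw [ndg_div _ _ hi, ndg_div _ _ hi, pth_Cx]
  exact resc hs (by linarith) hs' (pth_val (R ω) (P.deg ω) (by have := P.qgQ; omega) (P.u0 ω)
    (P.u1 ω))

/-- **The velocity to `q + i` digits** from `i` near digits of the velocity. -/
theorem PDa.f4 (hp : IsLaw p) (P : PDa D q g Q R u c M) {i : ℕ} (hi : i ≤ g) {s a : ℝ}
    (hs : 0 < s) (ha : 1 ≤ a) (hs' : s ≤ a * 2 ^ (q + i)) :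
    CH p (fun ω => ⌊s * (Polynomial.derivative (R ω)).eval (u ω)⌋)
      (fun ω => (c ω, (An q g R ω / 2 ^ (g - i), (M ω,
        (⌊(2 : ℝ) ^ q * (R ω).coeff 1⌋, Cv D Q (R ω)))))) ≤
        Real.log a + Real.log (2 * (D * D + 1) + 3) := by
  obtain ⟨φ, hφ⟩ := P.fu
  refine (CH_int hp _ _ (fun x => s / 2 ^ (q + i) * pvl D (q + i) Q
    (2 ^ i * x.2.2.2.1 + x.2.1) (Cx x.2.2.2.2) (φ (x.1, x.2.2.1)))
    (D := a * (D * D + 1) + 1) (by positivity) ?_).trans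
    (log_resc ha (by positivity))
  intro ω _
  have hu := hφ ω
  simp only
  rw [← hu]
  unfold An
  rw [ndg_div _ _ hi, pvl_Cx]
  exact resc hs (by linarith) hs' (pvl_val (R ω) (P.deg ω) (by have := P.qgQ; omega) (P.u0 ω)
    (P.u1 ω))

/-- The velocity from the context and all the near digits. -/
theorem PDa.f4' (hp : IsLaw p) (P : PDa D q g Q R u c M) {i : ℕ} (hi : i ≤ g) {s a : ℝ}
    (hs : 0 < s) (ha : 1 ≤ a) (hs' : s ≤ a * 2 ^ (q + i)) :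
    CH p (fun ω => ⌊s * (Polynomial.derivative (R ω)).eval (u ω)⌋)
      (fun ω => (c ω, ((An q g R ω / 2 ^ (g - i), Nn q g R ω / 2 ^ (g - i)),
        Wc D q Q R M ω))) ≤ Real.log a + Real.log (2 * (D * D + 1) + 3) := by
  refine le_trans (CH_mono_cond hp.nonneg fun ω ω' _ _ h => ?_) (P.f4 hp hi hs ha hs')
  simp only [Wc, Prod.mk.injEq] at h ⊢
  tauto

/-- **The digits of a coefficient from the jets.** -/
theorem PDa.f6 {𝓔 : Type} (hp : IsLaw p) (P : PDa D q g Q R u c M) (j : ℕ) {s : ℝ} (hs : 0 < s)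
    (S : ℕ → ℝ) (hS : ∀ i, j ≤ i → i ≤ D → s ≤ 2 * S i) (e : Ω → 𝓔)
    (he : ∃ ψ : 𝓔 → (ℕ → ℤ) × ℝ, ∀ ω, (ψ (e ω)).2 = u ω ∧ ∀ i, j ≤ i → i ≤ D →
      (ψ (e ω)).1 i = ⌊S i * (Polynomial.derivative^[i] (R ω)).eval (u ω)⌋) :
    CH p (fun ω => ⌊s * (R ω).coeff j⌋) e ≤ Real.log (2 * (2 * (D + 1) + 1) + 1) := by
  obtain ⟨ψ, hψ⟩ := he
  refine CH_int hp _ _ (fun x => ∑ i ∈ Icc j D, ((i.choose j : ℝ) / (i.factorial : ℝ) *
    (-(ψ x).2) ^ (i - j)) * (s / S i * ((ψ x).1 i : ℝ))) (by positivity) ?_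
  intro ω _
  rw [(hψ ω).1]
  have h1 := coeff_rd (R ω) (P.deg ω) (P.u0 ω) (P.u1 ω) j hs S (ψ (e ω)).1
    (fun i h1 h2 => ⟨hS i h1 h2, (hψ ω).2 i h1 h2⟩)
  have h2 := fl_abs (s * (R ω).coeff j)
  rw [abs_le] at h1 h2 ⊢
  constructor <;> linarith [h1.1, h1.2, h2.1, h2.2]

/-- **All the coefficients of order at least `2` from the jets.** -/
theorem PDa.f7 {𝓔 : Type} (hp : IsLaw p) (P : PDa D q g Q R u c M)
    (S : ℕ → ℝ) (hS : ∀ i, 2 ≤ i → i ≤ D → 2 ^ Q ≤ 2 * S i) (e : Ω → 𝓔)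
    (he : ∃ ψ : 𝓔 → (ℕ → ℤ) × ℝ, ∀ ω, (ψ (e ω)).2 = u ω ∧ ∀ i, 2 ≤ i → i ≤ D →
      (ψ (e ω)).1 i = ⌊S i * (Polynomial.derivative^[i] (R ω)).eval (u ω)⌋) :
    CH p (fun ω => Cv D Q (R ω)) e ≤ (D + 1) * Real.log (2 * (2 * (D + 1) + 1) + 1) := by
  obtain ⟨L, hL⟩ : ∃ L : ℝ, L = Real.log (2 * (2 * (D + 1) + 1) + 1) := ⟨_, rfl⟩
  have hL0 : 0 ≤ L := by
    rw [hL]
    refine Real.log_nonneg ?_
    have : (0 : ℝ) ≤ D := Nat.cast_nonneg D
    linarith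
  have h0 := hp.nonneg
  have k2 : CH p (fun ω => Cv D Q (R ω)) e ≤ ((D + 1 : ℕ) : ℝ) * L := by
    refine CH_vec h0 _ (D + 1) _ fun j => ?_
    by_cases hj : 2 ≤ (j : ℕ)
    · have k3 := P.f6 hp j (s := 2 ^ Q) (by positivity) S
        (fun i hi0 hi => hS i (hj.trans hi0) hi) e (by
          obtain ⟨ψ, hψ⟩ := he
          exact ⟨ψ, fun ω => ⟨(hψ ω).1, fun i h1 h2 => (hψ ω).2 i (hj.trans h1) h2⟩⟩)
      have e1 : (fun ω => Cv D Q (R ω) j) = fun ω => ⌊(2 : ℝ) ^ Q * (R ω).coeff j⌋ := by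
        funext ω
        unfold Cv
        rw [if_pos hj]
      rw [e1, hL]
      exact k3
    · rw [CH_eq_zero h0 (fun ω ω' _ _ _ => by
        unfold Cv
        rw [if_neg hj, if_neg hj])]
      exact hL0
  push_cast at k2
  rw [← hL]
  exact k2

/-- **The jets from the coefficients**: the digits of the jets of order `i ≥ 2`. -/
theorem PDa.f8 (hp : IsLaw p) (P : PDa D q g Q R u c M) {i : ℕ} (hi : 2 ≤ i) {s a : ℝ}
    (hs : 0 < s) (ha : 1 ≤ a) (hs' : s ≤ a * 2 ^ Q) :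
    CH p (fun ω => ⌊s * (Polynomial.derivative^[i] (R ω)).eval (u ω)⌋)
      (fun ω => (c ω, (M ω, Cv D Q (R ω)))) ≤
        Real.log a + Real.log (2 * ((D + 1) * (D ^ i : ℕ)) + 3) := by
  obtain ⟨φ, hφ⟩ := P.fu
  refine (CH_int hp _ _ (fun x => s / 2 ^ Q * ∑ j ∈ Icc i D, (j.descFactorial i : ℝ) *
    (Cx x.2.2 j : ℝ) * φ (x.1, x.2.1) ^ (j - i))
    (D := a * ((D + 1) * (D ^ i : ℕ)) + 1) (by positivity) ?_).trans
    (log_resc ha (by positivity))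
  intro ω _
  have hu := hφ ω
  simp only
  rw [← hu]
  refine resc hs (by linarith) hs' ?_
  -- the derivative
  have h1 : (Polynomial.derivative^[i] (R ω)).eval (u ω) =
      ∑ j ∈ Icc i D, (j.descFactorial i : ℝ) * (R ω).coeff j * u ω ^ (j - i) := by
    have h2 : (Polynomial.derivative^[i] (R ω)).natDegree ≤ D - i :=
      (Polynomial.natDegree_iterate_derivative _ _).trans (Nat.sub_le_sub_right (P.deg ω) i)
    rw [Polynomial.eval_eq_sum_range' (show _ < D + 1 by omega)]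
    by_cases hiD : i ≤ D
    · have h3 : ∑ j ∈ Icc i D, (j.descFactorial i : ℝ) * (R ω).coeff j * u ω ^ (j - i) =
          ∑ l ∈ range (D - i + 1), ((l + i).descFactorial i : ℝ) * (R ω).coeff (l + i) *
            u ω ^ l := by
        symm
        refine Finset.sum_nbij' (fun l => l + i) (fun j => j - i) ?_ ?_ ?_ ?_ ?_
        · intro l hl
          rw [mem_range] at hl
          rw [mem_Icc]
          omega
        · intro j hj
          rw [mem_Icc] at hj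
          rw [mem_range]
          omega
        · intro l _
          omega
        · intro j hj
          rw [mem_Icc] at hj
          omega
        · intro l _
          rw [Nat.add_sub_cancel]
      rw [h3]
      symm
      refine Finset.sum_subset_zero_on_sdiff (fun l hl => ?_) (fun l hl => ?_) (fun l hl => ?_)
      · rw [mem_range] at hl ⊢
        omega
      · rw [mem_sdiff, mem_range, mem_range] at hl
        rw [Polynomial.coeff_iterate_derivative,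
          Polynomial.coeff_eq_zero_of_natDegree_lt (lt_of_le_of_lt (P.deg ω) (by omega))]
        simp
      · rw [Polynomial.coeff_iterate_derivative, nsmul_eq_mul]
    · rw [Finset.Icc_eq_empty (by omega), Finset.sum_empty]
      refine Finset.sum_eq_zero fun l _ => ?_
      rw [Polynomial.coeff_iterate_derivative,
        Polynomial.coeff_eq_zero_of_natDegree_lt (lt_of_le_of_lt (P.deg ω) (by omega))]
      simp
  rw [h1, Finset.mul_sum, ← Finset.sum_sub_distrib]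
  refine (Finset.abs_sum_le_sum_abs _ _).trans ?_
  have h4 : ∀ j ∈ Icc i D, |(2 : ℝ) ^ Q * ((j.descFactorial i : ℝ) * (R ω).coeff j *
      u ω ^ (j - i)) - (j.descFactorial i : ℝ) * (Cx (Cv D Q (R ω)) j : ℝ) * u ω ^ (j - i)| ≤
      ((D ^ i : ℕ) : ℝ) := by
    intro j hj
    rw [mem_Icc] at hj
    rw [Cx_Cv (R ω) (by rw [mem_Icc]; omega)]
    have e1 : (2 : ℝ) ^ Q * ((j.descFactorial i : ℝ) * (R ω).coeff j * u ω ^ (j - i)) -
        (j.descFactorial i : ℝ) * (⌊(2 : ℝ) ^ Q * (R ω).coeff j⌋ : ℝ) * u ω ^ (j - i) =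
        (j.descFactorial i : ℝ) * (((2 : ℝ) ^ Q * (R ω).coeff j -
          ⌊(2 : ℝ) ^ Q * (R ω).coeff j⌋) * u ω ^ (j - i)) := by ring
    rw [e1, abs_mul, abs_mul, abs_of_nonneg (Nat.cast_nonneg _),
      abs_of_nonneg (pow_nonneg (P.u0 ω) _)]
    have b1 : ((j.descFactorial i : ℕ) : ℝ) ≤ ((D ^ i : ℕ) : ℝ) := by
      have : j.descFactorial i ≤ D ^ i :=
        (Nat.descFactorial_le_pow j i).trans (Nat.pow_le_pow_left hj.2 i)
      exact_mod_cast this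
    have b2 : |(2 : ℝ) ^ Q * (R ω).coeff j - ⌊(2 : ℝ) ^ Q * (R ω).coeff j⌋| *
        u ω ^ (j - i) ≤ 1 := mul_le_one₀ (fl_abs _) (pow_nonneg (P.u0 ω) _)
      (pow_le_one₀ (P.u0 ω) (P.u1 ω))
    calc _ ≤ ((D ^ i : ℕ) : ℝ) * 1 := mul_le_mul b1 b2 (mul_nonneg (abs_nonneg _)
          (pow_nonneg (P.u0 ω) _)) (Nat.cast_nonneg _)
      _ = _ := mul_one _
  refine (Finset.sum_le_sum h4).trans ?_
  rw [Finset.sum_const, Nat.card_Icc, nsmul_eq_mul]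
  refine mul_le_mul_of_nonneg_right ?_ (Nat.cast_nonneg _)
  have : D + 1 - i ≤ D + 1 := by omega
  exact_mod_cast this

end

end Pool.OWN83
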