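import Pool.Agent.H91.LA.Own
import Pool.Agent.H83.OWN.Dic

/-!
# One family: the relative time and the own path over one label

`ct_low`: the `g` digits of the time behind the window are full given the line, the window and the
deeper digits. `dv_jet`: the jets of the own path in the relative time. `jet_cnt`: the number of
values of the jets over one label. `vline`: the position over `I` at the time of the sample from the
position at the beginning of the window and the direction.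
-/

set_option autoImplicit false

namespace Pool.OWN83

open Finset Real MvPolynomial
open Pool.Agent.H49.Ent Pool.Agent.H32.Dense Pool.STK Pool.KA Pool.KSAT Pool.K2S Pool.PB Pool.GEN
open Pool.S6C Pool.RCD Pool.LA91
open Pool.PB.Trl (rt rt_mem t_rt)

variable {m J : ℕ}

/-- The first `g` digits of the relative time. -/
def tc (F : Fam m J) (w g : ℕ) (ω : F.Ω) : ℕ := F.T ω % 2 ^ (J - w) / 2 ^ (J - w - g)

/-- The deeper digits of the time. -/
def td (F : Fam m J) (w g : ℕ) (ω : F.Ω) : ℕ := F.T ω % 2 ^ (J - w - g)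

theorem tc_split (F : Fam m J) {w g : ℕ} (hwg : w + g ≤ J) (ω : F.Ω) :
    F.T ω % 2 ^ (J - w) = 2 ^ (J - w - g) * tc F w g ω + td F w g ω := by
  unfold tc td
  have h1 := Nat.div_add_mod (F.T ω % 2 ^ (J - w)) (2 ^ (J - w - g))
  have h2 : F.T ω % 2 ^ (J - w) % 2 ^ (J - w - g) = F.T ω % 2 ^ (J - w - g) :=
    Nat.mod_mod_of_dvd _ (pow_dvd_pow 2 (by omega))
  rw [h2] at h1
  exact h1.symm

theorem tc_lt (F : Fam m J) {w g : ℕ} (hwg : w + g ≤ J) (ω : F.Ω) : tc F w g ω < 2 ^ g := by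
  unfold tc
  rw [Nat.div_lt_iff_lt_mul (by positivity), ← pow_add]
  have : g + (J - w - g) = J - w := by omega
  rw [this]
  exact Nat.mod_lt _ (by positivity)

theorem td_lt (F : Fam m J) (w g : ℕ) (ω : F.Ω) : td F w g ω < 2 ^ (J - w - g) :=
  Nat.mod_lt _ (by positivity)

/-- The relative time from its digits. -/
theorem rt_tc (F : Fam m J) {w g : ℕ} (hwg : w + g ≤ J) (ω : F.Ω) :
    rt F w ω = ((2 ^ (J - w - g) * tc F w g ω + td F w g ω : ℕ) : ℝ) / ((2 ^ (J - w) : ℕ) : ℝ) := by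
  unfold rt
  rw [tc_split F hwg ω]

theorem rt_lo (F : Fam m J) {w g : ℕ} (hwg : w + g ≤ J) (ω : F.Ω) :
    (tc F w g ω : ℝ) ≤ 2 ^ g * rt F w ω := by
  rw [rt_tc F hwg ω]
  have h1 : ((2 ^ (J - w) : ℕ) : ℝ) = 2 ^ g * 2 ^ (J - w - g) := by
    push_cast
    rw [← pow_add]
    congr 1
    omega
  rw [h1]
  push_cast
  have h2 : (0 : ℝ) ≤ td F w g ω := Nat.cast_nonneg _
  have h3 : (2 : ℝ) ^ g * ((2 ^ (J - w - g) * (tc F w g ω : ℝ) + td F w g ω) /
      (2 ^ g * 2 ^ (J - w - g))) = tc F w g ω + td F w g ω / 2 ^ (J - w - g) := by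
    field_simp
  rw [h3]
  have : 0 ≤ (td F w g ω : ℝ) / 2 ^ (J - w - g) := by positivity
  linarith

theorem rt_hi (F : Fam m J) {w g : ℕ} (hwg : w + g ≤ J) (ω : F.Ω) :
    2 ^ g * rt F w ω ≤ (tc F w g ω : ℝ) + 1 := by
  rw [rt_tc F hwg ω]
  have h1 : ((2 ^ (J - w) : ℕ) : ℝ) = 2 ^ g * 2 ^ (J - w - g) := by
    push_cast
    rw [← pow_add]
    congr 1
    omega
  rw [h1]
  push_cast
  have h3 : (2 : ℝ) ^ g * ((2 ^ (J - w - g) * (tc F w g ω : ℝ) + td F w g ω) /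
      (2 ^ g * 2 ^ (J - w - g))) = tc F w g ω + td F w g ω / 2 ^ (J - w - g) := by
    field_simp
  rw [h3]
  have h4 : (td F w g ω : ℝ) ≤ 2 ^ (J - w - g) := by exact_mod_cast (td_lt F w g ω).le
  have : (td F w g ω : ℝ) / 2 ^ (J - w - g) ≤ 1 := by
    rw [div_le_one (by positivity)]
    exact h4
  linarith

theorem CH_nat_lt {Ω γ : Type} [Fintype Ω] {p : Ω → ℝ} (hp : IsLaw p) (X : Ω → ℕ) (W : Ω → γ)
    {n : ℕ} (h : ∀ ω, X ω < 2 ^ n) : CH p X W ≤ n * Real.log 2 := by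
  have h1 := CH_le_card hp.nonneg hp.sum_one X W (fun _ => Finset.range (2 ^ n))
    (fun ω _ => Finset.mem_range.2 (h ω))
  refine h1.trans (le_of_eq ?_)
  rw [Ex_const hp.sum_one, Finset.card_range]
  push_cast
  rw [Real.log_pow]

/-- **The digits of the time behind the window are full.** -/
theorem ct_low (F : Fam m J) {q : F.Ω → ℝ} (hq : IsLaw q) {w g : ℕ} (hwg : w + g ≤ J) {e : ℝ}
    (he : (J : ℝ) * Real.log 2 - e ≤ CH q F.T (fun ω => (F.l ω, F.Z ω))) :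
    g * Real.log 2 - e ≤ CH q (tc F w g) (fun ω => (slam F w ω, td F w g ω)) := by
  have h0 := hq.nonneg
  have a1 := CH_le_add h0 F.T (F.T1 w) (fun ω => (F.l ω, F.Z ω))
  have a2 : CH q (F.T1 w) (fun ω => (F.l ω, F.Z ω)) ≤ w * Real.log 2 := by
    refine CH_nat_lt hq _ _ fun ω => ?_
    unfold Fam.T1
    rw [Nat.div_lt_iff_lt_mul (by positivity), ← pow_add]
    have : w + (J - w) = J := by omega
    rw [this]
    exact F.tim ω
  have a3 := CH_le_add h0 F.T (td F w g) (fun ω => (F.T1 w ω, (F.l ω, F.Z ω)))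
  have a4 : CH q (td F w g) (fun ω => (F.T1 w ω, (F.l ω, F.Z ω))) ≤
      ((J - w - g : ℕ) : ℝ) * Real.log 2 := CH_nat_lt hq _ _ (td_lt F w g)
  have a5 : CH q F.T (fun ω => (td F w g ω, (F.T1 w ω, (F.l ω, F.Z ω)))) ≤
      CH q (tc F w g) (fun ω => (slam F w ω, td F w g ω)) := by
    have b1 := CH_le_add h0 F.T (tc F w g) (fun ω => (td F w g ω, (F.T1 w ω, (F.l ω, F.Z ω))))
    have b2 : CH q F.T (fun ω => (tc F w g ω, (td F w g ω, (F.T1 w ω, (F.l ω, F.Z ω))))) = 0 := by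
      refine CH_eq_zero h0 fun ω ω' _ _ h => ?_
      simp only [Prod.mk.injEq] at h
      have c1 := Nat.div_add_mod (F.T ω) (2 ^ (J - w))
      have c2 := Nat.div_add_mod (F.T ω') (2 ^ (J - w))
      rw [tc_split F hwg] at c1 c2
      have c3 : F.T ω / 2 ^ (J - w) = F.T ω' / 2 ^ (J - w) := h.2.2.1
      rw [← c1, ← c2, c3, h.1, h.2.1]
    have b3 : CH q (tc F w g) (fun ω => (td F w g ω, (F.T1 w ω, (F.l ω, F.Z ω)))) ≤
        CH q (tc F w g) (fun ω => (slam F w ω, td F w g ω)) := by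
      refine CH_mono_cond h0 fun ω ω' _ _ h => ?_
      simp only [Prod.mk.injEq, slam] at h ⊢
      tauto
    linarith
  have a6 : ((J - w - g : ℕ) : ℝ) = J - w - g := by
    have : J - w - g = J - (w + g) := by omega
    rw [this, Nat.cast_sub hwg]
    push_cast
    ring
  rw [a6] at a4
  linarith

/-- **The jets of the own path in the relative time.** -/
theorem dv_jet (F : Fam m J) {w : ℕ} (hw : w ≤ J) (G : LnT F → MvPolynomial (Option (Fin m)) ℝ)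
    (k : Fin m) (j : ℕ) (ω : F.Ω) :
    (Polynomial.derivative^[j] (dv w (fun s _ => G s) k (slam F w ω))).eval (rt F w ω) =
      (1 / 2 ^ w) ^ j * ojet F k j (G (slam F w ω)) ω := by
  rw [dv_comp F hw G k ω, der_aff, Polynomial.eval_mul, Polynomial.eval_C, Polynomial.eval_comp,
    Polynomial.eval_mul, Polynomial.eval_C, Polynomial.eval_sub, Polynomial.eval_X,
    Polynomial.eval_C, sub_self, mul_zero]
  rfl

/-- The digits of the jets in the relative time. -/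
theorem fl_jet (F : Fam m J) {w : ℕ} (hw : w ≤ J) (G : LnT F → MvPolynomial (Option (Fin m)) ℝ)
    (k : Fin m) (j : ℕ) (s : ℝ) (ω : F.Ω) :
    ⌊s * ojet F k j (G (slam F w ω)) ω⌋ = ⌊(s * (2 ^ w) ^ j) *
      (Polynomial.derivative^[j] (dv w (fun s _ => G s) k (slam F w ω))).eval (rt F w ω)⌋ := by
  rw [dv_jet F hw G k j ω]
  congr 1
  have : ((2 : ℝ) ^ w) ^ j ≠ 0 := by positivity
  rw [one_div_pow]
  field_simp

/-- **The number of values of the jets over one label.** -/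
theorem jet_cnt (m K j : ℕ) {r N e : ℝ} (hr : 0 ≤ r) (he : 0 < e) : ∃ J₁ : ℕ, ∃ M : ℕ,
    ∀ J ≥ J₁, ∀ (F : Fam m J) (A : F.Ω → Prop) (I : Finset (Fin m)) (k : Fin m) (w P : ℕ)
      (V : Type) (z : PtT F → V) (z' : LnT F → V) (G : V → MvPolynomial (Option (Fin m)) ℝ),
      LbOK F I k K ⌊e * J⌋₊ J w ⌊(r + e) * J⌋₊ P A z z' G →
      (cnt F.p (fun ω => ⌊(2 : ℝ) ^ (N * J) * ojet F k j (G (z' (slam F w ω))) ω⌋) A : ℝ) ≤
        Real.exp (M * J) := by
  obtain ⟨C, hC, hbig⟩ := ojet_big m K j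
  have hC0 : 0 < C := by linarith
  have hl2 : 0 < Real.log 2 := Real.log_pos one_lt_two
  obtain ⟨B, hB⟩ : ∃ B : ℝ, B = |N| + e + j * (r + e) := ⟨_, rfl⟩
  have hB0 : 0 ≤ B := by
    rw [hB]
    positivity
  obtain ⟨M, hM⟩ : ∃ M : ℕ, M = ⌈B * Real.log 2 + 1⌉₊ := ⟨_, rfl⟩
  have hM1 : B * Real.log 2 + 1 ≤ M := by
    rw [hM]
    exact Nat.le_ceil _
  obtain ⟨J₁, hJ₁⟩ := exists_nat_ge (Real.log (2 * (C + 1) + 1))
  refine ⟨J₁, M, ?_⟩
  intro J hJ F A I k w P V z z' G hlb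
  have hJ0 : (0 : ℝ) ≤ J := Nat.cast_nonneg J
  have hJ1 : (J₁ : ℝ) ≤ J := by exact_mod_cast hJ
  have b1 : (1 : ℝ) ≤ 2 ^ (B * J) := by
    rw [← exp_p2]
    exact Real.one_le_exp (by positivity)
  have h1 := cnt_le_of_abs (p := F.p) (u := fun ω => ⌊(2 : ℝ) ^ (N * J) *
    ojet F k j (G (z' (slam F w ω))) ω⌋) (A := A) (B := (C + 1) * 2 ^ (B * J))
    (by positivity) (by
      intro ω hω
      have h2 := hbig J F I k _ _ _ _ A V z z' G hlb ω hω
      obtain ⟨o, ho⟩ : ∃ o, o = ojet F k j (G (z' (slam F w ω))) ω := ⟨_, rfl⟩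
      rw [← ho] at h2 ⊢
      have h3 : |(2 : ℝ) ^ (N * J) * o| ≤ C * 2 ^ (B * J) := by
        rw [abs_mul, abs_of_pos (by positivity)]
        have a2 : (2 : ℝ) ^ ⌊e * J⌋₊ ≤ 2 ^ (e * J) := p2_le (by positivity)
        have a3 : ((2 : ℝ) ^ ⌊(r + e) * J⌋₊) ^ j ≤ 2 ^ (j * ((r + e) * J)) := by
          refine (pow_le_pow_left₀ (by positivity) (p2_le (by positivity)) j).trans (le_of_eq ?_)
          rw [← Real.rpow_natCast, ← Real.rpow_mul (by norm_num)]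
          congr 1
          ring
        have b3 : (0 : ℝ) < 2 ^ (N * J) := Real.rpow_pos_of_pos (by norm_num) _
        have b4 : (0 : ℝ) < 2 ^ (e * J) := Real.rpow_pos_of_pos (by norm_num) _
        have b5 : (0 : ℝ) < 2 ^ (j * ((r + e) * J)) := Real.rpow_pos_of_pos (by norm_num) _
        calc (2 : ℝ) ^ (N * J) * |o| ≤ 2 ^ (N * J) * (C * 2 ^ (e * J) *
              2 ^ (j * ((r + e) * J))) := by
              refine mul_le_mul_of_nonneg_left (h2.trans ?_) b3.le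
              exact mul_le_mul (mul_le_mul_of_nonneg_left a2 hC0.le) a3 (by positivity)
                (by positivity)
          _ = C * (2 ^ (N * J) * 2 ^ (e * J) * 2 ^ (j * ((r + e) * J))) := by ring
          _ ≤ C * 2 ^ (B * J) := by
              rw [← Real.rpow_add (by norm_num), ← Real.rpow_add (by norm_num)]
              refine mul_le_mul_of_nonneg_left ?_ hC0.le
              refine Real.rpow_le_rpow_of_exponent_le (by norm_num) ?_
              have := mul_le_mul_of_nonneg_right (le_abs_self N) hJ0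
              rw [hB]
              linarith
      have h4 := Int.floor_le ((2 : ℝ) ^ (N * J) * o)
      have h5 := Int.lt_floor_add_one ((2 : ℝ) ^ (N * J) * o)
      have h6 := abs_le.1 h3
      rw [abs_le]
      constructor <;> nlinarith [h6.1, h6.2])
  refine h1.trans ?_
  have h2 : 2 * ((C + 1) * 2 ^ (B * J)) + 1 ≤ (2 * (C + 1) + 1) * 2 ^ (B * J) := by linarith
  refine h2.trans ?_
  rw [← exp_p2]
  calc (2 * (C + 1) + 1) * Real.exp (B * J * Real.log 2)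
      = Real.exp (Real.log (2 * (C + 1) + 1)) * Real.exp (B * J * Real.log 2) := by
        rw [Real.exp_log (by positivity)]
    _ = Real.exp (Real.log (2 * (C + 1) + 1) + B * J * Real.log 2) := (Real.exp_add _ _).symm
    _ ≤ Real.exp (M * J) := by
        refine Real.exp_le_exp.2 ?_
        have := mul_le_mul_of_nonneg_right hM1 hJ0
        nlinarith [hJ₁.trans hJ1]

/-! ### The line over `I` -/

/-- The position over `I` at the beginning of the window, to `n` digits. -/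
noncomputable def xz (F : Fam m J) (I : Finset (Fin m)) (w n : ℕ) (ω : F.Ω) : Fin m → ℤ :=
  fun i => if i ∈ I then ⌊(2 : ℝ) ^ n * F.x1 w ω i⌋ else 0

/-- `F.x` and `F.x1`. -/
theorem x_x1 (F : Fam m J) {w : ℕ} (hw : w ≤ J) (ω : F.Ω) (i : Fin m) :
    F.x ω i = F.x1 w ω i + rt F w ω / 2 ^ w * F.d ω i := by
  have h := t_rt F hw ω
  have h2 : ((slam F w ω).2.2 : ℝ) = (F.T1 w ω : ℝ) := rfl
  rw [h2] at h
  unfold Fam.x Fam.x1
  rw [h]
  ring

/-- **The position over `I`** at the time of the sample, from the position at the beginning of the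
window, the direction and the time. -/
theorem vline1 (F : Fam m J) {q : F.Ω → ℝ} (hq : IsLaw q) (I : Finset (Fin m)) {w n l : ℕ}
    (hw : w ≤ J) (hn : n ≤ w + l + 1) {𝓔 : Type} (E : F.Ω → 𝓔)
    (hE : ∃ φ : 𝓔 → (Fin m → ℤ) × (Fin m → ℤ) × ℝ, ∀ ω, φ (E ω) = (xz F I w n ω,
      (fun i => if i ∈ I then F.D l ω i else 0), rt F w ω)) :
    CH q (fun ω i => if i ∈ I then F.X n ω i else 0) E ≤ m * Real.log (2 * 4 + 1) := by
  obtain ⟨φ, hφ⟩ := hE
  refine CH_vec hq.nonneg E m _ fun i => ?_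
  by_cases hi : i ∈ I
  · simp only [if_pos hi]
    refine CH_int hq _ E (fun x => ((φ x).1 i : ℝ) +
      (2 : ℝ) ^ n / (2 ^ w * 2 ^ l) * ((φ x).2.2 * (φ x).2.1 i)) (by norm_num) ?_
    intro ω _
    rw [hφ ω]
    simp only [xz, if_pos hi]
    have h1 : (F.X n ω i : ℝ) = (⌊(2 : ℝ) ^ n * F.x ω i⌋ : ℝ) := rfl
    have h2 : (F.D l ω i : ℝ) = (⌊(2 : ℝ) ^ l * F.d ω i⌋ : ℝ) := rfl
    rw [h1, h2]
    have h3 := fl_abs ((2 : ℝ) ^ n * F.x ω i)
    have h4 := fl_abs ((2 : ℝ) ^ n * F.x1 w ω i)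
    have h5 := fl_abs ((2 : ℝ) ^ l * F.d ω i)
    obtain ⟨r0, r1⟩ := rt_mem F w ω
    have h6 := x_x1 F hw ω i
    obtain ⟨a, ha⟩ : ∃ a : ℝ, a = (2 : ℝ) ^ n / (2 ^ w * 2 ^ l) := ⟨_, rfl⟩
    have ha0 : 0 ≤ a := by rw [ha]; positivity
    have ha2 : a ≤ 2 := by
      rw [ha, div_le_iff₀ (by positivity), ← pow_add]
      calc (2 : ℝ) ^ n ≤ 2 ^ (w + l + 1) := pow_le_pow_right₀ (by norm_num) hn
        _ = 2 * 2 ^ (w + l) := by ring
    have e1 : (⌊(2 : ℝ) ^ n * F.x ω i⌋ : ℝ) - ((⌊(2 : ℝ) ^ n * F.x1 w ω i⌋ : ℝ) +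
        a * (rt F w ω * ⌊(2 : ℝ) ^ l * F.d ω i⌋)) =
        -((2 : ℝ) ^ n * F.x ω i - ⌊(2 : ℝ) ^ n * F.x ω i⌋) +
        ((2 : ℝ) ^ n * F.x1 w ω i - ⌊(2 : ℝ) ^ n * F.x1 w ω i⌋) +
        a * rt F w ω * ((2 : ℝ) ^ l * F.d ω i - ⌊(2 : ℝ) ^ l * F.d ω i⌋) := by
      have e2 : a * rt F w ω * ((2 : ℝ) ^ l * F.d ω i) =
          2 ^ n * (rt F w ω / 2 ^ w * F.d ω i) := by
        rw [ha]
        field_simp
      rw [mul_sub, e2, h6]
      ring
    rw [← ha, e1]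
    have h7 : |a * rt F w ω * ((2 : ℝ) ^ l * F.d ω i - ⌊(2 : ℝ) ^ l * F.d ω i⌋)| ≤ 2 := by
      rw [abs_mul, abs_of_nonneg (mul_nonneg ha0 r0)]
      have : a * rt F w ω ≤ 2 * 1 := mul_le_mul ha2 r1 r0 (by norm_num)
      have h8 := mul_nonneg ha0 r0
      nlinarith [abs_nonneg ((2 : ℝ) ^ l * F.d ω i - ⌊(2 : ℝ) ^ l * F.d ω i⌋)]
    rw [abs_le] at h3 h4 h7 ⊢
    constructor <;> linarith [h3.1, h3.2, h4.1, h4.2, h7.1, h7.2]
  · simp only [if_neg hi]
    rw [CH_eq_zero hq.nonneg (fun _ _ _ _ _ => rfl)]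
    exact Real.log_nonneg (by norm_num)

/-- **The position over `I`** at the beginning of the window, from the position at the time of the
sample, the direction and the time. -/
theorem vline2 (F : Fam m J) {q : F.Ω → ℝ} (hq : IsLaw q) (I : Finset (Fin m)) {w n l : ℕ}
    (hw : w ≤ J) (hn : n ≤ w + l + 1) {𝓔 : Type} (E : F.Ω → 𝓔)
    (hE : ∃ φ : 𝓔 → (Fin m → ℤ) × (Fin m → ℤ) × ℝ, ∀ ω, φ (E ω) =
      ((fun i => if i ∈ I then F.X n ω i else 0),
      (fun i => if i ∈ I then F.D l ω i else 0), rt F w ω)) :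
    CH q (xz F I w n) E ≤ m * Real.log (2 * 4 + 1) := by
  obtain ⟨φ, hφ⟩ := hE
  refine CH_vec hq.nonneg E m _ fun i => ?_
  by_cases hi : i ∈ I
  · simp only [xz, if_pos hi]
    refine CH_int hq _ E (fun x => ((φ x).1 i : ℝ) -
      (2 : ℝ) ^ n / (2 ^ w * 2 ^ l) * ((φ x).2.2 * (φ x).2.1 i)) (by norm_num) ?_
    intro ω _
    rw [hφ ω]
    simp only [if_pos hi]
    have h1 : (F.X n ω i : ℝ) = (⌊(2 : ℝ) ^ n * F.x ω i⌋ : ℝ) := rfl
    have h2 : (F.D l ω i : ℝ) = (⌊(2 : ℝ) ^ l * F.d ω i⌋ : ℝ) := rfl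
    rw [h1, h2]
    have h3 := fl_abs ((2 : ℝ) ^ n * F.x ω i)
    have h4 := fl_abs ((2 : ℝ) ^ n * F.x1 w ω i)
    have h5 := fl_abs ((2 : ℝ) ^ l * F.d ω i)
    obtain ⟨r0, r1⟩ := rt_mem F w ω
    have h6 := x_x1 F hw ω i
    obtain ⟨a, ha⟩ : ∃ a : ℝ, a = (2 : ℝ) ^ n / (2 ^ w * 2 ^ l) := ⟨_, rfl⟩
    have ha0 : 0 ≤ a := by rw [ha]; positivity
    have ha2 : a ≤ 2 := by
      rw [ha, div_le_iff₀ (by positivity), ← pow_add]
      calc (2 : ℝ) ^ n ≤ 2 ^ (w + l + 1) := pow_le_pow_right₀ (by norm_num) hn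
        _ = 2 * 2 ^ (w + l) := by ring
    have e1 : (⌊(2 : ℝ) ^ n * F.x1 w ω i⌋ : ℝ) - ((⌊(2 : ℝ) ^ n * F.x ω i⌋ : ℝ) -
        a * (rt F w ω * ⌊(2 : ℝ) ^ l * F.d ω i⌋)) =
        ((2 : ℝ) ^ n * F.x ω i - ⌊(2 : ℝ) ^ n * F.x ω i⌋) -
        ((2 : ℝ) ^ n * F.x1 w ω i - ⌊(2 : ℝ) ^ n * F.x1 w ω i⌋) -
        a * rt F w ω * ((2 : ℝ) ^ l * F.d ω i - ⌊(2 : ℝ) ^ l * F.d ω i⌋) := by
      have e2 : a * rt F w ω * ((2 : ℝ) ^ l * F.d ω i) =
          2 ^ n * (rt F w ω / 2 ^ w * F.d ω i) := by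
        rw [ha]
        field_simp
      rw [mul_sub, e2, h6]
      ring
    rw [← ha, e1]
    have h7 : |a * rt F w ω * ((2 : ℝ) ^ l * F.d ω i - ⌊(2 : ℝ) ^ l * F.d ω i⌋)| ≤ 2 := by
      rw [abs_mul, abs_of_nonneg (mul_nonneg ha0 r0)]
      have : a * rt F w ω ≤ 2 * 1 := mul_le_mul ha2 r1 r0 (by norm_num)
      have h8 := mul_nonneg ha0 r0
      nlinarith [abs_nonneg ((2 : ℝ) ^ l * F.d ω i - ⌊(2 : ℝ) ^ l * F.d ω i⌋)]
    rw [abs_le] at h3 h4 h7 ⊢
    constructor <;> linarith [h3.1, h3.2, h4.1, h4.2, h7.1, h7.2]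
  · simp only [xz, if_neg hi]
    rw [CH_eq_zero hq.nonneg (fun _ _ _ _ _ => rfl)]
    exact Real.log_nonneg (by norm_num)

end Pool.OWN83
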