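import Pool.Agent.H83.OWN.AddR
import Pool.Agent.H83.OWN.Fdl
import Pool.Agent.H91.LA.TwoJ
import Pool.Agent.H68.OWN.Jcl

/-!
# One label and its jets in a class

`lab_cls`: one label with the digits of finitely many jets. `JetR`: the jets of order at least `2`
are few bits given `Q₀`, a closed function and `y`, and `Q₀` is few bits given the second jet.
`jets_cls`: all these jets together are few bits given the record, on large events.
-/

set_option autoImplicit false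

namespace Pool.OWN83

open Finset Real MvPolynomial
open Pool.Agent.H49.Ent Pool.Agent.H32.Dense Pool.STK Pool.KA Pool.KSAT Pool.K2S Pool.PB Pool.GEN
open Pool.S6C Pool.RCD Pool.LA91
open Pool.OWN68 (F1)
open Pool.GRD (LbP)

variable {m : ℕ} {S : PCl m}

/-- An event of the class. -/
theorem bas_ex {Φ : Stat m} (hS : S.Ne) (h : Bas S Φ) (J₂ : ℕ) :
    ∃ J ≥ J₂, ∃ (F : Fam m J) (A : F.Ω → Prop), Φ J F A := by
  obtain ⟨τ, hτ, J₁, h⟩ := h
  obtain ⟨J, hJ, F, A, hA⟩ := hS τ hτ (max J₁ J₂)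
  exact ⟨J, (le_max_right _ _).trans hJ, F, A, h J ((le_max_left _ _).trans hJ) F A hA⟩

/-- **One label and the digits of finitely many jets.** -/
theorem lab_cls {I : Finset (Fin m)} {k : Fin m} {w p r e : ℝ} (hr : 0 ≤ r) (he : 0 < e)
    (h : Att S I k w p r) : ∃ K : ℕ, 1 ≤ K ∧ ∀ T : Finset (ℕ × ℝ), ∃ M : ℕ,
      Bas S (fun J F A =>
      ∃ (V : Type) (z : PtT F → V) (z' : LnT F → V) (G : V → MvPolynomial (Option (Fin m)) ℝ),
        LbOK F I k K ⌊e * J⌋₊ J ⌊w * J⌋₊ ⌊(r + e) * J⌋₊ ⌊(p - e) * J⌋₊ A z z' G ∧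
        ∀ t ∈ T, (qJet m I k t.1 w p t.2).P M e J F A (fun ω => ⌊(2 : ℝ) ^ (t.2 * J) *
          ojet F k t.1 (G (z' (slam F ⌊w * J⌋₊ ω))) ω⌋)) := by
  obtain ⟨K₀, hK₀⟩ := h e he
  obtain ⟨K, hKe⟩ : ∃ K : ℕ, K = K₀ + 1 := ⟨_, rfl⟩
  have hK : Bas S (fun J F A => Lb F I k K ⌊e * J⌋₊ J ⌊w * J⌋₊ ⌊(r + e) * J⌋₊
      ⌊(p - e) * J⌋₊ A) := by
    refine Bas.mono 0 hK₀ ?_
    rintro J - F A ⟨V, z, z', G, h1⟩
    exact ⟨V, z, z', G, h1.mono (Finset.Subset.refl _) (by omega) le_rfl le_rfl le_rfl⟩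
  refine ⟨K, by omega, fun T => ?_⟩
  choose J₁ M₁ hcnt using fun t : ℕ × ℝ => jet_cnt m K t.1 (N := t.2) hr he
  refine ⟨K + ∑ t ∈ T, M₁ t, Bas.mono (∑ t ∈ T, J₁ t) hK ?_⟩
  rintro J hJ F A ⟨V, z, z', G, hlb⟩
  refine ⟨V, z, z', G, hlb, fun t ht => ⟨?_, V, z, z', G, ?_, fun ω _ => rfl⟩⟩
  · have h1 : J₁ t ≤ J := (Finset.single_le_sum (f := J₁) (fun _ _ => Nat.zero_le _) ht).trans hJ
    refine (hcnt t J h1 F A I k _ _ V z z' G hlb).trans (Real.exp_le_exp.2 ?_)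
    refine mul_le_mul_of_nonneg_right ?_ (Nat.cast_nonneg J)
    have h2 : M₁ t ≤ ∑ t ∈ T, M₁ t :=
      Finset.single_le_sum (f := M₁) (fun _ _ => Nat.zero_le _) ht
    exact_mod_cast h2.trans (Nat.le_add_left _ _)
  · exact (LbP.of hlb).mono (Finset.Subset.refl _) (Nat.le_add_right _ _) le_rfl

/-- Finitely many quantities exist at once. -/
theorem exs_fin {ι U : Type} [Finite ι] {Q : ι → Qt m U} {P : ι → Prop}
    (hpos : ∀ (τ : ℝ) (J : ℕ) (F : Fam m J) (A : F.Ω → Prop), S.St τ J F A → 0 < Pe F.p A)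
    (h : ∀ i, P i → Exs S (Q i)) {e : ℝ} (he : 0 < e) :
    ∃ K : ℕ, Bas S (fun J F A => ∀ i, P i → ∃ u, (Q i).P K e J F A u) := by
  classical
  have h1 : ∀ i, ∃ K : ℕ, Bas S (fun J F A => P i → ∃ u, (Q i).P K e J F A u) := by
    intro i
    by_cases hi : P i
    · obtain ⟨K, M, hK⟩ := h i hi e he
      refine ⟨K, Bas.mono 0 hK ?_⟩
      rintro J - F A ⟨u, hu, -⟩ -
      exact ⟨u, hu⟩
    · exact ⟨0, Bas.mono 0 (pos_bas hpos) fun _ _ _ _ _ h2 => absurd h2 hi⟩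
  choose K hK using h1
  obtain ⟨K', hK'⟩ : ∃ K' : ℕ, ∀ i, K i ≤ K' := by
    rcases isEmpty_or_nonempty ι with h | h
    · exact ⟨0, fun i => (h.false i).elim⟩
    · obtain ⟨i₀, hi₀⟩ := Finite.exists_max K
      exact ⟨K i₀, hi₀⟩
  refine ⟨K', Bas.mono 0 (Bas.fin' hK) ?_⟩
  intro J _ F A h2 i hi
  obtain ⟨u, hu⟩ := h2 i hi
  exact ⟨u, (Q i).mono (hK' i) le_rfl hu⟩

section rel

variable {U₀ U U' : Type} {α β γ : ∀ J : ℕ, Fam m J → Type}
  {f : ∀ (J : ℕ) (F : Fam m J), F.Ω → α J F} {g : ∀ (J : ℕ) (F : Fam m J), F.Ω → β J F}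
  {y : ∀ (J : ℕ) (F : Fam m J), F.Ω → γ J F}

/-- Few bits given the record. -/
theorem f1_mx
    (hpos : ∀ (τ : ℝ) (J : ℕ) (F : Fam m J) (A : F.Ω → Prop), S.St τ J F A → 0 < Pe F.p A)
    {Q : Qt m U} {Q' : Qt m U'} {e η : ℝ} (h : F1 S f g y Q Q' e η) (K : ℕ) :
    Bas S (fun J F A => ∀ (V : Type) (z : F.Ω → V) (k : ℝ), Mx f g k F A z → ∀ u u',
      Q.P K e J F A u → Q'.P K e J F A u' →
      CH (Pool.Agent.H49.Ent.cond F.p A True) u' (fun ω => (u ω, (z ω, y J F ω))) ≤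
        (η + k) * J) := by
  refine Bas.mono 0 ((h K).and (pos_bas hpos)) ?_
  rintro J - F A ⟨H, hA⟩ V z k hz u u' hu hu'
  have hcl := isLaw_cond F.isLaw hA
  obtain ⟨V₁, z₁, hz₁, h1⟩ := H u u' hu hu'
  have h2 := hz.2 V₁ z₁ hz₁
  have h3 := CH_le_add hcl.nonneg u' z₁ (fun ω => (u ω, (z ω, y J F ω)))
  have h4 : CH (Pool.Agent.H49.Ent.cond F.p A True) z₁ (fun ω => (u ω, (z ω, y J F ω))) ≤
      CH (Pool.Agent.H49.Ent.cond F.p A True) z₁ z :=
    CH_mono_cond hcl.nonneg fun _ _ _ _ hh => by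
      simp only [Prod.mk.injEq] at hh
      exact hh.2.1
  have h5 : CH (Pool.Agent.H49.Ent.cond F.p A True) u'
      (fun ω => (z₁ ω, (u ω, (z ω, y J F ω)))) ≤
      CH (Pool.Agent.H49.Ent.cond F.p A True) u' (fun ω => (u ω, (z₁ ω, y J F ω))) :=
    CH_mono_cond hcl.nonneg fun _ _ _ _ hh => by
      simp only [Prod.mk.injEq] at hh ⊢
      exact ⟨hh.2.1, hh.1, hh.2.2.2⟩
  linarith

/-- **The jets of order at least `2`** over the labels of the window `w`, to the precision `Pm`, are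
few bits given `Q₀`, a closed function and `y`; `Q₀` is few bits given the second jet. -/
def JetR (S : PCl m) (f : ∀ (J : ℕ) (F : Fam m J), F.Ω → α J F)
    (g : ∀ (J : ℕ) (F : Fam m J), F.Ω → β J F) (y : ∀ (J : ℕ) (F : Fam m J), F.Ω → γ J F)
    (Q₀ : Qt m U₀) (I : Finset (Fin m)) (k : Fin m) (w p Pm δ : ℝ) : Prop :=
  (∃ (j₀ : ℕ) (η : ℕ → ℝ) (e : ℝ), 0 < e ∧ (∀ j, 0 ≤ η j) ∧ ∑ j ∈ range j₀, η j ≤ δ ∧
    (∀ j < j₀, 2 ≤ j → F1 S f g y Q₀ (qJet m I k j w p (Pm - j * w)) e (η j)) ∧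
    ∀ j ≥ j₀, 2 ≤ j → ∀ h : ℝ, 0 < h →
      F1 S f g y Q₀ (qJet m I k j w p (Pm - j * w)) e h) ∧
  ∃ e : ℝ, 0 < e ∧ F1 S f g y (qJet m I k 2 w p (Pm - (2 : ℕ) * w)) Q₀ e δ

/-- The entropy of a vector. -/
theorem ch_vecs {Ω γ : Type} [Fintype Ω] {p : Ω → ℝ} (hp : ∀ ω, 0 ≤ p ω) (W : Ω → γ) :
    ∀ (n : ℕ) (X : Ω → Fin n → ℤ) (c : Fin n → ℝ), (∀ i, CH p (fun ω => X ω i) W ≤ c i) →
      CH p X W ≤ ∑ i, c i := by
  intro n
  induction n with
  | zero =>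
    intro X c _
    rw [CH_eq_zero hp (fun ω ω' _ _ _ => funext fun i => Fin.elim0 i)]
    simp
  | succ n ih =>
    intro X c hX
    have h1 := CH_subadd hp (fun ω => X ω 0) (fun ω (i : Fin n) => X ω i.succ) W
    have h2 := ih (fun ω i => X ω i.succ) (fun i => c i.succ) (fun i => hX i.succ)
    have h3 := hX 0
    have h4 : CH p X W ≤ CH p (fun ω => (X ω 0, fun i : Fin n => X ω i.succ)) W := by
      refine CH_mono_left hp fun ω ω' _ _ e => ?_
      have e1 := (Prod.ext_iff.mp e).1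
      funext i
      refine Fin.cases ?_ (fun j => ?_) i
      · exact (Prod.ext_iff.mp e1).1
      · exact congrFun (Prod.ext_iff.mp e1).2 j
    rw [Fin.sum_univ_succ]
    linarith

/-- **All the jets of order at least `2`** are few bits given the record. -/
theorem jets_cls
    (hpos : ∀ (τ : ℝ) (J : ℕ) (F : Fam m J) (A : F.Ω → Prop), S.St τ J F A → 0 < Pe F.p A)
    {Q₀ : Qt m U₀} {I : Finset (Fin m)} {k : Fin m} {w p Pm δ : ℝ} (hδ : 0 < δ)
    (h : JetR S f g y Q₀ I k w p Pm δ) : ∃ e₀ : ℝ, 0 < e₀ ∧ ∀ D : ℕ, ∃ k₀ : ℝ, 0 < k₀ ∧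
      ∀ M : ℕ, Bas S (fun J F A => ∀ (V : Type) (z : F.Ω → V), Mx f g k₀ F A z → ∀ u₀,
        Q₀.P M e₀ J F A u₀ → ∀ H : ℕ → F.Ω → ℤ,
        (∀ j, 2 ≤ j → j ≤ D → (qJet m I k j w p (Pm - j * w)).P M e₀ J F A (H j)) →
        CH (Pool.Agent.H49.Ent.cond F.p A True)
          (fun ω (j : Fin (D + 1)) => if 2 ≤ (j : ℕ) then H j ω else 0)
          (fun ω => (z ω, (u₀ ω, y J F ω))) ≤ 3 * δ * J ∧
        (2 ≤ D → CH (Pool.Agent.H49.Ent.cond F.p A True) u₀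
          (fun ω => (H 2 ω, (z ω, y J F ω))) ≤ 3 * δ * J)) := by
  classical
  obtain ⟨⟨j₀, η, e₁, he₁, hη, hsη, hj1, hj2⟩, e₂, he₂, hu⟩ := h
  refine ⟨min e₁ e₂, lt_min he₁ he₂, fun D => ?_⟩
  obtain ⟨c, hc⟩ : ∃ c : ℝ, c = δ / (D + 1) := ⟨_, rfl⟩
  have hD0 : (0 : ℝ) < D + 1 := by positivity
  have hc0 : 0 < c := by rw [hc]; positivity
  have hc1 : (D + 1) * c = δ := by rw [hc]; field_simp
  refine ⟨c, hc0, fun M => ?_⟩
  obtain ⟨er, her⟩ : ∃ er : ℕ → ℝ, er = fun j => if j < j₀ then η j else c := ⟨_, rfl⟩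
  have hF : ∀ i : Fin (D + 1), Bas S (fun J F A => 2 ≤ (i : ℕ) → ∀ (V : Type) (z : F.Ω → V)
      (k' : ℝ), Mx f g k' F A z → ∀ u u', Q₀.P M e₁ J F A u →
      (qJet m I k (i : ℕ) w p (Pm - (i : ℕ) * w)).P M e₁ J F A u' →
      CH (Pool.Agent.H49.Ent.cond F.p A True) u' (fun ω => (u ω, (z ω, y J F ω))) ≤
        (er i + k') * J) := by
    intro i
    by_cases hi : 2 ≤ (i : ℕ)
    · refine Bas.mono 0 (f1_mx hpos (η := er i) ?_ M) fun J _ F A h1 _ => h1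
      rw [her]
      dsimp only
      by_cases h2 : (i : ℕ) < j₀
      · rw [if_pos h2]
        exact hj1 _ h2 hi
      · rw [if_neg h2]
        exact hj2 _ (by omega) hi c hc0
    · exact Bas.mono 0 (pos_bas hpos) fun _ _ _ _ _ h2 => absurd h2 hi
  refine Bas.mono 0 (((Bas.fin' hF).and (f1_mx hpos hu M)).and (pos_bas hpos)) ?_
  rintro J - F A ⟨⟨H1, H2⟩, hA⟩ V z hz u₀ hu₀ H hH
  have hcl := isLaw_cond F.isLaw hA
  have hJ0 : (0 : ℝ) ≤ J := Nat.cast_nonneg J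
  constructor
  · refine (ch_vecs hcl.nonneg _ (D + 1) _ (fun i => (if (i : ℕ) < j₀ then η i else 0) * J +
      2 * c * J) fun i => ?_).trans ?_
    · by_cases hi : 2 ≤ (i : ℕ)
      · simp only [if_pos hi]
        have h1 := H1 i hi V z c hz u₀ (H i) (Q₀.mono le_rfl (min_le_left _ _) hu₀)
          ((qJet m I k (i : ℕ) w p (Pm - (i : ℕ) * w)).mono le_rfl (min_le_left _ _)
            (hH i hi (by omega)))
        have h2 : CH (Pool.Agent.H49.Ent.cond F.p A True) (fun ω => H i ω)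
            (fun ω => (z ω, (u₀ ω, y J F ω))) = CH (Pool.Agent.H49.Ent.cond F.p A True) (H i)
            (fun ω => (u₀ ω, (z ω, y J F ω))) := by
          refine CH_congr hcl.nonneg ?_ ?_ ?_ ?_ <;>
          · intro ω ω' _ _ hh
            simp only [Prod.mk.injEq] at hh ⊢
            tauto
        rw [h2]
        refine h1.trans ?_
        rw [← add_mul]
        refine mul_le_mul_of_nonneg_right ?_ hJ0
        rw [her]
        dsimp only
        split_ifs <;> linarith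
      · simp only [if_neg hi]
        rw [CH_eq_zero hcl.nonneg (fun _ _ _ _ _ => rfl)]
        have : 0 ≤ (if (i : ℕ) < j₀ then η i else 0) := by
          split_ifs
          · exact hη _
          · exact le_rfl
        positivity
    · rw [Finset.sum_add_distrib, ← Finset.sum_mul, Finset.sum_const, Finset.card_univ,
        Fintype.card_fin, nsmul_eq_mul]
      have h3 : ∑ i : Fin (D + 1), (if (i : ℕ) < j₀ then η i else 0) ≤ δ := by
        rw [Fin.sum_univ_eq_sum_range (fun i => if i < j₀ then η i else 0) (D + 1)]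
        refine le_trans ?_ hsη
        rw [← Finset.sum_filter]
        refine Finset.sum_le_sum_of_subset_of_nonneg (fun j hj => ?_) fun j _ _ => hη j
        rw [Finset.mem_filter] at hj
        exact Finset.mem_range.2 hj.2
      have h4 := mul_le_mul_of_nonneg_right h3 hJ0
      have h5 : ((D + 1 : ℕ) : ℝ) * (2 * c * J) = 2 * δ * J := by
        push_cast
        rw [← hc1]
        ring
      rw [h5]
      linarith
  · intro hD
    have h1 := H2 V z c hz (H 2) u₀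
      ((qJet m I k 2 w p (Pm - (2 : ℕ) * w)).mono le_rfl (min_le_right _ _) (hH 2 le_rfl hD))
      (Q₀.mono le_rfl (min_le_right _ _) hu₀)
    have h2 : c ≤ δ := by
      have h3 : (0 : ℝ) ≤ D := Nat.cast_nonneg D
      nlinarith
    have h3 := mul_le_mul_of_nonneg_right h2 hJ0
    have h4 : 0 ≤ δ * J := by positivity
    linarith

end rel

end Pool.OWN83
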