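import Pool.Agent.H83.OWN.Nr
import Pool.Agent.H17.COR.Numl

/-!
# The numbers of a law from the numbers of a class

`fr_cls`: a quantity whose numbers at two windows are nearly equal is independent of the record of
the deeper window. `nump_cls`: the structure `NumP` (helper17) on all large parts of an event.
-/

set_option autoImplicit false

namespace Pool.OWN83

open Finset Real
open Pool.Agent.H49.Ent Pool.Agent.H32.Dense Pool.STK Pool.KA Pool.KSAT Pool.K2S Pool.PB Pool.S6C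
  Pool.GEN Pool.RCD Pool.LA91
open Pool.OWN17 (NumP)

variable {m : ℕ} {U₁ U₂ U₃ : Type} {α β γ δ : ∀ J : ℕ, Fam m J → Type}
  {f : ∀ (J : ℕ) (F : Fam m J), F.Ω → α J F} {y : ∀ (J : ℕ) (F : Fam m J), F.Ω → γ J F}
  {v₀ : ∀ (J : ℕ) (F : Fam m J), F.Ω → δ J F} {S : PCl m}

/-- **Independence of the deeper record**, from the numbers at two windows. -/
theorem fr_cls
    (hpos : ∀ (τ : ℝ) (J : ℕ) (F : Fam m J) (A : F.Ω → Prop), S.St τ J F A → 0 < Pe F.p A)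
    {QE : Qt m U₃} {xa xb ηa ηb θa θb : ℝ} (ra : RNum S f (vg xa) ηa)
    (rb : RNum S f (vg xb) ηb) (na : NN S f (vg xa) v₀ QE θa) (nb : NN S f (vg xb) v₀ QE θb)
    {c₀ : ℝ} (hc₀ : 0 < c₀) {e : ℝ} (he : 0 < e) :
    ∃ k : ℝ, 0 < k ∧ ∃ e₀ : ℝ, 0 < e₀ ∧ ∀ K : ℕ, Bas S (fun J F A' =>
      ∀ (V V' : Type) (z : F.Ω → V) (zb : F.Ω → V'), Mx f (vg xa) k F A' z →
      Mx f (vg xb) k F A' zb → ∀ el, QE.P K e₀ J F A' el →
      ∀ B' : F.Ω → Prop, Sub B' A' → c₀ * Pe F.p A' ≤ Pe F.p B' →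
      ∀ (𝒮 𝒵 𝒯 : Type) (cs : F.Ω → 𝒮) (z' : F.Ω → 𝒵) (t : F.Ω → 𝒯),
      CH (Pool.Agent.H49.Ent.cond F.p B' True) (fun ω => (z ω, v₀ J F ω))
        (fun ω => (cs ω, t ω)) ≤ e * J →
      CH (Pool.Agent.H49.Ent.cond F.p B' True) (fun ω => (z' ω, (cs ω, t ω)))
        (fun ω => (zb ω, v₀ J F ω)) ≤ e * J →
      CH (Pool.Agent.H49.Ent.cond F.p B' True) el (fun ω => (cs ω, t ω)) -
        CH (Pool.Agent.H49.Ent.cond F.p B' True) el (fun ω => (z' ω, (cs ω, t ω))) ≤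
        (θa - θb + 4 * e) * J) := by
  obtain ⟨k1, hk1, e1, he1, H1⟩ := ev_two hpos ra na hc₀ e he
  obtain ⟨k2, hk2, e2, he2, H2⟩ := ev_two hpos rb nb hc₀ e he
  refine ⟨min k1 k2, lt_min hk1 hk2, min e1 e2, lt_min he1 he2, fun K => ?_⟩
  refine Bas.mono 0 (((H1 K).and (H2 K)).and (pos_bas hpos)) ?_
  rintro J - F A' ⟨⟨H1, H2⟩, hA'⟩ V V' z zb hz hzb el hel B' hB' hBA 𝒮 𝒵 𝒯 cs z' t h1 h2
  have hBp : 0 < Pe F.p B' := lt_of_lt_of_le (mul_pos hc₀ hA') hBA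
  have h0 := (isLaw_cond F.isLaw hBp).nonneg
  have a1 := abs_le.1 (H1 V z (hz.le' (min_le_left _ _)) el
    (QE.mono le_rfl (min_le_left _ _) hel) B' hB' hBA)
  have a2 := abs_le.1 (H2 V' zb (hzb.le' (min_le_right _ _)) el
    (QE.mono le_rfl (min_le_right _ _) hel) B' hB' hBA)
  have b1 := CH_le_add h0 el (fun ω => (z ω, v₀ J F ω)) (fun ω => (cs ω, t ω))
  have b2 : CH (Pool.Agent.H49.Ent.cond F.p B' True) el
      (fun ω => ((z ω, v₀ J F ω), (cs ω, t ω))) ≤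
      CH (Pool.Agent.H49.Ent.cond F.p B' True) el (fun ω => (z ω, v₀ J F ω)) :=
    CH_mono_cond h0 fun _ _ _ _ hh => (Prod.ext_iff.mp hh).1
  have b3 := CH_le_add h0 el (fun ω => (z' ω, (cs ω, t ω))) (fun ω => (zb ω, v₀ J F ω))
  have b4 : CH (Pool.Agent.H49.Ent.cond F.p B' True) el
      (fun ω => ((z' ω, (cs ω, t ω)), (zb ω, v₀ J F ω))) ≤
      CH (Pool.Agent.H49.Ent.cond F.p B' True) el (fun ω => (z' ω, (cs ω, t ω))) :=
    CH_mono_cond h0 fun _ _ _ _ hh => (Prod.ext_iff.mp hh).1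
  have e5 : (θa - θb + 4 * e) * (J : ℝ) = θa * J - θb * J + 4 * (e * J) := by ring
  rw [e5]
  linarith [a1.2, a2.1]

theorem add_mono {Ω ι Z Y U : Type} [Fintype Ω] {p : Ω → ℝ} {x : ι → ℝ} {z : ι → Ω → Z} {y : Ω → Y}
    {u : ι → ι → Ω → U} {g : ι → ι → ℝ} {κ e e' : ℝ} (h : Pool.SAT43.Add p x z y u g κ e)
    (he : e ≤ e') : Pool.SAT43.Add p x z y u g κ e' :=
  ⟨h.add, fun i j a => (h.c1 i j a).trans he, fun i j k a b => (h.c2 i j k a b).trans he,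
    fun i j k a b => (h.c3 i j k a b).trans he, h.lo, h.hi⟩

/-- **The numbers of a law from the numbers of a class**, on all large parts of an event. -/
theorem nump_cls {ι : Type} [Finite ι]
    (hpos : ∀ (τ : ℝ) (J : ℕ) (F : Fam m J) (A : F.Ω → Prop), S.St τ J F A → 0 < Pe F.p A)
    (x : ι → ℝ) (hx1 : ∀ i, x i ≤ 1) {QX QD : ι → ι → Qt m (ℤ × ℤ)}
    (rowX : ∀ i j k, x i ≤ x j → x j ≤ x k → Few S f (vg (x i)) y (QX i k) (QX i j))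
    (chgX : ∀ i j k, x i ≤ x j → x j ≤ x k → Few S f (vg (x j)) y (QX i k) (QX j k))
    (ownX : ∀ i j, x i ≤ x j → Few0 S f (vg (x j)) y (QX i j))
    (rowD : ∀ i j k, x i ≤ x j → x j ≤ x k → Few S f (vg (x i)) y (QD i k) (QD i j))
    (chgD : ∀ i j k, x i ≤ x j → x j ≤ x k → Few S f (vg (x j)) y (QD i k) (QD j k))
    (ownD : ∀ i j, x i ≤ x j → Few0 S f (vg (x j)) y (QD i j))
    (hη : ∀ i, ∃ η, RNum S f (vg (x i)) η) {θJ θD : ι → ι → ℝ}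
    (nJ : ∀ i j, x i ≤ x j → NN S f (vg (x i)) y ((QX i j).prod (QD i j)) (θJ i j))
    (nD : ∀ i j, x i ≤ x j → NN S f (vg (x i)) y (QD i j) (θD i j)) {κ₀ : ℝ} (hκ : 0 ≤ κ₀)
    (haJ : ∀ i j k, x i ≤ x j → x j ≤ x k → |θJ i k - θJ i j - θJ j k| ≤ κ₀)
    (haD : ∀ i j k, x i ≤ x j → x j ≤ x k → |θD i k - θD i j - θD j k| ≤ κ₀)
    {QE : Qt m ℤ} (a b : ι) {θa θb k₀ : ℝ} (na : NN S f (vg (x a)) v₀ QE θa)
    (nb : NN S f (vg (x b)) v₀ QE θb) (hk₀ : 0 ≤ k₀) (hab : θa - θb ≤ k₀)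
    {c₀ : ℝ} (hc₀ : 0 < c₀) {e : ℝ} (he : 0 < e) :
    ∃ k : ℝ, 0 < k ∧ ∃ e₀ : ℝ, 0 < e₀ ∧ ∀ K : ℕ, Bas S (fun J F A' =>
      ∀ (Z : Type) (z : ι → F.Ω → Z), (∀ i, Mx f (vg (x i)) k F A' (z i)) →
      ∀ u v : ι → ι → F.Ω → ℤ × ℤ, (∀ i j, x i ≤ x j → (QX i j).P K e₀ J F A' (u i j)) →
      (∀ i j, x i ≤ x j → (QD i j).P K e₀ J F A' (v i j)) →
      ∀ el, QE.P K e₀ J F A' el → ∀ B' : F.Ω → Prop, Sub B' A' → c₀ * Pe F.p A' ≤ Pe F.p B' →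
      ∀ (𝒮 𝒵 : Type) (cs : F.Ω → 𝒮) (z' : F.Ω → 𝒵) (T : F.Ω → ℕ) (Y : F.Ω → ℤ),
      CH (Pool.Agent.H49.Ent.cond F.p B' True) (fun ω => (z a ω, v₀ J F ω))
        (fun ω => (cs ω, (T ω, Y ω))) ≤ e * J →
      CH (Pool.Agent.H49.Ent.cond F.p B' True) (fun ω => (z' ω, (cs ω, (T ω, Y ω))))
        (fun ω => (z b ω, v₀ J F ω)) ≤ e * J →
      NumP (Pool.Agent.H49.Ent.cond F.p B' True) x z (y J F) u v (fun i j => θJ i j * J)
        (fun i j => θD i j * J) ((κ₀ + e) * J) ((k₀ + 4 * e) * J) el z' cs T Y) := by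
  have hce : 0 < c₀ * e := mul_pos hc₀ he
  obtain ⟨k1, hk1, e1, he1, H1⟩ := add_fin hpos (f := f) (y := y) x hx1
    (Q := fun i j => (QX i j).prod (QD i j))
    (fun i j k p q => Few.prod hpos (rowX i j k p q) (rowD i j k p q))
    (fun i j k p q => Few.prod hpos (chgX i j k p q) (chgD i j k p q))
    (fun i j p => Few0.pair hpos (ownX i j p) (ownD i j p)) nJ hη hκ haJ hc₀ he
  obtain ⟨k2, hk2, e2, he2, H2⟩ := add_fin hpos (f := f) (y := y) x hx1 rowD chgD ownD nD hη hκ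
    haD hc₀ he
  obtain ⟨ηa, ra⟩ := hη a
  obtain ⟨ηb, rb⟩ := hη b
  obtain ⟨k3, hk3, e3, he3, H3⟩ := fr_cls hpos ra rb na nb hc₀ he
  have N3 : ∀ q : ι × ι × ι, ∃ e₀ : ℝ, 0 < e₀ ∧ ∀ K : ℕ, Bas S (fun J F A' =>
      x q.1 ≤ x q.2.1 → x q.2.1 ≤ x q.2.2 →
      ∀ (V : Type) (z : F.Ω → V), Mx f (vg (x q.2.1)) (c₀ * e / 2) F A' z →
      ∀ u u₁, (QX q.1 q.2.2).P K e₀ J F A' u → (QX q.2.1 q.2.2).P K e₀ J F A' u₁ →
      CH (Pool.Agent.H49.Ent.cond F.p A' True) u₁ (fun ω => (u ω, (z ω, y J F ω))) ≤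
        c₀ * e * J) := by
    intro q
    by_cases hq : x q.1 ≤ x q.2.1 ∧ x q.2.1 ≤ x q.2.2
    · obtain ⟨e₀, he₀, H⟩ := (chgX _ _ _ hq.1 hq.2).mx hpos (c₀ * e) hce
      exact ⟨e₀, he₀, fun K => Bas.mono 0 (H K) fun J _ F A' h1 _ _ => h1⟩
    · exact ⟨1, one_pos, fun K => Bas.mono 0 (pos_bas hpos)
        fun J _ F A' _ h1 h2 => absurd ⟨h1, h2⟩ hq⟩
  choose e4 he4 H4 using N3
  have N4 : ∀ q : ι × ι × ι, ∃ e₀ : ℝ, 0 < e₀ ∧ ∀ K : ℕ, Bas S (fun J F A' =>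
      x q.1 ≤ x q.2.1 → x q.2.1 ≤ x q.2.2 →
      ∀ (V : Type) (z : F.Ω → V), Mx f (vg (x q.1)) (c₀ * e / 2) F A' z →
      ∀ u u₁, (QX q.1 q.2.2).P K e₀ J F A' u → (QX q.1 q.2.1).P K e₀ J F A' u₁ →
      CH (Pool.Agent.H49.Ent.cond F.p A' True) u₁ (fun ω => (u ω, (z ω, y J F ω))) ≤
        c₀ * e * J) := by
    intro q
    by_cases hq : x q.1 ≤ x q.2.1 ∧ x q.2.1 ≤ x q.2.2
    · obtain ⟨e₀, he₀, H⟩ := (rowX _ _ _ hq.1 hq.2).mx hpos (c₀ * e) hce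
      exact ⟨e₀, he₀, fun K => Bas.mono 0 (H K) fun J _ F A' h1 _ _ => h1⟩
    · exact ⟨1, one_pos, fun K => Bas.mono 0 (pos_bas hpos)
        fun J _ F A' _ h1 h2 => absurd ⟨h1, h2⟩ hq⟩
  choose e5 he5 H5 using N4
  obtain ⟨f4, hf4, hf4'⟩ := fin_min e4 he4
  obtain ⟨f5, hf5, hf5'⟩ := fin_min e5 he5
  obtain ⟨k, hk, m1, m2, m3, m4⟩ : ∃ k : ℝ, 0 < k ∧ k ≤ k1 ∧ k ≤ k2 ∧ k ≤ k3 ∧
      k ≤ c₀ * e / 2 :=
    ⟨min k1 (min k2 (min k3 (c₀ * e / 2))), by positivity, min_le_left _ _,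
      (min_le_right _ _).trans (min_le_left _ _),
      (min_le_right _ _).trans ((min_le_right _ _).trans (min_le_left _ _)),
      (min_le_right _ _).trans ((min_le_right _ _).trans (min_le_right _ _))⟩
  obtain ⟨e₀, he₀, l1, l2, l3, l4, l5⟩ : ∃ e₀ : ℝ, 0 < e₀ ∧ e₀ ≤ e1 ∧ e₀ ≤ e2 ∧ e₀ ≤ e3 ∧
      e₀ ≤ f4 ∧ e₀ ≤ f5 :=
    ⟨min e1 (min e2 (min e3 (min f4 f5))), by positivity, min_le_left _ _,
      (min_le_right _ _).trans (min_le_left _ _),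
      (min_le_right _ _).trans ((min_le_right _ _).trans (min_le_left _ _)),
      (min_le_right _ _).trans ((min_le_right _ _).trans ((min_le_right _ _).trans
        (min_le_left _ _))),
      (min_le_right _ _).trans ((min_le_right _ _).trans ((min_le_right _ _).trans
        (min_le_right _ _)))⟩
  refine ⟨k, hk, e₀, he₀, fun K => ?_⟩
  refine Bas.mono 0 (((((H1 K).and (H2 K)).and (H3 K)).and ((Bas.fin' fun q => H4 q K).and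
    (Bas.fin' fun q => H5 q K))).and (pos_bas hpos)) ?_
  rintro J - F A' ⟨⟨⟨⟨H1, H2⟩, H3⟩, H4, H5⟩, hA'⟩ Z z hz u v hu hv el hel B' hB' hBA 𝒮 𝒵 cs z' T Y
    h1 h2
  have hJ0 : (0 : ℝ) ≤ J := Nat.cast_nonneg J
  have hcl := isLaw_cond F.isLaw hA'
  have key : ∀ {V' W' : Type} (X : F.Ω → V') (Y : F.Ω → W'),
      CH (Pool.Agent.H49.Ent.cond F.p A' True) X Y ≤ c₀ * e * J →
      CH (Pool.Agent.H49.Ent.cond F.p B' True) X Y ≤ e * J := fun X Y hXY =>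
    ch_part F.isLaw hB' hA' hc₀ hBA X Y (by rw [← mul_assoc]; exact hXY)
  obtain ⟨N, aJ⟩ := H1 Z z (fun i => (hz i).le' m1) (fun p q ω => (u p q ω, v p q ω))
    (fun p q hpq => ⟨(QX _ _).mono le_rfl l1 (hu p q hpq), (QD _ _).mono le_rfl l1
      (hv p q hpq)⟩) B' hB' hBA
  obtain ⟨-, aD⟩ := H2 Z z (fun i => (hz i).le' m2) v
    (fun p q hpq => (QD _ _).mono le_rfl l2 (hv p q hpq)) B' hB' hBA
  have hfr := H3 Z Z (z a) (z b) ((hz a).le' m3) ((hz b).le' m3) el (QE.mono le_rfl l3 hel) B'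
    hB' hBA 𝒮 𝒵 (ℕ × ℤ) cs z' (fun ω => (T ω, Y ω)) h1 h2
  have hk0 : e * J ≤ (k₀ + 4 * e) * J := mul_le_mul_of_nonneg_right (by linarith) hJ0
  refine ⟨add_mono aJ hk0, add_mono aD hk0, fun i j hij => (N i j hij).trans hk0,
    fun i j k hij hjk => ?_, fun i j k hij hjk => ?_, hfr.trans ?_⟩
  · refine (key _ _ ?_).trans hk0
    exact H5 (i, j, k) hij hjk Z (z i) ((hz i).le' m4) (u i k) (u i j)
      ((QX _ _).mono le_rfl (l5.trans (hf5' (i, j, k))) (hu i k (hij.trans hjk)))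
      ((QX _ _).mono le_rfl (l5.trans (hf5' (i, j, k))) (hu i j hij))
  · refine (key _ _ ?_).trans hk0
    refine le_trans (CH_mono_cond hcl.nonneg fun ω ω' _ _ hh => ?_) (H4 (i, j, k) hij hjk Z (z j)
      ((hz j).le' m4) (u i k) (u j k)
      ((QX _ _).mono le_rfl (l4.trans (hf4' (i, j, k))) (hu i k (hij.trans hjk)))
      ((QX _ _).mono le_rfl (l4.trans (hf4' (i, j, k))) (hu j k hjk)))
    simp only [Prod.mk.injEq] at hh ⊢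
    exact ⟨hh.1, hh.2.1, hh.2.2.2⟩
  · exact mul_le_mul_of_nonneg_right (by linarith) hJ0

end Pool.OWN83
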