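import Pool.Agent.H91.V0F.Exj
import Pool.Agent.H96.AVG.Vlb
import Pool.Agent.H68.OWN.Js
import Pool.Agent.H83.OWN.Nump
import Pool.Agent.H83.OWN.Lbc

/-!
# The position of the first rough coordinate is full, with the coarse velocity of the base

`yX`: the exact positions of the base, the time and the side information. `low_x`: the height of the
first coordinate of a chain over a label of the window `w` is full given `yX` and a closed function of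
the window `a`. `few0_own`: it is few bits at a later window. `low_v`: the same for a near path of the
base with few digits of the velocity; the loss is the increment of the number of these digits.
-/

set_option autoImplicit false

namespace Pool.OWN83

open Finset Real MvPolynomial
open Pool.Agent.H49.Ent Pool.Agent.H32.Dense Pool.STK Pool.KA Pool.KSAT Pool.K2S Pool.PB Pool.S6C
  Pool.GEN Pool.RCD Pool.LA91
open Pool.AVG96 (LowN)
open Pool.OWN68 (F0 F1 few_jet0 few0_room Kn0 cl2_vg)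

variable {m : ℕ} {U₀ U : Type} {α γ : ∀ J : ℕ, Fam m J → Type}
  {f : ∀ (J : ℕ) (F : Fam m J), F.Ω → α J F} {y : ∀ (J : ℕ) (F : Fam m J), F.Ω → γ J F}
  {S : PCl m} {c : ℕ → Fin m} {r₀ r : ℕ}

/-- The exact positions of the base, the time and the side information. -/
noncomputable def yX (I : Finset (Fin m)) (J : ℕ) (F : Fam m J) (ω : F.Ω) :
    (Fin m → ℤ) × (ℕ × F.ζ) :=
  ((fun i => if i ∈ I then F.X J ω i else 0), F.W ω)

/-- The first `lam J` digits of the velocity of the base. -/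
noncomputable def dT (I : Finset (Fin m)) (lam : ℝ) (J : ℕ) (F : Fam m J) (ω : F.Ω) : Fin m → ℤ :=
  fun i => if i ∈ I then F.D ⌊lam * J⌋₊ ω i else 0

/-- `y` is a function of `yX` and of `lam J` digits of the velocity of the base. -/
def YkV (I : Finset (Fin m)) (lam : ℝ) (y : ∀ (J : ℕ) (F : Fam m J), F.Ω → γ J F) : Prop :=
  ∀ (J : ℕ) (F : Fam m J), ∃ ψ : ((Fin m → ℤ) × (ℕ × F.ζ)) × (Fin m → ℤ) → γ J F, ∀ ω,
    y J F ω = ψ (yX I J F ω, dT I lam J F ω)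

theorem kn0_yX (I : Finset (Fin m)) : Kn0 I 1 (yX (m := m) I) := fun J F =>
  ⟨fun v => (v.2.1, v.1), fun ω => by
    have e1 : ⌊(1 : ℝ) * J⌋₊ = J := by rw [one_mul, Nat.floor_natCast]
    rw [e1]
    rfl⟩

theorem knX_yX : KnX c r₀ (yX (m := m) ((range r₀).image c)) :=
  ⟨fun _ _ => ⟨fun v => v.2.1, fun _ => rfl⟩, fun _ _ => ⟨fun v l => v.1 (c l), fun ω l hl => by
    show _ = if c l ∈ (range r₀).image c then _ else _
    rw [if_pos (mem_image_of_mem c (mem_range.2 hl))]⟩⟩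

/-- **The height is full** given the exact positions of the base. -/
theorem low_x
    (hpos : ∀ (τ : ℝ) (J : ℕ) (F : Fam m J) (A : F.Ω → Prop), S.St τ J F A → 0 < Pe F.p A)
    {C₀ : ℝ} (htm : TmC S C₀)
    (pt : ∀ (J : ℕ) (F : Fam m J), ∃ φ : α J F → PtT F, ∀ ω, ptr F J ω = φ (f J F ω))
    (pf : ∀ (J : ℕ) (F : Fam m J), ∃ φ : PtT F → α J F, ∀ ω, f J F ω = φ (ptr F J ω))
    {w a a' u₁ u₁' N : ℝ} {s s' rd rd' : ℕ → ℝ} (hch : Chn S c r₀ r w w u₁ s rd)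
    (hch' : Chn S c r₀ r a' a' u₁' s' rd') (hr : r₀ < r) (hwa : w ≤ a) (haa : a ≤ a')
    (hN0 : 0 ≤ N) (hN1 : N ≤ 1) (hNs : N - s r₀ < 1 - w) {h : ℝ} (hh : 0 < h) :
    ∃ e₀ : ℝ, 0 < e₀ ∧ ∀ K : ℕ, Bas S (fun J F A => ∀ (V : Type) (z : F.Ω → V),
      Cl2 (f J F) (vg a J F) A z → ∀ u,
      (qJet m ((range r₀).image c) (c r₀) 0 w (s r₀) N).P K e₀ J F A u →
      ((N - s' r₀) * Real.log 2 - h) * J ≤ CH (Pool.Agent.H49.Ent.cond F.p A True) u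
        (fun ω => (z ω, yX ((range r₀).image c) J F ω))) := by
  classical
  obtain ⟨I, hI⟩ : ∃ I, I = (range r₀).image c := ⟨_, rfl⟩
  rw [← hI]
  have hl2 : 0 < Real.log 2 := Real.log_pos one_lt_two
  have hl21 : Real.log 2 ≤ 1 := by
    have := Real.log_two_lt_d9
    linarith
  have ha1 : a ≤ 1 := haa.trans hch'.u0.le
  have hw1 : w ≤ 1 := hwa.trans ha1
  have hσ : 0 < (1 - w - (N - s r₀)) / 2 := by linarith
  have h8 : 0 < h / 8 := by positivity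
  have hF1 := few_jet0 (y := yX I) (f := f) htm (I := I) (k := c r₀) (w := w) (w₁ := w) (w₂ := w)
    (p₁ := s r₀) (p₂ := s r₀) (N₁ := N) (N₂ := N) (p₀ := 1) (u₀ := w) le_rfl le_rfl hw1 le_rfl
    hch.w0 hch.u0 le_rfl (by rw [hI]; exact hch.base) pt (kn0_yX I) le_rfl hσ
    (by rw [min_self]; linarith) h8
  have hatt := (hch.att r₀ le_rfl hr).attG hw1 le_rfl
  obtain ⟨e2, he2, hF2⟩ := few_lg_xd (y := yX I) hpos pt (c := c) (i := r₀)
    (by rw [hI]; exact knX_yX) (w := w) (p := s r₀) (rd := rd r₀) (E := 0) (N := N) hw1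
    (hch.r1 r₀ le_rfl hr) le_rfl hN0 (by linarith) (h / 8) h8
  obtain ⟨e₀, he₀, he1, he2'⟩ : ∃ e₀ : ℝ, 0 < e₀ ∧ e₀ ≤ (1 - w - (N - s r₀)) / 2 / 4 ∧ e₀ ≤ e2 :=
    ⟨min ((1 - w - (N - s r₀)) / 2 / 4) e2, by positivity, min_le_left _ _, min_le_right _ _⟩
  obtain ⟨K1, M1, hex⟩ := exs_lg (N := N) le_rfl hatt e₀ he₀
  obtain ⟨J₀, hJ₀⟩ := log_room (m := m) h8
  refine ⟨e₀, he₀, fun K => Bas.mono J₀ ((((hF1 (max K K1)).and (hF2 K1)).and
    (hex.and (hch'.ful (h / 8) h8))).and (pos_bas hpos)) ?_⟩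
  rintro J hJ F A ⟨⟨⟨H1, H2⟩, ⟨u', hu', -⟩, H3⟩, hA⟩ V z hz u hu
  have hcl := isLaw_cond F.isLaw hA
  have h0 := hcl.nonneg
  have hJ0 : (0 : ℝ) ≤ J := Nat.cast_nonneg J
  obtain ⟨V₁, z₁, hz₁, s1⟩ := H1 u u' ((qJet m I (c r₀) 0 w (s r₀) N).mono (le_max_left _ _) he1 hu)
    ((qJet m I (c r₀) 0 w (s r₀) N).mono (le_max_right _ _) he1 (by
      rw [hI]
      exact qLg_jet hu'))
  obtain ⟨V₂, z₂, hz₂, s2⟩ := H2 u' (fun ω => F.X ⌊N * J⌋₊ ω (c r₀))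
    ((qLg m _ (c r₀) w (s r₀) (rd r₀) 0 N).mono le_rfl he2' hu') (fun ω _ => rfl)
  have hZ : Cl2 (f J F) (vg a J F) A (fun ω => (z ω, (z₁ ω, z₂ ω))) :=
    hz.join ((cl2_vg hwa ha1 hz₁).join (cl2_vg hwa ha1 hz₂))
  -- the fullness
  have s3 : ((1 - s' r₀) - h / 8) * Real.log 2 * J ≤
      CH (Pool.Agent.H49.Ent.cond F.p A True) (fun ω => F.X J ω (c r₀))
        (fun ω => ((z ω, (z₁ ω, z₂ ω)), yX I J F ω)) := by
    have hZ' := cl2_vg haa hch'.u0.le hZ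
    obtain ⟨⟨φ, hφ⟩, ψ, hψ⟩ := hZ'
    obtain ⟨χ, hχ⟩ := pf J F
    have key := H3 _ (fun x => φ (χ x)) (fun x => ψ x) (fun ω hω => by
      show φ (χ (ptr F J ω)) = ψ (slam F ⌊a' * J⌋₊ ω)
      rw [← hχ ω, ← hφ ω hω]
      exact hψ ω hω) r₀ le_rfl hr
    refine key.trans (CH_mono_cond h0 fun ω ω' hω hω' hh => ?_)
    simp only [Prod.mk.injEq] at hh
    obtain ⟨g1, g2, g3⟩ := hh
    have g4 : (z ω, (z₁ ω, z₂ ω)) = (z ω', (z₁ ω', z₂ ω')) := by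
      exact (hψ ω (of_cond_pos hω)).trans (g2.trans (hψ ω' (of_cond_pos hω')).symm)
    refine Prod.ext g4 (Prod.ext (funext fun i => ?_) g3)
    show (if i ∈ I then _ else _) = if i ∈ I then _ else _
    by_cases hi : i ∈ I
    · rw [if_pos hi, if_pos hi]
      rw [hI] at hi
      obtain ⟨l, hl, rfl⟩ := mem_image.1 hi
      exact congrFun g1 ⟨l, mem_range.1 hl⟩
    · rw [if_neg hi, if_neg hi]
  have s4 : CH (Pool.Agent.H49.Ent.cond F.p A True) (fun ω => F.X J ω (c r₀))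
      (fun ω => (F.X ⌊N * J⌋₊ ω (c r₀), ((z ω, (z₁ ω, z₂ ω)), yX I J F ω))) ≤
      ((1 - N) * Real.log 2 + h / 8) * J := by
    have key := CH_le_int hcl.nonneg hcl.sum_one (fun ω => F.X J ω (c r₀))
      (fun ω => (F.X ⌊N * J⌋₊ ω (c r₀), ((z ω, (z₁ ω, z₂ ω)), yX I J F ω)))
      (fun _ => 2 ^ ((1 - N) * J) * (m + 4)) (by
      intro ω ω' _ _ hh
      have g1 : F.X ⌊N * J⌋₊ ω (c r₀) = F.X ⌊N * J⌋₊ ω' (c r₀) := (Prod.ext_iff.mp hh).1
      have g2 := X_near' g1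
      change |((⌊(2 : ℝ) ^ J * F.x ω (c r₀)⌋ - ⌊(2 : ℝ) ^ J * F.x ω' (c r₀)⌋ : ℤ) : ℝ)| ≤ _
      refine (Pool.EXW.abs_floor_sub _ _).trans ?_
      have g3 : |(2 : ℝ) ^ J * F.x ω (c r₀) - 2 ^ J * F.x ω' (c r₀)| ≤ 2 * 2 ^ ((1 - N) * J) := by
        rw [← mul_sub, abs_mul, abs_of_pos (by positivity), abs_sub_comm]
        refine (mul_le_mul_of_nonneg_left g2 (by positivity)).trans ?_
        rw [mul_one_div, div_le_iff₀ (by positivity)]
        have g4 := (nd_floor hN0 J).2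
        have g5 : (2 : ℝ) ^ J = 2 ^ ((1 - N) * J) * 2 ^ (N * J) := by
          rw [← Real.rpow_add (by norm_num), ← Real.rpow_natCast]
          congr 1
          ring
        rw [g5]
        have g6 : (0 : ℝ) < 2 ^ ((1 - N) * J) := Real.rpow_pos_of_pos (by norm_num) _
        calc (2 : ℝ) ^ ((1 - N) * J) * 2 ^ (N * J) ≤
            2 ^ ((1 - N) * J) * (2 * 2 ^ ⌊N * J⌋₊) := mul_le_mul_of_nonneg_left g4 g6.le
          _ = 2 * 2 ^ ((1 - N) * J) * 2 ^ ⌊N * J⌋₊ := by ring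
      have g7 : (1 : ℝ) ≤ 2 ^ ((1 - N) * J) :=
        Real.one_le_rpow (by norm_num) (mul_nonneg (by linarith) hJ0)
      have hm0 : (0 : ℝ) ≤ m := Nat.cast_nonneg m
      nlinarith [mul_nonneg hm0 (zero_le_one.trans g7)])
    rw [Ex_const hcl.sum_one] at key
    exact key.trans (hJ₀ J hJ _ (1 - N) (by linarith) (by positivity) le_rfl)
  have t1 := CH_le_add h0 (fun ω => F.X J ω (c r₀)) (fun ω => F.X ⌊N * J⌋₊ ω (c r₀))
    (fun ω => ((z ω, (z₁ ω, z₂ ω)), yX I J F ω))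
  have t2 := CH_le_add h0 (fun ω => F.X ⌊N * J⌋₊ ω (c r₀)) u
    (fun ω => ((z ω, (z₁ ω, z₂ ω)), yX I J F ω))
  have t3 := CH_le_add h0 (fun ω => F.X ⌊N * J⌋₊ ω (c r₀)) u'
    (fun ω => (u ω, ((z ω, (z₁ ω, z₂ ω)), yX I J F ω)))
  have t4 : CH (Pool.Agent.H49.Ent.cond F.p A True) u'
      (fun ω => (u ω, ((z ω, (z₁ ω, z₂ ω)), yX I J F ω))) ≤
      CH (Pool.Agent.H49.Ent.cond F.p A True) u' (fun ω => (u ω, (z₁ ω, yX I J F ω))) :=
    CH_mono_cond h0 fun ω ω' _ _ hh => by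
      simp only [Prod.mk.injEq] at hh ⊢
      exact ⟨hh.1, hh.2.1.2.1, hh.2.2⟩
  have t5 : CH (Pool.Agent.H49.Ent.cond F.p A True) (fun ω => F.X ⌊N * J⌋₊ ω (c r₀))
      (fun ω => (u' ω, (u ω, ((z ω, (z₁ ω, z₂ ω)), yX I J F ω)))) ≤
      CH (Pool.Agent.H49.Ent.cond F.p A True) (fun ω => F.X ⌊N * J⌋₊ ω (c r₀))
        (fun ω => (u' ω, (z₂ ω, yX I J F ω))) :=
    CH_mono_cond h0 fun ω ω' _ _ hh => by
      simp only [Prod.mk.injEq] at hh ⊢
      exact ⟨hh.1, hh.2.2.1.2.2, hh.2.2.2⟩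
  have t6 : CH (Pool.Agent.H49.Ent.cond F.p A True) u
      (fun ω => ((z ω, (z₁ ω, z₂ ω)), yX I J F ω)) ≤
      CH (Pool.Agent.H49.Ent.cond F.p A True) u (fun ω => (z ω, yX I J F ω)) :=
    CH_mono_cond h0 fun ω ω' _ _ hh => by
      simp only [Prod.mk.injEq] at hh ⊢
      exact ⟨hh.1.1, hh.2⟩
  have e1 : ((1 - s' r₀) - h / 8) * Real.log 2 * J =
      (1 - s' r₀) * Real.log 2 * J - h / 8 * Real.log 2 * J := by ring
  have e2 : h / 8 * Real.log 2 * J ≤ h / 8 * J := by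
    refine mul_le_mul_of_nonneg_right ?_ hJ0
    nlinarith
  have e3 : ((1 - N) * Real.log 2 + h / 8) * J = (1 - N) * Real.log 2 * J + h / 8 * J := by ring
  have e4 : ((N - s' r₀) * Real.log 2 - h) * J =
      (1 - s' r₀) * Real.log 2 * J - (1 - N) * Real.log 2 * J - h * J := by ring
  have e5 : h / 8 * (J : ℝ) = h * J / 8 := by ring
  have e6 : 0 ≤ h * J := by positivity
  rw [e4]
  rw [e1] at s3
  rw [e3] at s4
  rw [e5] at e2 s1 s2 s4
  linarith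

/-- **The height is few bits at a later window.** -/
theorem few0_own {C₀ : ℝ} (htm : TmC S C₀)
    (pt : ∀ (J : ℕ) (F : Fam m J), ∃ φ : α J F → PtT F, ∀ ω, ptr F J ω = φ (f J F ω))
    {w a b u₁ N : ℝ} {s s' rd' : ℕ → ℝ} (hch' : Chn S c r₀ r a a u₁ s' rd') (hr : r₀ < r)
    (hrd : 0 ≤ rd' r₀) (hwa : w ≤ a) (hab : a ≤ b) (hb : b ≤ 1) (h1 : N < s' r₀)
    (h2 : N - s r₀ < 1 - a) :
    Few0 S f (vg b) (yX ((range r₀).image c))
      (qJet m ((range r₀).image c) (c r₀) 0 w (s r₀) N) := by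
  obtain ⟨I, hI⟩ : ∃ I, I = (range r₀).image c := ⟨_, rfl⟩
  rw [← hI]
  have ha1 := hch'.u0
  obtain ⟨ρ, hρ, r1, r2⟩ : ∃ ρ : ℝ, 0 < ρ ∧ ρ ≤ s' r₀ - N ∧ ρ ≤ 1 - a - (N - s r₀) :=
    ⟨min (s' r₀ - N) (1 - a - (N - s r₀)), lt_min (by linarith) (by linarith), min_le_left _ _,
      min_le_right _ _⟩
  intro h hh
  refine ⟨ρ / 4, by positivity, fun K => ?_⟩
  have e1 := few0_room (S := S) htm (I := I) (k := c r₀) (j := 0) (w := a) (p := s' r₀) (N := N)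
    (ρ := ρ) hch'.w0 ha1 hρ (by rw [Nat.cast_zero, zero_mul, add_zero]; linarith) f (vg a)
    (yX I) (half_pos hh)
  have e2 := few_jet0 (y := yX I) (f := f) htm (I := I) (k := c r₀) (w := a) (w₁ := a) (w₂ := w)
    (p₁ := s' r₀) (p₂ := s r₀) (N₁ := N) (N₂ := N) (p₀ := 1) (u₀ := a) le_rfl hwa ha1.le le_rfl
    hch'.w0 ha1 le_rfl (by rw [hI]; exact hch'.base) pt (kn0_yX I) le_rfl hρ (by
      rcases min_cases (s' r₀) (s r₀) with ⟨e, -⟩ | ⟨e, -⟩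
      · rw [e]
        linarith
      · rw [e]
        linarith) (half_pos hh)
  have e3 := Pool.OWN68.F0.trans htm (exs_jet hrd (by rw [hI]; exact hch'.att r₀ le_rfl hr))
    (by positivity) e1 e2
  rw [add_halves] at e3
  refine Bas.mono 0 (e3 K) ?_
  rintro J - F A H u hu
  obtain ⟨V, z, hz, q⟩ := H u hu
  exact ⟨V, z, cl2_vg hab hb hz, q⟩

/-- **The height is full over the near path of the base.** -/
theorem low_v
    (hpos : ∀ (τ : ℝ) (J : ℕ) (F : Fam m J) (A : F.Ω → Prop), S.St τ J F A → 0 < Pe F.p A)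
    {C₀ : ℝ} (htm : TmC S C₀)
    (pt : ∀ (J : ℕ) (F : Fam m J), ∃ φ : α J F → PtT F, ∀ ω, ptr F J ω = φ (f J F ω))
    (pf : ∀ (J : ℕ) (F : Fam m J), ∃ φ : PtT F → α J F, ∀ ω, f J F ω = φ (ptr F J ω))
    {w a a' u₁ u₁' N : ℝ} {s s' rd rd' : ℕ → ℝ} (hch : Chn S c r₀ r w w u₁ s rd)
    (hch' : Chn S c r₀ r a' a' u₁' s' rd') (hr : r₀ < r) (hwa : w ≤ a) (haa : a ≤ a')
    (hN0 : 0 ≤ N) (hN1 : N ≤ 1) (hNs : N - s r₀ < 1 - w) {xa xb ηa ηb θa θb lam : ℝ}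
    (ra : RNum S f (vg xa) ηa) (rb : RNum S f (vg xb) ηb)
    (na : NN S f (vg xa) (yX ((range r₀).image c))
      (Qt.fn (dT (m := m) ((range r₀).image c) lam)) θa)
    (nb : NN S f (vg xb) (yX ((range r₀).image c))
      (Qt.fn (dT (m := m) ((range r₀).image c) lam)) θb)
    (hxa : xa ≤ a) (hab : a ≤ xb) (hb1 : xb ≤ 1)
    (own : Few0 S f (vg xb) (yX ((range r₀).image c))
      (qJet m ((range r₀).image c) (c r₀) 0 w (s r₀) N))
    (hyk : YkV ((range r₀).image c) lam y) {Q₀ : Qt m U₀}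
    (hQ₀ : Few0 S f (vg a) (yX ((range r₀).image c)) Q₀) :
    LowN S f (vg a) y Q₀ (qJet m ((range r₀).image c) (c r₀) 0 w (s r₀) N)
      ((N - s' r₀) * Real.log 2 - (θa - θb)) := by
  intro h hh
  have h8 : 0 < h / 8 := by positivity
  obtain ⟨e1, he1, H1⟩ := low_x hpos htm pt pf hch hch' hr hwa haa hN0 hN1 hNs h8
  obtain ⟨e2, he2, H2⟩ := own.mx hpos (h / 8) h8
  obtain ⟨k3, hk3, e3, he3, H3⟩ := na (h / 8) h8
  obtain ⟨k4, hk4, e4, he4, H4⟩ := nb (h / 8) h8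
  obtain ⟨e5, he5, H5⟩ := hQ₀.mx hpos (h / 8) h8
  obtain ⟨I, hI⟩ : ∃ I, I = (range r₀).image c := ⟨_, rfl⟩
  rw [← hI] at H1 H2 H3 H4 H5 hyk ⊢
  refine ⟨h / 8 / 2, by positivity, min e1 (min e2 e5), by positivity, fun K => ?_⟩
  refine Bas.mono 0 ((((H1 K).and (H2 K)).and ((H3 K).and (H4 K))).and (((H5 K).and
    ((mx_ex hpos ra k3 hk3).and (mx_ex hpos rb (min k4 (h / 8 / 2)) (by positivity)))).and
    (pos_bas hpos))) ?_
  rintro J - F A ⟨⟨⟨H1, H2⟩, H3, H4⟩, ⟨H5, ⟨Va, za, hza⟩, Vb, zb, hzb⟩, hA⟩ V z hz u₀ u hu₀ hu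
  have hcl := isLaw_cond F.isLaw hA
  have h0 := hcl.nonneg
  have hJ0 : (0 : ℝ) ≤ J := Nat.cast_nonneg J
  obtain ⟨ψ, hψ⟩ := hyk J F
  have c1 := H1 V z hz.1 u ((qJet m I (c r₀) 0 w (s r₀) N).mono le_rfl (min_le_left _ _) hu)
  have c2 := H2 Vb zb (hzb.le' (min_le_right _ _)) u
    ((qJet m I (c r₀) 0 w (s r₀) N).mono le_rfl ((min_le_right _ _).trans (min_le_left _ _)) hu)
  have c3 := (abs_le.1 (H3 Va za hza (dT I lam J F) (fun ω _ => rfl))).2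
  have c4 := (abs_le.1 (H4 Vb zb (hzb.le' (min_le_left _ _)) (dT I lam J F) (fun ω _ => rfl))).1
  have c5 := H5 V z hz u₀ (Q₀.mono le_rfl ((min_le_right _ _).trans (min_le_right _ _)) hu₀)
  have c6 : CH (Pool.Agent.H49.Ent.cond F.p A True) za z ≤ h / 8 / 2 * J :=
    hz.2 _ _ (cl2_vg hxa (hab.trans hb1) hza.1)
  have c7 : CH (Pool.Agent.H49.Ent.cond F.p A True) z zb ≤ h / 8 / 2 * J :=
    (hzb.2 _ _ (cl2_vg hab hb1 hz.1)).trans
      (mul_le_mul_of_nonneg_right (min_le_right _ _) hJ0)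
  obtain ⟨D, hD⟩ : ∃ D, D = dT I lam J F := ⟨_, rfl⟩
  obtain ⟨Y, hY⟩ : ∃ Y, Y = yX I J F := ⟨_, rfl⟩
  rw [← hD, ← hY] at c3 c4
  rw [← hY] at c1 c2 c5
  -- the number at the window of the record
  have t1 := CH_le_add h0 D za (fun ω => (z ω, Y ω))
  have t2 : CH (Pool.Agent.H49.Ent.cond F.p A True) D (fun ω => (za ω, (z ω, Y ω))) ≤
      CH (Pool.Agent.H49.Ent.cond F.p A True) D (fun ω => (za ω, Y ω)) :=
    CH_mono_cond h0 fun ω ω' _ _ hh => by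
      simp only [Prod.mk.injEq] at hh ⊢
      exact ⟨hh.1, hh.2.2⟩
  have t3 : CH (Pool.Agent.H49.Ent.cond F.p A True) za (fun ω => (z ω, Y ω)) ≤
      CH (Pool.Agent.H49.Ent.cond F.p A True) za z :=
    CH_mono_cond h0 fun _ _ _ _ hh => (Prod.ext_iff.mp hh).1
  -- the number at the later window
  have t4 := CH_le_add h0 D z (fun ω => (zb ω, Y ω))
  have t5 : CH (Pool.Agent.H49.Ent.cond F.p A True) z (fun ω => (zb ω, Y ω)) ≤
      CH (Pool.Agent.H49.Ent.cond F.p A True) z zb :=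
    CH_mono_cond h0 fun _ _ _ _ hh => (Prod.ext_iff.mp hh).1
  have t6 := CH_le_add h0 D u (fun ω => (z ω, (zb ω, Y ω)))
  have t7 : CH (Pool.Agent.H49.Ent.cond F.p A True) u (fun ω => (z ω, (zb ω, Y ω))) ≤
      CH (Pool.Agent.H49.Ent.cond F.p A True) u (fun ω => (zb ω, Y ω)) :=
    CH_mono_cond h0 fun _ _ _ _ hh => (Prod.ext_iff.mp hh).2
  have t8 : CH (Pool.Agent.H49.Ent.cond F.p A True) D (fun ω => (u ω, (z ω, (zb ω, Y ω)))) ≤
      CH (Pool.Agent.H49.Ent.cond F.p A True) D (fun ω => (u ω, (z ω, Y ω))) :=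
    CH_mono_cond h0 fun ω ω' _ _ hh => by
      simp only [Prod.mk.injEq] at hh ⊢
      exact ⟨hh.1, hh.2.1, hh.2.2.2⟩
  -- the exchange
  have x1 := CH_chain h0 u D (fun ω => (z ω, Y ω))
  have x2 := CH_chain h0 D u (fun ω => (z ω, Y ω))
  have x3 : CH (Pool.Agent.H49.Ent.cond F.p A True) (fun ω => (u ω, D ω))
      (fun ω => (z ω, Y ω)) = CH (Pool.Agent.H49.Ent.cond F.p A True) (fun ω => (D ω, u ω))
      (fun ω => (z ω, Y ω)) := by
    refine CH_congr h0 ?_ ?_ (fun _ _ _ _ h => h) (fun _ _ _ _ h => h) <;>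
    · intro ω ω' _ _ hh
      simp only [Prod.mk.injEq] at hh ⊢
      tauto
  -- the additional side information
  have y1 := CH_le_add h0 u u₀ (fun ω => (D ω, (z ω, Y ω)))
  have y2 : CH (Pool.Agent.H49.Ent.cond F.p A True) u₀ (fun ω => (D ω, (z ω, Y ω))) ≤
      CH (Pool.Agent.H49.Ent.cond F.p A True) u₀ (fun ω => (z ω, Y ω)) :=
    CH_mono_cond h0 fun _ _ _ _ hh => (Prod.ext_iff.mp hh).2
  have y3 : CH (Pool.Agent.H49.Ent.cond F.p A True) u (fun ω => (u₀ ω, (D ω, (z ω, Y ω)))) ≤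
      CH (Pool.Agent.H49.Ent.cond F.p A True) u (fun ω => (z ω, (u₀ ω, y J F ω))) :=
    CH_mono_cond h0 fun ω ω' _ _ hh => by
      simp only [Prod.mk.injEq] at hh ⊢
      refine ⟨hh.2.2.1, hh.1, ?_⟩
      rw [hψ ω, hψ ω', ← hD, ← hY, hh.2.1, hh.2.2.2]
  have e0 : ((N - s' r₀) * Real.log 2 - (θa - θb) - h) * J =
      (N - s' r₀) * Real.log 2 * J - θa * J + θb * J - h * J := by ring
  have e0' : ((N - s' r₀) * Real.log 2 - h / 8) * J =
      (N - s' r₀) * Real.log 2 * J - h * J / 8 := by ring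
  have e5 : h / 8 * (J : ℝ) = h * J / 8 := by ring
  have e6 : h / 8 / 2 * (J : ℝ) = h * J / 16 := by ring
  have e7 : 0 ≤ h * J := by positivity
  rw [e0]
  rw [e0'] at c1
  rw [e5] at c2 c3 c4 c5
  rw [e6] at c6 c7
  linarith

end Pool.OWN83
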