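import Pool.Agent.H91.LA.Rel

/-!
# Two-parameter families at shifted rational windows

The statements of helper91 for the windows `w + s`, `w` rational, with a fixed real number `s`: a
countable set of bad windows can be avoided. Indices are rational numbers, `A < w < B`; the window
of the index `w` is `w + s`.
-/

set_option autoImplicit false

namespace Pool.OWN83

open Finset Real
open Pool.Agent.H49.Ent Pool.Agent.H32.Dense Pool.STK Pool.KA Pool.KSAT Pool.K2S Pool.PB Pool.S6C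
  Pool.GEN Pool.RCD Pool.LA91

variable {m : ℕ} {U₀ U U₁ U₂ : Type} {α γ : ∀ J : ℕ, Fam m J → Type}
  {f : ∀ (J : ℕ) (F : Fam m J), F.Ω → α J F} {y : ∀ (J : ℕ) (F : Fam m J), F.Ω → γ J F}
  {S : PCl m} {s : ℝ}

/-- **A two-parameter family** at the rational windows of `(A, B)`, with steps less than `lam`. -/
structure TwoParS (S : PCl m) (f : ∀ (J : ℕ) (F : Fam m J), F.Ω → α J F)
    (y : ∀ (J : ℕ) (F : Fam m J), F.Ω → γ J F) (s : ℝ) (Q : ℚ → ℚ → Qt m U)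
    (A B lam : ℝ) : Prop where
  exs : ∀ w o : ℚ, A < w → w ≤ o → (o : ℝ) < B → (o : ℝ) < w + lam → Exs S (Q w o)
  row : ∀ w v o : ℚ, A < w → w ≤ v → v ≤ o → (o : ℝ) < B → (o : ℝ) < w + lam →
    Few S f (vg ((w : ℝ) + s)) y (Q w o) (Q w v)
  chg : ∀ w v o : ℚ, A < w → w ≤ v → v ≤ o → (o : ℝ) < B → (o : ℝ) < w + lam →
    Few S f (vg ((v : ℝ) + s)) y (Q w o) (Q v o)
  own : ∀ w v : ℚ, A < w → w ≤ v → (v : ℝ) < B → (v : ℝ) < w + lam →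
    Few0 S f (vg ((v : ℝ) + s)) y (Q w v)

theorem TwoParS.sub {S' : PCl m} (hs : ∀ (τ : ℝ) (J : ℕ) (F : Fam m J) (A : F.Ω → Prop),
    S'.St τ J F A → S.St τ J F A) {Q : ℚ → ℚ → Qt m U} {A B lam : ℝ}
    (h : TwoParS S f y s Q A B lam) : TwoParS S' f y s Q A B lam where
  exs w o a b c d := (h.exs w o a b c d).sub hs
  row w v o a b c d e := (h.row w v o a b c d e).sub hs
  chg w v o a b c d e := (h.chg w v o a b c d e).sub hs
  own w v a b c d := (h.own w v a b c d).sub hs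

/-- **Products.** -/
theorem TwoParS.prod
    (hpos : ∀ (τ : ℝ) (J : ℕ) (F : Fam m J) (A : F.Ω → Prop), S.St τ J F A → 0 < Pe F.p A)
    {Q₁ : ℚ → ℚ → Qt m U₁} {Q₂ : ℚ → ℚ → Qt m U₂} {A B lam : ℝ}
    (h₁ : TwoParS S f y s Q₁ A B lam) (h₂ : TwoParS S f y s Q₂ A B lam) :
    TwoParS S f y s (fun w o => (Q₁ w o).prod (Q₂ w o)) A B lam where
  exs w o a b c d := (h₁.exs w o a b c d).prod (h₂.exs w o a b c d)
  row w v o a b c d e := Few.prod hpos (h₁.row w v o a b c d e) (h₂.row w v o a b c d e)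
  chg w v o a b c d e := Few.prod hpos (h₁.chg w v o a b c d e) (h₂.chg w v o a b c d e)
  own w v a b c d := Few0.pair hpos (h₁.own w v a b c d) (h₂.own w v a b c d)

/-- A smaller interval and smaller steps. -/
theorem TwoParS.mono {Q : ℚ → ℚ → Qt m U} {A A' B B' lam lam' : ℝ} (h : TwoParS S f y s Q A B lam)
    (hA : A ≤ A') (hB : B' ≤ B) (hl : lam' ≤ lam) : TwoParS S f y s Q A' B' lam' where
  exs w o a b c d := h.exs w o (by linarith) b (by linarith) (by linarith)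
  row w v o a b c d e := h.row w v o (by linarith) b c (by linarith) (by linarith)
  chg w v o a b c d e := h.chg w v o (by linarith) b c (by linarith) (by linarith)
  own w v a b c d := h.own w v (by linarith) b (by linarith) (by linarith)

/-- The numbers of a two-parameter family: `θ w o` is the number of `Q w o` given the record at the
window `w` and `y`. -/
def TNumS (S : PCl m) (f : ∀ (J : ℕ) (F : Fam m J), F.Ω → α J F)
    (y : ∀ (J : ℕ) (F : Fam m J), F.Ω → γ J F) (s : ℝ) (Q : ℚ → ℚ → Qt m U) (A B lam : ℝ)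
    (θ : ℚ → ℚ → ℝ) : Prop :=
  ∀ w o : ℚ, A < w → w ≤ o → (o : ℝ) < B → (o : ℝ) < w + lam →
    NN S f (vg ((w : ℝ) + s)) y (Q w o) (θ w o)

theorem TNumS.sub {S' : PCl m} (hs : ∀ (τ : ℝ) (J : ℕ) (F : Fam m J) (A : F.Ω → Prop),
    S'.St τ J F A → S.St τ J F A) {Q : ℚ → ℚ → Qt m U} {A B lam : ℝ} {θ : ℚ → ℚ → ℝ}
    (h : TNumS S f y s Q A B lam θ) : TNumS S' f y s Q A B lam θ :=
  fun w o a b c d => (h w o a b c d).sub hs

/-- **The numbers are nonnegative and superadditive.** -/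
theorem TNumS.super (hS : S.Ne)
    (hpos : ∀ (τ : ℝ) (J : ℕ) (F : Fam m J) (A : F.Ω → Prop), S.St τ J F A → 0 < Pe F.p A)
    {Q : ℚ → ℚ → Qt m U} {A B lam : ℝ} (hB : B + s ≤ 1)
    (hη : ∀ w : ℚ, A < w → (w : ℝ) < B → ∃ η, RNum S f (vg ((w : ℝ) + s)) η)
    (h : TwoParS S f y s Q A B lam) {θ : ℚ → ℚ → ℝ} (hθ : TNumS S f y s Q A B lam θ) :
    (∀ w o : ℚ, A < w → w ≤ o → (o : ℝ) < B → (o : ℝ) < w + lam → 0 ≤ θ w o) ∧
    ∀ w v o : ℚ, A < w → w ≤ v → v ≤ o → (o : ℝ) < B → (o : ℝ) < w + lam →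
      θ w v + θ v o ≤ θ w o := by
  constructor
  · intro w o a b c d
    have b' : (w : ℝ) ≤ o := by exact_mod_cast b
    obtain ⟨η, hη⟩ := hη w a (by linarith)
    exact (hθ w o a b c d).nonneg hS hpos hη (h.exs w o a b c d)
  · intro w v o a b c d e
    have b' : (w : ℝ) ≤ v := by exact_mod_cast b
    have c' : (v : ℝ) ≤ o := by exact_mod_cast c
    obtain ⟨η, hη₁⟩ := hη w a (by linarith)
    obtain ⟨η', hη₂⟩ := hη v (by linarith) (by linarith)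
    refine NN.super (η := η) (η' := η') hS hpos (fun J F => ⟨fun x => x, fun _ => rfl⟩)
      (fun J F => ?_) hη₁ hη₂ (hθ w o a (b.trans c) d e) (hθ w v a b (by linarith) (by linarith))
      (hθ v o (by linarith) c d (by linarith)) (h.exs w o a (b.trans c) d e)
      (h.exs w v a b (by linarith) (by linarith)) (h.exs v o (by linarith) c d (by linarith))
      (h.row w v o a b c d e) (h.own w v a b (by linarith) (by linarith)) (h.chg w v o a b c d e)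
    exact vg_mono (by linarith) (by linarith) J F

open Set MeasureTheory in
/-- **Additive in the boxes of almost every point.** -/
theorem TNumS.ae (hS : S.Ne)
    (hpos : ∀ (τ : ℝ) (J : ℕ) (F : Fam m J) (A : F.Ω → Prop), S.St τ J F A → 0 < Pe F.p A)
    {Q : ℚ → ℚ → Qt m U} {A B lam : ℝ} (hB : B + s ≤ 1) (hlam : 0 < lam)
    (hη : ∀ w : ℚ, A < w → (w : ℝ) < B → ∃ η, RNum S f (vg ((w : ℝ) + s)) η)
    (h : TwoParS S f y s Q A B lam) {θ : ℚ → ℚ → ℝ} (hθ : TNumS S f y s Q A B lam θ) :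
    ∀ᵐ g : ℝ, g ∈ Ioo A B → ∀ e : ℝ, 0 < e → ∃ r₀ : ℝ, 0 < r₀ ∧ ∀ r : ℝ, 0 < r → r < r₀ →
      ∀ w v o : ℚ, g - r ≤ w → w ≤ v → v ≤ o → (o : ℝ) ≤ g + r →
        θ w o - θ w v - θ v o ≤ e * r := by
  obtain ⟨h0, h2⟩ := hθ.super hS hpos hB hη h
  exact la_ae2 hlam h0 h2

/-- **One subclass with the numbers of countably many two-parameter families.** -/
theorem la_clsS {ι : Type} [Countable ι] (hS : S.Ne)
    (hpos : ∀ (τ : ℝ) (J : ℕ) (F : Fam m J) (A : F.Ω → Prop), S.St τ J F A → 0 < Pe F.p A)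
    (U : ι → Type) (α γ : ι → ∀ J : ℕ, Fam m J → Type)
    (f : ∀ (i : ι) (J : ℕ) (F : Fam m J), F.Ω → α i J F)
    (y : ∀ (i : ι) (J : ℕ) (F : Fam m J), F.Ω → γ i J F) (s : ι → ℝ)
    (Q : ∀ i, ℚ → ℚ → Qt m (U i))
    (A B lam : ι → ℝ) (h : ∀ i, TwoParS S (f i) (y i) (s i) (Q i) (A i) (B i) (lam i)) :
    ∃ S' : PCl m, S'.Ne ∧
      (∀ (τ : ℝ) (J : ℕ) (F : Fam m J) (A : F.Ω → Prop), S'.St τ J F A → S.St τ J F A) ∧
      ∀ i, ∃ θ : ℚ → ℚ → ℝ, TNumS S' (f i) (y i) (s i) (Q i) (A i) (B i) (lam i) θ := by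
  classical
  obtain ⟨κ, hκ⟩ : ∃ κ : Type, κ = {x : ι × ℚ × ℚ // A x.1 < x.2.1 ∧ x.2.1 ≤ x.2.2 ∧
    (x.2.2 : ℝ) < B x.1 ∧ (x.2.2 : ℝ) < x.2.1 + lam x.1} := ⟨_, rfl⟩
  subst hκ
  obtain ⟨S', h1, h2, h3⟩ := nn_ext_ct hS hpos (fun x : {x : ι × ℚ × ℚ // A x.1 < x.2.1 ∧
      x.2.1 ≤ x.2.2 ∧ (x.2.2 : ℝ) < B x.1 ∧ (x.2.2 : ℝ) < x.2.1 + lam x.1} => U x.1.1)
    (fun x => α x.1.1) (fun x J F => LnT F) (fun x => γ x.1.1) (fun x => f x.1.1)
    (fun x => vg ((x.1.2.1 : ℝ) + s x.1.1)) (fun x => y x.1.1) (fun x => Q x.1.1 x.1.2.1 x.1.2.2)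
    (fun x => (h x.1.1).exs _ _ x.2.1 x.2.2.1 x.2.2.2.1 x.2.2.2.2)
    (fun x => (h x.1.1).row _ _ _ x.2.1 x.2.2.1 le_rfl x.2.2.2.1 x.2.2.2.2)
  refine ⟨S', h1, h2, fun i => ?_⟩
  choose θ hθ using h3
  refine ⟨fun w o => if hx : A i < w ∧ w ≤ o ∧ (o : ℝ) < B i ∧ (o : ℝ) < w + lam i then
    θ ⟨(i, w, o), hx⟩ else 0, fun w o a b c d => ?_⟩
  have hx : A i < w ∧ w ≤ o ∧ (o : ℝ) < B i ∧ (o : ℝ) < w + lam i := ⟨a, b, c, d⟩
  simp only [hx, and_self, dif_pos]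
  exact hθ ⟨(i, w, o), hx⟩

/-- **No look-ahead**: at the windows `w ≤ v ≤ o`, the record at `v` does not see the quantity
behind `v`, up to the defect `θ w o - θ w v - θ v o`. -/
theorem TwoParS.la
    (hpos : ∀ (τ : ℝ) (J : ℕ) (F : Fam m J) (A : F.Ω → Prop), S.St τ J F A → 0 < Pe F.p A)
    {Q : ℚ → ℚ → Qt m U} {A B lam : ℝ} (h : TwoParS S f y s Q A B lam) {θ : ℚ → ℚ → ℝ}
    (hθ : TNumS S f y s Q A B lam θ) {w v o : ℚ} (h1 : A < w) (h2 : w ≤ v) (h3 : v ≤ o)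
    (h4 : (o : ℝ) < B) (h5 : (o : ℝ) < w + lam) (c : ℝ) (hc : 0 < c) :
    ∃ k : ℝ, 0 < k ∧ ∃ e₀ : ℝ, 0 < e₀ ∧ ∀ K : ℕ, Bas S (fun J F A =>
      ∀ (V : Type) (z : F.Ω → V) (V' : Type) (z' : F.Ω → V'), Mx f (vg ((w : ℝ) + s)) k F A z →
      Mx f (vg ((v : ℝ) + s)) k F A z' → ∀ u u₁, (Q w o).P K e₀ J F A u → (Q w v).P K e₀ J F A u₁ →
      CH (Pool.Agent.H49.Ent.cond F.p A True) u (fun ω => (u₁ ω, (z ω, y J F ω))) ≤
        CH (Pool.Agent.H49.Ent.cond F.p A True) u (fun ω => (z' ω, y J F ω)) +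
          (θ w o - θ w v - θ v o + c) * J) := by
  have h2' : (w : ℝ) ≤ v := by exact_mod_cast h2
  have h3' : (v : ℝ) ≤ o := by exact_mod_cast h3
  exact NN.nla hpos (hθ w o h1 (h2.trans h3) h4 h5) (hθ w v h1 h2 (by linarith) (by linarith))
    (hθ v o (by linarith) h3 h4 (by linarith)) (h.exs v o (by linarith) h3 h4 (by linarith))
    (h.row w v o h1 h2 h3 h4 h5) (h.chg w v o h1 h2 h3 h4 h5) c hc

/-- **A relative two-parameter family** at the rational windows of `(A, B)`, with steps less than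
`lam`. -/
structure TwoRelS (S : PCl m) (f : ∀ (J : ℕ) (F : Fam m J), F.Ω → α J F)
    (y : ∀ (J : ℕ) (F : Fam m J), F.Ω → γ J F) (s : ℝ) (Q₀ : ℚ → Qt m U₀)
    (Q : ℚ → ℚ → Qt m U) (A B lam : ℝ) : Prop where
  exs₀ : ∀ w : ℚ, A < w → (w : ℝ) < B → Exs S (Q₀ w)
  exs : ∀ w o : ℚ, A < w → w ≤ o → (o : ℝ) < B → (o : ℝ) < w + lam → Exs S (Q w o)
  tr : ∀ w v : ℚ, A < w → w ≤ v → (v : ℝ) < B → (v : ℝ) < w + lam →
    Few S f (vg ((v : ℝ) + s)) y (Q₀ v) (Q₀ w)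
  row : ∀ w v o : ℚ, A < w → w ≤ v → v ≤ o → (o : ℝ) < B → (o : ℝ) < w + lam →
    Few S f (vg ((w : ℝ) + s)) y ((Q₀ w).prod (Q w o)) (Q w v)
  chg : ∀ w v o : ℚ, A < w → w ≤ v → v ≤ o → (o : ℝ) < B → (o : ℝ) < w + lam →
    Few S f (vg ((v : ℝ) + s)) y ((Q₀ w).prod (Q w o)) (Q v o)
  own : ∀ w v : ℚ, A < w → w ≤ v → (v : ℝ) < B → (v : ℝ) < w + lam →
    Few S f (vg ((v : ℝ) + s)) y (Q₀ w) (Q w v)

theorem TwoRelS.sub {S' : PCl m} (hs : ∀ (τ : ℝ) (J : ℕ) (F : Fam m J) (A : F.Ω → Prop),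
    S'.St τ J F A → S.St τ J F A) {Q₀ : ℚ → Qt m U₀} {Q : ℚ → ℚ → Qt m U} {A B lam : ℝ}
    (h : TwoRelS S f y s Q₀ Q A B lam) : TwoRelS S' f y s Q₀ Q A B lam where
  exs₀ w a b := (h.exs₀ w a b).sub hs
  exs w o a b c d := (h.exs w o a b c d).sub hs
  tr w v a b c d := (h.tr w v a b c d).sub hs
  row w v o a b c d e := (h.row w v o a b c d e).sub hs
  chg w v o a b c d e := (h.chg w v o a b c d e).sub hs
  own w v a b c d := (h.own w v a b c d).sub hs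

/-- A smaller interval and smaller steps. -/
theorem TwoRelS.mono {Q₀ : ℚ → Qt m U₀} {Q : ℚ → ℚ → Qt m U} {A A' B B' lam lam' : ℝ}
    (h : TwoRelS S f y s Q₀ Q A B lam) (hA : A ≤ A') (hB : B' ≤ B) (hl : lam' ≤ lam) :
    TwoRelS S f y s Q₀ Q A' B' lam' where
  exs₀ w a b := h.exs₀ w (by linarith) (by linarith)
  exs w o a b c d := h.exs w o (by linarith) b (by linarith) (by linarith)
  tr w v a b c d := h.tr w v (by linarith) b (by linarith) (by linarith)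
  row w v o a b c d e := h.row w v o (by linarith) b c (by linarith) (by linarith)
  chg w v o a b c d e := h.chg w v o (by linarith) b c (by linarith) (by linarith)
  own w v a b c d := h.own w v (by linarith) b (by linarith) (by linarith)

/-- **Products.** -/
theorem TwoRelS.prod
    (hpos : ∀ (τ : ℝ) (J : ℕ) (F : Fam m J) (A : F.Ω → Prop), S.St τ J F A → 0 < Pe F.p A)
    {Q₀ : ℚ → Qt m U₀} {Q₁ : ℚ → ℚ → Qt m U₁} {Q₂ : ℚ → ℚ → Qt m U₂} {A B lam : ℝ}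
    (h₁ : TwoRelS S f y s Q₀ Q₁ A B lam) (h₂ : TwoRelS S f y s Q₀ Q₂ A B lam) :
    TwoRelS S f y s Q₀ (fun w o => (Q₁ w o).prod (Q₂ w o)) A B lam where
  exs₀ := h₁.exs₀
  exs w o a b c d := (h₁.exs w o a b c d).prod (h₂.exs w o a b c d)
  tr := h₁.tr
  row w v o a b c d e := Few.pair hpos (few_pr1 hpos (h₁.row w v o a b c d e))
    (few_pr2 hpos (h₂.row w v o a b c d e))
  chg w v o a b c d e := Few.pair hpos (few_pr1 hpos (h₁.chg w v o a b c d e))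
    (few_pr2 hpos (h₂.chg w v o a b c d e))
  own w v a b c d := Few.pair hpos (h₁.own w v a b c d) (h₂.own w v a b c d)

/-- **An absolute family is a relative family**, for every condition whose change of charts is few
bits. -/
theorem TwoParS.rel
    (hpos : ∀ (τ : ℝ) (J : ℕ) (F : Fam m J) (A : F.Ω → Prop), S.St τ J F A → 0 < Pe F.p A)
    {Q₀ : ℚ → Qt m U₀} {Q : ℚ → ℚ → Qt m U} {A B lam : ℝ} (h : TwoParS S f y s Q A B lam)
    (x₀ : ∀ w : ℚ, A < w → (w : ℝ) < B → Exs S (Q₀ w))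
    (t : ∀ w v : ℚ, A < w → w ≤ v → (v : ℝ) < B → (v : ℝ) < w + lam →
      Few S f (vg ((v : ℝ) + s)) y (Q₀ v) (Q₀ w)) : TwoRelS S f y s Q₀ Q A B lam where
  exs₀ := x₀
  exs := h.exs
  tr := t
  row w v o a b c d e := Few.snd hpos (h.row w v o a b c d e)
  chg w v o a b c d e := Few.snd hpos (h.chg w v o a b c d e)
  own w v a b c d := Few0.few hpos (h.own w v a b c d)

/-- **The relative numbers**: `θ w o` is the number of `Q w o` given the record at the window `w`,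
`y` and `Q₀ w`. -/
structure TRelS (S : PCl m) (f : ∀ (J : ℕ) (F : Fam m J), F.Ω → α J F)
    (y : ∀ (J : ℕ) (F : Fam m J), F.Ω → γ J F) (s : ℝ) (Q₀ : ℚ → Qt m U₀)
    (Q : ℚ → ℚ → Qt m U) (A B lam : ℝ) (θ₀ : ℚ → ℝ) (θ : ℚ → ℚ → ℝ) : Prop where
  n₀ : ∀ w : ℚ, A < w → (w : ℝ) < B → NN S f (vg ((w : ℝ) + s)) y (Q₀ w) (θ₀ w)
  n : ∀ w o : ℚ, A < w → w ≤ o → (o : ℝ) < B → (o : ℝ) < w + lam →
    NN S f (vg ((w : ℝ) + s)) y ((Q₀ w).prod (Q w o)) (θ₀ w + θ w o)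

theorem TRelS.sub {S' : PCl m} (hs : ∀ (τ : ℝ) (J : ℕ) (F : Fam m J) (A : F.Ω → Prop),
    S'.St τ J F A → S.St τ J F A) {Q₀ : ℚ → Qt m U₀} {Q : ℚ → ℚ → Qt m U} {A B lam : ℝ}
    {θ₀ : ℚ → ℝ} {θ : ℚ → ℚ → ℝ} (h : TRelS S f y s Q₀ Q A B lam θ₀ θ) :
    TRelS S' f y s Q₀ Q A B lam θ₀ θ :=
  ⟨fun w a b => (h.n₀ w a b).sub hs, fun w o a b c d => (h.n w o a b c d).sub hs⟩

/-- **The relative numbers are nonnegative and superadditive.** -/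
theorem TRelS.super (hS : S.Ne)
    (hpos : ∀ (τ : ℝ) (J : ℕ) (F : Fam m J) (A : F.Ω → Prop), S.St τ J F A → 0 < Pe F.p A)
    {Q₀ : ℚ → Qt m U₀} {Q : ℚ → ℚ → Qt m U} {A B lam : ℝ} (hB : B + s ≤ 1)
    (hη : ∀ w : ℚ, A < w → (w : ℝ) < B → ∃ η, RNum S f (vg ((w : ℝ) + s)) η)
    (h : TwoRelS S f y s Q₀ Q A B lam) {θ₀ : ℚ → ℝ} {θ : ℚ → ℚ → ℝ}
    (hθ : TRelS S f y s Q₀ Q A B lam θ₀ θ) :
    (∀ w o : ℚ, A < w → w ≤ o → (o : ℝ) < B → (o : ℝ) < w + lam → 0 ≤ θ w o) ∧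
    ∀ w v o : ℚ, A < w → w ≤ v → v ≤ o → (o : ℝ) < B → (o : ℝ) < w + lam →
      θ w v + θ v o ≤ θ w o := by
  constructor
  · intro w o a b c d
    have b' : (w : ℝ) ≤ o := by exact_mod_cast b
    obtain ⟨η, hη⟩ := hη w a (by linarith)
    have h1 := NN.rnonneg hS hpos hη (hθ.n₀ w a (by linarith)) (hθ.n w o a b c d)
      (h.exs₀ w a (by linarith)) (h.exs w o a b c d)
    linarith
  · intro w v o a b c d e
    have b' : (w : ℝ) ≤ v := by exact_mod_cast b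
    have c' : (v : ℝ) ≤ o := by exact_mod_cast c
    obtain ⟨η, hη₁⟩ := hη w a (by linarith)
    obtain ⟨η', hη₂⟩ := hη v (by linarith) (by linarith)
    have h1 := NN.rsuper (η := η) (η' := η') hS hpos (fun J F => ⟨fun x => x, fun _ => rfl⟩)
      (fun J F => vg_mono (by linarith) (by linarith) J F) hη₁ hη₂ (hθ.n₀ w a (by linarith))
      (hθ.n w o a (b.trans c) d e) (hθ.n w v a b (by linarith) (by linarith))
      (hθ.n₀ v (by linarith) (by linarith)) (hθ.n v o (by linarith) c d (by linarith))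
      (h.exs₀ w a (by linarith)) (h.exs w o a (b.trans c) d e)
      (h.exs w v a b (by linarith) (by linarith)) (h.exs₀ v (by linarith) (by linarith))
      (h.exs v o (by linarith) c d (by linarith)) (h.row w v o a b c d e)
      (h.tr w v a b (by linarith) (by linarith)) (h.own w v a b (by linarith) (by linarith))
      (h.chg w v o a b c d e)
    linarith

open Set MeasureTheory in
/-- **Additive in the boxes of almost every point.** -/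
theorem TRelS.ae (hS : S.Ne)
    (hpos : ∀ (τ : ℝ) (J : ℕ) (F : Fam m J) (A : F.Ω → Prop), S.St τ J F A → 0 < Pe F.p A)
    {Q₀ : ℚ → Qt m U₀} {Q : ℚ → ℚ → Qt m U} {A B lam : ℝ} (hB : B + s ≤ 1) (hlam : 0 < lam)
    (hη : ∀ w : ℚ, A < w → (w : ℝ) < B → ∃ η, RNum S f (vg ((w : ℝ) + s)) η)
    (h : TwoRelS S f y s Q₀ Q A B lam) {θ₀ : ℚ → ℝ} {θ : ℚ → ℚ → ℝ}
    (hθ : TRelS S f y s Q₀ Q A B lam θ₀ θ) :
    ∀ᵐ g : ℝ, g ∈ Ioo A B → ∀ e : ℝ, 0 < e → ∃ r₀ : ℝ, 0 < r₀ ∧ ∀ r : ℝ, 0 < r → r < r₀ →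
      ∀ w v o : ℚ, g - r ≤ w → w ≤ v → v ≤ o → (o : ℝ) ≤ g + r →
        θ w o - θ w v - θ v o ≤ e * r := by
  obtain ⟨h0, h2⟩ := hθ.super hS hpos hB hη h
  exact la_ae2 hlam h0 h2

/-- **One subclass with the numbers of countably many relative families.** -/
theorem rel_clsS {ι : Type} [Countable ι] (hS : S.Ne)
    (hpos : ∀ (τ : ℝ) (J : ℕ) (F : Fam m J) (A : F.Ω → Prop), S.St τ J F A → 0 < Pe F.p A)
    (U₀ U : ι → Type) (α γ : ι → ∀ J : ℕ, Fam m J → Type)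
    (f : ∀ (i : ι) (J : ℕ) (F : Fam m J), F.Ω → α i J F)
    (y : ∀ (i : ι) (J : ℕ) (F : Fam m J), F.Ω → γ i J F) (s : ι → ℝ)
    (Q₀ : ∀ i, ℚ → Qt m (U₀ i))
    (Q : ∀ i, ℚ → ℚ → Qt m (U i)) (A B lam : ι → ℝ)
    (h : ∀ i, TwoRelS S (f i) (y i) (s i) (Q₀ i) (Q i) (A i) (B i) (lam i)) (hlam : ∀ i, 0 < lam i) :
    ∃ S' : PCl m, S'.Ne ∧
      (∀ (τ : ℝ) (J : ℕ) (F : Fam m J) (A : F.Ω → Prop), S'.St τ J F A → S.St τ J F A) ∧
      ∀ i, ∃ (θ₀ : ℚ → ℝ) (θ : ℚ → ℚ → ℝ),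
        TRelS S' (f i) (y i) (s i) (Q₀ i) (Q i) (A i) (B i) (lam i) θ₀ θ := by
  classical
  obtain ⟨S₁, h1, h2, h3⟩ := nn_ext_ct hS hpos (ι := {x : ι × ℚ // A x.1 < x.2 ∧
      (x.2 : ℝ) < B x.1}) (fun x => U₀ x.1.1)
    (fun x => α x.1.1) (fun x J F => LnT F) (fun x => γ x.1.1) (fun x => f x.1.1)
    (fun x => vg ((x.1.2 : ℝ) + s x.1.1)) (fun x => y x.1.1) (fun x => Q₀ x.1.1 x.1.2)
    (fun x => (h x.1.1).exs₀ _ x.2.1 x.2.2)
    (fun x => (h x.1.1).tr _ _ x.2.1 le_rfl x.2.2 (by linarith [hlam x.1.1]))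
  have hpos₁ : ∀ (τ : ℝ) (J : ℕ) (F : Fam m J) (A : F.Ω → Prop), S₁.St τ J F A → 0 < Pe F.p A :=
    fun τ J F A h => hpos τ J F A (h2 τ J F A h)
  obtain ⟨S', g1, g2, g3⟩ := nn_ext_ct h1 hpos₁ (ι := {x : ι × ℚ × ℚ // A x.1 < x.2.1 ∧
      x.2.1 ≤ x.2.2 ∧ (x.2.2 : ℝ) < B x.1 ∧ (x.2.2 : ℝ) < x.2.1 + lam x.1})
    (fun x => U₀ x.1.1 × U x.1.1)
    (fun x => α x.1.1) (fun x J F => LnT F) (fun x => γ x.1.1) (fun x => f x.1.1)
    (fun x => vg ((x.1.2.1 : ℝ) + s x.1.1)) (fun x => y x.1.1)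
    (fun x => (Q₀ x.1.1 x.1.2.1).prod (Q x.1.1 x.1.2.1 x.1.2.2))
    (fun x => by
      have b' : ((x.1.2.1 : ℚ) : ℝ) ≤ x.1.2.2 := by exact_mod_cast x.2.2.1
      exact (((h x.1.1).exs₀ _ x.2.1 (by linarith [x.2.2.2.1])).prod
        ((h x.1.1).exs _ _ x.2.1 x.2.2.1 x.2.2.2.1 x.2.2.2.2)).sub h2)
    (fun x => by
      have b' : ((x.1.2.1 : ℚ) : ℝ) ≤ x.1.2.2 := by exact_mod_cast x.2.2.1
      refine Few.sub h2 (Few.pair hpos (Few.fst hpos ((h x.1.1).tr _ _ x.2.1 le_rfl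
        (by linarith [x.2.2.2.1]) (by linarith [hlam x.1.1])))
        ((h x.1.1).row _ _ _ x.2.1 x.2.2.1 le_rfl x.2.2.2.1 x.2.2.2.2)))
  choose θ hθ using h3
  choose θ' hθ' using g3
  refine ⟨S', g1, fun τ J F A hA => h2 τ J F A (g2 τ J F A hA), fun i => ?_⟩
  refine ⟨fun w => if hx : A i < w ∧ (w : ℝ) < B i then θ ⟨(i, w), hx⟩ else 0,
    fun w o => (if hx : A i < w ∧ w ≤ o ∧ (o : ℝ) < B i ∧ (o : ℝ) < w + lam i then
    θ' ⟨(i, w, o), hx⟩ else 0) - (if hx : A i < w ∧ (w : ℝ) < B i then θ ⟨(i, w), hx⟩ else 0),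
    fun w a b => ?_, fun w o a b c d => ?_⟩
  · have hx : A i < w ∧ (w : ℝ) < B i := ⟨a, b⟩
    simp only [hx, and_self, dif_pos]
    exact (hθ ⟨(i, w), hx⟩).sub g2
  · have b' : (w : ℝ) ≤ o := by exact_mod_cast b
    have hx : A i < w ∧ w ≤ o ∧ (o : ℝ) < B i ∧ (o : ℝ) < w + lam i := ⟨a, b, c, d⟩
    have hx' : A i < w ∧ (w : ℝ) < B i := ⟨a, by linarith⟩
    simp only [hx, hx', and_self, dif_pos]
    have h5 := hθ' ⟨(i, w, o), hx⟩
    have e : θ ⟨(i, w), hx'⟩ + (θ' ⟨(i, w, o), hx⟩ - θ ⟨(i, w), hx'⟩) = θ' ⟨(i, w, o), hx⟩ := by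
      ring
    rw [e]
    exact h5

/-- **No look-ahead**, relative form: at the windows `w ≤ v ≤ o`, the record at `v` does not see
the quantity behind `v`, given `Q₀ w`, up to the defect `θ w o - θ w v - θ v o`. -/
theorem TwoRelS.la
    (hpos : ∀ (τ : ℝ) (J : ℕ) (F : Fam m J) (A : F.Ω → Prop), S.St τ J F A → 0 < Pe F.p A)
    {Q₀ : ℚ → Qt m U₀} {Q : ℚ → ℚ → Qt m U} {A B lam : ℝ} (h : TwoRelS S f y s Q₀ Q A B lam)
    {θ₀ : ℚ → ℝ} {θ : ℚ → ℚ → ℝ} (hθ : TRelS S f y s Q₀ Q A B lam θ₀ θ) {w v o : ℚ} (h1 : A < w)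
    (h2 : w ≤ v) (h3 : v ≤ o) (h4 : (o : ℝ) < B) (h5 : (o : ℝ) < w + lam) (c : ℝ) (hc : 0 < c) :
    ∃ k : ℝ, 0 < k ∧ ∃ e₀ : ℝ, 0 < e₀ ∧ ∀ K : ℕ, Bas S (fun J F A =>
      ∀ (V : Type) (z : F.Ω → V) (V' : Type) (z' : F.Ω → V'), Mx f (vg ((w : ℝ) + s)) k F A z →
      Mx f (vg ((v : ℝ) + s)) k F A z' → ∀ u₀ u u₁, (Q₀ w).P K e₀ J F A u₀ →
      (Q w o).P K e₀ J F A u → (Q w v).P K e₀ J F A u₁ →
      CH (Pool.Agent.H49.Ent.cond F.p A True) u (fun ω => (u₁ ω, (u₀ ω, (z ω, y J F ω)))) ≤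
        CH (Pool.Agent.H49.Ent.cond F.p A True) u (fun ω => (u₀ ω, (z' ω, y J F ω))) +
          (θ w o - θ w v - θ v o + c) * J) := by
  have h2' : (w : ℝ) ≤ v := by exact_mod_cast h2
  have h3' : (v : ℝ) ≤ o := by exact_mod_cast h3
  obtain ⟨k, hk, e₀, he₀, H⟩ := NN.rla hpos (hθ.n₀ w h1 (by linarith))
    (hθ.n w o h1 (h2.trans h3) h4 h5) (hθ.n w v h1 h2 (by linarith) (by linarith))
    (hθ.n₀ v (by linarith) (by linarith)) (hθ.n v o (by linarith) h3 h4 (by linarith))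
    (h.exs₀ v (by linarith) (by linarith)) (h.exs v o (by linarith) h3 h4 (by linarith))
    (h.row w v o h1 h2 h3 h4 h5) (h.tr w v h1 h2 (by linarith) (by linarith))
    (h.chg w v o h1 h2 h3 h4 h5) c hc
  refine ⟨k, hk, e₀, he₀, fun K => Bas.mono 0 (H K) ?_⟩
  intro J _ F A H V z V' z' hz hz' u₀ u u₁ hu₀ hu hu₁
  refine (H V z V' z' hz hz' u₀ u u₁ hu₀ hu hu₁).trans (le_of_eq ?_)
  ring

/-! ### Shifts -/

open MeasureTheory in
/-- Statements at almost every point can be shifted. -/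
theorem ae_shift {P : ℝ → Prop} (h : ∀ᵐ γ : ℝ, P γ) (s : ℝ) : ∀ᵐ g : ℝ, P (g - s) :=
  (measurePreserving_sub_right (volume : Measure ℝ) s).quasiMeasurePreserving.ae h

/-- **A shift avoids a countable set of windows.** -/
theorem exists_shift {D : Set ℝ} (hD : D.Countable) {ε : ℝ} (hε : 0 < ε) :
    ∃ s : ℝ, 0 < s ∧ s < ε ∧ ∀ q : ℚ, (q : ℝ) + s ∉ D := by
  have h1 : (⋃ q : ℚ, (fun x : ℝ => x - q) '' D).Countable :=
    Set.countable_iUnion fun q => hD.image _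
  obtain ⟨s, hs1, hs2⟩ : ∃ s ∈ Set.Ioo (0 : ℝ) ε, s ∉ ⋃ q : ℚ, (fun x : ℝ => x - q) '' D := by
    by_contra hcon
    have h2 : Set.Ioo (0 : ℝ) ε ⊆ ⋃ q : ℚ, (fun x : ℝ => x - q) '' D := by
      intro s hs
      by_contra h
      exact hcon ⟨s, hs, h⟩
    have h3 := h1.mono h2
    have h4 : ¬ (Set.Ioo (0 : ℝ) ε).Countable := by
      intro h
      have h5 := MeasureTheory.measure_mono_null (μ := MeasureTheory.volume) (le_refl _)
        (h.measure_zero MeasureTheory.volume)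
      rw [Real.volume_Ioo] at h5
      simp only [ENNReal.ofReal_eq_zero] at h5
      linarith
    exact h4 h3
  refine ⟨s, hs1.1, hs1.2, fun q hq => hs2 (Set.mem_iUnion.2 ⟨q, (q : ℝ) + s, hq, ?_⟩)⟩
  simp

end Pool.OWN83
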