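import Pool.Agent.H83.OWN.AddS

/-!
# Near digits of the position, given the velocity, in a class

`FinRel`: a relative family at a finite list of real windows. `near_fin`: on all large parts of an
event, with the records of the event, the digits of `QX` between the balls `j` and `j'` have
`θJ j j' - θD j j'` bits, given the digits to the ball `j`, the velocity `QD` to a deeper ball and
the records; `θJ`, `θD` are the numbers of `(QX, QD)` and of `QD`.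
-/

set_option autoImplicit false

namespace Pool.OWN83

open Finset Real
open Pool.Agent.H49.Ent Pool.Agent.H32.Dense Pool.STK Pool.KA Pool.KSAT Pool.K2S Pool.PB Pool.S6C
  Pool.GEN Pool.RCD Pool.LA91

variable {m : ℕ} {U₀ U U₁ U₂ : Type} {α γ : ∀ J : ℕ, Fam m J → Type}
  {f : ∀ (J : ℕ) (F : Fam m J), F.Ω → α J F} {y : ∀ (J : ℕ) (F : Fam m J), F.Ω → γ J F}
  {S : PCl m} {ι : Type}

/-- **A relative family at finitely many real windows.** -/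
structure FinRel (S : PCl m) (f : ∀ (J : ℕ) (F : Fam m J), F.Ω → α J F)
    (y : ∀ (J : ℕ) (F : Fam m J), F.Ω → γ J F) (x : ι → ℝ) (Q₀ : Qt m U₀)
    (Q : ι → ι → Qt m U) : Prop where
  exs : ∀ i j, x i ≤ x j → Exs S (Q i j)
  row : ∀ i j k, x i ≤ x j → x j ≤ x k → Few S f (vg (x i)) y (Q₀.prod (Q i k)) (Q i j)
  chg : ∀ i j k, x i ≤ x j → x j ≤ x k → Few S f (vg (x j)) y (Q₀.prod (Q i k)) (Q j k)
  own : ∀ i j, x i ≤ x j → Few S f (vg (x j)) y Q₀ (Q i j)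

theorem FinRel.prod
    (hpos : ∀ (τ : ℝ) (J : ℕ) (F : Fam m J) (A : F.Ω → Prop), S.St τ J F A → 0 < Pe F.p A)
    {x : ι → ℝ} {Q₀ : Qt m U₀} {Q₁ : ι → ι → Qt m U₁} {Q₂ : ι → ι → Qt m U₂}
    (h₁ : FinRel S f y x Q₀ Q₁) (h₂ : FinRel S f y x Q₀ Q₂) :
    FinRel S f y x Q₀ (fun i j => (Q₁ i j).prod (Q₂ i j)) where
  exs i j a := (h₁.exs i j a).prod (h₂.exs i j a)
  row i j k a b := Few.pair hpos (few_pr1 hpos (h₁.row i j k a b))
    (few_pr2 hpos (h₂.row i j k a b))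
  chg i j k a b := Few.pair hpos (few_pr1 hpos (h₁.chg i j k a b))
    (few_pr2 hpos (h₂.chg i j k a b))
  own i j a := Few.pair hpos (h₁.own i j a) (h₂.own i j a)

/-- The restriction of a family of a class. -/
theorem TwoRelS.fin {s : ℝ} {Q₀ : Qt m U₀} {Q : ℚ → ℚ → Qt m U} {A B lam : ℝ}
    (h : TwoRelS S f y s (fun _ => Q₀) Q A B lam) (x : ι → ℚ) (hxA : ∀ i, A < x i)
    (hxB : ∀ i, (x i : ℝ) < B) (hxl : ∀ i j, (x j : ℝ) < x i + lam) :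
    FinRel S f y (fun i => (x i : ℝ) + s) Q₀ (fun i j => Q (x i) (x j)) := by
  have hx : ∀ {i j : ι}, (x i : ℝ) + s ≤ (x j : ℝ) + s → x i ≤ x j := fun {i j} h => by
    have h1 : (x i : ℝ) ≤ x j := by linarith
    exact_mod_cast h1
  exact ⟨fun i j a => h.exs _ _ (hxA i) (hx a) (hxB j) (hxl i j),
    fun i j k a b => h.row _ _ _ (hxA i) (hx a) (hx b) (hxB k) (hxl i k),
    fun i j k a b => h.chg _ _ _ (hxA i) (hx a) (hx b) (hxB k) (hxl i k),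
    fun i j a => h.own _ _ (hxA i) (hx a) (hxB j) (hxl i j)⟩

/-- The least of finitely many positive numbers. -/
theorem fin_min {κ : Type} [Finite κ] (a : κ → ℝ) (h : ∀ i, 0 < a i) :
    ∃ b : ℝ, 0 < b ∧ ∀ i, b ≤ a i := by
  rcases isEmpty_or_nonempty κ with h' | h'
  · exact ⟨1, one_pos, fun i => (h'.false i).elim⟩
  · obtain ⟨i₀, hi₀⟩ := Finite.exists_min a
    exact ⟨a i₀, h i₀, hi₀⟩

/-- Finitely many quantities exist at once. -/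
theorem exs_fin' {ι U : Type} [Finite ι] {Q : ι → Qt m U} {P : ι → Prop}
    (hpos : ∀ (τ : ℝ) (J : ℕ) (F : Fam m J) (A : F.Ω → Prop), S.St τ J F A → 0 < Pe F.p A)
    (h : ∀ i, P i → Exs S (Q i)) {e : ℝ} (he : 0 < e) :
    ∃ K : ℕ, Bas S (fun J F A => ∀ i, P i → ∃ u, (Q i).P K e J F A u) := by
  classical
  have h1 : ∀ i, ∃ K : ℕ, Bas S (fun J F A => P i → ∃ u, (Q i).P K e J F A u) := by
    intro i
    by_cases hi : P i
    · obtain ⟨K, M, hK⟩ := h i hi e he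
      refine ⟨K, Bas.mono 0 hK ?_⟩
      rintro J - F A ⟨u, hu, -⟩ -
      exact ⟨u, hu⟩
    · exact ⟨0, Bas.mono 0 (pos_bas hpos) fun _ _ _ _ _ h2 => absurd h2 hi⟩
  choose K hK using h1
  obtain ⟨K', hK'⟩ : ∃ K' : ℕ, ∀ i, K i ≤ K' := by
    rcases isEmpty_or_nonempty ι with h | h
    · exact ⟨0, fun i => (h.false i).elim⟩
    · obtain ⟨i₀, hi₀⟩ := Finite.exists_max K
      exact ⟨K i₀, hi₀⟩
  refine ⟨K', Bas.mono 0 (Bas.fin' hK) ?_⟩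
  intro J _ F A h2 i hi
  obtain ⟨u, hu⟩ := h2 i hi
  exact ⟨u, (Q i).mono (hK' i) le_rfl hu⟩

/-- **The few bits facts of a family**, on all large parts. -/
theorem fin_few [Finite ι]
    (hpos : ∀ (τ : ℝ) (J : ℕ) (F : Fam m J) (A : F.Ω → Prop), S.St τ J F A → 0 < Pe F.p A)
    {x : ι → ℝ} {Q₀ : Qt m U₀} {Q : ι → ι → Qt m U} (h : FinRel S f y x Q₀ Q)
    {c₀ : ℝ} (hc₀ : 0 < c₀) {e : ℝ} (he : 0 < e) :
    ∃ e₀ : ℝ, 0 < e₀ ∧ ∀ K : ℕ, Bas S (fun J F A' =>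
      ∀ (Z : Type) (z : ι → F.Ω → Z), (∀ i, Mx f (vg (x i)) (c₀ * e / 2) F A' (z i)) →
      ∀ u₀, Q₀.P K e₀ J F A' u₀ →
      ∀ u : ι → ι → F.Ω → U, (∀ i j, x i ≤ x j → (Q i j).P K e₀ J F A' (u i j)) →
      ∀ B' : F.Ω → Prop, Sub B' A' → c₀ * Pe F.p A' ≤ Pe F.p B' →
      (∀ i j k, x i ≤ x j → x j ≤ x k →
        CH (Pool.Agent.H49.Ent.cond F.p B' True) (u i j)
          (fun ω => (u i k ω, (z i ω, (u₀ ω, y J F ω)))) ≤ e * J) ∧
      (∀ i j k, x i ≤ x j → x j ≤ x k →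
        CH (Pool.Agent.H49.Ent.cond F.p B' True) (u j k)
          (fun ω => (u i k ω, (z j ω, (z i ω, (u₀ ω, y J F ω))))) ≤ e * J)) := by
  have hce : 0 < c₀ * e := mul_pos hc₀ he
  have N3 : ∀ q : ι × ι × ι, ∃ e₀ : ℝ, 0 < e₀ ∧ ∀ K : ℕ, Bas S (fun J F A' =>
      x q.1 ≤ x q.2.1 → x q.2.1 ≤ x q.2.2 →
      ∀ (V : Type) (z : F.Ω → V), Mx f (vg (x q.2.1)) (c₀ * e / 2) F A' z →
      ∀ u₀ u u₁, Q₀.P K e₀ J F A' u₀ → (Q q.1 q.2.2).P K e₀ J F A' u →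
      (Q q.2.1 q.2.2).P K e₀ J F A' u₁ →
      CH (Pool.Agent.H49.Ent.cond F.p A' True) u₁ (fun ω => ((u₀ ω, u ω), (z ω, y J F ω))) ≤
        c₀ * e * J) := by
    intro q
    by_cases hq : x q.1 ≤ x q.2.1 ∧ x q.2.1 ≤ x q.2.2
    · obtain ⟨e₀, he₀, H⟩ := (h.chg _ _ _ hq.1 hq.2).mx hpos (c₀ * e) hce
      exact ⟨e₀, he₀, fun K => Bas.mono 0 (H K) fun J _ F A' h1 _ _ V z hz u₀ u u₁ h0 h2 h3 =>
        h1 V z hz (fun ω => (u₀ ω, u ω)) u₁ ⟨h0, h2⟩ h3⟩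
    · exact ⟨1, one_pos, fun K => Bas.mono 0 (pos_bas hpos)
        fun J _ F A' _ h1 h2 => absurd ⟨h1, h2⟩ hq⟩
  choose e3 he3 H3 using N3
  have N4 : ∀ q : ι × ι × ι, ∃ e₀ : ℝ, 0 < e₀ ∧ ∀ K : ℕ, Bas S (fun J F A' =>
      x q.1 ≤ x q.2.1 → x q.2.1 ≤ x q.2.2 →
      ∀ (V : Type) (z : F.Ω → V), Mx f (vg (x q.1)) (c₀ * e / 2) F A' z →
      ∀ u₀ u u₁, Q₀.P K e₀ J F A' u₀ → (Q q.1 q.2.2).P K e₀ J F A' u →
      (Q q.1 q.2.1).P K e₀ J F A' u₁ →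
      CH (Pool.Agent.H49.Ent.cond F.p A' True) u₁ (fun ω => ((u₀ ω, u ω), (z ω, y J F ω))) ≤
        c₀ * e * J) := by
    intro q
    by_cases hq : x q.1 ≤ x q.2.1 ∧ x q.2.1 ≤ x q.2.2
    · obtain ⟨e₀, he₀, H⟩ := (h.row _ _ _ hq.1 hq.2).mx hpos (c₀ * e) hce
      exact ⟨e₀, he₀, fun K => Bas.mono 0 (H K) fun J _ F A' h1 _ _ V z hz u₀ u u₁ h0 h2 h3 =>
        h1 V z hz (fun ω => (u₀ ω, u ω)) u₁ ⟨h0, h2⟩ h3⟩
    · exact ⟨1, one_pos, fun K => Bas.mono 0 (pos_bas hpos)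
        fun J _ F A' _ h1 h2 => absurd ⟨h1, h2⟩ hq⟩
  choose e4 he4 H4 using N4
  obtain ⟨f3, hf3, hf3'⟩ := fin_min e3 he3
  obtain ⟨f4, hf4, hf4'⟩ := fin_min e4 he4
  refine ⟨min f3 f4, lt_min hf3 hf4, fun K => ?_⟩
  refine Bas.mono 0 (((Bas.fin' fun q => H3 q K).and (Bas.fin' fun q => H4 q K)).and
    (pos_bas hpos)) ?_
  rintro J - F A' ⟨⟨H3, H4⟩, hA'⟩ Z z hz u₀ hu₀ u hu B' hB' hBA
  have hcl := isLaw_cond F.isLaw hA'
  have key : ∀ {V' W' : Type} (X : F.Ω → V') (Y : F.Ω → W'),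
      CH (Pool.Agent.H49.Ent.cond F.p A' True) X Y ≤ c₀ * e * J →
      CH (Pool.Agent.H49.Ent.cond F.p B' True) X Y ≤ e * J := fun X Y hXY =>
    ch_part F.isLaw hB' hA' hc₀ hBA X Y (by rw [← mul_assoc]; exact hXY)
  refine ⟨fun i j k hij hjk => ?_, fun i j k hij hjk => ?_⟩
  · have h1 := H4 (i, j, k) hij hjk _ (z i) (hz i) u₀ (u i k) (u i j)
      (Q₀.mono le_rfl ((min_le_right _ _).trans (hf4' (i, j, k))) hu₀)
      ((Q _ _).mono le_rfl ((min_le_right _ _).trans (hf4' (i, j, k))) (hu i k (hij.trans hjk)))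
      ((Q _ _).mono le_rfl ((min_le_right _ _).trans (hf4' (i, j, k))) (hu i j hij))
    refine key _ _ (le_trans (CH_mono_cond hcl.nonneg fun ω ω' _ _ hh => ?_) h1)
    simp only [Prod.mk.injEq] at hh ⊢
    tauto
  · have h1 := H3 (i, j, k) hij hjk _ (z j) (hz j) u₀ (u i k) (u j k)
      (Q₀.mono le_rfl ((min_le_left _ _).trans (hf3' (i, j, k))) hu₀)
      ((Q _ _).mono le_rfl ((min_le_left _ _).trans (hf3' (i, j, k))) (hu i k (hij.trans hjk)))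
      ((Q _ _).mono le_rfl ((min_le_left _ _).trans (hf3' (i, j, k))) (hu j k hjk))
    refine key _ _ (le_trans (CH_mono_cond hcl.nonneg fun ω ω' _ _ hh => ?_) h1)
    simp only [Prod.mk.injEq] at hh ⊢
    tauto

/-- Replacing records which determine each other up to few bits. -/
theorem ch_rep {Ω V V' W X : Type} [Fintype Ω] {p : Ω → ℝ} (hp : ∀ ω, 0 ≤ p ω) (b : Ω → X)
    (z : Ω → V) (z' : Ω → V') (w : Ω → W) {e : ℝ} (h : CH p z' z ≤ e) :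
    CH p b (fun ω => (z ω, w ω)) ≤ CH p b (fun ω => (z' ω, w ω)) + e := by
  have h1 := CH_le_add hp b z' (fun ω => (z ω, w ω))
  have h2 : CH p z' (fun ω => (z ω, w ω)) ≤ CH p z' z :=
    CH_mono_cond hp fun _ _ _ _ hh => (Prod.ext_iff.mp hh).1
  have h3 : CH p b (fun ω => (z' ω, (z ω, w ω))) ≤ CH p b (fun ω => (z' ω, w ω)) :=
    CH_mono_cond hp fun _ _ _ _ hh => by
      simp only [Prod.mk.injEq] at hh ⊢
      exact ⟨hh.1, hh.2.2⟩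
  linarith

open Classical in
/-- **The near digits of the position, given the velocity**, on all large parts of an event. -/
theorem near_fin [Finite ι]
    (hpos : ∀ (τ : ℝ) (J : ℕ) (F : Fam m J) (A : F.Ω → Prop), S.St τ J F A → 0 < Pe F.p A)
    {x : ι → ℝ} (hx1 : ∀ i, x i ≤ 1) {Q₀ : Qt m U₀} {QX : ι → ι → Qt m U₁}
    {QD : ι → ι → Qt m U₂} (hX : FinRel S f y x Q₀ QX) (hD : FinRel S f y x Q₀ QD)
    (hη : ∀ i, ∃ η, RNum S f (vg (x i)) η) {θJ θD : ι → ι → ℝ}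
    (nJ : ∀ i j, x i ≤ x j → RN S f (vg (x i)) y Q₀ ((QX i j).prod (QD i j)) (θJ i j))
    (nD : ∀ i j, x i ≤ x j → RN S f (vg (x i)) y Q₀ (QD i j) (θD i j)) {κ₀ : ℝ} (hκ : 0 ≤ κ₀)
    (haJ : ∀ i j k, x i ≤ x j → x j ≤ x k → |θJ i k - θJ i j - θJ j k| ≤ κ₀)
    (haD : ∀ i j k, x i ≤ x j → x j ≤ x k → |θD i k - θD i j - θD j k| ≤ κ₀)
    {c₀ : ℝ} (hc₀ : 0 < c₀) {e : ℝ} (he : 0 < e) :
    ∃ k : ℝ, 0 < k ∧ ∃ e₀ : ℝ, 0 < e₀ ∧ ∀ K : ℕ, Bas S (fun J F A' =>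
      ∀ i j j' l : ι, x i ≤ x j → x j ≤ x j' → x j' ≤ x l → j ≠ j' →
      ∀ (V₁ V₂ : Type) (z : F.Ω → V₁) (zj : F.Ω → V₂), Mx f (vg (x i)) k F A' z →
      Mx f (vg (x j)) k F A' zj → ∀ u₀ a b d, Q₀.P K e₀ J F A' u₀ →
      (QX i j).P K e₀ J F A' a → (QX i j').P K e₀ J F A' b → (QD i l).P K e₀ J F A' d →
      ∀ B' : F.Ω → Prop, Sub B' A' → c₀ * Pe F.p A' ≤ Pe F.p B' →
      CH (Pool.Agent.H49.Ent.cond F.p B' True) b
          (fun ω => (a ω, (d ω, (z ω, (u₀ ω, y J F ω))))) ≤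
        (θJ j j' - θD j j' + 8 * κ₀ + e) * J ∧
      (θJ j j' - θD j j' - 8 * κ₀ - e) * J ≤ CH (Pool.Agent.H49.Ent.cond F.p B' True) b
          (fun ω => (a ω, (d ω, (zj ω, (z ω, (u₀ ω, y J F ω))))))) := by
  obtain ⟨e', he'⟩ : ∃ e' : ℝ, e' = e / 32 := ⟨_, rfl⟩
  have he'0 : 0 < e' := by rw [he']; positivity
  have hP := hX.prod hpos hD
  obtain ⟨k1, hk1, e1, he1, H1⟩ := add_finr hpos (f := f) (y := y) x hx1 hP.row hP.chg hP.own nJ
    hη hκ haJ hc₀ he'0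
  obtain ⟨k2, hk2, e2, he2, H2⟩ := add_finr hpos (f := f) (y := y) x hx1 hD.row hD.chg hD.own nD
    hη hκ haD hc₀ he'0
  obtain ⟨e3, he3, H3⟩ := fin_few hpos hX hc₀ he'0
  have hce : 0 < c₀ * e' / 2 := by positivity
  obtain ⟨k, hk, m1, m2, m3, m4⟩ : ∃ k : ℝ, 0 < k ∧ k ≤ k1 ∧ k ≤ k2 ∧ k ≤ c₀ * e' / 2 ∧
      k ≤ c₀ * e' :=
    ⟨min k1 (min k2 (c₀ * e' / 2)), by positivity, min_le_left _ _,
      (min_le_right _ _).trans (min_le_left _ _), (min_le_right _ _).trans (min_le_right _ _),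
      ((min_le_right _ _).trans (min_le_right _ _)).trans (by linarith)⟩
  obtain ⟨e₀, he₀, l1, l2, l3⟩ : ∃ e₀ : ℝ, 0 < e₀ ∧ e₀ ≤ e1 ∧ e₀ ≤ e2 ∧ e₀ ≤ e3 :=
    ⟨min e1 (min e2 e3), by positivity, min_le_left _ _,
      (min_le_right _ _).trans (min_le_left _ _), (min_le_right _ _).trans (min_le_right _ _)⟩
  obtain ⟨K1, hE1⟩ := exs_fin' (ι := ι × ι) (Q := fun q => QX q.1 q.2)
    (P := fun q => x q.1 ≤ x q.2) hpos (fun q hq => hX.exs _ _ hq) he₀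
  obtain ⟨K2, hE2⟩ := exs_fin' (ι := ι × ι) (Q := fun q => QD q.1 q.2)
    (P := fun q => x q.1 ≤ x q.2) hpos (fun q hq => hD.exs _ _ hq) he₀
  refine ⟨k, hk, e₀, he₀, fun K => ?_⟩
  obtain ⟨K', n0, n1, n2⟩ : ∃ K' : ℕ, K ≤ K' ∧ K1 ≤ K' ∧ K2 ≤ K' :=
    ⟨max K (max K1 K2), le_max_left _ _, (le_max_left _ _).trans (le_max_right _ _),
      (le_max_right _ _).trans (le_max_right _ _)⟩
  refine Bas.mono 0 ((((H1 K').and (H2 K')).and (H3 K')).and (((hE1.and hE2).and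
    (mx_fam hpos x hη hk)).and (pos_bas hpos))) ?_
  rintro J - F A' ⟨⟨⟨H1, H2⟩, H3⟩, ⟨⟨E1, E2⟩, Z, zz, hzz⟩, hA'⟩ i j j' l hij hjj hjl hne V₁ V₂ z zj
    hz hzj u₀ a b d hu₀ ha hb hd B' hB' hBA
  have hJ0 : (0 : ℝ) ≤ J := Nat.cast_nonneg J
  have hBp : 0 < Pe F.p B' := lt_of_lt_of_le (mul_pos hc₀ hA') hBA
  have hp := (isLaw_cond F.isLaw hBp).nonneg
  choose ux hux using E1
  choose ud hud using E2
  obtain ⟨u, hu⟩ : ∃ u : ι → ι → F.Ω → U₁, u = fun p q => if p = i ∧ q = j then a else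
    if p = i ∧ q = j' then b else if h : x p ≤ x q then ux (p, q) h else a := ⟨_, rfl⟩
  obtain ⟨v, hv⟩ : ∃ v : ι → ι → F.Ω → U₂, v = fun p q => if p = i ∧ q = l then d else
    if h : x p ≤ x q then ud (p, q) h else d := ⟨_, rfl⟩
  have hu1 : u i j = a := by rw [hu]; simp
  have hu2 : u i j' = b := by
    rw [hu]
    simp [Ne.symm hne]
  have hv1 : v i l = d := by rw [hv]; simp
  have huP : ∀ p q, x p ≤ x q → (QX p q).P K' e₀ J F A' (u p q) := by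
    intro p q hpq
    by_cases c1 : p = i ∧ q = j
    · obtain ⟨rfl, rfl⟩ := c1
      rw [hu1]
      exact (QX _ _).mono n0 le_rfl ha
    · by_cases c2 : p = i ∧ q = j'
      · obtain ⟨rfl, rfl⟩ := c2
        rw [hu2]
        exact (QX _ _).mono n0 le_rfl hb
      · have : u p q = ux (p, q) hpq := by
          rw [hu]
          simp only [if_neg c1, if_neg c2, dif_pos hpq]
        rw [this]
        exact (QX _ _).mono n1 le_rfl (hux (p, q) hpq)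
  have hvP : ∀ p q, x p ≤ x q → (QD p q).P K' e₀ J F A' (v p q) := by
    intro p q hpq
    by_cases c1 : p = i ∧ q = l
    · obtain ⟨rfl, rfl⟩ := c1
      rw [hv1]
      exact (QD _ _).mono n0 le_rfl hd
    · have : v p q = ud (p, q) hpq := by
        rw [hv]
        simp only [if_neg c1, dif_pos hpq]
      rw [this]
      exact (QD _ _).mono n2 le_rfl (hud (p, q) hpq)
  have hu0 := fun {e' : ℝ} (h : e₀ ≤ e') => Q₀.mono (K' := K') n0 h hu₀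
  obtain ⟨N, aJ⟩ := H1 Z zz (fun i => (hzz i).le' m1) u₀ (hu0 l1) (fun p q ω => (u p q ω, v p q ω))
    (fun p q hpq => ⟨(QX _ _).mono le_rfl l1 (huP p q hpq), (QD _ _).mono le_rfl l1
      (hvP p q hpq)⟩) B' hB' hBA
  obtain ⟨-, aD⟩ := H2 Z zz (fun i => (hzz i).le' m2) u₀ (hu0 l2) v
    (fun p q hpq => (QD _ _).mono le_rfl l2 (hvP p q hpq)) B' hB' hBA
  obtain ⟨g1, g2⟩ := H3 Z zz (fun i => (hzz i).le' m3) u₀ (hu0 l3) u
    (fun p q hpq => (QX _ _).mono le_rfl l3 (huP p q hpq)) B' hB' hBA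
  obtain ⟨r1, -⟩ := Pool.SAT43.near_two hp aJ aD N g1 hij hjj hjl
  have r2 := Pool.SAT43.near_learn hp aJ aD N g2 hij hjj hjl
  rw [hu1, hu2, hv1] at r1 r2
  -- the records
  have q1 : CH (Pool.Agent.H49.Ent.cond F.p B' True) (zz i) z ≤ e' * J := by
    refine ch_part F.isLaw hB' hA' hc₀ hBA _ _ ((hz.2 _ _ (hzz i).1).trans ?_)
    rw [← mul_assoc]
    exact mul_le_mul_of_nonneg_right m4 hJ0
  have q2 : CH (Pool.Agent.H49.Ent.cond F.p B' True) z (zz i) ≤ e' * J := by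
    refine ch_part F.isLaw hB' hA' hc₀ hBA _ _ (((hzz i).2 _ _ hz.1).trans ?_)
    rw [← mul_assoc]
    exact mul_le_mul_of_nonneg_right m4 hJ0
  have q3 : CH (Pool.Agent.H49.Ent.cond F.p B' True) zj (zz j) ≤ e' * J := by
    refine ch_part F.isLaw hB' hA' hc₀ hBA _ _ (((hzz j).2 _ _ hzj.1).trans ?_)
    rw [← mul_assoc]
    exact mul_le_mul_of_nonneg_right m4 hJ0
  have c1 := ch_rep hp b z (zz i) (fun ω => (a ω, (d ω, (u₀ ω, y J F ω)))) q1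
  have c2 := ch_rep hp b (zz i) z (fun ω => (zz j ω, (a ω, (d ω, (u₀ ω, y J F ω))))) q2
  have c3 := ch_rep hp b (zz j) zj (fun ω => (z ω, (a ω, (d ω, (u₀ ω, y J F ω))))) q3
  have s1 : CH (Pool.Agent.H49.Ent.cond F.p B' True) b
      (fun ω => (a ω, (d ω, (z ω, (u₀ ω, y J F ω))))) =
      CH (Pool.Agent.H49.Ent.cond F.p B' True) b
        (fun ω => (z ω, (a ω, (d ω, (u₀ ω, y J F ω))))) := by
    refine CH_congr hp ?_ ?_ ?_ ?_ <;>
    · intro ω ω' _ _ hh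
      simp only [Prod.mk.injEq] at hh ⊢
      tauto
  have s2 : CH (Pool.Agent.H49.Ent.cond F.p B' True) b
      (fun ω => (a ω, (d ω, (zz i ω, (u₀ ω, y J F ω))))) =
      CH (Pool.Agent.H49.Ent.cond F.p B' True) b
        (fun ω => (zz i ω, (a ω, (d ω, (u₀ ω, y J F ω))))) := by
    refine CH_congr hp ?_ ?_ ?_ ?_ <;>
    · intro ω ω' _ _ hh
      simp only [Prod.mk.injEq] at hh ⊢
      tauto
  have s3 : CH (Pool.Agent.H49.Ent.cond F.p B' True) b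
      (fun ω => (a ω, (d ω, (zz j ω, (zz i ω, (u₀ ω, y J F ω)))))) =
      CH (Pool.Agent.H49.Ent.cond F.p B' True) b
        (fun ω => (zz i ω, (zz j ω, (a ω, (d ω, (u₀ ω, y J F ω)))))) := by
    refine CH_congr hp ?_ ?_ ?_ ?_ <;>
    · intro ω ω' _ _ hh
      simp only [Prod.mk.injEq] at hh ⊢
      tauto
  have s4 : CH (Pool.Agent.H49.Ent.cond F.p B' True) b
      (fun ω => (z ω, (zz j ω, (a ω, (d ω, (u₀ ω, y J F ω)))))) =
      CH (Pool.Agent.H49.Ent.cond F.p B' True) b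
        (fun ω => (zz j ω, (z ω, (a ω, (d ω, (u₀ ω, y J F ω)))))) := by
    refine CH_congr hp ?_ ?_ ?_ ?_ <;>
    · intro ω ω' _ _ hh
      simp only [Prod.mk.injEq] at hh ⊢
      tauto
  have s5 : CH (Pool.Agent.H49.Ent.cond F.p B' True) b
      (fun ω => (zj ω, (z ω, (a ω, (d ω, (u₀ ω, y J F ω)))))) =
      CH (Pool.Agent.H49.Ent.cond F.p B' True) b
        (fun ω => (a ω, (d ω, (zj ω, (z ω, (u₀ ω, y J F ω)))))) := by
    refine CH_congr hp ?_ ?_ ?_ ?_ <;>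
    · intro ω ω' _ _ hh
      simp only [Prod.mk.injEq] at hh ⊢
      tauto
  rw [s3] at r2
  rw [s2] at r1
  rw [s1]
  rw [s4] at c2
  rw [s5] at c3
  have hκJ : 0 ≤ κ₀ * J := mul_nonneg hκ hJ0
  have heJ : e' * J = e * J / 32 := by rw [he']; ring
  have heJ0 : 0 ≤ e * J := by positivity
  constructor
  · nlinarith
  · nlinarith

end Pool.OWN83
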