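import Pool.Agent.H83.OWN.Dcl
import Pool.Agent.H83.OWN.Nr

/-!
# The near digits of one rough coordinate are full given its own velocity

`near_rel`: in the boxes of almost every point, on all large parts of an event, the digits of a
family `QX` between the balls `j` and `j'` have at least `θJ - θD` bits given the digits to the ball
`j`, the velocity `QD` to a deeper ball `l`, the records at the base `w` and at the ball `j`, and
`(Q₀, y)`. `near_vel`: for one rough coordinate these digits are full.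
-/

set_option autoImplicit false

namespace Pool.OWN83

open Finset Real
open Pool.Agent.H49.Ent Pool.Agent.H32.Dense Pool.STK Pool.KA Pool.KSAT Pool.K2S Pool.PB Pool.S6C
  Pool.GEN Pool.RCD Pool.LA91

variable {m : ℕ} {U₀ U U₁ U₂ : Type} {α γ' : ∀ J : ℕ, Fam m J → Type}
  {f : ∀ (J : ℕ) (F : Fam m J), F.Ω → α J F} {y : ∀ (J : ℕ) (F : Fam m J), F.Ω → γ' J F}
  {S : PCl m}

/-- The list of four windows. -/
def q4 (w j j' l : ℚ) : Fin 4 → ℚ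
  | 0 => w
  | 1 => j
  | 2 => j'
  | 3 => l

/-- **Near digits given the velocity**, in the box of a point where the numbers are additive. -/
theorem near_box
    (hpos : ∀ (τ : ℝ) (J : ℕ) (F : Fam m J) (A : F.Ω → Prop), S.St τ J F A → 0 < Pe F.p A)
    {s A B lam : ℝ} (hB1 : B + s ≤ 1)
    (hη : ∀ w : ℚ, A < w → (w : ℝ) < B → ∃ η, RNum S f (vg ((w : ℝ) + s)) η)
    {Q₀ : Qt m U₀} {QX : ℚ → ℚ → Qt m U₁} {QD : ℚ → ℚ → Qt m U₂}
    (hX : TwoRelS S f y s (fun _ => Q₀) QX A B lam) (hD : TwoRelS S f y s (fun _ => Q₀) QD A B lam)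
    {θ₁ θ₂ : ℚ → ℝ} {θJ θD : ℚ → ℚ → ℝ}
    (nJ : TRelS S f y s (fun _ => Q₀) (fun w o => (QX w o).prod (QD w o)) A B lam θ₁ θJ)
    (nD : TRelS S f y s (fun _ => Q₀) QD A B lam θ₂ θD) {g r κ : ℝ} (hA : A < g - r)
    (hB : g + r < B) (hl : 2 * r < lam) (hκ : 0 ≤ κ)
    (haJ : ∀ w v o : ℚ, g - r ≤ w → w ≤ v → v ≤ o → (o : ℝ) ≤ g + r →
      |θJ w o - θJ w v - θJ v o| ≤ κ)
    (haD : ∀ w v o : ℚ, g - r ≤ w → w ≤ v → v ≤ o → (o : ℝ) ≤ g + r →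
      |θD w o - θD w v - θD v o| ≤ κ) {w j j' l : ℚ} (h1 : g - r ≤ w) (h2 : w ≤ j)
    (h3 : j < j') (h4 : j' ≤ l) (h5 : (l : ℝ) ≤ g + r) {c₀ : ℝ} (hc₀ : 0 < c₀) {e : ℝ}
    (he : 0 < e) :
    ∃ k : ℝ, 0 < k ∧ ∃ e₀ : ℝ, 0 < e₀ ∧ ∀ K : ℕ, Bas S (fun J F A' =>
      ∀ (V₁ V₂ : Type) (z : F.Ω → V₁) (zj : F.Ω → V₂), Mx f (vg ((w : ℝ) + s)) k F A' z →
      Mx f (vg ((j : ℝ) + s)) k F A' zj → ∀ u₀ a b d, Q₀.P K e₀ J F A' u₀ →
      (QX w j).P K e₀ J F A' a → (QX w j').P K e₀ J F A' b → (QD w l).P K e₀ J F A' d →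
      ∀ B' : F.Ω → Prop, Sub B' A' → c₀ * Pe F.p A' ≤ Pe F.p B' →
      CH (Pool.Agent.H49.Ent.cond F.p B' True) b
          (fun ω => (a ω, (d ω, (z ω, (u₀ ω, y J F ω))))) ≤
        (θJ j j' - θD j j' + 8 * κ + e) * J ∧
      (θJ j j' - θD j j' - 8 * κ - e) * J ≤ CH (Pool.Agent.H49.Ent.cond F.p B' True) b
          (fun ω => (a ω, (d ω, (zj ω, (z ω, (u₀ ω, y J F ω))))))) := by
  have h2' : (w : ℝ) ≤ j := by exact_mod_cast h2
  have h3' : (j : ℝ) < j' := by exact_mod_cast h3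
  have h4' : (j' : ℝ) ≤ l := by exact_mod_cast h4
  obtain ⟨x, hx⟩ : ∃ x : Fin 4 → ℚ, x = q4 w j j' l := ⟨_, rfl⟩
  have x0 : x 0 = w := by rw [hx]; rfl
  have x1 : x 1 = j := by rw [hx]; rfl
  have x2 : x 2 = j' := by rw [hx]; rfl
  have x3 : x 3 = l := by rw [hx]; rfl
  have xb : ∀ i, g - r ≤ x i ∧ (x i : ℝ) ≤ g + r := by
    intro i
    fin_cases i
    · change g - r ≤ x 0 ∧ (x 0 : ℝ) ≤ g + r
      rw [x0]
      constructor <;> linarith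
    · change g - r ≤ x 1 ∧ (x 1 : ℝ) ≤ g + r
      rw [x1]
      constructor <;> linarith
    · change g - r ≤ x 2 ∧ (x 2 : ℝ) ≤ g + r
      rw [x2]
      constructor <;> linarith
    · change g - r ≤ x 3 ∧ (x 3 : ℝ) ≤ g + r
      rw [x3]
      constructor <;> linarith
  have xA : ∀ i, A < x i := fun i => lt_of_lt_of_le hA (xb i).1
  have xB : ∀ i, (x i : ℝ) < B := fun i => lt_of_le_of_lt (xb i).2 hB
  have xl : ∀ i j, (x j : ℝ) < x i + lam := fun i j => by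
    linarith [(xb i).1, (xb j).2]
  have hxx : ∀ {i j : Fin 4}, (x i : ℝ) + s ≤ (x j : ℝ) + s → x i ≤ x j := fun {i j} h => by
    have h1 : (x i : ℝ) ≤ x j := by linarith
    exact_mod_cast h1
  have xmo : ∀ {i j : Fin 4}, (x i : ℝ) ≤ x j → (x i : ℝ) + s ≤ (x j : ℝ) + s := fun h => by
    linarith
  have l01 : (x 0 : ℝ) ≤ x 1 := by rw [x0, x1]; exact h2'
  have l12 : (x 1 : ℝ) ≤ x 2 := by rw [x1, x2]; exact h3'.le
  have l23 : (x 2 : ℝ) ≤ x 3 := by rw [x2, x3]; exact h4'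
  have hRJ : ∀ i j : Fin 4, (x i : ℝ) + s ≤ (x j : ℝ) + s →
      RN S f (vg ((x i : ℝ) + s)) y Q₀ ((QX (x i) (x j)).prod (QD (x i) (x j)))
        (θJ (x i) (x j)) := fun i j hij =>
    RN.of hpos (nJ.n₀ _ (xA i) (xB i)) (nJ.n _ _ (xA i) (hxx hij) (xB j) (xl i j))
  have hRD : ∀ i j : Fin 4, (x i : ℝ) + s ≤ (x j : ℝ) + s →
      RN S f (vg ((x i : ℝ) + s)) y Q₀ (QD (x i) (x j)) (θD (x i) (x j)) := fun i j hij =>
    RN.of hpos (nD.n₀ _ (xA i) (xB i)) (nD.n _ _ (xA i) (hxx hij) (xB j) (xl i j))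
  obtain ⟨k, hk, e₀, he₀, H⟩ := near_fin hpos (f := f) (y := y) (x := fun i => (x i : ℝ) + s)
    (fun i => by linarith [xB i]) (hX.fin x xA xB xl) (hD.fin x xA xB xl)
    (fun i => hη _ (xA i) (xB i)) hRJ hRD hκ
    (fun i j k hij hjk => haJ _ _ _ (xb i).1 (hxx hij) (hxx hjk) (xb k).2)
    (fun i j k hij hjk => haD _ _ _ (xb i).1 (hxx hij) (hxx hjk) (xb k).2) hc₀ he
  refine ⟨k, hk, e₀, he₀, fun K => Bas.mono 0 (H K) ?_⟩
  intro J _ F A' H V₁ V₂ z zj hz hzj u₀ a b d hu₀ ha hb hd B' hB' hBA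
  have h6 := H 0 1 2 3 (xmo l01) (xmo l12) (xmo l23) (by decide) V₁ V₂ z zj
    (by
      simp only [x0]
      exact hz) (by
      simp only [x1]
      exact hzj) u₀ a b d hu₀ (by rw [x0, x1]; exact ha) (by rw [x0, x2]; exact hb)
    (by rw [x0, x3]; exact hd) B' hB' hBA
  rw [x1, x2] at h6
  exact h6

open Set MeasureTheory in
/-- **Near digits given the velocity**, in the boxes of almost every point. -/
theorem near_rel (hS : S.Ne)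
    (hpos : ∀ (τ : ℝ) (J : ℕ) (F : Fam m J) (A : F.Ω → Prop), S.St τ J F A → 0 < Pe F.p A)
    {s A B lam : ℝ} (hB1 : B + s ≤ 1) (hlam : 0 < lam)
    (hη : ∀ w : ℚ, A < w → (w : ℝ) < B → ∃ η, RNum S f (vg ((w : ℝ) + s)) η)
    {Q₀ : Qt m U₀} {QX : ℚ → ℚ → Qt m U₁} {QD : ℚ → ℚ → Qt m U₂}
    (hX : TwoRelS S f y s (fun _ => Q₀) QX A B lam) (hD : TwoRelS S f y s (fun _ => Q₀) QD A B lam)
    {θ₁ θ₂ : ℚ → ℝ} {θJ θD : ℚ → ℚ → ℝ}
    (nJ : TRelS S f y s (fun _ => Q₀) (fun w o => (QX w o).prod (QD w o)) A B lam θ₁ θJ)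
    (nD : TRelS S f y s (fun _ => Q₀) QD A B lam θ₂ θD) :
    ∀ᵐ g : ℝ, g ∈ Ioo A B → ∀ e : ℝ, 0 < e → ∃ r₀ : ℝ, 0 < r₀ ∧ ∀ r : ℝ, 0 < r → r < r₀ →
      ∀ w j j' l : ℚ, g - r ≤ w → w ≤ j → j < j' → j' ≤ l → (l : ℝ) ≤ g + r →
      ∀ c₀ : ℝ, 0 < c₀ → ∃ k : ℝ, 0 < k ∧ ∃ e₀ : ℝ, 0 < e₀ ∧ ∀ K : ℕ, Bas S (fun J F A' =>
      ∀ (V₁ V₂ : Type) (z : F.Ω → V₁) (zj : F.Ω → V₂), Mx f (vg ((w : ℝ) + s)) k F A' z →
      Mx f (vg ((j : ℝ) + s)) k F A' zj → ∀ u₀ a b d, Q₀.P K e₀ J F A' u₀ →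
      (QX w j).P K e₀ J F A' a → (QX w j').P K e₀ J F A' b → (QD w l).P K e₀ J F A' d →
      ∀ B' : F.Ω → Prop, Sub B' A' → c₀ * Pe F.p A' ≤ Pe F.p B' →
      CH (Pool.Agent.H49.Ent.cond F.p B' True) b
          (fun ω => (a ω, (d ω, (z ω, (u₀ ω, y J F ω))))) ≤
        (θJ j j' - θD j j' + e * r) * J ∧
      (θJ j j' - θD j j' - e * r) * J ≤ CH (Pool.Agent.H49.Ent.cond F.p B' True) b
          (fun ω => (a ω, (d ω, (zj ω, (z ω, (u₀ ω, y J F ω))))))) := by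
  obtain ⟨-, b2⟩ := nD.super hS hpos hB1 hη hD
  obtain ⟨-, c2⟩ := nJ.super hS hpos hB1 hη (hX.prod hpos hD)
  filter_upwards [nD.ae hS hpos hB1 hlam hη hD, nJ.ae hS hpos hB1 hlam hη (hX.prod hpos hD)]
    with g g1 g2 hg e he
  obtain ⟨r1, hr1, H1⟩ := g1 hg (e / 16) (by positivity)
  obtain ⟨r2, hr2, H2⟩ := g2 hg (e / 16) (by positivity)
  obtain ⟨r₀, hr₀, s1, s2, s3, s4, s5⟩ : ∃ r : ℝ, 0 < r ∧ r ≤ r1 ∧ r ≤ r2 ∧ r ≤ (B - g) ∧
      r ≤ (g - A) ∧ 2 * r ≤ lam := by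
    have t1 : 0 < B - g := by linarith [hg.2]
    have t2 : 0 < g - A := by linarith [hg.1]
    refine ⟨min r1 (min r2 (min (B - g) (min (g - A) (lam / 2)))), by positivity,
      min_le_left _ _, (min_le_right _ _).trans (min_le_left _ _),
      (min_le_right _ _).trans ((min_le_right _ _).trans (min_le_left _ _)),
      (min_le_right _ _).trans ((min_le_right _ _).trans ((min_le_right _ _).trans
        (min_le_left _ _))), ?_⟩
    have := (min_le_right r1 (min r2 (min (B - g) (min (g - A) (lam / 2))))).trans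
      ((min_le_right _ _).trans ((min_le_right _ _).trans (min_le_right _ _)))
    linarith
  refine ⟨r₀, hr₀, fun r hr hrr w j j' l h1 h2 h3 h4 h5 c₀ hc₀ => ?_⟩
  have her : 0 < e * r := mul_pos he hr
  obtain ⟨k, hk, e₀, he₀, H⟩ := near_box hpos hB1 hη hX hD nJ nD (g := g) (r := r)
    (κ := e / 16 * r) (by linarith) (by linarith) (by linarith) (by positivity)
    (fun w v o a b c d => by
      have b' : (w : ℝ) ≤ v := by exact_mod_cast b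
      have c' : (v : ℝ) ≤ o := by exact_mod_cast c
      have t1 := H2 r hr (by linarith) w v o a b c d
      have t2 := c2 w v o (by linarith) b c (by linarith) (by linarith)
      rw [abs_le]
      constructor <;> linarith)
    (fun w v o a b c d => by
      have b' : (w : ℝ) ≤ v := by exact_mod_cast b
      have c' : (v : ℝ) ≤ o := by exact_mod_cast c
      have t1 := H1 r hr (by linarith) w v o a b c d
      have t2 := b2 w v o (by linarith) b c (by linarith) (by linarith)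
      rw [abs_le]
      constructor <;> linarith) h1 h2 h3 h4 h5 hc₀ (e := e * r / 2) (by positivity)
  refine ⟨k, hk, e₀, he₀, fun K => Bas.mono 0 (H K) ?_⟩
  intro J _ F A' H V₁ V₂ z zj hz hzj u₀ a b d hu₀ ha hb hd B' hB' hBA
  obtain ⟨q1, q2⟩ := H V₁ V₂ z zj hz hzj u₀ a b d hu₀ ha hb hd B' hB' hBA
  have hJ0 : (0 : ℝ) ≤ J := Nat.cast_nonneg J
  constructor
  · refine q1.trans (mul_le_mul_of_nonneg_right ?_ hJ0)
    linarith
  · refine le_trans (mul_le_mul_of_nonneg_right ?_ hJ0) q2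
    linarith

open Set MeasureTheory in
/-- **The near digits of one rough coordinate are full given its own velocity**, in the boxes of
almost every point and on all large parts of an event. -/
theorem near_vel {I : Finset (Fin m)} {k : Fin m} {sh : ℝ} {p : ℚ → ℝ} {A B lam p₀ lam' : ℝ}
    (hL : Lbs S f y I k sh p A B p₀ lam') {Q₀ : Qt m U₀} {θX θD θJ : ℚ → ℚ → ℝ}
    (hF : Fms S f y I k sh p Q₀ A B lam θX θD θJ) (hlam : 0 < lam)
    (hdead : ∀ᵐ g : ℝ, g ∈ Ioo A B → ∀ e : ℝ, 0 < e → ∃ r₀ : ℝ, 0 < r₀ ∧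
      ∀ r : ℝ, 0 < r → r < r₀ → ∀ w o : ℚ, g - r ≤ w → w ≤ o → (o : ℝ) ≤ g + r →
        (p o - p w) * Real.log 2 - e * r ≤ θJ w o - θD w o) :
    ∀ᵐ g : ℝ, g ∈ Ioo A B → ∀ e : ℝ, 0 < e → ∃ r₀ : ℝ, 0 < r₀ ∧ ∀ r : ℝ, 0 < r → r < r₀ →
      ∀ w j j' l : ℚ, g - r ≤ w → w ≤ j → j < j' → j' ≤ l → (l : ℝ) ≤ g + r →
      ∀ c₀ : ℝ, 0 < c₀ → ∃ κ : ℝ, 0 < κ ∧ ∃ e₀ : ℝ, 0 < e₀ ∧ ∀ K : ℕ, Bas S (fun J F A' =>
      ∀ (V₁ V₂ : Type) (z : F.Ω → V₁) (zj : F.Ω → V₂), Mx f (vg ((w : ℝ) + sh)) κ F A' z →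
      Mx f (vg ((j : ℝ) + sh)) κ F A' zj → ∀ u₀ a b d, Q₀.P K e₀ J F A' u₀ →
      (JQ m I k sh p 0 w j).P K e₀ J F A' a → (JQ m I k sh p 0 w j').P K e₀ J F A' b →
      (JQ m I k sh p 1 w l).P K e₀ J F A' d →
      ∀ B' : F.Ω → Prop, Sub B' A' → c₀ * Pe F.p A' ≤ Pe F.p B' →
      ((p j' - p j) * Real.log 2 - e * r) * J ≤ CH (Pool.Agent.H49.Ent.cond F.p B' True) b
          (fun ω => (a ω, (d ω, (zj ω, (z ω, (u₀ ω, y J F ω))))))) := by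
  obtain ⟨θ₀D, nD⟩ := hF.nD
  obtain ⟨θ₀J, nJ⟩ := hF.nJ
  filter_upwards [hdead, near_rel hL.ne hL.pos hL.B1 hlam hL.rn hF.X hF.D nJ nD]
    with g g1 g2 hg e he
  obtain ⟨r1, hr1, H1⟩ := g1 hg (e / 2) (half_pos he)
  obtain ⟨r2, hr2, H2⟩ := g2 hg (e / 2) (half_pos he)
  refine ⟨min r1 r2, lt_min hr1 hr2, fun r hr hrr w j j' l h1 h2 h3 h4 h5 c₀ hc₀ => ?_⟩
  obtain ⟨κ, hκ, e₀, he₀, H⟩ := H2 r hr (lt_of_lt_of_le hrr (min_le_right _ _)) w j j' l h1 h2 h3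
    h4 h5 c₀ hc₀
  have h2' : (w : ℝ) ≤ j := by exact_mod_cast h2
  have h4' : (j' : ℝ) ≤ l := by exact_mod_cast h4
  have t := H1 r hr (lt_of_lt_of_le hrr (min_le_left _ _)) j j' (by linarith) h3.le (by linarith)
  refine ⟨κ, hκ, e₀, he₀, fun K => Bas.mono 0 (H K) ?_⟩
  intro J _ F A' H V₁ V₂ z zj hz hzj u₀ a b d hu₀ ha hb hd B' hB' hBA
  obtain ⟨-, q2⟩ := H V₁ V₂ z zj hz hzj u₀ a b d hu₀ ha hb hd B' hB' hBA
  refine le_trans (mul_le_mul_of_nonneg_right ?_ (Nat.cast_nonneg J)) q2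
  linarith

end Pool.OWN83
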