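import Pool.Agent.H83.OWN.Fle
import Pool.Agent.H96.AVG.Vqb
import Pool.Agent.H71.AVG.Jgs
import Pool.Agent.H57.AVG.C1s

/-!
# The first rough coordinate is full given its velocity: all parameters at once

`IxV`: the parameters (an interval, a precision of the charts, the digits of the near path of the
base). `VNumA`: the numbers for all parameters; `vel_cls`: they exist in one subclass. `vel_ae`: at
almost every `g`, for all `e` and `C` there is a `k` such that for all parameters with at most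
`8 ^ (-k) J` digits of the velocity of the base the near digits of the first rough coordinate are full
given its velocity. `vfC_own`: the condition `VfC` of the closed gradient for `r₀ = v`.
-/

set_option autoImplicit false

namespace Pool.OWN83

open Finset Real MvPolynomial MeasureTheory Filter
open Pool.Agent.H49.Ent Pool.Agent.H32.Dense Pool.STK Pool.KA Pool.KSAT Pool.K2S Pool.PB Pool.S6C
  Pool.GEN Pool.RCD Pool.LA91 Pool.AVG96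

variable {m : ℕ} {U₀ U : Type} {α γ : ∀ J : ℕ, Fam m J → Type}
  {f : ∀ (J : ℕ) (F : Fam m J), F.Ω → α J F} {y : ∀ (J : ℕ) (F : Fam m J), F.Ω → γ J F}
  {S : PCl m} {c : ℕ → Fin m} {r₀ r : ℕ} {s A B Λ : ℝ} {sn : ℝ → ℕ → ℝ} {G : Set ℝ}

/-- Smaller intervals and steps. -/
theorem gch_cut (h : GCh S f y c r₀ r s A B Λ sn G) {A₁ B₁ Λ₁ : ℝ} (hA : A ≤ A₁) (hB : B₁ ≤ B)
    (h0 : 0 < Λ₁) (hΛ : Λ₁ ≤ Λ) : GCh S f y c r₀ r s A₁ B₁ Λ₁ sn G where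
  ne := h.ne
  pos := h.pos
  tm := h.tm
  rn := fun q a b => h.rn q (by linarith) (by linarith)
  cl := h.cl
  ch := fun w hw a b => h.ch w hw (by linarith) (by linarith)
  att := fun w hw a b => h.att w hw (by linarith) (by linarith)
  pt := h.pt
  kn := by
    obtain ⟨p₀, lam, h1, h2, h3, h4⟩ := h.kn
    exact ⟨p₀, lam, h1, by linarith, by linarith, h4⟩
  mono := fun l a b v hv o ho d e g => h.mono l a b v hv o ho (by linarith) e (by linarith)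
  A0 := by linarith [h.A0]
  Λ0 := h0

/-! ### The numbers -/

/-- **One subclass with the numbers of the place `r₀`**, countably many parameters. -/
theorem vnum_clsM {ι : Type} [Countable ι] (hne : S.Ne)
    (hpos : ∀ (τ : ℝ) (J : ℕ) (F : Fam m J) (A : F.Ω → Prop), S.St τ J F A → 0 < Pe F.p A)
    (γ' : ι → ∀ J : ℕ, Fam m J → Type) (y : ∀ (i : ι) (J : ℕ) (F : Fam m J), F.Ω → γ' i J F)
    (PA : ι → ℚ → Prop) (B Λ : ι → ℝ) (wh : ι → ℚ → ℝ) (sc : ι → ℚ → ℕ → ℝ)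
    (h : ∀ i, ∀ A' : ℚ, PA i A' → NCh S f (y i) c r₀ r s A' (B i) (Λ i) (wh i) (sc i))
    (hr : r₀ ≤ r) {Q₀ : Qt m U₀} (hQ : Exs S Q₀)
    (hQt : ∀ i, ∀ A' : ℚ, PA i A' → ∀ v : ℚ, (A' : ℝ) < v → (v : ℝ) < B i →
      Few S f (vg ((v : ℝ) + s)) (y i) Q₀ Q₀) :
    ∃ S' : PCl m, S'.Ne ∧
      (∀ (τ : ℝ) (J : ℕ) (F : Fam m J) (A : F.Ω → Prop), S'.St τ J F A → S.St τ J F A) ∧
      ∀ i, VNum S' f (y i) c r₀ s (PA i) (B i) (Λ i) (wh i) (sc i) Q₀ := by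
  classical
  have key : ∀ (U : Type) (Q : ι → ℚ → ℚ → Qt m U) (S : PCl m), S.Ne →
      (∀ (τ : ℝ) (J : ℕ) (F : Fam m J) (A : F.Ω → Prop), S.St τ J F A → 0 < Pe F.p A) →
      (∀ i, ∀ A' B' : ℚ, PA i A' → A' < B' → (B' : ℝ) ≤ B i → OneOk (sc i) r₀ (Λ i) A' B' →
        TwoRelS S f (y i) s (fun _ => Q₀) (Q i) A' B' ((B' : ℝ) - A')) →
      ∃ S' : PCl m, S'.Ne ∧
        (∀ (τ : ℝ) (J : ℕ) (F : Fam m J) (A : F.Ω → Prop), S'.St τ J F A → S.St τ J F A) ∧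
        ∀ i, ∀ A' B' : ℚ, PA i A' → A' < B' → (B' : ℝ) ≤ B i → OneOk (sc i) r₀ (Λ i) A' B' →
          ∃ (θ₀ : ℚ → ℝ) (θ : ℚ → ℚ → ℝ),
            TRelS S' f (y i) s (fun _ => Q₀) (Q i) A' B' ((B' : ℝ) - A') θ₀ θ := by
    intro U Q S hne hpos hT
    obtain ⟨S', h1, h2, h3⟩ := rel_clsS (ι := {x : ι × ℚ × ℚ // PA x.1 x.2.1 ∧ x.2.1 < x.2.2 ∧
        (x.2.2 : ℝ) ≤ B x.1 ∧ OneOk (sc x.1) r₀ (Λ x.1) x.2.1 x.2.2}) hne hpos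
      (fun _ => U₀) (fun _ => U) (fun _ => α) (fun x => γ' x.1.1) (fun _ => f) (fun x => y x.1.1)
      (fun _ => s) (fun _ _ => Q₀) (fun x => Q x.1.1) (fun x => (x.1.2.1 : ℝ))
      (fun x => (x.1.2.2 : ℝ)) (fun x => (x.1.2.2 : ℝ) - x.1.2.1)
      (fun x => hT _ _ _ x.2.1 x.2.2.1 x.2.2.2.1 x.2.2.2.2)
      (fun x => by
        have a3' : ((x.1.2.1 : ℚ) : ℝ) < x.1.2.2 := by exact_mod_cast x.2.2.1
        show (0 : ℝ) < ((x.1.2.2 : ℚ) : ℝ) - x.1.2.1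
        linarith)
    exact ⟨S', h1, h2, fun i A' B' a2 a3 a4 a5 => h3 ⟨(i, A', B'), a2, a3, a4, a5⟩⟩
  have hQt' : ∀ i, ∀ A' B' : ℚ, PA i A' → (B' : ℝ) ≤ B i → ∀ v : ℚ, (A' : ℝ) < v → (v : ℝ) < B' →
      Few S f (vg ((v : ℝ) + s)) (y i) Q₀ Q₀ := fun i A' B' a b v d e => hQt i A' a v d (by linarith)
  obtain ⟨S₁, a1, a2, a3⟩ := key ℤ (fun i => fam m c r₀ 0 (wh i) (sc i)) S hne hpos
    (fun i A' B' b1 b2 b3 b4 => rel_one ((h i A' b1).cut le_rfl b3) hr b4 hQ (hQt' i A' B' b1 b3)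
      (by norm_num))
  have hpos₁ : ∀ (τ : ℝ) (J : ℕ) (F : Fam m J) (A : F.Ω → Prop), S₁.St τ J F A → 0 < Pe F.p A :=
    fun τ J F A h => hpos τ J F A (a2 τ J F A h)
  obtain ⟨S₂, c1, c2, c3⟩ := key ℤ (fun i => fam m c r₀ 1 (wh i) (sc i)) S₁ a1 hpos₁
    (fun i A' B' b1 b2 b3 b4 => (rel_one ((h i A' b1).cut le_rfl b3) hr b4 hQ
      (hQt' i A' B' b1 b3) le_rfl).sub a2)
  have hpos₂ : ∀ (τ : ℝ) (J : ℕ) (F : Fam m J) (A : F.Ω → Prop), S₂.St τ J F A → 0 < Pe F.p A :=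
    fun τ J F A h => hpos₁ τ J F A (c2 τ J F A h)
  obtain ⟨S₃, d1, d2, d3⟩ := key (ℤ × ℤ) (fun i w o => (fam m c r₀ 0 (wh i) (sc i) w o).prod
    (fam m c r₀ 1 (wh i) (sc i) w o)) S₂ c1 hpos₂
    (fun i A' B' b1 b2 b3 b4 => (((rel_one ((h i A' b1).cut le_rfl b3) hr b4 hQ
      (hQt' i A' B' b1 b3) (by norm_num)).sub a2).sub c2).prod hpos₂
      (((rel_one ((h i A' b1).cut le_rfl b3) hr b4 hQ (hQt' i A' B' b1 b3) le_rfl).sub a2).sub c2))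
  refine ⟨S₃, d1, fun τ J F A h => a2 τ J F A (c2 τ J F A (d2 τ J F A h)),
    fun i A' B' b1 b2 b3 b4 => ⟨?_, ?_, d3 i A' B' b1 b2 b3 b4⟩⟩
  · obtain ⟨θ₀, θ, hθ⟩ := a3 i A' B' b1 b2 b3 b4
    exact ⟨θ₀, θ, (hθ.sub c2).sub d2⟩
  · obtain ⟨θ₀, θ, hθ⟩ := c3 i A' B' b1 b2 b3 b4
    exact ⟨θ₀, θ, hθ.sub d2⟩

/-- **The parameters**: the interval `(A₁, B₁)`, the precision `Λ₁` of the charts, the digits `p₀`, `lam`
of the near path of the base. -/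
structure IxV (A B Λ : ℝ) (A₁ B₁ Λ₁ p₀ lam : ℚ) : Prop where
  hA : A ≤ A₁
  hB : (B₁ : ℝ) ≤ B
  h0 : 0 < (Λ₁ : ℝ)
  hΛ : (Λ₁ : ℝ) ≤ Λ
  p1 : (p₀ : ℝ) ≤ 1
  pm : (Λ₁ : ℝ) ≤ lam
  p0 : (B₁ : ℝ) + Λ₁ ≤ p₀
  pl : (p₀ : ℝ) ≤ A₁ + lam

/-- **The numbers for all parameters.** -/
def VNumA (S : PCl m) (f : ∀ (J : ℕ) (F : Fam m J), F.Ω → α J F) (c : ℕ → Fin m) (r₀ : ℕ)
    (s A B Λ : ℝ) (sn : ℝ → ℕ → ℝ) (G : Set ℝ) : Prop :=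
  ∀ A₁ B₁ Λ₁ p₀ lam : ℚ, IxV A B Λ A₁ B₁ Λ₁ p₀ lam →
    VNum S f (yT ((range r₀).image c) p₀ lam) c r₀ s (PG G A₁ s) (B₁ - s) Λ₁ (whG G A₁ s)
      (scG sn G A₁ s) (Qt.fn fun _ _ _ => ())

theorem VNumA.sub {S' : PCl m} (hs : ∀ (τ : ℝ) (J : ℕ) (F : Fam m J) (A : F.Ω → Prop),
    S'.St τ J F A → S.St τ J F A) (h : VNumA S f c r₀ s A B Λ sn G) :
    VNumA S' f c r₀ s A B Λ sn G := fun A₁ B₁ Λ₁ p₀ lam h1 => (h A₁ B₁ Λ₁ p₀ lam h1).sub hs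

/-- The trivial quantity exists. -/
theorem exs_unit : Exs S (Qt.fn fun _ _ _ => ()) := by
  intro e _
  refine ⟨0, 0, ⟨1, one_pos, 0, fun J _ F A _ => ⟨fun _ => (), fun ω _ => rfl, ?_⟩⟩⟩
  classical
  have h1 : cnt F.p (fun _ : F.Ω => ()) A ≤ ({()} : Finset Unit).card :=
    cnt_le_card F.p _ _ fun ω _ _ => Finset.mem_singleton_self _
  have h2 : (cnt F.p (fun _ : F.Ω => ()) A : ℝ) ≤ (({()} : Finset Unit).card : ℕ) := by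
    exact_mod_cast h1
  refine h2.trans ?_
  rw [Finset.card_singleton, Nat.cast_one]
  exact Real.one_le_exp (by simp)

/-- The trivial quantity is few bits. -/
theorem few0_unit
    (hpos : ∀ (τ : ℝ) (J : ℕ) (F : Fam m J) (A : F.Ω → Prop), S.St τ J F A → 0 < Pe F.p A)
    {β : ∀ J : ℕ, Fam m J → Type} {g : ∀ (J : ℕ) (F : Fam m J), F.Ω → β J F} :
    Few0 S f g y (Qt.fn fun _ _ _ => ()) := by
  intro h hh
  refine ⟨1, one_pos, fun K => Bas.mono 0 (pos_bas hpos) ?_⟩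
  rintro J - F A hA u -
  refine ⟨Unit, fun _ => (), ⟨⟨fun _ => (), fun _ _ => rfl⟩, fun _ => (), fun _ _ => rfl⟩, ?_⟩
  rw [CH_eq_zero (isLaw_cond F.isLaw hA).nonneg (fun ω ω' _ _ _ => rfl)]
  positivity

/-- **One subclass with all the numbers.** -/
theorem vel_cls (h : GCh S f y c r₀ r s A B Λ sn G) (hr : r₀ ≤ r) :
    ∃ S' : PCl m, S'.Ne ∧
      (∀ (τ : ℝ) (J : ℕ) (F : Fam m J) (A : F.Ω → Prop), S'.St τ J F A → S.St τ J F A) ∧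
      (∃ θ : ℕ → ℚ → ℝ, VelN S' f ((range r₀).image c) s A B θ) ∧
      VNumA S' f c r₀ s A B Λ sn G := by
  obtain ⟨S₁, a1, a2, θ, a3⟩ := velN_cls (f := f) h.ne h.pos ((range r₀).image c) s A B
  have h' := h.sub a1 a2
  obtain ⟨S₂, b1, b2, b3⟩ := vnum_clsM (ι := {x : ℚ × ℚ × ℚ × ℚ × ℚ //
      IxV A B Λ x.1 x.2.1 x.2.2.1 x.2.2.2.1 x.2.2.2.2}) (f := f) (c := c) (r₀ := r₀) (r := r)
      (s := s) h'.ne h'.pos _
    (fun x => yT ((range r₀).image c) x.1.2.2.2.1 x.1.2.2.2.2)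
    (fun x => PG G x.1.1 s) (fun x => (x.1.2.1 : ℝ) - s) (fun x => x.1.2.2.1)
    (fun x => whG G x.1.1 s) (fun x => scG sn G x.1.1 s)
    (fun x A' hA' => ((gch_cut h' x.2.hA x.2.hB x.2.h0 x.2.hΛ).yT x.2.p1 x.2.pm x.2.p0).nch hA')
    hr exs_unit (fun _ _ _ _ _ _ => few_fn_self h'.pos)
  exact ⟨S₂, b1, fun τ J F A hA => a2 τ J F A (b2 τ J F A hA), ⟨θ, a3.sub b2⟩,
    fun A₁ B₁ Λ₁ p₀ lam hx => b3 ⟨(A₁, B₁, Λ₁, p₀, lam), hx⟩⟩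

/-! ### The theorem -/

/-- A function of the near path and the side information. -/
theorem velGre_ykZ (h : GCh S f y c r₀ r s A B Λ sn G) {p₀ lam : ℝ}
    {γ' : ∀ J : ℕ, Fam m J → Type} {y' : ∀ (J : ℕ) (F : Fam m J), F.Ω → γ' J F}
    (hyk : YkZ ((range r₀).image c) p₀ lam y') {Q₀ : Qt m U₀} {Sl g e κ C : ℝ}
    (he : 0 < e)
    (H : VelGre S f (yT ((range r₀).image c) p₀ lam) Q₀ c r₀ sn G Sl g (e / 2) κ C) :
    VelGre S f y' Q₀ c r₀ sn G Sl g e κ C := by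
  obtain ⟨ρ, hρ, H⟩ := H
  refine ⟨ρ, hρ, fun R hR hRρ w hw j w1 w2 w3 p hp Na Nb Nd b1 b2 b3 b4 c₀ hc₀ => ?_⟩
  obtain ⟨k, hk, e₀, he₀, H⟩ := H R hR hRρ w hw j w1 w2 w3 p hp Na Nb Nd b1 b2 b3 b4 c₀ hc₀
  refine ⟨min k (c₀ * (e / 2 * R)), by positivity, e₀, he₀, fun K =>
    Bas.mono 0 ((H K).and (pos_bas h.pos)) ?_⟩
  rintro J - F A' ⟨H, hA'⟩ V₁ V₂ z zj hz hzj u₀ a b d hu₀ ha hb hd B' hB' hBA
  have hJ0 : (0 : ℝ) ≤ J := Nat.cast_nonneg J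
  have hBp : 0 < Pe F.p B' := lt_of_lt_of_le (mul_pos hc₀ hA') hBA
  have hp := (isLaw_cond F.isLaw hBp).nonneg
  obtain ⟨ψ, hψ⟩ := hyk J F
  have q1 := H V₁ V₂ z zj (hz.le' (min_le_left _ _)) (hzj.le' (min_le_left _ _)) u₀ a b d hu₀ ha
    hb hd B' hB' hBA
  have q2 : CH (Pool.Agent.H49.Ent.cond F.p B' True) F.Z z ≤ e / 2 * R * J :=
    ch_part F.isLaw hB' hA' hc₀ hBA _ _ ((hz.2 _ F.Z (cl2_Z h.pt w J F A')).trans
      ((mul_le_mul_of_nonneg_right (min_le_right _ _) hJ0).trans (le_of_eq (by ring))))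
  have q3 := CH_le_add hp b F.Z (fun ω => (a ω, (d ω, (zj ω, (z ω, (u₀ ω,
    yT ((range r₀).image c) p₀ lam J F ω))))))
  have q4 : CH (Pool.Agent.H49.Ent.cond F.p B' True) F.Z (fun ω => (a ω, (d ω, (zj ω, (z ω, (u₀ ω,
      yT ((range r₀).image c) p₀ lam J F ω)))))) ≤
      CH (Pool.Agent.H49.Ent.cond F.p B' True) F.Z z := CH_mono_cond hp fun ω ω' _ _ hh => by
    simp only [Prod.mk.injEq] at hh
    exact hh.2.2.2.1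
  have q5 : CH (Pool.Agent.H49.Ent.cond F.p B' True) b (fun ω => (F.Z ω, (a ω, (d ω, (zj ω, (z ω,
      (u₀ ω, yT ((range r₀).image c) p₀ lam J F ω))))))) ≤
      CH (Pool.Agent.H49.Ent.cond F.p B' True) b
        (fun ω => (a ω, (d ω, (zj ω, (z ω, (u₀ ω, y' J F ω)))))) :=
    CH_mono_cond hp fun ω ω' _ _ hh => by
      rw [hψ ω, hψ ω']
      simp only [Prod.mk.injEq] at hh ⊢
      refine ⟨hh.2.1, hh.2.2.1, hh.2.2.2.1, hh.2.2.2.2.1, hh.2.2.2.2.2.1, ?_⟩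
      rw [hh.1, hh.2.2.2.2.2.2]
  linarith

/-- The near path of the base is a function of its position to `J` digits and its velocity. -/
theorem ykV_yT {I : Finset (Fin m)} {p₀ lam lam₀ : ℝ} (hp : p₀ ≤ 1) (hlam : lam ≤ lam₀) :
    YkV I lam₀ (yT (m := m) I p₀ lam) :=
  ykV_of hp hlam fun _ _ => ⟨fun x => (x.1.1, x.2.1, x.2.2), fun _ => rfl⟩

/-- **The near digits of the first rough coordinate are full given its velocity**, at almost every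
`g`, over all near paths of the base with few digits of the velocity (all parameters at once); the
jets of higher order are few bits. -/
theorem vel_ae_jet (h : GCh S f y c r₀ r s A B Λ sn G)
    (pf : ∀ (J : ℕ) (F : Fam m J), ∃ φ : PtT F → α J F, ∀ ω, f J F ω = φ (ptr F J ω))
    (hr : r₀ < r) (hsn : ∀ w ∈ G, A ≤ w → w < B → 0 ≤ sn w r₀) {θ : ℕ → ℚ → ℝ}
    (hθ : VelN S f ((range r₀).image c) s A B θ) (hV : VNumA S f c r₀ s A B Λ sn G) :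
    ∀ᵐ g : ℝ, A < g → g < B → ∀ Sl : ℕ → ℝ, SlpG sn r₀ r G g Sl → 1 < Sl r₀ →
      ∀ e C : ℝ, 0 < e → 0 < C → ∃ k : ℕ, ∀ A₁ B₁ Λ₁ p₀ lam : ℚ, IxV A B Λ A₁ B₁ Λ₁ p₀ lam →
        (A₁ : ℝ) < g → g < B₁ → (lam : ℝ) ≤ (1 / 8) ^ k →
        JetG S f (yT ((range r₀).image c) p₀ lam) (Qt.fn fun _ _ _ => ()) c r₀ sn G g →
        ∀ (γ' : ∀ J : ℕ, Fam m J → Type) (y' : ∀ (J : ℕ) (F : Fam m J), F.Ω → γ' J F),
        YkZ ((range r₀).image c) p₀ lam y' →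
        VelGre S f y' (Qt.fn fun _ _ _ => ()) c r₀ sn G (Sl r₀) g e (e / 32) C := by
  have key : ∀ᵐ g : ℝ, ∀ x : {x : ℚ × ℚ × ℚ × ℚ × ℚ //
      IxV A B Λ x.1 x.2.1 x.2.2.1 x.2.2.2.1 x.2.2.2.2}, (x.1.1 : ℝ) < g → g < x.1.2.1 →
      ∀ Sl : ℕ → ℝ, SlpG sn r₀ r G g Sl → 1 < Sl r₀ →
      JetG S f (yT ((range r₀).image c) x.1.2.2.2.1 x.1.2.2.2.2) (Qt.fn fun _ _ _ => ()) c r₀ sn
        G g → ∀ e C : ℝ, 0 < e → 0 < C →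
      FulGe S f (yT ((range r₀).image c) x.1.2.2.2.1 x.1.2.2.2.2) (Qt.fn fun _ _ _ => ()) c r₀ sn G
        (Sl r₀) g (eI (Sl r₀) e C) (CI (Sl r₀)) →
      VelGe S f (yT ((range r₀).image c) x.1.2.2.2.1 x.1.2.2.2.2) (Qt.fn fun _ _ _ => ()) c r₀ sn G
        (Sl r₀) g e (e / 8) C := by
    rw [ae_all_iff]
    intro x
    have hx := x.2
    exact vel_Ge ((gch_cut h hx.hA hx.hB hx.h0 hx.hΛ).yT hx.p1 hx.pm hx.p0) hr.le hx.p1 hx.pm hx.p0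
      hx.pl kn_yT (fun J F => ⟨fun v => v.2, fun ω => rfl⟩) exs_unit
      (fun _ _ _ _ => few_fn_self h.pos)
      (fun w hw a b => hsn w hw (hx.hA.trans a) (b.trans_le hx.hB)) (hV _ _ _ _ _ hx)
  filter_upwards [key, fulGe_ae h pf hr hθ (Q₀ := Qt.fn fun _ _ _ => ())
    (fun a _ _ => few0_unit h.pos)] with g hg hF hgA hgB Sl hS h1 e C he hC
  obtain ⟨k, hk⟩ := hF hgA hgB Sl hS (eI (Sl r₀) (e / 4) C) (CI (Sl r₀))
    (eI_pos h1 (by positivity) hC) (by unfold CI; linarith)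
  refine ⟨k, fun A₁ B₁ Λ₁ p₀ lam hx g1 g2 g3 hj γ' y' hy' => ?_⟩
  have hc := (gch_cut h hx.hA hx.hB hx.h0 hx.hΛ).yT (p₀ := p₀) (lam' := lam) hx.p1 hx.pm hx.p0
  have t1 := hg ⟨(A₁, B₁, Λ₁, p₀, lam), hx⟩ g1 g2 Sl hS h1 hj (e / 4) C (by positivity) hC
    (hk _ _ (ykV_yT hx.p1 g3))
  have e1 : e / 4 / 8 = e / 32 := by ring
  rw [e1] at t1
  have e2 : e / 4 = e / 2 / 2 := by ring
  rw [e2] at t1
  exact velGre_ykZ hc hy' he (t1.rgh hc hr.le g1 g2 (by positivity) hC)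

/-- The same for a slope between `1` and `2`. -/
theorem vel_ae (h : GCh S f y c r₀ r s A B Λ sn G)
    (pf : ∀ (J : ℕ) (F : Fam m J), ∃ φ : PtT F → α J F, ∀ ω, f J F ω = φ (ptr F J ω))
    (hr : r₀ < r) (hsn : ∀ w ∈ G, A ≤ w → w < B → 0 ≤ sn w r₀) {θ : ℕ → ℚ → ℝ}
    (hθ : VelN S f ((range r₀).image c) s A B θ) (hV : VNumA S f c r₀ s A B Λ sn G) :
    ∀ᵐ g : ℝ, A < g → g < B → ∀ Sl : ℕ → ℝ, SlpG sn r₀ r G g Sl → 1 < Sl r₀ → Sl r₀ < 2 →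
      ∀ e C : ℝ, 0 < e → 0 < C → ∃ k : ℕ, ∀ A₁ B₁ Λ₁ p₀ lam : ℚ, IxV A B Λ A₁ B₁ Λ₁ p₀ lam →
        (A₁ : ℝ) < g → g < B₁ → (lam : ℝ) ≤ (1 / 8) ^ k →
        ∀ (γ' : ∀ J : ℕ, Fam m J → Type) (y' : ∀ (J : ℕ) (F : Fam m J), F.Ω → γ' J F),
        YkZ ((range r₀).image c) p₀ lam y' →
        VelGre S f y' (Qt.fn fun _ _ _ => ()) c r₀ sn G (Sl r₀) g e (e / 32) C := by
  filter_upwards [vel_ae_jet h pf hr hsn hθ hV] with g hg hgA hgB Sl hS h1 h2 e C he hC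
  obtain ⟨k, hk⟩ := hg hgA hgB Sl hS h1 e C he hC
  refine ⟨k, fun A₁ B₁ Λ₁ p₀ lam hx g1 g2 g3 => hk A₁ B₁ Λ₁ p₀ lam hx g1 g2 g3 ?_⟩
  exact Pool.AVG71.jetG_slow ((gch_cut h hx.hA hx.hB hx.h0 hx.hΛ).yT hx.p1 hx.pm hx.p0) hr.le g1 g2
    hS h2

/-- **The moved place is full** (`VfC` for `r₀ = v`), from `VelGre`. -/
theorem vfC_of {v : ℕ} {γ' : ∀ J : ℕ, Fam m J → Type}
    {y' : ∀ (J : ℕ) (F : Fam m J), F.Ω → γ' J F} {Sl g e κ C : ℝ}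
    (H : VelGre S (fun J F => ptr F J) y' (Qt.fn fun _ _ _ => ()) c v sn G Sl g e κ C)
    (hpos : ∀ (τ : ℝ) (J : ℕ) (F : Fam m J) (A : F.Ω → Prop), S.St τ J F A → 0 < Pe F.p A) :
    ∃ ρ : ℝ, 0 < ρ ∧ ∀ R : ℝ, 0 < R → R < ρ → ∀ w ∈ G, ∀ x : ℝ, g - R ≤ w → w ≤ x → x ≤ g + R →
      ∀ (p n n' : ℕ → ℝ) (Na Nb Nd : ℝ), sn w v - C * R ≤ p v →
      sn w v + Sl * (x - w) ≤ Na + κ * R → Na ≤ Nb → Nb ≤ sn w v + C * R →
      Nd + w ≤ sn w v + C * R →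
      Pool.AVG57.VfC S y' c v v w x p n n' Na Nb Nd (e * R) := by
  obtain ⟨ρ, hρ, H⟩ := H
  refine ⟨ρ, hρ, fun R hR hRρ w hw x w1 w2 w3 p n n' Na Nb Nd hp b1 b2 b3 b4 => ?_⟩
  obtain ⟨k, hk, e₀, he₀, H⟩ := H R hR hRρ w hw x w1 w2 w3 (p v) hp Na Nb Nd b1 b2 b3 b4 1 one_pos
  refine ⟨k, hk, e₀, he₀, fun K => Bas.mono 0 ((H K).and (pos_bas hpos)) ?_⟩
  rintro J - F A' ⟨H, hA'⟩ V₁ V₂ z zx hz hzx u₀ a b d hu₀ ha hb hd
  refine (H V₁ V₂ z zx hz hzx (fun _ => ()) a b d (fun _ _ => rfl) ha hb hd A' (fun _ h => h)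
    (by rw [one_mul])).trans (CH_mono_cond (isLaw_cond F.isLaw hA').nonneg ?_)
  intro ω ω' hω hω' hh
  simp only [Prod.mk.injEq] at hh ⊢
  refine ⟨hh.1, hh.2.1, hh.2.2.1, hh.2.2.2.1, ?_, hh.2.2.2.2.2⟩
  funext i j'
  rw [hu₀.2 ω (of_cond_pos hω) i j' (by omega), hu₀.2 ω' (of_cond_pos hω') i j' (by omega)]

/-- **The moved place is full** (`VfC` for `r₀ = v`) at almost every `g`, at the numbers of the closed
gradient, for all parameters. -/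
theorem vfC_own {v : ℕ} (h : GCh S (fun J F => ptr F J) y c v (v + 1) s A B Λ sn G)
    (hsn : ∀ w ∈ G, A ≤ w → w < B → 0 ≤ sn w v) {θ : ℕ → ℚ → ℝ}
    (hθ : VelN S (fun J F => ptr F J) ((range v).image c) s A B θ)
    (hV : VNumA S (fun J F => ptr F J) c v s A B Λ sn G) :
    ∀ᵐ g : ℝ, A < g → g < B → ∀ Sl : ℕ → ℝ, SlpG sn v (v + 1) G g Sl → 1 < Sl v → Sl v < 2 →
      ∀ e C : ℝ, 0 < e → 0 < C → ∃ k : ℕ, ∀ A₁ B₁ Λ₁ p₀ lam : ℚ, IxV A B Λ A₁ B₁ Λ₁ p₀ lam →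
        (A₁ : ℝ) < g → g < B₁ → (lam : ℝ) ≤ (1 / 8) ^ k →
        ∀ (γ' : ∀ J : ℕ, Fam m J → Type) (y' : ∀ (J : ℕ) (F : Fam m J), F.Ω → γ' J F),
        YkZ ((range v).image c) p₀ lam y' →
        ∃ ρ : ℝ, 0 < ρ ∧ ∀ R : ℝ, 0 < R → R < ρ → ∀ w ∈ G, ∀ x : ℝ, g - R ≤ w → w ≤ x →
          x ≤ g + R → ∀ (p n n' : ℕ → ℝ) (Na Nb Nd : ℝ), sn w v - C * R ≤ p v →
          sn w v + Sl v * (x - w) ≤ Na + e / 32 * R → Na ≤ Nb → Nb ≤ sn w v + C * R →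
          Nd + w ≤ sn w v + C * R →
          Pool.AVG57.VfC S y' c v v w x p n n' Na Nb Nd (e * R) := by
  filter_upwards [vel_ae h (fun J F => ⟨fun x => x, fun _ => rfl⟩) (Nat.lt_succ_self v) hsn hθ hV]
    with g hg hgA hgB Sl hS h1 h2 e C he hC
  obtain ⟨k, hk⟩ := hg hgA hgB Sl hS h1 h2 e C he hC
  exact ⟨k, fun A₁ B₁ Λ₁ p₀ lam hx g1 g2 g3 γ' y' hy' =>
    vfC_of (hk A₁ B₁ Λ₁ p₀ lam hx g1 g2 g3 γ' y' hy') h.pos⟩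

end Pool.OWN83
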