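import Pool.Agent.H83.OWN.Vfc

/-!
# The far numbers for all parameters at once

`hnum_clsM`: the numbers `HNum` for countably many parameters in one subclass. `HNumA`: the numbers
for all intervals, precisions of the charts and digits of the near path of the base (`IxV`), with the
side information `Y p₀ lam`; `hnum_all`: they exist in one subclass. `yZT`: the side information, the
time and the digits of the base. `num_all`: one subclass with all numbers of the closed gradient.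
-/

set_option autoImplicit false

namespace Pool.OWN83

open Finset Real MvPolynomial MeasureTheory Filter
open Pool.Agent.H49.Ent Pool.Agent.H32.Dense Pool.STK Pool.KA Pool.KSAT Pool.K2S Pool.PB Pool.S6C
  Pool.GEN Pool.RCD Pool.LA91 Pool.AVG96

variable {m : ℕ} {U₀ U : Type} {α γ : ∀ J : ℕ, Fam m J → Type}
  {f : ∀ (J : ℕ) (F : Fam m J), F.Ω → α J F} {y : ∀ (J : ℕ) (F : Fam m J), F.Ω → γ J F}
  {S : PCl m} {c : ℕ → Fin m} {r₀ r : ℕ} {s A B Λ : ℝ} {sn : ℝ → ℕ → ℝ} {G : Set ℝ}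

/-- Another side information which knows the digits of the base. -/
theorem gch_y (h : GCh S f y c r₀ r s A B Λ sn G) {γ' : ∀ J : ℕ, Fam m J → Type}
    {y' : ∀ (J : ℕ) (F : Fam m J), F.Ω → γ' J F} {p₀ lam : ℝ} (h1 : p₀ ≤ 1) (h2 : Λ ≤ lam)
    (h3 : B + Λ ≤ p₀) (h4 : Kn ((range r₀).image c) p₀ lam y') :
    GCh S f y' c r₀ r s A B Λ sn G where
  ne := h.ne
  pos := h.pos
  tm := h.tm
  rn := h.rn
  cl := h.cl
  ch := h.ch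
  att := h.att
  pt := h.pt
  kn := ⟨p₀, lam, h1, h2, h3, h4⟩
  mono := h.mono
  A0 := h.A0
  Λ0 := h.Λ0

/-- The class at the parameters `IxV`. -/
theorem gch_ix (h : GCh S f y c r₀ r s A B Λ sn G) {γ' : ∀ J : ℕ, Fam m J → Type}
    {y' : ∀ (J : ℕ) (F : Fam m J), F.Ω → γ' J F} {A₁ B₁ Λ₁ p₀ lam : ℚ}
    (hx : IxV A B Λ A₁ B₁ Λ₁ p₀ lam) (h4 : Kn ((range r₀).image c) (p₀ : ℝ) lam y') :
    GCh S f y' c r₀ r s A₁ B₁ Λ₁ sn G :=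
  gch_y (gch_cut h hx.hA hx.hB hx.h0 hx.hΛ) hx.p1 hx.pm hx.p0 h4

/-- **One subclass with the far numbers**, countably many parameters. -/
theorem hnum_clsM {ι : Type} [Countable ι] (hne : S.Ne)
    (hpos : ∀ (τ : ℝ) (J : ℕ) (F : Fam m J) (A : F.Ω → Prop), S.St τ J F A → 0 < Pe F.p A)
    (γ' : ι → ∀ J : ℕ, Fam m J → Type) (y : ∀ (i : ι) (J : ℕ) (F : Fam m J), F.Ω → γ' i J F)
    (PA : ι → ℚ → Prop) (B Λ : ι → ℝ) (wh : ι → ℚ → ℝ) (sc : ι → ℚ → ℕ → ℝ)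
    (h : ∀ i, ∀ A' : ℚ, PA i A' → NCh S f (y i) c r₀ r s A' (B i) (Λ i) (wh i) (sc i)) :
    ∃ S' : PCl m, S'.Ne ∧
      (∀ (τ : ℝ) (J : ℕ) (F : Fam m J) (A : F.Ω → Prop), S'.St τ J F A → S.St τ J F A) ∧
      ∀ i, HNum S' f (y i) c r₀ r s (PA i) (B i) (Λ i) (wh i) (sc i) := by
  classical
  obtain ⟨κ, hκ⟩ : ∃ κ : Type, κ = {x : ι × ℕ × List ℚ × ℚ × ℚ //
    (r₀ ≤ x.2.1 ∧ x.2.1 ≤ r) ∧ PA x.1 x.2.2.2.1 ∧ x.2.2.2.1 < x.2.2.2.2 ∧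
    (x.2.2.2.2 : ℝ) ≤ B x.1 ∧
    FarOk (wh x.1) (sc x.1) r₀ x.2.1 (Λ x.1) x.2.2.1 x.2.2.2.1 x.2.2.2.2} := ⟨_, rfl⟩
  subst hκ
  obtain ⟨S', h1, h2, h3⟩ := rel_clsS (ι := {x : ι × ℕ × List ℚ × ℚ × ℚ //
      (r₀ ≤ x.2.1 ∧ x.2.1 ≤ r) ∧ PA x.1 x.2.2.2.1 ∧ x.2.2.2.1 < x.2.2.2.2 ∧
      (x.2.2.2.2 : ℝ) ≤ B x.1 ∧
      FarOk (wh x.1) (sc x.1) r₀ x.2.1 (Λ x.1) x.2.2.1 x.2.2.2.1 x.2.2.2.2}) hne hpos
    (fun _ => ℕ → ℕ → ℤ) (fun _ => ℤ × ℤ) (fun _ => α) (fun x => γ' x.1.1) (fun _ => f)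
    (fun x => y x.1.1)
    (fun _ => s) (fun x => farQ m c r₀ x.1.2.1 (wh x.1.1) (sc x.1.1) (lst x.1.2.2.1))
    (fun x => FamX m c x.1.2.1 (wh x.1.1) (sc x.1.1))
    (fun x => (x.1.2.2.2.1 : ℝ)) (fun x => (x.1.2.2.2.2 : ℝ))
    (fun x => (x.1.2.2.2.2 : ℝ) - x.1.2.2.2.1)
    (fun x => by
      obtain ⟨⟨i₀, i, L, A', B'⟩, ⟨a0, a1⟩, a2, a3, a4, lv, σ₀, a5, a6⟩ := x
      exact rel_fam ((h i₀ A' a2).cut le_rfl a4) a0 a1 a5 a6)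
    (fun x => by
      obtain ⟨⟨i₀, i, L, A', B'⟩, ⟨a0, a1⟩, a2, a3, a4, a5⟩ := x
      have a3' : (A' : ℝ) < B' := by exact_mod_cast a3
      show (0 : ℝ) < (B' : ℝ) - A'
      linarith)
  exact ⟨S', h1, h2, fun i₀ i a0 a1 L A' B' a2 a3 a4 a5 =>
    h3 ⟨(i₀, i, L, A', B'), ⟨a0, a1⟩, a2, a3, a4, a5⟩⟩

/-- **The far numbers for all parameters**, with the side information `Y p₀ lam`. -/
def HNumA (S : PCl m) (f : ∀ (J : ℕ) (F : Fam m J), F.Ω → α J F)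
    {γ' : ℚ → ℚ → ∀ J : ℕ, Fam m J → Type}
    (Y : ∀ (p₀ lam : ℚ) (J : ℕ) (F : Fam m J), F.Ω → γ' p₀ lam J F) (c : ℕ → Fin m)
    (r₀ r : ℕ) (s A B Λ : ℝ) (sn : ℝ → ℕ → ℝ) (G : Set ℝ) : Prop :=
  ∀ A₁ B₁ Λ₁ p₀ lam : ℚ, IxV A B Λ A₁ B₁ Λ₁ p₀ lam →
    HNum S f (Y p₀ lam) c r₀ r s (PG G A₁ s) (B₁ - s) Λ₁ (whG G A₁ s) (scG sn G A₁ s)

theorem HNumA.sub {γ' : ℚ → ℚ → ∀ J : ℕ, Fam m J → Type}
    {Y : ∀ (p₀ lam : ℚ) (J : ℕ) (F : Fam m J), F.Ω → γ' p₀ lam J F} {S' : PCl m}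
    (hs : ∀ (τ : ℝ) (J : ℕ) (F : Fam m J) (A : F.Ω → Prop), S'.St τ J F A → S.St τ J F A)
    (h : HNumA S f Y c r₀ r s A B Λ sn G) : HNumA S' f Y c r₀ r s A B Λ sn G :=
  fun A₁ B₁ Λ₁ p₀ lam h1 => (h A₁ B₁ Λ₁ p₀ lam h1).sub hs

/-- **One subclass with the far numbers for all parameters.** -/
theorem hnum_all (h : GCh S f y c r₀ r s A B Λ sn G)
    {γ' : ℚ → ℚ → ∀ J : ℕ, Fam m J → Type}
    (Y : ∀ (p₀ lam : ℚ) (J : ℕ) (F : Fam m J), F.Ω → γ' p₀ lam J F)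
    (hY : ∀ p₀ lam : ℚ, Kn ((range r₀).image c) (p₀ : ℝ) lam (Y p₀ lam)) :
    ∃ S' : PCl m, S'.Ne ∧
      (∀ (τ : ℝ) (J : ℕ) (F : Fam m J) (A : F.Ω → Prop), S'.St τ J F A → S.St τ J F A) ∧
      HNumA S' f Y c r₀ r s A B Λ sn G := by
  obtain ⟨S₂, b1, b2, b3⟩ := hnum_clsM (ι := {x : ℚ × ℚ × ℚ × ℚ × ℚ //
      IxV A B Λ x.1 x.2.1 x.2.2.1 x.2.2.2.1 x.2.2.2.2}) (f := f) (c := c) (r₀ := r₀) (r := r)
      (s := s) h.ne h.pos (fun x => γ' x.1.2.2.2.1 x.1.2.2.2.2)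
    (fun x => Y x.1.2.2.2.1 x.1.2.2.2.2)
    (fun x => PG G x.1.1 s) (fun x => (x.1.2.1 : ℝ) - s) (fun x => x.1.2.2.1)
    (fun x => whG G x.1.1 s) (fun x => scG sn G x.1.1 s)
    (fun x A' hA' => (gch_ix h x.2 (hY _ _)).nch hA')
  exact ⟨S₂, b1, b2, fun A₁ B₁ Λ₁ p₀ lam hx => b3 ⟨(A₁, B₁, Λ₁, p₀, lam), hx⟩⟩

/-- The side information of the families, the time and the digits of the base. -/
noncomputable def yZT (I : Finset (Fin m)) (p₀ lam : ℝ) (J : ℕ) (F : Fam m J) (ω : F.Ω) :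
    F.ζ × ℕ × (Fin m → ℤ) × (Fin m → ℤ) :=
  (F.Z ω, yT I p₀ lam J F ω)

theorem kn_yZT {I : Finset (Fin m)} {p₀ lam : ℝ} : Kn I p₀ lam (yZT (m := m) I p₀ lam) :=
  fun _ _ => ⟨fun v => v.2, fun _ => rfl⟩

theorem ykZ_yZT {I : Finset (Fin m)} {p₀ lam : ℝ} : YkZ I p₀ lam (yZT (m := m) I p₀ lam) :=
  fun _ _ => ⟨fun v => v, fun _ => rfl⟩

theorem ykZ_yT {I : Finset (Fin m)} {p₀ lam : ℝ} : YkZ I p₀ lam (yT (m := m) I p₀ lam) :=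
  fun _ _ => ⟨fun v => v.2, fun _ => rfl⟩

/-- **One subclass with all the numbers of the closed gradient**: the drop of the velocity of the
base (`VelN`), the numbers of the place `r₀` (`VNumA`), the far numbers (`HNumA`, side information
`yZT`), for all parameters. -/
theorem num_all (h : GCh S f y c r₀ r s A B Λ sn G) (hr : r₀ ≤ r) :
    ∃ S' : PCl m, S'.Ne ∧
      (∀ (τ : ℝ) (J : ℕ) (F : Fam m J) (A : F.Ω → Prop), S'.St τ J F A → S.St τ J F A) ∧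
      (∃ θ : ℕ → ℚ → ℝ, VelN S' f ((range r₀).image c) s A B θ) ∧
      VNumA S' f c r₀ s A B Λ sn G ∧
      HNumA S' f (fun p₀ lam : ℚ => yZT (m := m) ((range r₀).image c) p₀ lam) c r₀ r s A B Λ sn
        G := by
  obtain ⟨S₁, a1, a2, ⟨θ, a3⟩, a4⟩ := vel_cls h hr
  obtain ⟨S₂, b1, b2, b3⟩ := hnum_all (h.sub a1 a2)
    (fun p₀ lam : ℚ => yZT (m := m) ((range r₀).image c) p₀ lam) (fun _ _ => kn_yZT)
  exact ⟨S₂, b1, fun τ J F A hA => a2 τ J F A (b2 τ J F A hA), ⟨θ, a3.sub b2⟩, a4.sub b2, b3⟩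

end Pool.OWN83
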