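import Pool.Agent.H57.AVG.C1s
import Pool.Agent.H83.OWN.Lvo
import Pool.Agent.H96.AVG.Vle

/-!
# The near path of the base and the own jets over labels which are functions of the time

`CdT`, `YfT`: the conditions `CdC`, `YfC` for the places of the base, with labels which are functions
of the time only. `cdt`, `yft`: they hold for the near path `y` of the base, with the exact numbers of
digits. `cdC_zero`, `yfC_one`: for one place in the base these are the conditions `CdC`, `YfC`.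
-/

set_option autoImplicit false

namespace Pool.OWN83

open Finset Real MvPolynomial
open Pool.Agent.H49.Ent Pool.Agent.H32.Dense Pool.STK Pool.KA Pool.KSAT Pool.K2S Pool.PB Pool.S6C
open Pool.GEN Pool.CHT Pool.RCD Pool.LA91
open Pool.GRD (LbP)
open Pool.AVG57 (CdC YfC nd)
open Pool.AVG96 (jetQ)

variable {m : ℕ} {γ : ∀ J : ℕ, Fam m J → Type} {S : PCl m}
  {y : ∀ (J : ℕ) (F : Fam m J), F.Ω → γ J F}

/-! ### Jets over labels which are functions of the time -/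

/-- The own jets over two equal functions of the time. -/
theorem ojet_tm {J : ℕ} {F : Fam m J} {k : Fin m} {G : MvPolynomial (Option (Fin m)) ℝ}
    (hG : ∀ b b' : Option (Fin m) → ℝ, b none = b' none →
      (∀ i ∈ (∅ : Finset (Fin m)), b (some i) = b' (some i)) → eval b G = eval b' G)
    {ω ω' : F.Ω} (hT : F.T ω = F.T ω') (j : ℕ) :
    ojet F k j G ω - ojet F k j G ω' =
      jet j (X (some k)) (bt F ω) (bd F ω) - jet j (X (some k)) (bt F ω') (bd F ω') := by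
  unfold ojet
  have e0 : bt F ω none = bt F ω' none := by
    have e1 : ∀ ν : F.Ω, bt F ν none = F.t ν := fun _ => rfl
    rw [e1, e1]
    unfold Fam.t
    rw [hT]
  have e2 : jet j G (bt F ω) (bd F ω) = jet j G (bt F ω') (bd F ω') :=
    jet_congr hG j e0 (fun i hi => absurd hi (Finset.notMem_empty i)) rfl
      (fun i hi => absurd hi (Finset.notMem_empty i))
  rw [jet_sub, jet_sub, e2]
  ring

theorem jetX_zero (k : Option (Fin m)) (b v : Option (Fin m) → ℝ) : jet 0 (X k) b v = b k := by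
  unfold jet
  rw [aeval_X]
  unfold Pool.LA91.lp
  simp

theorem jetX_one (k : Option (Fin m)) (b v : Option (Fin m) → ℝ) : jet 1 (X k) b v = v k := by
  unfold jet
  rw [aeval_X]
  unfold Pool.LA91.lp
  simp

theorem jetX_two {j : ℕ} (hj : 2 ≤ j) (k : Option (Fin m)) (b v : Option (Fin m) → ℝ) :
    jet j (X k) b v = 0 := by
  unfold jet
  rw [aeval_X, Polynomial.iterate_derivative_eq_zero, Polynomial.eval_zero]
  exact lt_of_le_of_lt (natDegree_lp b v k) (by omega)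

theorem ojet_tm0 {J : ℕ} {F : Fam m J} {k : Fin m} {G : MvPolynomial (Option (Fin m)) ℝ}
    (hG : ∀ b b' : Option (Fin m) → ℝ, b none = b' none →
      (∀ i ∈ (∅ : Finset (Fin m)), b (some i) = b' (some i)) → eval b G = eval b' G)
    {ω ω' : F.Ω} (hT : F.T ω = F.T ω') :
    ojet F k 0 G ω - ojet F k 0 G ω' = F.x ω k - F.x ω' k := by
  rw [ojet_tm hG hT, jetX_zero, jetX_zero]
  rfl

theorem ojet_tm1 {J : ℕ} {F : Fam m J} {k : Fin m} {G : MvPolynomial (Option (Fin m)) ℝ}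
    (hG : ∀ b b' : Option (Fin m) → ℝ, b none = b' none →
      (∀ i ∈ (∅ : Finset (Fin m)), b (some i) = b' (some i)) → eval b G = eval b' G)
    {ω ω' : F.Ω} (hT : F.T ω = F.T ω') :
    ojet F k 1 G ω - ojet F k 1 G ω' = F.d ω k - F.d ω' k := by
  rw [ojet_tm hG hT, jetX_one, jetX_one]
  rfl

/-- One more digit is one bit. -/
theorem ch_dig {Ω T : Type} [Fintype Ω] {p : Ω → ℝ} (hp : IsLaw p) (x : Ω → ℝ) (n : ℕ) (Y : Ω → T)
    (h : ∀ ω ω', 0 < p ω → 0 < p ω' → Y ω = Y ω' → ⌊(2 : ℝ) ^ n * x ω⌋ = ⌊(2 : ℝ) ^ n * x ω'⌋) :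
    CH p (fun ω => ⌊(2 : ℝ) ^ (n + 1) * x ω⌋) Y ≤ Real.log 7 := by
  have key := CH_le_int hp.nonneg hp.sum_one (fun ω => ⌊(2 : ℝ) ^ (n + 1) * x ω⌋) Y
    (fun _ => (3 : ℝ)) (by
    intro ω ω' hω hω' hh
    have h1 := Int.abs_sub_lt_one_of_floor_eq_floor (h ω ω' hω hω' hh)
    refine (Pool.EXW.abs_floor_sub _ _).trans ?_
    have e : (2 : ℝ) ^ (n + 1) * x ω - 2 ^ (n + 1) * x ω' =
        2 * ((2 : ℝ) ^ n * x ω - 2 ^ n * x ω') := by
      rw [pow_succ]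
      ring
    rw [e, abs_mul, abs_two]
    linarith)
  rw [Ex_const hp.sum_one] at key
  refine key.trans (le_of_eq ?_)
  norm_num

/-! ### The codes -/

/-- **The codes of the own path** of `k` over any labels which are functions of the time. -/
def CdT {U : Type} (S : PCl m) (y : ∀ (J : ℕ) (F : Fam m J), F.Ω → γ J F) (k : Fin m)
    (K j₀ : ℕ) (w a p N θ : ℝ) (Q : Qt m U) : Prop :=
  ∃ e₀ : ℝ, 0 < e₀ ∧ ∀ (K₀ : ℕ) (E : ℝ), Bas S (fun J F A => ∀ u₀ : F.Ω → U,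
    Q.P K₀ e₀ J F A u₀ → ∀ (V : Type) (z : PtT F → V) (z' : LnT F → V)
    (G : V → MvPolynomial (Option (Fin m)) ℝ),
    LbP F ∅ k K J ⌊w * J⌋₊ ⌊(p - e₀) * J⌋₊ A z z' G →
    (∀ ω, A ω → ∀ b, |(dv ⌊w * J⌋₊ (fun s (_ : Fin m) => G (z' s)) k
      (slam F ⌊w * J⌋₊ ω)).coeff b| ≤ 2 ^ (E * J)) →
    ∃ (V₁ : Type) (z₁ : F.Ω → V₁), Cl2 (ptr F J) (vg a J F) A z₁ ∧
      ∀ s : ℝ, 0 < s → s ≤ 2 ^ (N * J) →
      CH (Pool.Agent.H49.Ent.cond F.p A True) (Pool.AVG71.cod F ⌊w * J⌋₊ j₀ (K + 1) s k z' G)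
        (fun ω => (u₀ ω, (z₁ ω, y J F ω))) ≤ θ * J)

theorem cdC_zero {U : Type} {c : ℕ → Fin m} {K j₀ : ℕ} {w a p N θ : ℝ} {Q : Qt m U}
    (h : CdT S y (c 0) K j₀ w a p N θ Q) : CdC S y c 0 K j₀ w a p N θ Q := by
  unfold CdC
  rw [show (range 0).image c = (∅ : Finset (Fin m)) by simp]
  exact h

/-- **The codes are few bits given the near path.** -/
theorem cdt
    (hpos : ∀ (τ : ℝ) (J : ℕ) (F : Fam m J) (A : F.Ω → Prop), S.St τ J F A → 0 < Pe F.p A)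
    {I : Finset (Fin m)} {p₀ lam : ℝ} (hy : Kn I p₀ lam y) {k : Fin m} (hk : k ∈ I) {K j₀ : ℕ}
    {w p N θ : ℝ} (hw0 : 0 ≤ w) (hw1 : w ≤ 1) (h0 : j₀ = 0 → N ≤ p₀) (h1 : N ≤ lam + w)
    (hθ : 0 < θ) {U : Type} (Q : Qt m U) : CdT S y k K j₀ w w p N θ Q := by
  refine ⟨1, one_pos, fun K₀ E => ?_⟩
  obtain ⟨C, hC⟩ : ∃ C : ℝ, C = 2 * Real.log 7 +
    (((K + 1) + 1 : ℕ) : ℝ) * Real.log (2 * (2 ^ (2 * (K + 1) + 1) + 1) + 1) := ⟨_, rfl⟩
  obtain ⟨J₀, hJ₀⟩ := exists_nat_ge (C / θ)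
  refine Bas.mono J₀ (pos_bas hpos) ?_
  rintro J hJ F A hA u₀ - V z z' G hlb -
  have hcl := isLaw_cond F.isLaw hA
  have hJ0 : (0 : ℝ) ≤ J := Nat.cast_nonneg J
  have hJ1 : (J₀ : ℝ) ≤ J := by exact_mod_cast hJ
  refine ⟨V, fun ω => z' (slam F ⌊w * J⌋₊ ω), ⟨⟨z, fun ω hω => (hlb.cls ω hω).symm⟩, z',
    fun _ _ => rfl⟩, fun s hs hsN => ?_⟩
  obtain ⟨φ, hφ⟩ := hy J F
  obtain ⟨Y, hY⟩ : ∃ Y, Y = fun ω => (u₀ ω, (z' (slam F ⌊w * J⌋₊ ω), y J F ω)) := ⟨_, rfl⟩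
  rw [← hY]
  have hYe : ∀ ω ω', Y ω = Y ω' → z' (slam F ⌊w * J⌋₊ ω) = z' (slam F ⌊w * J⌋₊ ω') ∧
      F.T ω = F.T ω' ∧ F.X ⌊p₀ * J⌋₊ ω k = F.X ⌊p₀ * J⌋₊ ω' k ∧
      F.D ⌊lam * J⌋₊ ω k = F.D ⌊lam * J⌋₊ ω' k := by
    intro ω ω' hh
    rw [hY] at hh
    simp only [Prod.mk.injEq] at hh
    have q1 : φ (y J F ω) = φ (y J F ω') := by rw [hh.2.2]
    rw [hφ ω, hφ ω'] at q1
    simp only [Prod.mk.injEq] at q1
    have q2 := congrFun q1.2.1 k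
    have q3 := congrFun q1.2.2 k
    simp only [if_pos hk] at q2 q3
    exact ⟨hh.2.1, q1.1, q2, q3⟩
  have t1 := ch_dig hcl (fun ω => F.x ω k) ⌊p₀ * J⌋₊ Y fun ω ω' _ _ hh => (hYe ω ω' hh).2.2.1
  have t2 := ch_dig hcl (fun ω => F.d ω k) ⌊lam * J⌋₊
    (fun ω => (⌊(2 : ℝ) ^ (⌊p₀ * J⌋₊ + 1) * F.x ω k⌋, Y ω))
    fun ω ω' _ _ hh => (hYe ω ω' (Prod.ext_iff.mp hh).2).2.2.2
  have t3 := Pool.AVG71.cod_near (F := F) (w := w) (N := N) (σ := s) hw0 (floor_le hw1 J) hs hsN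
    (κ := k) (zl := z') (G := G) (D := K + 1) (fun v => Nat.succ_le_succ (hlb.deg v)) hcl
    (fun ω => (⌊(2 : ℝ) ^ (⌊lam * J⌋₊ + 1) * F.d ω k⌋,
      (⌊(2 : ℝ) ^ (⌊p₀ * J⌋₊ + 1) * F.x ω k⌋, Y ω))) j₀ (by
    intro ω ω' hω hω' hh
    simp only [Prod.mk.injEq] at hh
    obtain ⟨q1, q2, -, -⟩ := hYe ω ω' hh.2.2
    refine ⟨q2, fun j hj _ => ?_⟩
    rw [← q1]
    rw [ojet_tm (hlb.dep _) q2 j]
    have hp : ∀ (n : ℕ) (a b : ℝ), ⌊(2 : ℝ) ^ (n + 1) * a⌋ = ⌊(2 : ℝ) ^ (n + 1) * b⌋ → ∀ x : ℝ,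
        x < (n : ℝ) + 1 → |a - b| ≤ 1 / 2 ^ x := by
      intro n a b he x hx
      have e1 := Int.abs_sub_lt_one_of_floor_eq_floor he
      rw [← mul_sub, abs_mul, abs_of_pos (by positivity)] at e1
      have e2 : (2 : ℝ) ^ x ≤ 2 ^ (n + 1) := by
        rw [← Real.rpow_natCast]
        refine Real.rpow_le_rpow_of_exponent_le (by norm_num) ?_
        push_cast
        exact hx.le
      have e3 : (0 : ℝ) < 2 ^ x := Real.rpow_pos_of_pos (by norm_num) _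
      rw [le_div_iff₀ e3]
      have e4 := mul_le_mul_of_nonneg_left e2 (abs_nonneg (a - b))
      linarith
    rcases Nat.lt_or_ge j 2 with hj2 | hj2
    · interval_cases j
      · rw [jetX_zero, jetX_zero]
        refine hp ⌊p₀ * J⌋₊ _ _ hh.2.1 _ ?_
        rw [Nat.cast_zero, zero_mul, sub_zero]
        exact (mul_le_mul_of_nonneg_right (h0 (by omega)) hJ0).trans_lt (Nat.lt_floor_add_one _)
      · rw [jetX_one, jetX_one]
        refine hp ⌊lam * J⌋₊ _ _ hh.1 _ ?_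
        rw [Nat.cast_one, one_mul]
        exact (mul_le_mul_of_nonneg_right (by linarith) hJ0).trans_lt (Nat.lt_floor_add_one _)
    · rw [jetX_two hj2, jetX_two hj2, sub_zero, abs_zero]
      have e3 : (0 : ℝ) < 2 ^ ((N - j * w) * J) := Real.rpow_pos_of_pos (by norm_num) _
      positivity)
  have t4 := CH_le_add hcl.nonneg (Pool.AVG71.cod F ⌊w * J⌋₊ j₀ (K + 1) s k z' G)
    (fun ω => ⌊(2 : ℝ) ^ (⌊p₀ * J⌋₊ + 1) * F.x ω k⌋) Y
  have t5 := CH_le_add hcl.nonneg (Pool.AVG71.cod F ⌊w * J⌋₊ j₀ (K + 1) s k z' G)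
    (fun ω => ⌊(2 : ℝ) ^ (⌊lam * J⌋₊ + 1) * F.d ω k⌋)
    (fun ω => (⌊(2 : ℝ) ^ (⌊p₀ * J⌋₊ + 1) * F.x ω k⌋, Y ω))
  have t6 : C ≤ θ * J := by
    have := hJ₀.trans hJ1
    rw [div_le_iff₀ hθ] at this
    linarith
  rw [hC] at t6
  linarith

/-! ### The near path -/

/-- The own jets of orders `0`, `1` of the base over labels which are functions of the time. -/
noncomputable def jetT (m : ℕ) (c : ℕ → Fin m) (r₀ : ℕ) (w : ℝ) (p : ℕ → ℝ) (D : ℕ → ℕ → ℝ) :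
    Qt m (ℕ → ℕ → ℤ) where
  P K e J F A u := (∀ l < r₀, ∀ j' ≤ 1, (qJet m ∅ (c l) j' w (p l) (D l j')).P K e J F A
      (fun ω => u ω l j')) ∧
    ∀ ω, A ω → ∀ l j', ¬ (l < r₀ ∧ j' ≤ 1) → u ω l j' = 0
  sub := by
    rintro K e J F A B u hB ⟨h1, h2⟩
    exact ⟨fun l a j' b => (qJet m _ _ _ _ _ _).sub hB (h1 l a j' b), fun ω hω => h2 ω (hB ω hω)⟩
  mono := by
    rintro K K' e e' J F A u hK he ⟨h1, h2⟩
    exact ⟨fun l a j' b => (qJet m _ _ _ _ _ _).mono hK he (h1 l a j' b), h2⟩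

/-- **The near path of the base** is few bits given the own jets of the base over labels which are
functions of the time. -/
def YfT (S : PCl m) (y : ∀ (J : ℕ) (F : Fam m J), F.Ω → γ J F) (c : ℕ → Fin m) (r₀ : ℕ) (w : ℝ)
    (p n n' : ℕ → ℝ) (θ : ℝ) : Prop :=
  ∃ e₀ : ℝ, 0 < e₀ ∧ ∀ K : ℕ, Bas S (fun J F A => ∀ u,
    (jetT m c r₀ w p (nd n n' w)).P K e₀ J F A u → ∃ (V₁ : Type) (z₁ : F.Ω → V₁),
      Cl2 (ptr F J) (vg w J F) A z₁ ∧
      CH (Pool.Agent.H49.Ent.cond F.p A True) (y J F) (fun ω => (u ω, (z₁ ω, F.W ω))) ≤ θ * J)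

theorem yfC_one {c : ℕ → Fin m} {w : ℝ} {p n n' : ℕ → ℝ} {θ : ℝ}
    (h : YfT S y c 1 w p n n' θ) : YfC S y c 1 w p n n' θ := by
  obtain ⟨e₀, he₀, H⟩ := h
  refine ⟨e₀, he₀, fun K => Bas.mono 0 (H K) ?_⟩
  rintro J - F A H u ⟨h1, h2⟩
  refine H u ⟨fun l hl j' hj' => ?_, fun ω hω l j' hn => h2 ω hω l j' fun hh => hn ⟨hh.2.1, hh.2.2⟩⟩
  obtain rfl : l = 0 := by omega
  have h3 := h1 0 le_rfl one_pos j' hj'
  rwa [show (range 0).image c = (∅ : Finset (Fin m)) by simp] at h3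

/-- **The near path from the own jets.** -/
theorem yft
    (hpos : ∀ (τ : ℝ) (J : ℕ) (F : Fam m J) (A : F.Ω → Prop), S.St τ J F A → 0 < Pe F.p A)
    {c : ℕ → Fin m} {r₀ : ℕ} {p₀ lam w θ : ℝ} {p n n' : ℕ → ℝ}
    (hy : ∀ (J : ℕ) (F : Fam m J), ∃ ψ : (ℕ × F.ζ) × (Fin m → ℤ) × (Fin m → ℤ) → γ J F, ∀ ω,
      y J F ω = ψ (F.W ω,
        (fun i => if i ∈ (range r₀).image c then F.X ⌊p₀ * J⌋₊ ω i else 0),
        fun i => if i ∈ (range r₀).image c then F.D ⌊lam * J⌋₊ ω i else 0))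
    (hp0 : 0 ≤ p₀) (hl0 : 0 ≤ lam) (h0 : ∀ l < r₀, p₀ ≤ n l)
    (h1 : ∀ l < r₀, lam + w ≤ n' l) (hθ : 0 < θ) : YfT S y c r₀ w p n n' θ := by
  classical
  refine ⟨1, one_pos, fun K => ?_⟩
  obtain ⟨J₀, hJ₀⟩ := exists_nat_ge (2 * (m * Real.log 7) / θ)
  refine Bas.mono J₀ (pos_bas hpos) ?_
  rintro J hJ F A hA u ⟨hu, -⟩
  have hcl := isLaw_cond F.isLaw hA
  have hJ0 : (0 : ℝ) ≤ J := Nat.cast_nonneg J
  have hJ1 : (J₀ : ℝ) ≤ J := by exact_mod_cast hJ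
  have hu' : ∀ i : Fin r₀ × Fin 2, (qJet m ∅ (c i.1) i.2 w (p i.1) (nd n n' w i.1 i.2)).P K 1 J F
      A (fun ω => u ω i.1 i.2) := fun i => hu i.1 i.1.2 i.2 (by have := i.2.2; omega)
  choose hc V z z' G hl hv using hu'
  refine ⟨_, fun ω (i : Fin r₀ × Fin 2) => z' i (slam F ⌊w * J⌋₊ ω),
    Cl2.pi fun i => ⟨⟨z i, fun ω hω => ((hl i).cls ω hω).symm⟩, z' i, fun _ _ => rfl⟩, ?_⟩
  obtain ⟨ψ, hψ⟩ := hy J F
  obtain ⟨I, hI⟩ : ∃ I, I = (range r₀).image c := ⟨_, rfl⟩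
  rw [← hI] at hψ
  obtain ⟨Y, hY⟩ : ∃ Y, Y = fun ω => (u ω, ((fun i : Fin r₀ × Fin 2 =>
    z' i (slam F ⌊w * J⌋₊ ω)), F.W ω)) := ⟨_, rfl⟩
  rw [← hY]
  obtain ⟨XX, hXX⟩ : ∃ XX : F.Ω → Fin m → ℤ, XX = fun ω i =>
    if i ∈ I then F.X ⌊p₀ * J⌋₊ ω i else 0 := ⟨_, rfl⟩
  obtain ⟨DD, hDD⟩ : ∃ DD : F.Ω → Fin m → ℤ, DD = fun ω i =>
    if i ∈ I then F.D ⌊lam * J⌋₊ ω i else 0 := ⟨_, rfl⟩
  -- the jets
  have hjet : ∀ ω ω', 0 < Pool.Agent.H49.Ent.cond F.p A True ω →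
      0 < Pool.Agent.H49.Ent.cond F.p A True ω' → Y ω = Y ω' → ∀ l (hl' : l < r₀) (j : Fin 2),
      |ojet F (c l) j (G (⟨l, hl'⟩, j) (z' (⟨l, hl'⟩, j) (slam F ⌊w * J⌋₊ ω))) ω -
        ojet F (c l) j (G (⟨l, hl'⟩, j) (z' (⟨l, hl'⟩, j) (slam F ⌊w * J⌋₊ ω))) ω'| ≤
        1 / 2 ^ (nd n n' w l j * J) := by
    intro ω ω' hω hω' hh l hl' j
    rw [hY] at hh
    simp only [Prod.mk.injEq] at hh
    have e1 := hv (⟨l, hl'⟩, j) ω (of_cond_pos hω)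
    have e2 := hv (⟨l, hl'⟩, j) ω' (of_cond_pos hω')
    have e3 : u ω l j = u ω' l j := by rw [hh.1]
    have e4 := congrFun hh.2.1 (⟨l, hl'⟩, j)
    simp only at e1 e2 e4
    rw [e1, e2, ← e4] at e3
    have e5 := Int.abs_sub_lt_one_of_floor_eq_floor e3
    have e6 : (0 : ℝ) < 2 ^ (nd n n' w l j * J) := Real.rpow_pos_of_pos (by norm_num) _
    rw [← mul_sub, abs_mul, abs_of_pos e6] at e5
    rw [le_div_iff₀ e6]
    linarith
  have hTe : ∀ ω ω', Y ω = Y ω' → F.T ω = F.T ω' := by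
    intro ω ω' hh
    rw [hY] at hh
    simp only [Prod.mk.injEq] at hh
    exact (Prod.ext_iff.mp hh.2.2).1
  have key : ∀ (N : ℕ) (M : ℝ) (a b : ℝ), (N : ℝ) ≤ M → |a - b| ≤ 1 / 2 ^ M →
      |((⌊(2 : ℝ) ^ N * a⌋ - ⌊(2 : ℝ) ^ N * b⌋ : ℤ) : ℝ)| ≤ 3 := by
    intro N M a b hNM hab
    refine (Pool.EXW.abs_floor_sub _ _).trans ?_
    rw [← mul_sub, abs_mul, abs_of_pos (by positivity)]
    have e1 : (2 : ℝ) ^ N ≤ 2 ^ M := by
      rw [← Real.rpow_natCast]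
      exact Real.rpow_le_rpow_of_exponent_le (by norm_num) hNM
    have e2 : (0 : ℝ) < 2 ^ M := Real.rpow_pos_of_pos (by norm_num) _
    have e3 : (2 : ℝ) ^ N * |a - b| ≤ 2 ^ M * (1 / 2 ^ M) :=
      mul_le_mul e1 hab (abs_nonneg _) e2.le
    rw [mul_one_div, div_self e2.ne'] at e3
    linarith
  have c1 := CH_le_vec hcl.nonneg hcl.sum_one XX Y (fun _ => (3 : ℝ)) (by
    intro ω ω' hω hω' hh i
    rw [hXX]
    simp only
    by_cases hi : i ∈ I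
    · rw [if_pos hi, if_pos hi]
      rw [hI] at hi
      obtain ⟨l, hl', rfl⟩ := mem_image.1 hi
      have hl2 := mem_range.1 hl'
      have e1 := hjet ω ω' hω hω' hh l hl2 0
      have e2 := ojet_tm0 (k := c l) ((hl (⟨l, hl2⟩, 0)).dep
        (z' (⟨l, hl2⟩, 0) (slam F ⌊w * J⌋₊ ω))) (hTe ω ω' hh)
      simp only [Fin.val_zero] at e1 e2
      rw [e2] at e1
      refine key ⌊p₀ * J⌋₊ _ _ _ ?_ e1
      refine (Nat.floor_le (by positivity)).trans (mul_le_mul_of_nonneg_right ?_ hJ0)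
      unfold nd
      rw [if_pos rfl]
      exact h0 l hl2
    · rw [if_neg hi, if_neg hi, sub_self, Int.cast_zero, abs_zero]
      norm_num)
  have c2 := CH_le_vec hcl.nonneg hcl.sum_one DD Y (fun _ => (3 : ℝ)) (by
    intro ω ω' hω hω' hh i
    rw [hDD]
    simp only
    by_cases hi : i ∈ I
    · rw [if_pos hi, if_pos hi]
      rw [hI] at hi
      obtain ⟨l, hl', rfl⟩ := mem_image.1 hi
      have hl2 := mem_range.1 hl'
      have e1 := hjet ω ω' hω hω' hh l hl2 1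
      have e2 := ojet_tm1 (k := c l) ((hl (⟨l, hl2⟩, 1)).dep
        (z' (⟨l, hl2⟩, 1) (slam F ⌊w * J⌋₊ ω))) (hTe ω ω' hh)
      simp only [Fin.val_one] at e1 e2
      rw [e2] at e1
      refine key ⌊lam * J⌋₊ _ _ _ ?_ e1
      refine (Nat.floor_le (by positivity)).trans (mul_le_mul_of_nonneg_right ?_ hJ0)
      unfold nd
      rw [if_neg one_ne_zero, Nat.cast_one, one_mul]
      linarith [h1 l hl2]
    · rw [if_neg hi, if_neg hi, sub_self, Int.cast_zero, abs_zero]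
      norm_num)
  rw [Ex_const hcl.sum_one] at c1 c2
  have t1 := CH_le_add hcl.nonneg (y J F) XX Y
  have t2 := CH_le_add hcl.nonneg (y J F) DD (fun ω => (XX ω, Y ω))
  have t3 : CH (Pool.Agent.H49.Ent.cond F.p A True) DD (fun ω => (XX ω, Y ω)) ≤
      CH (Pool.Agent.H49.Ent.cond F.p A True) DD Y :=
    CH_mono_cond hcl.nonneg fun _ _ _ _ hh => (Prod.ext_iff.mp hh).2
  have t4 : CH (Pool.Agent.H49.Ent.cond F.p A True) (y J F)
      (fun ω => (DD ω, (XX ω, Y ω))) = 0 := by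
    refine CH_eq_zero hcl.nonneg fun ω ω' _ _ hh => ?_
    simp only [Prod.mk.injEq] at hh
    have q1 : F.W ω = F.W ω' := by
      have := hh.2.2
      rw [hY] at this
      simp only [Prod.mk.injEq] at this
      exact this.2.2
    have q2 := hh.1
    have q3 := hh.2.1
    rw [hDD] at q2
    rw [hXX] at q3
    simp only at q2 q3
    rw [hψ ω, hψ ω', q1, q2, q3]
  have t6 : 2 * (m * Real.log 7) ≤ θ * J := by
    have := hJ₀.trans hJ1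
    rw [div_le_iff₀ hθ] at this
    linarith
  have e7 : (2 : ℝ) * 3 + 1 = 7 := by norm_num
  rw [e7] at c1 c2
  linarith

/-- `y` over the time and the digits of the base (helper96) is a near path. -/
theorem ykZ_psi {I : Finset (Fin m)} {p₀ lam : ℝ} (h : Pool.AVG96.YkZ I p₀ lam y) (J : ℕ)
    (F : Fam m J) : ∃ ψ : (ℕ × F.ζ) × (Fin m → ℤ) × (Fin m → ℤ) → γ J F, ∀ ω,
      y J F ω = ψ (F.W ω, (fun i => if i ∈ I then F.X ⌊p₀ * J⌋₊ ω i else 0),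
        fun i => if i ∈ I then F.D ⌊lam * J⌋₊ ω i else 0) := by
  obtain ⟨ψ, hψ⟩ := h J F
  exact ⟨fun x => ψ (x.1.2, (x.1.1, x.2)), fun ω => hψ ω⟩

end Pool.OWN83
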