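import Pool.Agent.H23.LOV.Sup

/-!
# Superadditive numbers have a rate at almost every point

`sup_rate`: a nonnegative superadditive interval function `F w o` is `f (o - w) + o(r)` in the
`r`-boxes of almost every point. `rate_rat`: the same for numbers at rational points.
-/

set_option autoImplicit false

namespace Pool.OWN83

open MeasureTheory Set Filter Topology Pool.LOV23

/-- The additive minorant of a superadditive function is superadditive. -/
theorem Phi_super {F : ℝ → ℝ → ℝ} {A B : ℝ} (h0 : ∀ w o, A ≤ w → w ≤ o → o ≤ B → 0 ≤ F w o)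
    (h2 : ∀ w v o, A ≤ w → w ≤ v → v ≤ o → o ≤ B → F w v + F v o ≤ F w o) {a b c : ℝ} (ha : A ≤ a)
    (hab : a ≤ b) (hbc : b ≤ c) (hc : c ≤ B) : Phi F a b + Phi F b c ≤ Phi F a c := by
  refine le_csInf ⟨_, parts_one F (hab.trans hbc)⟩ ?_
  rintro s ⟨u, n, hu, hu0, hun, rfl⟩
  have hbb : F b b ≤ 0 := by
    have := h2 b b b (ha.trans hab) le_rfl le_rfl (hbc.trans hc)
    linarith
  have h3 : ∑ i ∈ Finset.range n, F (min (u i) b) (min (u (i + 1)) b) ∈ parts F a b :=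
    ⟨fun i => min (u i) b, n, fun i j hij => min_le_min_right b (hu hij), by
      show min (u 0) b = a
      rw [hu0, min_eq_left hab], by
      show min (u n) b = b
      rw [hun, min_eq_right hbc], rfl⟩
  have h4 : ∑ i ∈ Finset.range n, F (max (u i) b) (max (u (i + 1)) b) ∈ parts F b c :=
    ⟨fun i => max (u i) b, n, fun i j hij => max_le_max_right b (hu hij), by
      show max (u 0) b = b
      rw [hu0, max_eq_right hab], by
      show max (u n) b = c
      rw [hun, max_eq_left hbc], rfl⟩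
  have h5 := Phi_le h0 ha (hbc.trans hc) h3
  have h6 := Phi_le h0 (ha.trans hab) hc h4
  refine (add_le_add h5 h6).trans ?_
  rw [← Finset.sum_add_distrib]
  refine Finset.sum_le_sum fun i hi => ?_
  rw [Finset.mem_range] at hi
  have k1 : A ≤ u i := ha.trans (hu0.ge.trans (hu (Nat.zero_le i)))
  have k2 : u i ≤ u (i + 1) := hu (Nat.le_succ i)
  have k3 : u (i + 1) ≤ B := (hu (by omega : i + 1 ≤ n)).trans (hun.le.trans hc)
  rcases le_total (u (i + 1)) b with h7 | h7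
  · rw [min_eq_left (k2.trans h7), min_eq_left h7, max_eq_right (k2.trans h7), max_eq_right h7]
    linarith
  · rcases le_total (u i) b with h8 | h8
    · rw [min_eq_left h8, min_eq_right h7, max_eq_right h8, max_eq_left h7]
      exact h2 _ _ _ k1 h8 h7 k3
    · rw [min_eq_right h8, min_eq_right h7, max_eq_left h8, max_eq_left h7]
      linarith

/-- **The rate on one interval.** -/
theorem rate_one {F : ℝ → ℝ → ℝ} {A B : ℝ} (h0 : ∀ w o, A ≤ w → w ≤ o → o ≤ B → 0 ≤ F w o)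
    (h2 : ∀ w v o, A ≤ w → w ≤ v → v ≤ o → o ≤ B → F w v + F v o ≤ F w o) (hAB : A < B) :
    ∀ᵐ g : ℝ, g ∈ Ioo A B → ∃ f : ℝ, 0 ≤ f ∧ ∀ e : ℝ, 0 < e → ∃ r₀ : ℝ, 0 < r₀ ∧
      ∀ r : ℝ, 0 < r → r < r₀ → ∀ w o : ℝ, g - r ≤ w → w ≤ o → o ≤ g + r →
        |F w o - f * (o - w)| ≤ e * r := by
  have hadd : ∀ {a b c : ℝ}, A ≤ a → a ≤ b → b ≤ c → c ≤ B → Phi F a c = Phi F a b + Phi F b c :=
    fun ha hab hbc hc => le_antisymm (Phi_add h0 ha hab hbc hc) (Phi_super h0 h2 ha hab hbc hc)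
  have hnn : ∀ {a b : ℝ}, A ≤ a → a ≤ b → b ≤ B → 0 ≤ Phi F a b := fun ha hab hb =>
    le_csInf ⟨_, parts_one F hab⟩ fun s hs => parts_nonneg h0 ha hb hs
  have hmon : MonotoneOn (fun x => Phi F A x) (Icc A B) := by
    intro x hx y hy hxy
    have h3 := hadd (a := A) le_rfl hx.1 hxy hy.2
    have h4 := hnn hx.1 hxy hy.2
    dsimp only
    linarith
  have hbad : ∀ᵐ g : ℝ, ∀ j : ℕ, g ∈ Ioo A B → ∃ r₀ : ℝ, 0 < r₀ ∧ ∀ r : ℝ, 0 < r → r < r₀ →
      ∀ w o : ℝ, g - r ≤ w → w ≤ o → o ≤ g + r → Df F w o ≤ 3 * (1 / ((j : ℝ) + 1)) * r := by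
    rw [ae_all_iff]
    intro j
    exact volume_bad h0 h2 hAB (c := 1 / ((j : ℝ) + 1)) (by positivity)
  filter_upwards [hmon.ae_differentiableWithinAt_of_mem, hbad] with g hd hb hg
  have hdg : DifferentiableAt ℝ (fun x => Phi F A x) g :=
    (hd ⟨hg.1.le, hg.2.le⟩).differentiableAt (Icc_mem_nhds hg.1 hg.2)
  refine ⟨deriv (fun x => Phi F A x) g, ?_, fun e he => ?_⟩
  · rw [← derivWithin_of_mem_nhds (Icc_mem_nhds hg.1 hg.2)]
    exact hmon.derivWithin_nonneg
  obtain ⟨f, hf⟩ : ∃ f, f = deriv (fun x => Phi F A x) g := ⟨_, rfl⟩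
  have h1 := hdg.hasDerivAt
  rw [← hf] at h1 ⊢
  rw [hasDerivAt_iff_isLittleO_nhds_zero] at h1
  have h3 := h1.def (show 0 < e / 4 by positivity)
  obtain ⟨s, hs, hs'⟩ := Metric.eventually_nhds_iff.1 h3
  obtain ⟨j, hj⟩ := exists_nat_one_div_lt (show 0 < e / 6 by positivity)
  obtain ⟨r₁, hr₁, hr⟩ := hb j hg
  refine ⟨min (min s r₁) (min (g - A) (B - g)), lt_min (lt_min hs hr₁) (lt_min (by linarith [hg.1])
    (by linarith [hg.2])), fun r hr0 hrr w o hw hwo ho => ?_⟩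
  have l1 : r < s := hrr.trans_le ((min_le_left _ _).trans (min_le_left _ _))
  have l2 : r < r₁ := hrr.trans_le ((min_le_left _ _).trans (min_le_right _ _))
  have l3 : r < g - A := hrr.trans_le ((min_le_right _ _).trans (min_le_left _ _))
  have l4 : r < B - g := hrr.trans_le ((min_le_right _ _).trans (min_le_right _ _))
  have hpt : ∀ x : ℝ, |x - g| ≤ r → |Phi F A x - Phi F A g - f * (x - g)| ≤ e / 4 * r := by
    intro x hx
    have h4 := hs' (y := x - g) (by
      rw [dist_zero_right, Real.norm_eq_abs]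
      exact hx.trans_lt l1)
    rw [Real.norm_eq_abs, Real.norm_eq_abs, smul_eq_mul] at h4
    have h5 : g + (x - g) = x := by ring
    rw [h5, mul_comm (x - g) f] at h4
    exact h4.trans (mul_le_mul_of_nonneg_left hx (by positivity))
  have hwg : |w - g| ≤ r := abs_le.2 ⟨by linarith, by linarith⟩
  have hog : |o - g| ≤ r := abs_le.2 ⟨by linarith, by linarith⟩
  have h6 := abs_le.1 (hpt w hwg)
  have h7 := abs_le.1 (hpt o hog)
  have h8 := hadd (a := A) (b := w) (c := o) le_rfl (by linarith) hwo (by linarith)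
  have h9 := hr r hr0 l2 w o hw hwo ho
  have h10 := Df_nonneg h0 (a := w) (b := o) (by linarith) hwo (by linarith)
  have h11 : 3 * (1 / ((j : ℝ) + 1)) * r ≤ e / 2 * r :=
    mul_le_mul_of_nonneg_right (by linarith) hr0.le
  have h12 : Df F w o = F w o - Phi F w o := rfl
  have h13 : f * (o - w) = f * (o - g) - f * (w - g) := by ring
  rw [h12] at h9 h10
  rw [abs_le, h13]
  constructor <;> linarith [h6.1, h6.2, h7.1, h7.2]

/-- **Superadditive interval functions have a rate.** -/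
theorem sup_rate {F : ℝ → ℝ → ℝ} {A B lam : ℝ} (hlam : 0 < lam)
    (h0 : ∀ w o, A < w → w ≤ o → o < B → o < w + lam → 0 ≤ F w o)
    (h2 : ∀ w v o, A < w → w ≤ v → v ≤ o → o < B → o < w + lam → F w v + F v o ≤ F w o) :
    ∀ᵐ g : ℝ, g ∈ Ioo A B → ∃ f : ℝ, 0 ≤ f ∧ ∀ e : ℝ, 0 < e → ∃ r₀ : ℝ, 0 < r₀ ∧
      ∀ r : ℝ, 0 < r → r < r₀ → ∀ w o : ℝ, g - r ≤ w → w ≤ o → o ≤ g + r →
        |F w o - f * (o - w)| ≤ e * r := by
  have key : ∀ᵐ g : ℝ, ∀ p q : ℚ, A < (p : ℝ) → (q : ℝ) < B → (p : ℝ) < q →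
      (q : ℝ) < p + lam → g ∈ Ioo (p : ℝ) q → ∃ f : ℝ, 0 ≤ f ∧ ∀ e : ℝ, 0 < e → ∃ r₀ : ℝ, 0 < r₀ ∧
      ∀ r : ℝ, 0 < r → r < r₀ → ∀ w o : ℝ, g - r ≤ w → w ≤ o → o ≤ g + r →
        |F w o - f * (o - w)| ≤ e * r := by
    rw [ae_all_iff]; intro p
    rw [ae_all_iff]; intro q
    by_cases h : A < (p : ℝ) ∧ (q : ℝ) < B ∧ (p : ℝ) < q ∧ (q : ℝ) < p + lam
    · obtain ⟨hp, hq, hpq, hl⟩ := h
      have := rate_one (F := F) (A := p) (B := q)
        (fun w o hw hwo ho => h0 w o (hp.trans_le hw) hwo (ho.trans_lt hq) (by linarith))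
        (fun w v o hw hwv hvo ho => h2 w v o (hp.trans_le hw) hwv hvo (ho.trans_lt hq)
          (by linarith)) hpq
      filter_upwards [this] with g hg _ _ _ _ hmem
      exact hg hmem
    · exact Eventually.of_forall fun g h1 h3 h4 h5 _ => absurd ⟨h1, h3, h4, h5⟩ h
  filter_upwards [key] with g hg hgAB
  obtain ⟨p, hp1, hp2⟩ := exists_rat_btwn (show max A (g - lam / 2) < g from
    max_lt hgAB.1 (by linarith))
  obtain ⟨q, hq1, hq2⟩ := exists_rat_btwn (show g < min B (g + lam / 2) from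
    lt_min hgAB.2 (by linarith))
  have hpA : A < (p : ℝ) := (le_max_left _ _).trans_lt hp1
  have hpl : g - lam / 2 < (p : ℝ) := (le_max_right _ _).trans_lt hp1
  have hqB : (q : ℝ) < B := hq2.trans_le (min_le_left _ _)
  have hql : (q : ℝ) < g + lam / 2 := hq2.trans_le (min_le_right _ _)
  exact hg p q hpA hqB (hp2.trans hq1) (by linarith) ⟨hp2, hq1⟩

/-- **Numbers at rational points.** -/
theorem rate_rat {θ : ℚ → ℚ → ℝ} {A B lam : ℝ} (hlam : 0 < lam)
    (h0 : ∀ w o : ℚ, A < w → w ≤ o → (o : ℝ) < B → (o : ℝ) < w + lam → 0 ≤ θ w o)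
    (h2 : ∀ w v o : ℚ, A < w → w ≤ v → v ≤ o → (o : ℝ) < B → (o : ℝ) < w + lam →
      θ w v + θ v o ≤ θ w o) :
    ∀ᵐ g : ℝ, g ∈ Ioo A B → ∃ f : ℝ, 0 ≤ f ∧ ∀ e : ℝ, 0 < e → ∃ r₀ : ℝ, 0 < r₀ ∧
      ∀ r : ℝ, 0 < r → r < r₀ → ∀ w o : ℚ, g - r ≤ w → w ≤ o → (o : ℝ) ≤ g + r →
        |θ w o - f * (o - w)| ≤ e * r := by
  obtain ⟨T, hT⟩ : ∃ T : ℝ → ℝ → Set ℝ, T = fun w o => {x | x = 0 ∨ ∃ w' o' : ℚ, w ≤ (w' : ℝ) ∧
    w' ≤ o' ∧ (o' : ℝ) ≤ o ∧ x = θ w' o'} := ⟨_, rfl⟩
  have hz : ∀ w o, (0 : ℝ) ∈ T w o := by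
    intro w o
    rw [hT]
    exact Or.inl rfl
  have hmon : ∀ w o w' o' : ℚ, A < w → w ≤ w' → w' ≤ o' → o' ≤ o → (o : ℝ) < B →
      (o : ℝ) < w + lam → θ w' o' ≤ θ w o := by
    intro w o w' o' hw a1 a2 a3 ho hl
    have b1 : (w : ℝ) ≤ w' := by exact_mod_cast a1
    have b2 : (w' : ℝ) ≤ o' := by exact_mod_cast a2
    have b3 : (o' : ℝ) ≤ o := by exact_mod_cast a3
    have c1 := h2 w w' o hw a1 (a2.trans a3) ho hl
    have c2 := h2 w' o' o (hw.trans_le b1) a2 a3 ho (by linarith)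
    have c3 := h0 w w' hw a1 (by linarith) (by linarith)
    have c4 := h0 o' o (by linarith) a3 ho (by linarith)
    linarith
  have hbd : ∀ w o : ℝ, A < w → w ≤ o → o < B → o < w + lam → BddAbove (T w o) := by
    intro w o hw hwo ho hl
    obtain ⟨a, ha1, ha2⟩ := exists_rat_btwn (show max A (w - (w + lam - o) / 2) < w from
      max_lt hw (by linarith))
    obtain ⟨b, hb1, hb2⟩ := exists_rat_btwn (show o < min B (o + (w + lam - o) / 2) from
      lt_min ho (by linarith))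
    have e1 := le_max_left A (w - (w + lam - o) / 2)
    have e2 := le_max_right A (w - (w + lam - o) / 2)
    have e3 := min_le_left B (o + (w + lam - o) / 2)
    have e4 := min_le_right B (o + (w + lam - o) / 2)
    refine ⟨max 0 (θ a b), ?_⟩
    rintro x hx
    rw [hT] at hx
    rcases hx with rfl | ⟨w', o', a1, a2, a3, rfl⟩
    · exact le_max_left _ _
    · refine (hmon a b w' o' (by linarith) ?_ a2 ?_ (by linarith) (by linarith)).trans
        (le_max_right _ _)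
      · have : (a : ℝ) ≤ w' := by linarith
        exact_mod_cast this
      · have : (o' : ℝ) ≤ b := by linarith
        exact_mod_cast this
  obtain ⟨G, hG⟩ : ∃ G : ℝ → ℝ → ℝ, G = fun w o => sSup (T w o) := ⟨_, rfl⟩
  have hGe : ∀ w o : ℚ, A < w → w ≤ o → (o : ℝ) < B → (o : ℝ) < w + lam → G w o = θ w o := by
    intro w o hw hwo ho hl
    have hwo' : (w : ℝ) ≤ o := by exact_mod_cast hwo
    rw [hG]
    refine le_antisymm (csSup_le ⟨0, hz _ _⟩ ?_) (le_csSup (hbd _ _ hw hwo' ho hl) ?_)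
    · intro x hx
      rw [hT] at hx
      rcases hx with rfl | ⟨w', o', a1, a2, a3, rfl⟩
      · exact h0 w o hw hwo ho hl
      · exact hmon w o w' o' hw (by exact_mod_cast a1) a2 (by exact_mod_cast a3) ho hl
    · rw [hT]
      exact Or.inr ⟨w, o, le_rfl, hwo, le_rfl, rfl⟩
  have hG0 : ∀ w o : ℝ, A < w → w ≤ o → o < B → o < w + lam → 0 ≤ G w o := by
    intro w o a1 a2 a3 a4
    rw [hG]
    exact le_csSup (hbd w o a1 a2 a3 a4) (hz w o)
  have hGs : ∀ w v o : ℝ, A < w → w ≤ v → v ≤ o → o < B → o < w + lam →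
      G w v + G v o ≤ G w o := by
    intro w v o hw hwv hvo ho hl
    have hb := hbd w o hw (hwv.trans hvo) ho hl
    have key : ∀ x ∈ T w v, ∀ x' ∈ T v o, x + x' ≤ G w o := by
      intro x hx x' hx'
      rw [hT] at hx hx'
      have gle : ∀ w' o' : ℚ, w ≤ w' → w' ≤ o' → (o' : ℝ) ≤ o → θ w' o' ≤ G w o := by
        intro w' o' a1 a2 a3
        rw [hG]
        refine le_csSup hb ?_
        rw [hT]
        exact Or.inr ⟨w', o', a1, a2, a3, rfl⟩
      rcases hx with rfl | ⟨w1, v1, a1, a2, a3, rfl⟩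
      · rcases hx' with rfl | ⟨v2, o2, b1, b2, b3, rfl⟩
        · rw [add_zero]
          exact hG0 w o hw (hwv.trans hvo) ho hl
        · rw [zero_add]
          exact gle v2 o2 (hwv.trans b1) b2 b3
      · rcases hx' with rfl | ⟨v2, o2, b1, b2, b3, rfl⟩
        · rw [add_zero]
          exact gle w1 v1 a1 a2 (a3.trans hvo)
        · have c0 : v1 ≤ v2 := by
            have : (v1 : ℝ) ≤ v2 := a3.trans b1
            exact_mod_cast this
          have a2' : (w1 : ℝ) ≤ v1 := by exact_mod_cast a2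
          have b2' : (v2 : ℝ) ≤ o2 := by exact_mod_cast b2
          have c1 := h2 w1 v1 o2 (by linarith) a2 (c0.trans b2) (by linarith) (by linarith)
          have c2 := h2 v1 v2 o2 (by linarith) c0 b2 (by linarith) (by linarith)
          have c3 := h0 v1 v2 (by linarith) c0 (by linarith) (by linarith)
          have c4 := gle w1 o2 a1 (a2.trans (c0.trans b2)) b3
          linarith
    rw [hG] at key ⊢
    have k1 : ∀ x' ∈ T v o, sSup (T w v) ≤ sSup (T w o) - x' := by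
      intro x' hx'
      exact csSup_le ⟨0, hz _ _⟩ fun x hx => by linarith [key x hx x' hx']
    have k2 : sSup (T v o) ≤ sSup (T w o) - sSup (T w v) :=
      csSup_le ⟨0, hz _ _⟩ fun x' hx' => by linarith [k1 x' hx']
    simp only
    linarith
  have := sup_rate (F := G) (A := A) (B := B) hlam hG0 hGs
  filter_upwards [this] with g hg hgAB
  obtain ⟨f, hf, hr'⟩ := hg hgAB
  refine ⟨f, hf, fun e he => ?_⟩
  obtain ⟨r₀, hr₀, hr⟩ := hr' e he
  refine ⟨min r₀ (min (lam / 2) (min (g - A) (B - g))), lt_min hr₀ (lt_min (by linarith)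
    (lt_min (by linarith [hgAB.1]) (by linarith [hgAB.2]))), fun r hr1 hr2 w o hw hwo ho => ?_⟩
  have l1 : r < r₀ := hr2.trans_le (min_le_left _ _)
  have l2 : r < lam / 2 := hr2.trans_le ((min_le_right _ _).trans (min_le_left _ _))
  have l3 : r < g - A := hr2.trans_le ((min_le_right _ _).trans ((min_le_right _ _).trans
    (min_le_left _ _)))
  have l4 : r < B - g := hr2.trans_le ((min_le_right _ _).trans ((min_le_right _ _).trans
    (min_le_right _ _)))
  have hwo' : (w : ℝ) ≤ o := by exact_mod_cast hwo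
  have h5 := hr r hr1 l1 w o hw hwo' ho
  rw [hGe w o (by linarith) hwo (by linarith) (by linarith)] at h5
  exact h5

end Pool.OWN83
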