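import Pool.Agent.H83.OWN.Lvo
import Pool.Agent.H83.OWN.Rate
import Pool.Agent.H96.AVG.Vqb

/-!
# The position of the first rough coordinate is full over the near path of the base

`VelN`: the numbers of the first `8 ^ (-k) J` digits of the velocity of the base. `velN_cls`: they
exist in a subclass. `fulGe_ae`: at almost every `g`, for all `e` and `C` there is a `k` such that
the condition `FulGe` holds for all near paths of the base with at most `8 ^ (-k) J` digits of the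
velocity.
-/

set_option autoImplicit false

namespace Pool.OWN83

open Finset Real MvPolynomial MeasureTheory Filter
open Pool.Agent.H49.Ent Pool.Agent.H32.Dense Pool.STK Pool.KA Pool.KSAT Pool.K2S Pool.PB Pool.S6C
  Pool.GEN Pool.RCD Pool.LA91
open Pool.AVG96 (LowN GCh SlpG FulGe)

variable {m : ℕ} {U₀ U : Type} {α γ δ : ∀ J : ℕ, Fam m J → Type}
  {f : ∀ (J : ℕ) (F : Fam m J), F.Ω → α J F} {y' : ∀ (J : ℕ) (F : Fam m J), F.Ω → γ J F}
  {v : ∀ (J : ℕ) (F : Fam m J), F.Ω → δ J F}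
  {S : PCl m} {c : ℕ → Fin m} {r₀ r : ℕ} {s A B Λ : ℝ} {sn : ℝ → ℕ → ℝ} {G : Set ℝ}

/-! ### Numbers of a fixed function -/

/-- The number of a fixed function decreases. -/
theorem nn_anti (hS : S.Ne)
    (hpos : ∀ (τ : ℝ) (J : ℕ) (F : Fam m J) (A : F.Ω → Prop), S.St τ J F A → 0 < Pe F.p A)
    {u₀ : ∀ (J : ℕ) (F : Fam m J), F.Ω → U} {xa xb ηa ηb θa θb : ℝ} (ra : RNum S f (vg xa) ηa)
    (rb : RNum S f (vg xb) ηb) (na : NN S f (vg xa) v (Qt.fn u₀) θa)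
    (nb : NN S f (vg xb) v (Qt.fn u₀) θb) (hab : xa ≤ xb) (hb : xb ≤ 1) : θb ≤ θa := by
  by_contra hcon
  rw [not_le] at hcon
  obtain ⟨h, hh⟩ : ∃ h : ℝ, h = (θb - θa) / 4 := ⟨_, rfl⟩
  have hh0 : 0 < h := by rw [hh]; linarith
  obtain ⟨k1, hk1, e1, he1, H1⟩ := na h hh0
  obtain ⟨k2, hk2, e2, he2, H2⟩ := nb h hh0
  obtain ⟨J, hJ, F, A, ⟨⟨⟨H1, H2⟩, ⟨V, z, hz⟩, V', z', hz'⟩, hA⟩⟩ := bas_ex hS
    ((((H1 0).and (H2 0)).and ((mx_ex hpos ra k1 hk1).and
      (mx_ex hpos rb (min k2 h) (lt_min hk2 hh0)))).and (pos_bas hpos)) 1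
  have hJ0 : (1 : ℝ) ≤ J := by exact_mod_cast hJ
  have h0 := (isLaw_cond F.isLaw hA).nonneg
  have a1 := (abs_le.1 (H1 V z hz (u₀ J F) (fun ω _ => rfl))).2
  have a2 := (abs_le.1 (H2 V' z' (hz'.le' (min_le_left _ _)) (u₀ J F) (fun ω _ => rfl))).1
  have a3 := (hz'.le' (min_le_right _ _)).2 _ _ (Pool.OWN68.cl2_vg hab hb hz.1)
  have a4 := CH_le_add h0 (u₀ J F) z (fun ω => (z' ω, v J F ω))
  have a5 : CH (Pool.Agent.H49.Ent.cond F.p A True) z (fun ω => (z' ω, v J F ω)) ≤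
      CH (Pool.Agent.H49.Ent.cond F.p A True) z z' :=
    CH_mono_cond h0 fun _ _ _ _ hh => (Prod.ext_iff.mp hh).1
  have a6 : CH (Pool.Agent.H49.Ent.cond F.p A True) (u₀ J F) (fun ω => (z ω, (z' ω, v J F ω))) ≤
      CH (Pool.Agent.H49.Ent.cond F.p A True) (u₀ J F) (fun ω => (z ω, v J F ω)) :=
    CH_mono_cond h0 fun ω ω' _ _ hh => by
      simp only [Prod.mk.injEq] at hh ⊢
      exact ⟨hh.1, hh.2.2⟩
  have a7 : (θb - h - θa - h - h) * J ≤ 0 := by linarith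
  have a8 : 0 < (θb - h - θa - h - h) * J := by
    refine mul_pos ?_ (by linarith)
    rw [hh]
    linarith
  linarith

/-- The number is nonnegative. -/
theorem nn_nonneg (hS : S.Ne)
    (hpos : ∀ (τ : ℝ) (J : ℕ) (F : Fam m J) (A : F.Ω → Prop), S.St τ J F A → 0 < Pe F.p A)
    {u₀ : ∀ (J : ℕ) (F : Fam m J), F.Ω → U} {xa ηa θa : ℝ} (ra : RNum S f (vg xa) ηa)
    (na : NN S f (vg xa) v (Qt.fn u₀) θa) : 0 ≤ θa := by
  by_contra hcon
  rw [not_le] at hcon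
  obtain ⟨k1, hk1, e1, he1, H1⟩ := na (-θa / 2) (by linarith)
  obtain ⟨J, hJ, F, A, ⟨⟨H1, V, z, hz⟩, hA⟩⟩ := bas_ex hS
    (((H1 0).and (mx_ex hpos ra k1 hk1)).and (pos_bas hpos)) 1
  have hJ0 : (1 : ℝ) ≤ J := by exact_mod_cast hJ
  have h0 := (isLaw_cond F.isLaw hA).nonneg
  have a1 := (abs_le.1 (H1 V z hz (u₀ J F) (fun ω _ => rfl))).2
  have a2 := CH_nonneg h0 (u₀ J F) (fun ω => (z ω, v J F ω))
  nlinarith

/-- The number of values of the coarse velocity. -/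
theorem cnt_dT {J : ℕ} (F : Fam m J) (I : Finset (Fin m)) (lam : ℝ) (A : F.Ω → Prop) :
    (cnt F.p (dT I lam J F) A : ℝ) ≤ (3 * 2 ^ ⌊lam * J⌋₊) ^ m := by
  classical
  obtain ⟨n, hn⟩ : ∃ n, n = ⌊lam * J⌋₊ := ⟨_, rfl⟩
  have h1 : cnt F.p (dT I lam J F) A ≤
      (Fintype.piFinset fun _ : Fin m => Finset.Icc (-(2 ^ n : ℤ)) (2 ^ n)).card := by
    refine cnt_le_card F.p _ _ fun ω _ _ => ?_
    rw [Fintype.mem_piFinset]
    intro i
    rw [Finset.mem_Icc]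
    have hp : (0 : ℤ) < 2 ^ n := by positivity
    unfold dT
    split_ifs
    · have h2 := abs_le.1 (F.dir ω i)
      have h3 : F.D ⌊lam * J⌋₊ ω i = ⌊(2 : ℝ) ^ n * F.d ω i⌋ := by
        rw [hn]
        rfl
      rw [h3]
      have h4 : (0 : ℝ) < 2 ^ n := by positivity
      constructor
      · rw [Int.le_floor]
        push_cast
        nlinarith [h2.1]
      · rw [← Int.lt_add_one_iff, Int.floor_lt]
        push_cast
        nlinarith [h2.2]
    · exact ⟨by linarith, hp.le⟩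
  have h2 : (Fintype.piFinset fun _ : Fin m => Finset.Icc (-(2 ^ n : ℤ)) (2 ^ n)).card =
      (2 * 2 ^ n + 1) ^ m := by
    rw [Fintype.card_piFinset, Finset.prod_const, Finset.card_univ, Fintype.card_fin,
      Int.card_Icc]
    congr 1
    have : ((2 : ℤ) ^ n + 1 - -2 ^ n) = ((2 * 2 ^ n + 1 : ℕ) : ℤ) := by
      push_cast
      ring
    rw [this, Int.toNat_natCast]
  rw [h2] at h1
  have h3 : (cnt F.p (dT I lam J F) A : ℝ) ≤ ((2 * 2 ^ n + 1) ^ m : ℕ) := by exact_mod_cast h1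
  refine h3.trans ?_
  push_cast
  rw [← hn]
  have h4 : (1 : ℝ) ≤ 2 ^ n := one_le_pow₀ (by norm_num)
  exact pow_le_pow_left₀ (by positivity) (by linarith) m

theorem log_dT {J : ℕ} {lam : ℝ} (hlam : 0 ≤ lam) :
    Real.log ((3 * 2 ^ ⌊lam * J⌋₊) ^ m) ≤ m * Real.log 3 + m * lam * J := by
  have hJ0 : (0 : ℝ) ≤ J := Nat.cast_nonneg J
  have hm0 : (0 : ℝ) ≤ m := Nat.cast_nonneg m
  rw [Real.log_pow, Real.log_mul (by norm_num) (by positivity), Real.log_pow]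
  have h1 : (⌊lam * J⌋₊ : ℝ) ≤ lam * J := Nat.floor_le (by positivity)
  have h2 : Real.log 2 ≤ 1 := by
    have := Real.log_two_lt_d9
    linarith
  have h3 : (⌊lam * J⌋₊ : ℝ) * Real.log 2 ≤ lam * J * 1 :=
    mul_le_mul h1 h2 (Real.log_nonneg (by norm_num)) (by positivity)
  have h4 := mul_le_mul_of_nonneg_left h3 hm0
  calc (m : ℝ) * (Real.log 3 + ⌊lam * J⌋₊ * Real.log 2) =
      m * Real.log 3 + m * (⌊lam * J⌋₊ * Real.log 2) := by ring
    _ ≤ m * Real.log 3 + m * (lam * J * 1) := by linarith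
    _ = m * Real.log 3 + m * lam * J := by ring

/-- The number of the coarse velocity is small. -/
theorem nn_dT_le (hS : S.Ne)
    (hpos : ∀ (τ : ℝ) (J : ℕ) (F : Fam m J) (A : F.Ω → Prop), S.St τ J F A → 0 < Pe F.p A)
    {I : Finset (Fin m)} {lam xa ηa θa : ℝ} (hlam : 0 ≤ lam) (ra : RNum S f (vg xa) ηa)
    (na : NN S f (vg xa) v (Qt.fn (dT (m := m) I lam)) θa) : θa ≤ m * lam := by
  by_contra hcon
  rw [not_le] at hcon
  obtain ⟨h, hh⟩ : ∃ h : ℝ, h = (θa - m * lam) / 4 := ⟨_, rfl⟩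
  have hh0 : 0 < h := by rw [hh]; linarith
  obtain ⟨J₁, hJ₁⟩ := exists_nat_ge (m * Real.log 3 / h)
  obtain ⟨k1, hk1, e1, he1, H1⟩ := na h hh0
  obtain ⟨J, hJ, F, A, ⟨⟨H1, V, z, hz⟩, hA⟩⟩ := bas_ex hS
    (((H1 0).and (mx_ex hpos ra k1 hk1)).and (pos_bas hpos)) (max 1 J₁)
  have hJ0 : (1 : ℝ) ≤ J := by exact_mod_cast (le_max_left _ _).trans hJ
  have hJ1 : (J₁ : ℝ) ≤ J := by exact_mod_cast (le_max_right _ _).trans hJ
  have a1 := (abs_le.1 (H1 V z hz (dT I lam J F) (fun ω _ => rfl))).1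
  have a2 := CH_le_cells F.isLaw (dT I lam J F) (fun ω => (z ω, v J F ω)) hA
    (M := (3 * 2 ^ ⌊lam * J⌋₊) ^ m) (fun v => cnt_dT F I lam _)
  have a3 := log_dT (m := m) (J := J) hlam
  have a4 : (m : ℝ) * Real.log 3 ≤ h * J := by
    have := hJ₁.trans hJ1
    rw [div_le_iff₀ hh0] at this
    linarith
  have a5 : (θa - h - m * lam - h) * J ≤ 0 := by linarith
  have a6 : 0 < (θa - h - m * lam - h) * J := by
    refine mul_pos ?_ (by linarith)
    rw [hh]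
    linarith
  linarith

/-- The coarse velocity exists. -/
theorem exs_dT {I : Finset (Fin m)} {lam : ℝ} (hlam : 0 ≤ lam) :
    Exs S (Qt.fn (dT (m := m) I lam)) := by
  intro e _
  refine ⟨0, m * Real.log 3 + m * lam, ⟨1, one_pos, 1, fun J hJ F A _ =>
    ⟨dT I lam J F, fun ω _ => rfl, (cnt_dT F I lam A).trans ?_⟩⟩⟩
  have hJ0 : (1 : ℝ) ≤ J := by exact_mod_cast hJ
  have hp : (0 : ℝ) < (3 * 2 ^ ⌊lam * J⌋₊) ^ m := by positivity
  rw [← Real.exp_log hp]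
  refine Real.exp_le_exp.2 ((log_dT hlam).trans ?_)
  have h3 : (0 : ℝ) ≤ m * Real.log 3 := mul_nonneg (Nat.cast_nonneg m) (Real.log_nonneg (by norm_num))
  nlinarith

/-- A fixed function is few bits given itself. -/
theorem few_fn_self
    (hpos : ∀ (τ : ℝ) (J : ℕ) (F : Fam m J) (A : F.Ω → Prop), S.St τ J F A → 0 < Pe F.p A)
    {u₀ : ∀ (J : ℕ) (F : Fam m J), F.Ω → U} {β : ∀ J : ℕ, Fam m J → Type}
    {g : ∀ (J : ℕ) (F : Fam m J), F.Ω → β J F} :
    Few S f g v (Qt.fn u₀) (Qt.fn u₀) := by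
  intro h hh
  refine ⟨1, one_pos, fun K => Bas.mono 0 (pos_bas hpos) ?_⟩
  rintro J - F A hA u u' hu hu'
  refine ⟨Unit, fun _ => (), ⟨⟨fun _ => (), fun _ _ => rfl⟩, fun _ => (), fun _ _ => rfl⟩, ?_⟩
  have h1 : CH (Pool.Agent.H49.Ent.cond F.p A True) u' (fun ω => (u ω, ((), v J F ω))) = 0 := by
    refine CH_eq_zero (isLaw_cond F.isLaw hA).nonneg fun ω ω' a b hh => ?_
    simp only [Prod.mk.injEq] at hh
    rw [hu' ω (of_cond_pos a), hu' ω' (of_cond_pos b), ← hu ω (of_cond_pos a),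
      ← hu ω' (of_cond_pos b), hh.1]
  rw [h1]
  positivity

/-! ### The numbers of the coarse velocity -/

/-- **The numbers of the coarse velocity of the base.** -/
def VelN (S : PCl m) (f : ∀ (J : ℕ) (F : Fam m J), F.Ω → α J F) (I : Finset (Fin m))
    (s A B : ℝ) (θ : ℕ → ℚ → ℝ) : Prop :=
  ∀ (k : ℕ) (q : ℚ), A < (q : ℝ) + s → (q : ℝ) + s < B →
    NN S f (vg ((q : ℝ) + s)) (yX I) (Qt.fn (dT (m := m) I ((1 / 8) ^ k))) (θ k q)

theorem VelN.sub {S' : PCl m} (hs : ∀ (τ : ℝ) (J : ℕ) (F : Fam m J) (A : F.Ω → Prop),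
    S'.St τ J F A → S.St τ J F A) {I : Finset (Fin m)} {θ : ℕ → ℚ → ℝ}
    (h : VelN S f I s A B θ) : VelN S' f I s A B θ := fun k q a b => (h k q a b).sub hs

/-- **One subclass with all the numbers of the coarse velocity.** -/
theorem velN_cls (hne : S.Ne)
    (hpos : ∀ (τ : ℝ) (J : ℕ) (F : Fam m J) (A : F.Ω → Prop), S.St τ J F A → 0 < Pe F.p A)
    (I : Finset (Fin m)) (s A B : ℝ) : ∃ S' : PCl m, S'.Ne ∧
      (∀ (τ : ℝ) (J : ℕ) (F : Fam m J) (A : F.Ω → Prop), S'.St τ J F A → S.St τ J F A) ∧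
      ∃ θ : ℕ → ℚ → ℝ, VelN S' f I s A B θ := by
  obtain ⟨S', h1, h2, h3⟩ := nn_ext_ct hne hpos (ι := ℕ × ℚ) (fun _ => Fin m → ℤ) (fun _ => α)
    (fun _ => fun J F => LnT F) (fun _ => fun J F => (Fin m → ℤ) × (ℕ × F.ζ)) (fun _ => f)
    (fun x => vg ((x.2 : ℝ) + s)) (fun _ => yX I)
    (fun x => Qt.fn (dT (m := m) I ((1 / 8) ^ x.1))) (fun x => exs_dT (by positivity))
    (fun x => few_fn_self hpos)
  choose θ hθ using h3
  exact ⟨S', h1, h2, fun k q => θ (k, q), fun k q _ _ => hθ (k, q)⟩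

/-- The trivial lower bound. -/
theorem low_triv
    (hpos : ∀ (τ : ℝ) (J : ℕ) (F : Fam m J) (A : F.Ω → Prop), S.St τ J F A → 0 < Pe F.p A)
    {β : ∀ J : ℕ, Fam m J → Type} {g : ∀ (J : ℕ) (F : Fam m J), F.Ω → β J F}
    {Q₀ : Qt m U₀} {Q : Qt m U} {θ : ℝ} (hθ : θ ≤ 0) : LowN S f g v Q₀ Q θ := by
  intro h hh
  refine ⟨1, one_pos, 1, one_pos, fun K => Bas.mono 0 (pos_bas hpos) ?_⟩
  rintro J - F A hA V z - u₀ u - -
  have h1 := CH_nonneg (isLaw_cond F.isLaw hA).nonneg u (fun ω => (z ω, (u₀ ω, v J F ω)))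
  have h2 : (0 : ℝ) ≤ J := Nat.cast_nonneg J
  nlinarith

theorem SlpG.mem {g : ℝ} {Sl : ℕ → ℝ} (h : SlpG sn r₀ r G g Sl) (hG : IsClosed G) : g ∈ G := by
  rw [← hG.closure_eq, Metric.mem_closure_iff]
  intro ε hε
  obtain ⟨ρ, hρ, H⟩ := h.gap 1 one_pos
  obtain ⟨t, ht, t1, t2⟩ : ∃ t : ℝ, 0 < t ∧ t < ρ ∧ t < ε := by
    obtain ⟨t, h1, h2⟩ := exists_between (lt_min hρ hε)
    exact ⟨t, h1, h2.trans_le (min_le_left _ _), h2.trans_le (min_le_right _ _)⟩
  obtain ⟨u, hu, u1, u2⟩ := H t ht t1 g (by linarith) (by linarith)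
  refine ⟨u, hu, ?_⟩
  rw [Real.dist_eq, abs_lt]
  constructor <;> linarith

/-! ### The theorem -/

theorem gp_summable {I : Finset (Fin m)} (h : GCh S f y' c r₀ r s A B Λ sn G)
    {θ : ℕ → ℚ → ℝ} (hθ : VelN S f I s A B θ) {q o : ℚ} (hq : A < (q : ℝ) + s)
    (hqo : q ≤ o) (ho : (o : ℝ) + s < B) :
    Summable (fun k => (2 : ℝ) ^ k * (θ k q - θ k o)) ∧
      ∀ k, 0 ≤ (2 : ℝ) ^ k * (θ k q - θ k o) := by
  have hqo' : (q : ℝ) ≤ o := by exact_mod_cast hqo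
  obtain ⟨η₁, r1⟩ := h.rn q hq (by linarith)
  obtain ⟨η₂, r2⟩ := h.rn o (by linarith) ho
  have k1 : ∀ k, 0 ≤ (2 : ℝ) ^ k * (θ k q - θ k o) := fun k =>
    mul_nonneg (by positivity) (sub_nonneg.2 (nn_anti h.ne h.pos r1 r2 (hθ k q hq (by linarith))
      (hθ k o (by linarith) ho) (by linarith) (by linarith [h.B1])))
  refine ⟨?_, k1⟩
  have hs : Summable (fun k : ℕ => (m : ℝ) * (1 / 4) ^ k) :=
    (summable_geometric_of_lt_one (by norm_num) (by norm_num)).mul_left _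
  refine Summable.of_nonneg_of_le k1 (fun k => ?_) hs
  have h1 := nn_dT_le h.ne h.pos (by positivity) r1 (hθ k q hq (by linarith))
  have h2 := nn_nonneg h.ne h.pos r2 (hθ k o (by linarith) ho)
  have h3 : (2 : ℝ) ^ k * (m * (1 / 8) ^ k) = m * (1 / 4) ^ k := by
    rw [show (1 / 4 : ℝ) = 2 * (1 / 8) by norm_num, mul_pow]
    ring
  rw [← h3]
  exact mul_le_mul_of_nonneg_left (by linarith) (by positivity)

/-- **The position of the first rough coordinate is full** over the near paths of the base with few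
digits of the velocity, at almost every `g`. -/
theorem fulGe_ae (h : GCh S f y' c r₀ r s A B Λ sn G)
    (pf : ∀ (J : ℕ) (F : Fam m J), ∃ φ : PtT F → α J F, ∀ ω, f J F ω = φ (ptr F J ω))
    (hr : r₀ < r) {θ : ℕ → ℚ → ℝ} (hθ : VelN S f ((range r₀).image c) s A B θ) {Q₀ : Qt m U₀}
    (hQ₀ : ∀ a : ℝ, A < a → a < B → Few0 S f (vg a) (yX ((range r₀).image c)) Q₀) :
    ∀ᵐ g : ℝ, A < g → g < B → ∀ Sl : ℕ → ℝ, SlpG sn r₀ r G g Sl → ∀ e C : ℝ, 0 < e → 0 < C →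
      ∃ k : ℕ, ∀ (γ' : ∀ J : ℕ, Fam m J → Type) (y : ∀ (J : ℕ) (F : Fam m J), F.Ω → γ' J F),
        YkV ((range r₀).image c) ((1 / 8) ^ k) y →
        FulGe S f y Q₀ c r₀ sn G (Sl r₀) g e C := by
  have hB1 := h.B1
  have hrate := rate_rat (θ := fun q o => ∑' k, (2 : ℝ) ^ k * (θ k q - θ k o)) (A := A - s)
    (B := B - s) (lam := 1) one_pos
    (fun q o a b d _ => tsum_nonneg (gp_summable h hθ (by linarith) b (by linarith)).2)
    (fun w v o a b b' d _ => by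
      have c1 : (w : ℝ) ≤ v := by exact_mod_cast b
      have c2 : (v : ℝ) ≤ o := by exact_mod_cast b'
      have g1 := gp_summable h hθ (q := w) (o := v) (by linarith) b (by linarith)
      have g2 := gp_summable h hθ (q := v) (o := o) (by linarith) b' (by linarith)
      rw [← g1.1.tsum_add g2.1]
      refine le_of_eq (tsum_congr fun k => ?_)
      ring)
  filter_upwards [ae_shift hrate s] with g hg hgA hgB Sl hS e C he hC
  obtain ⟨f₀, hf₀, hrt⟩ := hg ⟨by linarith, by linarith⟩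
  obtain ⟨ρ₁, hρ₁, R1⟩ := hrt 1 one_pos
  have hS1 := hS.gt r₀ le_rfl hr
  obtain ⟨C₀, htm⟩ := h.tm
  obtain ⟨σ, hσ⟩ : ∃ σ : ℝ, σ = Sl r₀ := ⟨_, rfl⟩
  obtain ⟨M, hM⟩ : ∃ M : ℝ, M = 2 * f₀ + 1 := ⟨_, rfl⟩
  have hM0 : 0 < M := by rw [hM]; linarith
  have hC5 : 0 < C + 5 := by linarith
  rw [← hσ] at hS1 ⊢
  have hσ0 : 0 < σ := by linarith
  -- the accuracies
  obtain ⟨η', hη', e1, e2⟩ : ∃ η' : ℝ, 0 < η' ∧ η' * (C + 5) ≤ e / 8 ∧ η' * (C + 5) ≤ 1 / 2 := by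
    refine ⟨min (e / 8) (1 / 2) / (C + 5), by positivity, ?_, ?_⟩
    · rw [div_mul_cancel₀ _ hC5.ne']
      exact min_le_left _ _
    · rw [div_mul_cancel₀ _ hC5.ne']
      exact min_le_right _ _
  obtain ⟨η, hη, e3, e4⟩ : ∃ η : ℝ, 0 < η ∧ σ * (η * (C + 5)) ≤ e / 8 ∧ η * (C + 5) ≤ 1 / 2 := by
    refine ⟨min (e / 8 / σ) (1 / 2) / (C + 5), by positivity, ?_, ?_⟩
    · rw [div_mul_cancel₀ _ hC5.ne']
      calc σ * min (e / 8 / σ) (1 / 2) ≤ σ * (e / 8 / σ) :=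
            mul_le_mul_of_nonneg_left (min_le_left _ _) hσ0.le
        _ = e / 8 := by field_simp
    · rw [div_mul_cancel₀ _ hC5.ne']
      exact min_le_right _ _
  obtain ⟨ρ₂, hρ₂, R2⟩ := hS.sl r₀ le_rfl hr.le η' hη'
  obtain ⟨ρ₃, hρ₃, R3⟩ := hS.gap η hη
  rw [← hσ] at R2
  have hgG := SlpG.mem hS h.cl
  obtain ⟨_, _, -, hgc⟩ := h.ch g hgG hgA.le hgB
  have hg1 := (hgc.s0 r₀ le_rfl hr).2
  obtain ⟨k, hk⟩ : ∃ k : ℕ, (1 / 2 : ℝ) ^ k < e / 4 / (M * (C + 5)) :=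
    exists_pow_lt_of_lt_one (by positivity) (by norm_num)
  rw [lt_div_iff₀ (by positivity)] at hk
  refine ⟨k, fun γ' y hy => ?_⟩
  obtain ⟨ρ₀, hρ₀, q1, q2, q3, q4, q5, q6, q7⟩ : ∃ ρ₀ : ℝ, 0 < ρ₀ ∧ ρ₀ ≤ ρ₁ ∧ ρ₀ ≤ ρ₂ ∧
      ρ₀ ≤ ρ₃ ∧ ρ₀ ≤ g - A ∧ ρ₀ ≤ B - g ∧ ρ₀ ≤ 1 - B ∧ ρ₀ * (σ + 2) ≤ 1 - sn g r₀ := by
    have k1 : 0 < g - A := by linarith
    have k2 : 0 < B - g := by linarith
    have k3 : 0 < 1 - B := by linarith
    have k4 : 0 < 1 - sn g r₀ := by linarith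
    have k5 : 0 < σ + 2 := by linarith
    refine ⟨min ρ₁ (min ρ₂ (min ρ₃ (min (g - A) (min (B - g) (min (1 - B)
      ((1 - sn g r₀) / (σ + 2))))))), by positivity, min_le_left _ _,
      (min_le_right _ _).trans (min_le_left _ _),
      (min_le_right _ _).trans ((min_le_right _ _).trans (min_le_left _ _)),
      (min_le_right _ _).trans ((min_le_right _ _).trans ((min_le_right _ _).trans
        (min_le_left _ _))),
      (min_le_right _ _).trans ((min_le_right _ _).trans ((min_le_right _ _).trans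
        ((min_le_right _ _).trans (min_le_left _ _)))),
      (min_le_right _ _).trans ((min_le_right _ _).trans ((min_le_right _ _).trans
        ((min_le_right _ _).trans ((min_le_right _ _).trans (min_le_left _ _))))), ?_⟩
    rw [← le_div_iff₀ k5]
    exact (min_le_right _ _).trans ((min_le_right _ _).trans ((min_le_right _ _).trans
      ((min_le_right _ _).trans ((min_le_right _ _).trans (min_le_right _ _)))))
  refine ⟨ρ₀ / (C + 5), by positivity, fun R hR hRρ w hw a w1 w2 w3 N hN => ?_⟩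
  rw [lt_div_iff₀ hC5] at hRρ
  obtain ⟨T, hT⟩ : ∃ T : ℝ, T = (C + 5) * R := ⟨_, rfl⟩
  have hT0 : 0 < T := by rw [hT]; positivity
  have hTρ : T < ρ₀ := by rw [hT]; linarith
  have hRT : (C + 5) * R = T := hT.symm
  have hCR : 0 < C * R := by positivity
  have hTR : C * R + 5 * R = T := by rw [hT]; ring
  have hη'T : η' * T ≤ e / 8 * R := by
    rw [hT, ← mul_assoc]
    exact mul_le_mul_of_nonneg_right e1 hR.le
  have hη'T2 : η' * T ≤ R / 2 := by
    rw [hT, ← mul_assoc]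
    linarith [mul_le_mul_of_nonneg_right e2 hR.le]
  have hηT : η * T ≤ R / 2 := by
    rw [hT, ← mul_assoc]
    linarith [mul_le_mul_of_nonneg_right e4 hR.le]
  have hσηT : σ * (η * T) ≤ e / 8 * R := by
    have : σ * (η * T) = σ * (η * (C + 5)) * R := by rw [hT]; ring
    rw [this]
    exact mul_le_mul_of_nonneg_right e3 hR.le
  have hηT0 : 0 < η * T := by positivity
  rcases le_or_gt (N - (sn w r₀ + σ * (a - w))) 0 with hN' | hN'
  · refine low_triv h.pos ?_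
    have t1 : (N - (sn w r₀ + σ * (a - w))) * Real.log 2 ≤ 0 :=
      mul_nonpos_of_nonpos_of_nonneg hN' (Real.log_nonneg (by norm_num))
    have t2 : 0 < e * R := by positivity
    linarith
  -- the windows
  obtain ⟨a', ha', p1, p2⟩ := R3 T hT0 (hTρ.trans_le q3) (a + η * T) (by linarith) (by linarith)
  obtain ⟨b, hb, p3, p4⟩ := R3 T hT0 (hTρ.trans_le q3) (g + (C + 3) * R) (by nlinarith)
    (by nlinarith)
  have e5 : (C + 3) * R = C * R + 3 * R := by ring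
  rw [e5] at p3 p4
  obtain ⟨q, hq1, hq2⟩ := exists_rat_btwn (show a - R - s < a - s by linarith)
  obtain ⟨q', hq3, hq4⟩ := exists_rat_btwn (show b - s < b + R - s by linarith)
  obtain ⟨u₁, rd, hrd, hch⟩ := h.ch w hw (by linarith) (by linarith)
  obtain ⟨u₁', rd', hrd', hch'⟩ := h.ch a' ha' (by linarith) (by linarith)
  obtain ⟨u₂, rd₂, hrd₂, hchb⟩ := h.ch b hb (by linarith) (by linarith)
  have hs0 := (hch.s0 r₀ le_rfl hr).1
  have hwa' : σ * (a - w) ≥ 0 := mul_nonneg hσ0.le (by linarith)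
  -- the slopes
  have s1 := (abs_le.1 (R2 T hT0 (hTρ.trans_le q2) w hw a' ha' (by linarith) (by linarith)
    (by linarith))).2
  have s2 := (abs_le.1 (R2 T hT0 (hTρ.trans_le q2) w hw b hb (by linarith) (by linarith)
    (by linarith))).1
  have s3 : sn w r₀ ≤ sn g r₀ + (σ + 1) * T := by
    rcases le_total w g with hwg | hwg
    · have := (abs_le.1 (R2 T hT0 (hTρ.trans_le q2) w hw g hgG (by linarith) hwg
        (by linarith))).1
      have t : 0 ≤ σ * (g - w) := mul_nonneg hσ0.le (by linarith)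
      have t' : 0 ≤ σ * T := by positivity
      have e6 : (σ + 1) * T = σ * T + T := by ring
      rw [e6]
      linarith
    · have := (abs_le.1 (R2 T hT0 (hTρ.trans_le q2) g hgG w hw (by linarith) hwg
        (by linarith))).2
      have t : σ * (w - g) ≤ σ * T := mul_le_mul_of_nonneg_left (by linarith) hσ0.le
      have e6 : (σ + 1) * T = σ * T + T := by ring
      rw [e6]
      linarith
  have s4 : N < sn b r₀ := by
    have t : 1 * (b - w) ≤ σ * (b - w) := mul_le_mul_of_nonneg_right hS1.le (by linarith)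
    linarith
  have s5 : N ≤ 1 := by
    have t : (σ + 2) * T ≤ (σ + 2) * ρ₀ := mul_le_mul_of_nonneg_left hTρ.le (by linarith)
    have e6 : (σ + 2) * T = (σ + 1) * T + T := by ring
    have e7 : (σ + 2) * ρ₀ = ρ₀ * (σ + 2) := by ring
    linarith
  obtain ⟨ηa, ra⟩ := h.rn q (by linarith) (by linarith)
  obtain ⟨ηb, rb⟩ := h.rn q' (by linarith) (by linarith)
  have hqq : q ≤ q' := by
    have : (q : ℝ) ≤ q' := by linarith
    exact_mod_cast this
  have key := low_v (y := y) h.pos htm h.pt pf hch hch' hr w2 (by linarith) (by linarith) s5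
    (by linarith) ra rb (hθ k q (by linarith) (by linarith)) (hθ k q' (by linarith) (by linarith))
    (by linarith) (by linarith) (by linarith)
    (few0_own htm h.pt hchb hr (hrd₂ r₀ le_rfl hr) (by linarith) (by linarith) (by linarith) s4
      (by linarith)) hy (hQ₀ a (by linarith) (by linarith))
  refine key.le ?_
  -- the loss
  have l1 : θ k q - θ k q' ≤ e / 4 * R := by
    obtain ⟨g1, g2⟩ := gp_summable h hθ (q := q) (o := q') (by linarith) hqq (by linarith)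
    have g3 := g1.le_tsum k fun j _ => g2 j
    have g4 := (abs_le.1 (R1 T hT0 (hTρ.trans_le q1) q q' (by linarith) hqq (by linarith))).2
    have g5 : f₀ * ((q' : ℝ) - q) ≤ f₀ * (2 * T) :=
      mul_le_mul_of_nonneg_left (by linarith) hf₀
    have g6 : (2 : ℝ) ^ k * (θ k q - θ k q') ≤ M * T := by
      rw [hM]
      linarith
    have g7 : (θ k q - θ k q') = (1 / 2) ^ k * (2 ^ k * (θ k q - θ k q')) := by
      rw [← mul_assoc, ← mul_pow]
      norm_num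
    rw [g7]
    calc (1 / 2 : ℝ) ^ k * (2 ^ k * (θ k q - θ k q')) ≤ (1 / 2) ^ k * (M * T) :=
          mul_le_mul_of_nonneg_left g6 (by positivity)
      _ = (1 / 2) ^ k * (M * (C + 5)) * R := by rw [hT]; ring
      _ ≤ e / 4 * R := mul_le_mul_of_nonneg_right hk.le hR.le
  have l2 : σ * (a' - w) ≤ σ * (a - w) + σ * (η * T) := by
    rw [← mul_add]
    exact mul_le_mul_of_nonneg_left (by linarith) hσ0.le
  have l3 : sn a' r₀ ≤ sn w r₀ + σ * (a - w) + e / 4 * R := by linarith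
  have l4 : (N - sn a' r₀) * Real.log 2 ≥ (N - (sn w r₀ + σ * (a - w))) * Real.log 2 - e / 4 * R := by
    have l5 : (N - (sn w r₀ + σ * (a - w)) - e / 4 * R) * Real.log 2 ≤
        (N - sn a' r₀) * Real.log 2 :=
      mul_le_mul_of_nonneg_right (by linarith) (Real.log_nonneg (by norm_num))
    have l6 : Real.log 2 ≤ 1 := by
      have := Real.log_two_lt_d9
      linarith
    have l7 : e / 4 * R * Real.log 2 ≤ e / 4 * R * 1 :=
      mul_le_mul_of_nonneg_left l6 (by positivity)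
    linarith
  have l8 : 0 < e * R := by positivity
  linarith

/-- The near path of the base with `p₀ J` digits of the position and `lam J` digits of the velocity. -/
theorem ykV_of {γ' : ∀ J : ℕ, Fam m J → Type} {y : ∀ (J : ℕ) (F : Fam m J), F.Ω → γ' J F}
    {I : Finset (Fin m)} {p₀ lam lam₀ : ℝ} (hp : p₀ ≤ 1) (hlam : lam ≤ lam₀)
    (hy : ∀ (J : ℕ) (F : Fam m J), ∃ ψ : (ℕ × F.ζ) × (Fin m → ℤ) × (Fin m → ℤ) → γ' J F, ∀ ω,
      y J F ω = ψ (F.W ω, (fun i => if i ∈ I then F.X ⌊p₀ * J⌋₊ ω i else 0),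
        fun i => if i ∈ I then F.D ⌊lam * J⌋₊ ω i else 0)) : YkV I lam₀ y := by
  intro J F
  obtain ⟨ψ, hψ⟩ := hy J F
  have hJ0 : (0 : ℝ) ≤ J := Nat.cast_nonneg J
  obtain ⟨a, ha⟩ : ∃ a, J = ⌊p₀ * J⌋₊ + a :=
    Nat.exists_eq_add_of_le (Nat.floor_le_of_le (by nlinarith))
  obtain ⟨b, hb⟩ : ∃ b, ⌊lam₀ * J⌋₊ = ⌊lam * J⌋₊ + b :=
    Nat.exists_eq_add_of_le (Nat.floor_le_floor (mul_le_mul_of_nonneg_right hlam hJ0))
  refine ⟨fun x => ψ (x.1.2, (fun i => if i ∈ I then x.1.1 i / (2 ^ a : ℕ) else 0),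
    fun i => if i ∈ I then x.2 i / (2 ^ b : ℕ) else 0), fun ω => ?_⟩
  rw [hψ ω]
  congr 1
  refine Prod.ext rfl (Prod.ext (funext fun i => ?_) (funext fun i => ?_))
  · show (if i ∈ I then _ else _) = if i ∈ I then (if i ∈ I then F.X J ω i else 0) / _ else _
    by_cases hi : i ∈ I
    · rw [if_pos hi, if_pos hi, if_pos hi]
      have h1 : F.X J ω i = ⌊(2 : ℝ) ^ (⌊p₀ * J⌋₊ + a) * F.x ω i⌋ := by rw [← ha]; rfl
      rw [h1]
      have e : (2 : ℝ) ^ ⌊p₀ * J⌋₊ * F.x ω i =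
          2 ^ (⌊p₀ * J⌋₊ + a) * F.x ω i / ((2 ^ a : ℕ) : ℝ) := by
        push_cast
        rw [eq_div_iff (by positivity), pow_add]
        ring
      change ⌊(2 : ℝ) ^ ⌊p₀ * J⌋₊ * F.x ω i⌋ = _
      rw [e, Int.floor_div_natCast]
    · rw [if_neg hi, if_neg hi]
  · show (if i ∈ I then _ else _) =
      if i ∈ I then (if i ∈ I then F.D ⌊lam₀ * J⌋₊ ω i else 0) / _ else _
    by_cases hi : i ∈ I
    · rw [if_pos hi, if_pos hi, if_pos hi]
      have h1 : F.D ⌊lam₀ * J⌋₊ ω i = ⌊(2 : ℝ) ^ (⌊lam * J⌋₊ + b) * F.d ω i⌋ := by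
        rw [← hb]
        rfl
      rw [h1]
      have e : (2 : ℝ) ^ ⌊lam * J⌋₊ * F.d ω i =
          2 ^ (⌊lam * J⌋₊ + b) * F.d ω i / ((2 ^ b : ℕ) : ℝ) := by
        push_cast
        rw [eq_div_iff (by positivity), pow_add]
        ring
      change ⌊(2 : ℝ) ^ ⌊lam * J⌋₊ * F.d ω i⌋ = _
      rw [e, Int.floor_div_natCast]
    · rw [if_neg hi, if_neg hi]

end Pool.OWN83
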