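import Pool.Agent.H83.OWN.AddR

/-!
# The additive families of one law, for a finite list of real windows

`add_fin`, `add_finr`: `add_ev` and `add_rel` for a finite list of real windows; the inputs are
asked for the windows of the list only.
-/

set_option autoImplicit false

namespace Pool.OWN83

open Finset Real
open Pool.Agent.H49.Ent Pool.Agent.H32.Dense Pool.STK Pool.KA Pool.KSAT Pool.K2S Pool.PB Pool.S6C
  Pool.GEN Pool.RCD Pool.LA91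

variable {m : ℕ} {U₀ U : Type} {α β γ : ∀ J : ℕ, Fam m J → Type}
  {f : ∀ (J : ℕ) (F : Fam m J), F.Ω → α J F} {g : ∀ (J : ℕ) (F : Fam m J), F.Ω → β J F}
  {y : ∀ (J : ℕ) (F : Fam m J), F.Ω → γ J F} {S : PCl m}

/-- **The families `Add` of a class**, on all large parts of an event. -/
theorem add_fin {ι : Type} [Finite ι]
    (hpos : ∀ (τ : ℝ) (J : ℕ) (F : Fam m J) (A : F.Ω → Prop), S.St τ J F A → 0 < Pe F.p A)
    (x : ι → ℝ) (hx1 : ∀ i, x i ≤ 1) {Q : ι → ι → Qt m U}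
    (row : ∀ i j k, x i ≤ x j → x j ≤ x k → Few S f (vg (x i)) y (Q i k) (Q i j))
    (chg : ∀ i j k, x i ≤ x j → x j ≤ x k → Few S f (vg (x j)) y (Q i k) (Q j k))
    (own : ∀ i j, x i ≤ x j → Few0 S f (vg (x j)) y (Q i j)) {θ : ι → ι → ℝ}
    (hθ : ∀ i j, x i ≤ x j → NN S f (vg (x i)) y (Q i j) (θ i j))
    (hη : ∀ i, ∃ η, RNum S f (vg (x i)) η) {κ₀ : ℝ} (hκ : 0 ≤ κ₀)
    (hadd : ∀ i j k, x i ≤ x j → x j ≤ x k → |θ i k - θ i j - θ j k| ≤ κ₀)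
    {c₀ : ℝ} (hc₀ : 0 < c₀) {e : ℝ} (he : 0 < e) :
    ∃ k : ℝ, 0 < k ∧ ∃ e₀ : ℝ, 0 < e₀ ∧ ∀ K : ℕ, Bas S (fun J F A' =>
      ∀ (Z : Type) (z : ι → F.Ω → Z), (∀ i, Mx f (vg (x i)) k F A' (z i)) →
      ∀ u : ι → ι → F.Ω → U, (∀ i j, x i ≤ x j → (Q i j).P K e₀ J F A' (u i j)) →
      ∀ B' : F.Ω → Prop, Sub B' A' → c₀ * Pe F.p A' ≤ Pe F.p B' →
      Pool.SAT43.Nest (Pool.Agent.H49.Ent.cond F.p B' True) (fun i => (x i)) z (y J F)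
        (e * J) ∧
      Pool.SAT43.Add (Pool.Agent.H49.Ent.cond F.p B' True) (fun i => (x i)) z (y J F) u
        (fun i j => θ i j * J) ((κ₀ + e) * J) (e * J)) := by
  have hce : 0 < c₀ * e := mul_pos hc₀ he
  -- the numbers
  have N1 : ∀ q : ι × ι, ∃ k : ℝ, 0 < k ∧ ∃ e₀ : ℝ, 0 < e₀ ∧ ∀ K : ℕ, Bas S (fun J F A' =>
      x q.1 ≤ x q.2 → ∀ (V : Type) (z : F.Ω → V), Mx f (vg (x q.1)) k F A' z →
      ∀ u, (Q q.1 q.2).P K e₀ J F A' u → ∀ B' : F.Ω → Prop, Sub B' A' →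
      c₀ * Pe F.p A' ≤ Pe F.p B' →
      |CH (Pool.Agent.H49.Ent.cond F.p B' True) u (fun ω => (z ω, y J F ω)) -
        θ q.1 q.2 * J| ≤ e * J) := by
    intro q
    by_cases hq : x q.1 ≤ x q.2
    · obtain ⟨η, hη⟩ := hη q.1
      obtain ⟨k, hk, e₀, he₀, H⟩ := ev_two hpos hη
        (hθ _ _ hq) hc₀ e he
      exact ⟨k, hk, e₀, he₀, fun K => Bas.mono 0 (H K) fun J _ F A' h1 _ => h1⟩
    · exact ⟨1, one_pos, 1, one_pos, fun K => Bas.mono 0 (pos_bas hpos)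
        fun J _ F A' _ h1 => absurd h1 hq⟩
  choose k1 hk1 e1 he1 H1 using N1
  -- the few bits
  have N2 : ∀ q : ι × ι, ∃ e₀ : ℝ, 0 < e₀ ∧ ∀ K : ℕ, Bas S (fun J F A' => x q.1 ≤ x q.2 →
      ∀ (V : Type) (z : F.Ω → V), Mx f (vg (x q.2)) (c₀ * e / 2) F A' z →
      ∀ u, (Q q.1 q.2).P K e₀ J F A' u →
      CH (Pool.Agent.H49.Ent.cond F.p A' True) u (fun ω => (z ω, y J F ω)) ≤ c₀ * e * J) := by
    intro q
    by_cases hq : x q.1 ≤ x q.2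
    · obtain ⟨e₀, he₀, H⟩ := (own _ _ hq).mx hpos
        (c₀ * e) hce
      exact ⟨e₀, he₀, fun K => Bas.mono 0 (H K) fun J _ F A' h1 _ => h1⟩
    · exact ⟨1, one_pos, fun K => Bas.mono 0 (pos_bas hpos)
        fun J _ F A' _ h1 => absurd h1 hq⟩
  choose e2 he2 H2 using N2
  have N3 : ∀ q : ι × ι × ι, ∃ e₀ : ℝ, 0 < e₀ ∧ ∀ K : ℕ, Bas S (fun J F A' =>
      x q.1 ≤ x q.2.1 → x q.2.1 ≤ x q.2.2 →
      ∀ (V : Type) (z : F.Ω → V), Mx f (vg (x q.2.1)) (c₀ * e / 2) F A' z →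
      ∀ u u₁, (Q q.1 q.2.2).P K e₀ J F A' u → (Q q.2.1 q.2.2).P K e₀ J F A' u₁ →
      CH (Pool.Agent.H49.Ent.cond F.p A' True) u₁ (fun ω => (u ω, (z ω, y J F ω))) ≤
        c₀ * e * J) := by
    intro q
    by_cases hq : x q.1 ≤ x q.2.1 ∧ x q.2.1 ≤ x q.2.2
    · obtain ⟨e₀, he₀, H⟩ := (chg _ _ _ hq.1 hq.2).mx hpos (c₀ * e) hce
      exact ⟨e₀, he₀, fun K => Bas.mono 0 (H K) fun J _ F A' h1 _ _ => h1⟩
    · exact ⟨1, one_pos, fun K => Bas.mono 0 (pos_bas hpos)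
        fun J _ F A' _ h1 h2 => absurd ⟨h1, h2⟩ hq⟩
  choose e3 he3 H3 using N3
  have N4 : ∀ q : ι × ι × ι, ∃ e₀ : ℝ, 0 < e₀ ∧ ∀ K : ℕ, Bas S (fun J F A' =>
      x q.1 ≤ x q.2.1 → x q.2.1 ≤ x q.2.2 →
      ∀ (V : Type) (z : F.Ω → V), Mx f (vg (x q.1)) (c₀ * e / 2) F A' z →
      ∀ u u₁, (Q q.1 q.2.2).P K e₀ J F A' u → (Q q.1 q.2.1).P K e₀ J F A' u₁ →
      CH (Pool.Agent.H49.Ent.cond F.p A' True) u₁ (fun ω => (u ω, (z ω, y J F ω))) ≤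
        c₀ * e * J) := by
    intro q
    by_cases hq : x q.1 ≤ x q.2.1 ∧ x q.2.1 ≤ x q.2.2
    · obtain ⟨e₀, he₀, H⟩ := (row _ _ _ hq.1 hq.2).mx hpos (c₀ * e) hce
      exact ⟨e₀, he₀, fun K => Bas.mono 0 (H K) fun J _ F A' h1 _ _ => h1⟩
    · exact ⟨1, one_pos, fun K => Bas.mono 0 (pos_bas hpos)
        fun J _ F A' _ h1 h2 => absurd ⟨h1, h2⟩ hq⟩
  choose e4 he4 H4 using N4
  -- common constants
  have hmin : ∀ {κ : Type} [Finite κ] (a : κ → ℝ), (∀ i, 0 < a i) → ∃ b : ℝ, 0 < b ∧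
      ∀ i, b ≤ a i := by
    intro κ _ a ha
    rcases isEmpty_or_nonempty κ with h | h
    · exact ⟨1, one_pos, fun i => (h.false i).elim⟩
    · obtain ⟨i₀, hi₀⟩ := Finite.exists_min a
      exact ⟨a i₀, ha i₀, hi₀⟩
  obtain ⟨k2, hk2, hk2'⟩ := hmin k1 hk1
  obtain ⟨f1, hf1, hf1'⟩ := hmin e1 he1
  obtain ⟨f2, hf2, hf2'⟩ := hmin e2 he2
  obtain ⟨f3, hf3, hf3'⟩ := hmin e3 he3
  obtain ⟨f4, hf4, hf4'⟩ := hmin e4 he4
  obtain ⟨e₀, he₀, l1, l2, l3, l4⟩ : ∃ e₀ : ℝ, 0 < e₀ ∧ e₀ ≤ f1 ∧ e₀ ≤ f2 ∧ e₀ ≤ f3 ∧ e₀ ≤ f4 :=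
    ⟨min f1 (min f2 (min f3 f4)), by positivity, min_le_left _ _,
      (min_le_right _ _).trans (min_le_left _ _),
      (min_le_right _ _).trans ((min_le_right _ _).trans (min_le_left _ _)),
      (min_le_right _ _).trans ((min_le_right _ _).trans (min_le_right _ _))⟩
  refine ⟨min k2 (c₀ * e / 2), lt_min hk2 (half_pos hce), e₀, he₀, fun K => ?_⟩
  refine Bas.mono 0 (((((Bas.fin' fun q => H1 q K).and (Bas.fin' fun q => H2 q K)).and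
    (Bas.fin' fun q => H3 q K)).and (Bas.fin' fun q => H4 q K)).and (pos_bas hpos)) ?_
  rintro J - F A' ⟨⟨⟨⟨H1, H2⟩, H3⟩, H4⟩, hA'⟩ Z z hz u hu B' hB' hBA
  have hJ0 : (0 : ℝ) ≤ J := Nat.cast_nonneg J
  have hcl := isLaw_cond F.isLaw hA'
  have hBp : 0 < Pe F.p B' := lt_of_lt_of_le (mul_pos hc₀ hA') hBA
  have hclB := isLaw_cond F.isLaw hBp
  have hz1 : ∀ i, ∀ a : ℝ, min k2 (c₀ * e / 2) ≤ a → Mx f (vg (x i)) a F A' (z i) :=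
    fun i a ha => ⟨(hz i).1, fun V' z' hz' => ((hz i).2 V' z' hz').trans
      (mul_le_mul_of_nonneg_right ha hJ0)⟩
  have hzk : ∀ q : ι × ι, Mx f (vg (x q.1)) (k1 q) F A' (z q.1) := fun q =>
    hz1 _ _ ((min_le_left _ _).trans (hk2' q))
  have hze : ∀ i, Mx f (vg (x i)) (c₀ * e / 2) F A' (z i) := fun i =>
    hz1 _ _ (min_le_right _ _)
  have key : ∀ {V' W' : Type} (X : F.Ω → V') (Y : F.Ω → W'),
      CH (Pool.Agent.H49.Ent.cond F.p A' True) X Y ≤ c₀ * e * J →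
      CH (Pool.Agent.H49.Ent.cond F.p B' True) X Y ≤ e * J := fun X Y hXY =>
    ch_part F.isLaw hB' hA' hc₀ hBA X Y (by rw [← mul_assoc]; exact hXY)
  refine ⟨fun i j hij => ?_, ⟨fun i j k hij hjk => ?_, fun i j hij => ?_, fun i j k hij hjk => ?_,
    fun i j k hij hjk => ?_, fun i j hij => ?_, fun i j hij => ?_⟩⟩
  · have hij' : (x i) ≤ x j := hij
    have h1 : Cl2 (f J F) (vg (x j) J F) A' (z i) := by
      obtain ⟨φ, hφ⟩ := vg_mono hij' (hx1 j) J F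
      exact (hz i).1.mono ⟨id, fun _ _ => rfl⟩ ⟨φ, fun ω _ => hφ ω⟩
    have h2 := (hze j).2 _ _ h1
    refine key _ _ (le_trans (CH_mono_cond hcl.nonneg fun _ _ _ _ hh => ?_) (h2.trans
      (mul_le_mul_of_nonneg_right (by linarith) hJ0)))
    exact (Prod.ext_iff.mp hh).1
  · have hij' : x i ≤ x j := hij
    have hjk' : x j ≤ x k := hjk
    have h1 := hadd i j k hij' hjk'
    have e5 : θ i k * (J : ℝ) - θ i j * J - θ j k * J =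
        (θ i k - θ i j - θ j k) * J := by ring
    rw [e5, abs_mul, abs_of_nonneg hJ0]
    exact mul_le_mul_of_nonneg_right (h1.trans (by linarith)) hJ0
  · have hij' : x i ≤ x j := hij
    have h1 := H2 (i, j) hij' _ (z j) (hze j) (u i j)
      ((Q _ _).mono le_rfl (l2.trans (hf2' (i, j))) (hu i j hij'))
    refine key _ _ (le_trans (CH_mono_cond hcl.nonneg fun _ _ _ _ hh => ?_) h1)
    exact (Prod.ext_iff.mp hh).2
  · have hij' : x i ≤ x j := hij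
    have hjk' : x j ≤ x k := hjk
    have h1 := H3 (i, j, k) hij' hjk' _ (z j) (hze j) (u i k) (u j k)
      ((Q _ _).mono le_rfl (l3.trans (hf3' (i, j, k))) (hu i k (hij'.trans hjk')))
      ((Q _ _).mono le_rfl (l3.trans (hf3' (i, j, k))) (hu j k hjk'))
    refine key _ _ (le_trans (CH_mono_cond hcl.nonneg fun ω ω' _ _ hh => ?_) h1)
    simp only [Prod.mk.injEq] at hh ⊢
    exact ⟨hh.1, hh.2.1, hh.2.2.2⟩
  · have hij' : x i ≤ x j := hij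
    have hjk' : x j ≤ x k := hjk
    have h1 := H4 (i, j, k) hij' hjk' _ (z i) (hze i) (u i k) (u i j)
      ((Q _ _).mono le_rfl (l4.trans (hf4' (i, j, k))) (hu i k (hij'.trans hjk')))
      ((Q _ _).mono le_rfl (l4.trans (hf4' (i, j, k))) (hu i j hij'))
    exact key _ _ h1
  all_goals
    have hij' : x i ≤ x j := hij
    have h1 := abs_le.1 (H1 (i, j) hij' _ (z i) (hzk (i, j)) (u i j)
      ((Q _ _).mono le_rfl (l1.trans (hf1' (i, j))) (hu i j hij')) B' hB' hBA)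
    have h2 : e * J ≤ (κ₀ + e) * J := mul_le_mul_of_nonneg_right (by linarith) hJ0
    linarith [h1.1, h1.2]

/-- **The families `Add` of a class**, relative to a quantity `Q₀` of the base, on all large parts
of an event. -/
theorem add_finr {ι : Type} [Finite ι]
    (hpos : ∀ (τ : ℝ) (J : ℕ) (F : Fam m J) (A : F.Ω → Prop), S.St τ J F A → 0 < Pe F.p A)
    (x : ι → ℝ) (hx1 : ∀ i, x i ≤ 1) {Q₀ : Qt m U₀} {Q : ι → ι → Qt m U}
    (row : ∀ i j k, x i ≤ x j → x j ≤ x k → Few S f (vg (x i)) y (Q₀.prod (Q i k)) (Q i j))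
    (chg : ∀ i j k, x i ≤ x j → x j ≤ x k → Few S f (vg (x j)) y (Q₀.prod (Q i k)) (Q j k))
    (own : ∀ i j, x i ≤ x j → Few S f (vg (x j)) y Q₀ (Q i j)) {θ : ι → ι → ℝ}
    (hθ : ∀ i j, x i ≤ x j → RN S f (vg (x i)) y Q₀ (Q i j) (θ i j))
    (hη : ∀ i, ∃ η, RNum S f (vg (x i)) η) {κ₀ : ℝ} (hκ : 0 ≤ κ₀)
    (hadd : ∀ i j k, x i ≤ x j → x j ≤ x k → |θ i k - θ i j - θ j k| ≤ κ₀)
    {c₀ : ℝ} (hc₀ : 0 < c₀) {e : ℝ} (he : 0 < e) :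
    ∃ k : ℝ, 0 < k ∧ ∃ e₀ : ℝ, 0 < e₀ ∧ ∀ K : ℕ, Bas S (fun J F A' =>
      ∀ (Z : Type) (z : ι → F.Ω → Z), (∀ i, Mx f (vg (x i)) k F A' (z i)) →
      ∀ u₀, Q₀.P K e₀ J F A' u₀ →
      ∀ u : ι → ι → F.Ω → U, (∀ i j, x i ≤ x j → (Q i j).P K e₀ J F A' (u i j)) →
      ∀ B' : F.Ω → Prop, Sub B' A' → c₀ * Pe F.p A' ≤ Pe F.p B' →
      Pool.SAT43.Nest (Pool.Agent.H49.Ent.cond F.p B' True) (fun i => (x i)) z
        (fun ω => (u₀ ω, y J F ω)) (e * J) ∧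
      Pool.SAT43.Add (Pool.Agent.H49.Ent.cond F.p B' True) (fun i => (x i)) z
        (fun ω => (u₀ ω, y J F ω)) u
        (fun i j => θ i j * J) ((κ₀ + e) * J) (e * J)) := by
  have hce : 0 < c₀ * e := mul_pos hc₀ he
  -- the numbers
  have N1 : ∀ q : ι × ι, ∃ k : ℝ, 0 < k ∧ ∃ e₀ : ℝ, 0 < e₀ ∧ ∀ K : ℕ, Bas S (fun J F A' =>
      x q.1 ≤ x q.2 → ∀ (V : Type) (z : F.Ω → V), Mx f (vg (x q.1)) k F A' z →
      ∀ u₀ u, Q₀.P K e₀ J F A' u₀ → (Q q.1 q.2).P K e₀ J F A' u →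
      ∀ B' : F.Ω → Prop, Sub B' A' → c₀ * Pe F.p A' ≤ Pe F.p B' →
      |CH (Pool.Agent.H49.Ent.cond F.p B' True) u (fun ω => (z ω, (u₀ ω, y J F ω))) -
        θ q.1 q.2 * J| ≤ e * J) := by
    intro q
    by_cases hq : x q.1 ≤ x q.2
    · obtain ⟨η, hη⟩ := hη q.1
      obtain ⟨k, hk, e₀, he₀, H⟩ := ev_twor hpos hη (hθ _ _ hq) hc₀ e he
      exact ⟨k, hk, e₀, he₀, fun K => Bas.mono 0 (H K) fun J _ F A' h1 _ => h1⟩
    · exact ⟨1, one_pos, 1, one_pos, fun K => Bas.mono 0 (pos_bas hpos)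
        fun J _ F A' _ h1 => absurd h1 hq⟩
  choose k1 hk1 e1 he1 H1 using N1
  -- the few bits
  have N2 : ∀ q : ι × ι, ∃ e₀ : ℝ, 0 < e₀ ∧ ∀ K : ℕ, Bas S (fun J F A' => x q.1 ≤ x q.2 →
      ∀ (V : Type) (z : F.Ω → V), Mx f (vg (x q.2)) (c₀ * e / 2) F A' z →
      ∀ u₀ u, Q₀.P K e₀ J F A' u₀ → (Q q.1 q.2).P K e₀ J F A' u →
      CH (Pool.Agent.H49.Ent.cond F.p A' True) u (fun ω => (u₀ ω, (z ω, y J F ω))) ≤
        c₀ * e * J) := by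
    intro q
    by_cases hq : x q.1 ≤ x q.2
    · obtain ⟨e₀, he₀, H⟩ := (own _ _ hq).mx hpos
        (c₀ * e) hce
      exact ⟨e₀, he₀, fun K => Bas.mono 0 (H K) fun J _ F A' h1 _ => h1⟩
    · exact ⟨1, one_pos, fun K => Bas.mono 0 (pos_bas hpos)
        fun J _ F A' _ h1 => absurd h1 hq⟩
  choose e2 he2 H2 using N2
  have N3 : ∀ q : ι × ι × ι, ∃ e₀ : ℝ, 0 < e₀ ∧ ∀ K : ℕ, Bas S (fun J F A' =>
      x q.1 ≤ x q.2.1 → x q.2.1 ≤ x q.2.2 →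
      ∀ (V : Type) (z : F.Ω → V), Mx f (vg (x q.2.1)) (c₀ * e / 2) F A' z →
      ∀ u₀ u u₁, Q₀.P K e₀ J F A' u₀ → (Q q.1 q.2.2).P K e₀ J F A' u →
      (Q q.2.1 q.2.2).P K e₀ J F A' u₁ →
      CH (Pool.Agent.H49.Ent.cond F.p A' True) u₁ (fun ω => ((u₀ ω, u ω), (z ω, y J F ω))) ≤
        c₀ * e * J) := by
    intro q
    by_cases hq : x q.1 ≤ x q.2.1 ∧ x q.2.1 ≤ x q.2.2
    · obtain ⟨e₀, he₀, H⟩ := (chg _ _ _ hq.1 hq.2).mx hpos (c₀ * e) hce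
      exact ⟨e₀, he₀, fun K => Bas.mono 0 (H K) fun J _ F A' h1 _ _ V z hz u₀ u u₁ h0 h2 h3 =>
        h1 V z hz (fun ω => (u₀ ω, u ω)) u₁ ⟨h0, h2⟩ h3⟩
    · exact ⟨1, one_pos, fun K => Bas.mono 0 (pos_bas hpos)
        fun J _ F A' _ h1 h2 => absurd ⟨h1, h2⟩ hq⟩
  choose e3 he3 H3 using N3
  have N4 : ∀ q : ι × ι × ι, ∃ e₀ : ℝ, 0 < e₀ ∧ ∀ K : ℕ, Bas S (fun J F A' =>
      x q.1 ≤ x q.2.1 → x q.2.1 ≤ x q.2.2 →
      ∀ (V : Type) (z : F.Ω → V), Mx f (vg (x q.1)) (c₀ * e / 2) F A' z →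
      ∀ u₀ u u₁, Q₀.P K e₀ J F A' u₀ → (Q q.1 q.2.2).P K e₀ J F A' u →
      (Q q.1 q.2.1).P K e₀ J F A' u₁ →
      CH (Pool.Agent.H49.Ent.cond F.p A' True) u₁ (fun ω => ((u₀ ω, u ω), (z ω, y J F ω))) ≤
        c₀ * e * J) := by
    intro q
    by_cases hq : x q.1 ≤ x q.2.1 ∧ x q.2.1 ≤ x q.2.2
    · obtain ⟨e₀, he₀, H⟩ := (row _ _ _ hq.1 hq.2).mx hpos (c₀ * e) hce
      exact ⟨e₀, he₀, fun K => Bas.mono 0 (H K) fun J _ F A' h1 _ _ V z hz u₀ u u₁ h0 h2 h3 =>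
        h1 V z hz (fun ω => (u₀ ω, u ω)) u₁ ⟨h0, h2⟩ h3⟩
    · exact ⟨1, one_pos, fun K => Bas.mono 0 (pos_bas hpos)
        fun J _ F A' _ h1 h2 => absurd ⟨h1, h2⟩ hq⟩
  choose e4 he4 H4 using N4
  -- common constants
  have hmin : ∀ {κ : Type} [Finite κ] (a : κ → ℝ), (∀ i, 0 < a i) → ∃ b : ℝ, 0 < b ∧
      ∀ i, b ≤ a i := by
    intro κ _ a ha
    rcases isEmpty_or_nonempty κ with h | h
    · exact ⟨1, one_pos, fun i => (h.false i).elim⟩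
    · obtain ⟨i₀, hi₀⟩ := Finite.exists_min a
      exact ⟨a i₀, ha i₀, hi₀⟩
  obtain ⟨k2, hk2, hk2'⟩ := hmin k1 hk1
  obtain ⟨f1, hf1, hf1'⟩ := hmin e1 he1
  obtain ⟨f2, hf2, hf2'⟩ := hmin e2 he2
  obtain ⟨f3, hf3, hf3'⟩ := hmin e3 he3
  obtain ⟨f4, hf4, hf4'⟩ := hmin e4 he4
  obtain ⟨e₀, he₀, l1, l2, l3, l4⟩ : ∃ e₀ : ℝ, 0 < e₀ ∧ e₀ ≤ f1 ∧ e₀ ≤ f2 ∧ e₀ ≤ f3 ∧ e₀ ≤ f4 :=
    ⟨min f1 (min f2 (min f3 f4)), by positivity, min_le_left _ _,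
      (min_le_right _ _).trans (min_le_left _ _),
      (min_le_right _ _).trans ((min_le_right _ _).trans (min_le_left _ _)),
      (min_le_right _ _).trans ((min_le_right _ _).trans (min_le_right _ _))⟩
  refine ⟨min k2 (c₀ * e / 2), lt_min hk2 (half_pos hce), e₀, he₀, fun K => ?_⟩
  refine Bas.mono 0 (((((Bas.fin' fun q => H1 q K).and (Bas.fin' fun q => H2 q K)).and
    (Bas.fin' fun q => H3 q K)).and (Bas.fin' fun q => H4 q K)).and (pos_bas hpos)) ?_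
  rintro J - F A' ⟨⟨⟨⟨H1, H2⟩, H3⟩, H4⟩, hA'⟩ Z z hz u₀ hu₀ u hu B' hB' hBA
  have hJ0 : (0 : ℝ) ≤ J := Nat.cast_nonneg J
  have hcl := isLaw_cond F.isLaw hA'
  have hBp : 0 < Pe F.p B' := lt_of_lt_of_le (mul_pos hc₀ hA') hBA
  have hclB := isLaw_cond F.isLaw hBp
  have hz1 : ∀ i, ∀ a : ℝ, min k2 (c₀ * e / 2) ≤ a → Mx f (vg (x i)) a F A' (z i) :=
    fun i a ha => ⟨(hz i).1, fun V' z' hz' => ((hz i).2 V' z' hz').trans
      (mul_le_mul_of_nonneg_right ha hJ0)⟩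
  have hzk : ∀ q : ι × ι, Mx f (vg (x q.1)) (k1 q) F A' (z q.1) := fun q =>
    hz1 _ _ ((min_le_left _ _).trans (hk2' q))
  have hze : ∀ i, Mx f (vg (x i)) (c₀ * e / 2) F A' (z i) := fun i =>
    hz1 _ _ (min_le_right _ _)
  have key : ∀ {V' W' : Type} (X : F.Ω → V') (Y : F.Ω → W'),
      CH (Pool.Agent.H49.Ent.cond F.p A' True) X Y ≤ c₀ * e * J →
      CH (Pool.Agent.H49.Ent.cond F.p B' True) X Y ≤ e * J := fun X Y hXY =>
    ch_part F.isLaw hB' hA' hc₀ hBA X Y (by rw [← mul_assoc]; exact hXY)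
  refine ⟨fun i j hij => ?_, ⟨fun i j k hij hjk => ?_, fun i j hij => ?_, fun i j k hij hjk => ?_,
    fun i j k hij hjk => ?_, fun i j hij => ?_, fun i j hij => ?_⟩⟩
  · have hij' : (x i) ≤ x j := hij
    have h1 : Cl2 (f J F) (vg (x j) J F) A' (z i) := by
      obtain ⟨φ, hφ⟩ := vg_mono hij' (hx1 j) J F
      exact (hz i).1.mono ⟨id, fun _ _ => rfl⟩ ⟨φ, fun ω _ => hφ ω⟩
    have h2 := (hze j).2 _ _ h1
    refine key _ _ (le_trans (CH_mono_cond hcl.nonneg fun _ _ _ _ hh => ?_) (h2.trans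
      (mul_le_mul_of_nonneg_right (by linarith) hJ0)))
    exact (Prod.ext_iff.mp hh).1
  · have hij' : x i ≤ x j := hij
    have hjk' : x j ≤ x k := hjk
    have h1 := hadd i j k hij' hjk'
    have e5 : θ i k * (J : ℝ) - θ i j * J - θ j k * J =
        (θ i k - θ i j - θ j k) * J := by ring
    rw [e5, abs_mul, abs_of_nonneg hJ0]
    exact mul_le_mul_of_nonneg_right (h1.trans (by linarith)) hJ0
  · have hij' : x i ≤ x j := hij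
    have h1 := H2 (i, j) hij' _ (z j) (hze j) u₀ (u i j)
      (Q₀.mono le_rfl (l2.trans (hf2' (i, j))) hu₀) ((Q _ _).mono le_rfl (l2.trans (hf2' (i, j))) (hu i j hij'))
    refine key _ _ (le_trans (CH_mono_cond hcl.nonneg fun _ _ _ _ hh => ?_) h1)
    simp only [Prod.mk.injEq] at hh ⊢
    tauto
  · have hij' : x i ≤ x j := hij
    have hjk' : x j ≤ x k := hjk
    have h1 := H3 (i, j, k) hij' hjk' _ (z j) (hze j) u₀ (u i k) (u j k)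
      (Q₀.mono le_rfl (l3.trans (hf3' (i, j, k))) hu₀) ((Q _ _).mono le_rfl (l3.trans (hf3' (i, j, k))) (hu i k (hij'.trans hjk')))
      ((Q _ _).mono le_rfl (l3.trans (hf3' (i, j, k))) (hu j k hjk'))
    refine key _ _ (le_trans (CH_mono_cond hcl.nonneg fun ω ω' _ _ hh => ?_) h1)
    simp only [Prod.mk.injEq] at hh ⊢
    tauto
  · have hij' : x i ≤ x j := hij
    have hjk' : x j ≤ x k := hjk
    have h1 := H4 (i, j, k) hij' hjk' _ (z i) (hze i) u₀ (u i k) (u i j)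
      (Q₀.mono le_rfl (l4.trans (hf4' (i, j, k))) hu₀) ((Q _ _).mono le_rfl (l4.trans (hf4' (i, j, k))) (hu i k (hij'.trans hjk')))
      ((Q _ _).mono le_rfl (l4.trans (hf4' (i, j, k))) (hu i j hij'))
    refine key _ _ (le_trans (CH_mono_cond hcl.nonneg fun ω ω' _ _ hh => ?_) h1)
    simp only [Prod.mk.injEq] at hh ⊢
    tauto
  all_goals
    have hij' : x i ≤ x j := hij
    have h1 := abs_le.1 (H1 (i, j) hij' _ (z i) (hzk (i, j)) u₀ (u i j)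
      (Q₀.mono le_rfl (l1.trans (hf1' (i, j))) hu₀) ((Q _ _).mono le_rfl (l1.trans (hf1' (i, j))) (hu i j hij')) B' hB' hBA)
    have h2 : e * J ≤ (κ₀ + e) * J := mul_le_mul_of_nonneg_right (by linarith) hJ0
    linarith [h1.1, h1.2]

end Pool.OWN83
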