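import Pool.Agent.H83.OWN.AddC
import Pool.Agent.H91.LA.Rel

/-!
# From the relative numbers of a class to the additive families of one law

`RN`: the number of `Q` given the record, `y` and the quantity `Q₀`. `add_rel`: the form of `add_ev`
with a quantity `Q₀` (over a base chart) in the condition.
-/

set_option autoImplicit false

namespace Pool.OWN83

open Finset Real
open Pool.Agent.H49.Ent Pool.Agent.H32.Dense Pool.STK Pool.KA Pool.KSAT Pool.K2S Pool.PB Pool.S6C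
  Pool.GEN Pool.RCD Pool.LA91

variable {m : ℕ} {U₀ U : Type} {α β γ : ∀ J : ℕ, Fam m J → Type}
  {f : ∀ (J : ℕ) (F : Fam m J), F.Ω → α J F} {g : ∀ (J : ℕ) (F : Fam m J), F.Ω → β J F}
  {y : ∀ (J : ℕ) (F : Fam m J), F.Ω → γ J F} {S : PCl m}

/-- **The relative number** of `Q` given the record, `y` and `Q₀`. -/
def RN (S : PCl m) (f : ∀ (J : ℕ) (F : Fam m J), F.Ω → α J F)
    (g : ∀ (J : ℕ) (F : Fam m J), F.Ω → β J F) (y : ∀ (J : ℕ) (F : Fam m J), F.Ω → γ J F)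
    (Q₀ : Qt m U₀) (Q : Qt m U) (θ : ℝ) : Prop :=
  ∀ h : ℝ, 0 < h → ∃ k : ℝ, 0 < k ∧ ∃ e₀ : ℝ, 0 < e₀ ∧ ∀ K : ℕ, Bas S (fun J F A =>
    ∀ (V : Type) (z : F.Ω → V), Mx f g k F A z → ∀ u₀ u, Q₀.P K e₀ J F A u₀ →
      Q.P K e₀ J F A u → |CH (Pool.Agent.H49.Ent.cond F.p A True) u
        (fun ω => (z ω, (u₀ ω, y J F ω))) - θ * J| ≤ h * J)

theorem RN.of
    (hpos : ∀ (τ : ℝ) (J : ℕ) (F : Fam m J) (A : F.Ω → Prop), S.St τ J F A → 0 < Pe F.p A)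
    {Q₀ : Qt m U₀} {Q : Qt m U} {θ₀ θ : ℝ} (N₀ : NN S f g y Q₀ θ₀)
    (N : NN S f g y (Q₀.prod Q) (θ₀ + θ)) : RN S f g y Q₀ Q θ := by
  intro h hh
  obtain ⟨k, hk, e₀, he₀, H⟩ := NN.cond hpos N N₀ h hh
  refine ⟨k, hk, e₀, he₀, fun K => Bas.mono 0 ((H K).and (pos_bas hpos)) ?_⟩
  rintro J - F A ⟨H, hA⟩ V z hz u₀ u hu₀ hu
  have hcl := isLaw_cond F.isLaw hA
  have h1 := H V z hz u₀ u hu₀ hu
  have h2 : CH (Pool.Agent.H49.Ent.cond F.p A True) u (fun ω => (u₀ ω, (z ω, y J F ω))) =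
      CH (Pool.Agent.H49.Ent.cond F.p A True) u (fun ω => (z ω, (u₀ ω, y J F ω))) := by
    refine CH_congr hcl.nonneg ?_ ?_ ?_ ?_ <;>
    · intro ω ω' _ _ hh
      simp only [Prod.mk.injEq] at hh ⊢
      tauto
  rw [h2] at h1
  have h3 : θ₀ + θ - θ₀ = θ := by ring
  rw [h3] at h1
  exact h1

/-- **The relative number is a lower bound** given any closed function. -/
theorem ev_lowr
    (hpos : ∀ (τ : ℝ) (J : ℕ) (F : Fam m J) (A : F.Ω → Prop), S.St τ J F A → 0 < Pe F.p A)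
    {Q₀ : Qt m U₀} {Q : Qt m U} {θ η : ℝ} (hη : RNum S f g η) (N : RN S f g y Q₀ Q θ) (h : ℝ) (hh : 0 < h) :
    ∃ e₀ : ℝ, 0 < e₀ ∧ ∀ K : ℕ, Bas S (fun J F A => ∀ (V : Type) (z : F.Ω → V),
      Cl2 (f J F) (g J F) A z → ∀ u₀ u, Q₀.P K e₀ J F A u₀ → Q.P K e₀ J F A u →
      (θ - h) * J ≤ CH (Pool.Agent.H49.Ent.cond F.p A True) u
        (fun ω => (z ω, (u₀ ω, y J F ω)))) := by
  obtain ⟨k, hk, e₀, he₀, H⟩ := N (h / 2) (half_pos hh)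
  refine ⟨e₀, he₀, fun K => Bas.mono 0 (((H K).and
    (mx_ex hpos hη (min k (h / 2)) (lt_min hk (half_pos hh)))).and (pos_bas hpos)) ?_⟩
  rintro J - F A ⟨⟨H, V', z', hz'⟩, hA⟩ V z hz u₀ u hu₀ hu
  have hcl := isLaw_cond F.isLaw hA
  have hJ0 : (0 : ℝ) ≤ J := Nat.cast_nonneg J
  have h1 := (abs_le.1 (H V' z' ⟨hz'.1, fun V'' z'' hz'' => (hz'.2 V'' z'' hz'').trans
    (mul_le_mul_of_nonneg_right (min_le_left _ _) hJ0)⟩ u₀ u hu₀ hu)).1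
  have h2 : CH (Pool.Agent.H49.Ent.cond F.p A True) z z' ≤ h / 2 * J :=
    (hz'.2 V z hz).trans (mul_le_mul_of_nonneg_right (min_le_right _ _) hJ0)
  have h3 := CH_le_add hcl.nonneg u z (fun ω => (z' ω, (u₀ ω, y J F ω)))
  have h4 : CH (Pool.Agent.H49.Ent.cond F.p A True) z (fun ω => (z' ω, (u₀ ω, y J F ω))) ≤
      CH (Pool.Agent.H49.Ent.cond F.p A True) z z' :=
    CH_mono_cond hcl.nonneg fun _ _ _ _ hh => (Prod.ext_iff.mp hh).1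
  have h5 : CH (Pool.Agent.H49.Ent.cond F.p A True) u (fun ω => (z ω, (z' ω, (u₀ ω, y J F ω)))) ≤
      CH (Pool.Agent.H49.Ent.cond F.p A True) u (fun ω => (z ω, (u₀ ω, y J F ω))) := by
    refine CH_mono_cond hcl.nonneg fun ω ω' _ _ hh => ?_
    simp only [Prod.mk.injEq] at hh ⊢
    exact ⟨hh.1, hh.2.2⟩
  linarith

/-- **The relative number on all large parts of an event**, with the record of the event. -/
theorem ev_twor
    (hpos : ∀ (τ : ℝ) (J : ℕ) (F : Fam m J) (A : F.Ω → Prop), S.St τ J F A → 0 < Pe F.p A)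
    {Q₀ : Qt m U₀} {Q : Qt m U} {θ η : ℝ} (hη : RNum S f g η) (N : RN S f g y Q₀ Q θ) {c₀ : ℝ} (hc₀ : 0 < c₀)
    (h : ℝ) (hh : 0 < h) : ∃ k : ℝ, 0 < k ∧ ∃ e₀ : ℝ, 0 < e₀ ∧ ∀ K : ℕ,
    Bas S (fun J F A => ∀ (V : Type) (z : F.Ω → V), Mx f g k F A z → ∀ u₀ u, Q₀.P K e₀ J F A u₀ →
      Q.P K e₀ J F A u → ∀ B : F.Ω → Prop, Sub B A → c₀ * Pe F.p A ≤ Pe F.p B →
      |CH (Pool.Agent.H49.Ent.cond F.p B True) u (fun ω => (z ω, (u₀ ω, y J F ω))) - θ * J| ≤ h * J) := by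
  obtain ⟨b₀, hb₀, hb1, hb2⟩ : ∃ b₀ : ℝ, 0 < b₀ ∧ b₀ ≤ c₀ ∧ b₀ ≤ 1 :=
    ⟨min c₀ 1, lt_min hc₀ one_pos, min_le_left _ _, min_le_right _ _⟩
  obtain ⟨h', hh'⟩ : ∃ h' : ℝ, h' = b₀ * h / 4 := ⟨_, rfl⟩
  have hh'0 : 0 < h' := by rw [hh']; positivity
  have hh'1 : h' ≤ h / 4 := by rw [hh']; nlinarith
  obtain ⟨c₁, hc₁⟩ : ∃ c₁ : ℝ, c₁ = min (1 / 2) (h / (8 * (|θ| + h))) := ⟨_, rfl⟩
  have hab := abs_nonneg θ
  have hden : 0 < 8 * (|θ| + h) := by positivity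
  have hc10 : 0 < c₁ := by
    rw [hc₁]
    exact lt_min (by norm_num) (div_pos hh hden)
  have hc11 : c₁ ≤ 1 / 2 := by rw [hc₁]; exact min_le_left _ _
  have hc12 : c₁ * (8 * (|θ| + h)) ≤ h := by
    have : c₁ ≤ h / (8 * (|θ| + h)) := by rw [hc₁]; exact min_le_right _ _
    rwa [le_div_iff₀ hden] at this
  obtain ⟨k1, hk1, e1, he1, H1⟩ := N h' hh'0
  obtain ⟨e2, he2, H2⟩ := ev_lowr hpos hη N h' hh'0
  obtain ⟨a₀, ha0⟩ : ∃ a₀ : ℝ, a₀ = min b₀ c₁ := ⟨_, rfl⟩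
  have ha00 : 0 < a₀ := by rw [ha0]; exact lt_min hb₀ hc10
  have ha1 : a₀ ≤ b₀ := by rw [ha0]; exact min_le_left _ _
  have ha2 : a₀ ≤ c₁ := by rw [ha0]; exact min_le_right _ _
  refine ⟨k1, hk1, min e1 e2, lt_min he1 he2, fun K => Bas.mono 0 (((H1 K).and
    (bas_ev (H2 K) ha00)).and (pos_bas hpos)) ?_⟩
  rintro J - F A ⟨⟨H1, H2⟩, hA⟩ V z hz u₀ u hu₀ hu B hB hBA
  have hJ0 : (0 : ℝ) ≤ J := Nat.cast_nonneg J
  have hb := Pe_nonneg F.isLaw B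
  have hBp : 0 < Pe F.p B := lt_of_lt_of_le (mul_pos hc₀ hA) hBA
  have hBA' : b₀ * Pe F.p A ≤ Pe F.p B :=
    (mul_le_mul_of_nonneg_right hb1 hA.le).trans hBA
  have g1 := abs_le.1 (H1 V z hz u₀ u (Q₀.mono le_rfl (min_le_left _ _) hu₀)
    (Q.mono le_rfl (min_le_left _ _) hu))
  have g2 := H2 B hB ((mul_le_mul_of_nonneg_right ha1 hA.le).trans hBA') V z (hz.1.sub hB) u₀ u
    (Q₀.sub hB (Q₀.mono le_rfl (min_le_right _ _) hu₀))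
    (Q.sub hB (Q.mono le_rfl (min_le_right _ _) hu))
  have hh'J : h' * J ≤ h / 4 * J := mul_le_mul_of_nonneg_right hh'1 hJ0
  have hhJ : 0 ≤ h * J := by positivity
  obtain ⟨HA, hHA⟩ : ∃ x, x = CH (Pool.Agent.H49.Ent.cond F.p A True) u
    (fun ω => (z ω, (u₀ ω, y J F ω))) := ⟨_, rfl⟩
  obtain ⟨HB, hHB⟩ : ∃ x, x = CH (Pool.Agent.H49.Ent.cond F.p B True) u
    (fun ω => (z ω, (u₀ ω, y J F ω))) := ⟨_, rfl⟩
  rw [← hHA] at g1
  rw [← hHB] at g2 ⊢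
  have hHB0 : 0 ≤ HB := by
    rw [hHB]
    exact CH_nonneg (isLaw_cond F.isLaw hBp).nonneg _ _
  have hHA0 : 0 ≤ HA := by
    rw [hHA]
    exact CH_nonneg (isLaw_cond F.isLaw hA).nonneg _ _
  have hsp := Pool.LF65.Pe_split (p := F.p) hB
  rw [abs_le]
  refine ⟨by linarith, ?_⟩
  by_cases hC : a₀ * Pe F.p A ≤ Pe F.p (fun ω => A ω ∧ ¬ B ω)
  · -- the complement is large
    have hCs : Sub (fun ω => A ω ∧ ¬ B ω) A := fun ω hω => hω.1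
    have g3 := H2 _ hCs hC V z (hz.1.sub hCs) u₀ u
      (Q₀.sub hCs (Q₀.mono le_rfl (min_le_right _ _) hu₀))
      (Q.sub hCs (Q.mono le_rfl (min_le_right _ _) hu))
    have g4 := Pool.LF65.CH_split_low F.isLaw hB hA u (fun ω => (z ω, (u₀ ω, y J F ω)))
    rw [← hHA, ← hHB] at g4
    obtain ⟨HC, hHC⟩ : ∃ x, x = CH (Pool.Agent.H49.Ent.cond F.p (fun ω => A ω ∧ ¬ B ω) True) u
      (fun ω => (z ω, (u₀ ω, y J F ω))) := ⟨_, rfl⟩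
    rw [← hHC] at g3 g4
    obtain ⟨c, hc⟩ : ∃ c, c = Pe F.p (fun ω => A ω ∧ ¬ B ω) := ⟨_, rfl⟩
    obtain ⟨a, ha⟩ : ∃ a, a = Pe F.p A := ⟨_, rfl⟩
    obtain ⟨b, hbb⟩ : ∃ b, b = Pe F.p B := ⟨_, rfl⟩
    have hc0 : 0 ≤ c := by rw [hc]; exact Pe_nonneg F.isLaw _
    rw [← hc, ← ha, ← hbb] at g4 hsp
    rw [← ha] at hA
    rw [← hbb] at hBp hb
    rw [← ha, ← hbb] at hBA'
    have e1 : c * ((θ - h') * J) ≤ c * HC := mul_le_mul_of_nonneg_left g3 hc0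
    have e2 : a * HA ≤ a * ((θ + h') * J) :=
      mul_le_mul_of_nonneg_left (by linarith [g1.2]) hA.le
    have e3 : b * HB ≤ b * (θ * J) + 2 * a * (h' * J) := by
      have e4 : a * ((θ + h') * J) - c * ((θ - h') * J) =
          b * (θ * J) + (a + c) * (h' * J) := by rw [hsp]; ring
      have e5 : (a + c) * (h' * J) ≤ 2 * a * (h' * J) :=
        mul_le_mul_of_nonneg_right (by linarith) (by positivity)
      linarith
    have e6 : 2 * a * (h' * J) ≤ b * (h / 2 * J) := by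
      rw [hh']
      have : 2 * a * (b₀ * h / 4 * J) = (b₀ * a) * (h / 2 * J) := by ring
      rw [this]
      exact mul_le_mul_of_nonneg_right hBA' (by positivity)
    have e7 : b * HB ≤ b * (θ * J + h / 2 * J) := by
      rw [mul_add]
      linarith
    have := le_of_mul_le_mul_left e7 hBp
    linarith
  · rw [not_le] at hC
    have g4 := Pool.K2S.Piece.CH_sub F.isLaw hB hA u (fun ω => (z ω, (u₀ ω, y J F ω)))
    rw [← hHA, ← hHB] at g4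
    obtain ⟨c, hc⟩ : ∃ c, c = Pe F.p (fun ω => A ω ∧ ¬ B ω) := ⟨_, rfl⟩
    obtain ⟨a, ha⟩ : ∃ a, a = Pe F.p A := ⟨_, rfl⟩
    obtain ⟨b, hbb⟩ : ∃ b, b = Pe F.p B := ⟨_, rfl⟩
    rw [← hc, ← ha] at hC
    rw [← hc, ← ha, ← hbb] at hsp
    rw [← ha, ← hbb] at g4
    rw [← ha] at hA
    rw [← hbb] at hBp
    have e0 : a₀ * a ≤ c₁ * a := mul_le_mul_of_nonneg_right ha2 hA.le
    have e1 : (1 - c₁) * a ≤ b := by linarith
    have e2 : (1 - c₁) * a * HB ≤ a * HA := (mul_le_mul_of_nonneg_right e1 hHB0).trans g4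
    have e3 : a * ((1 - c₁) * HB) ≤ a * HA := by linarith
    have e4 := le_of_mul_le_mul_left e3 hA
    have e5 : HB ≤ (1 + 2 * c₁) * HA := by
      have e6 : HB * 1 ≤ HB * ((1 - c₁) * (1 + 2 * c₁)) := by
        refine mul_le_mul_of_nonneg_left ?_ hHB0
        nlinarith
      have e7 : (1 - c₁) * HB * (1 + 2 * c₁) ≤ HA * (1 + 2 * c₁) :=
        mul_le_mul_of_nonneg_right e4 (by linarith)
      linarith
    have e8 : HA ≤ (|θ| + h) * J := by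
      have : θ * J ≤ |θ| * J := mul_le_mul_of_nonneg_right (le_abs_self θ) hJ0
      linarith [g1.2]
    have e9 : c₁ * HA ≤ c₁ * ((|θ| + h) * J) := mul_le_mul_of_nonneg_left e8 hc10.le
    have e10 : c₁ * (8 * (|θ| + h)) * J ≤ h * J := mul_le_mul_of_nonneg_right hc12 hJ0
    linarith [g1.2]

/-- **The families `Add` of a class**, relative to a quantity `Q₀` of the base, on all large parts
of an event. -/
theorem add_rel {ι : Type} [Finite ι]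
    (hpos : ∀ (τ : ℝ) (J : ℕ) (F : Fam m J) (A : F.Ω → Prop), S.St τ J F A → 0 < Pe F.p A)
    {Q₀ : Qt m U₀} {Q : ℚ → ℚ → Qt m U} {A B lam : ℝ}
    (h : TwoRel S f y (fun _ => Q₀) Q A B lam) {θ₀ : ℚ → ℝ} {θ : ℚ → ℚ → ℝ}
    (hθ : TRel S f y (fun _ => Q₀) Q A B lam θ₀ θ) (hB : B ≤ 1) (x : ι → ℚ) (hxA : ∀ i, A < x i)
    (hxB : ∀ i, (x i : ℝ) < B) (hxl : ∀ i j, (x j : ℝ) < x i + lam)
    (hη : ∀ i, ∃ η, RNum S f (vg (x i : ℝ)) η) {κ₀ : ℝ}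
    (hadd : ∀ i j k, x i ≤ x j → x j ≤ x k →
      |θ (x i) (x k) - θ (x i) (x j) - θ (x j) (x k)| ≤ κ₀)
    {c₀ : ℝ} (hc₀ : 0 < c₀) {e : ℝ} (he : 0 < e) :
    ∃ k : ℝ, 0 < k ∧ ∃ e₀ : ℝ, 0 < e₀ ∧ ∀ K : ℕ, Bas S (fun J F A' =>
      ∀ (Z : Type) (z : ι → F.Ω → Z), (∀ i, Mx f (vg (x i : ℝ)) k F A' (z i)) →
      ∀ u₀, Q₀.P K e₀ J F A' u₀ →
      ∀ u : ι → ι → F.Ω → U, (∀ i j, x i ≤ x j → (Q (x i) (x j)).P K e₀ J F A' (u i j)) →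
      ∀ B' : F.Ω → Prop, Sub B' A' → c₀ * Pe F.p A' ≤ Pe F.p B' →
      Pool.SAT43.Nest (Pool.Agent.H49.Ent.cond F.p B' True) (fun i => (x i : ℝ)) z
        (fun ω => (u₀ ω, y J F ω)) (e * J) ∧
      Pool.SAT43.Add (Pool.Agent.H49.Ent.cond F.p B' True) (fun i => (x i : ℝ)) z
        (fun ω => (u₀ ω, y J F ω)) u
        (fun i j => θ (x i) (x j) * J) ((κ₀ + e) * J) (e * J)) := by
  have hce : 0 < c₀ * e := mul_pos hc₀ he
  -- the numbers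
  have N1 : ∀ q : ι × ι, ∃ k : ℝ, 0 < k ∧ ∃ e₀ : ℝ, 0 < e₀ ∧ ∀ K : ℕ, Bas S (fun J F A' =>
      x q.1 ≤ x q.2 → ∀ (V : Type) (z : F.Ω → V), Mx f (vg (x q.1 : ℝ)) k F A' z →
      ∀ u₀ u, Q₀.P K e₀ J F A' u₀ → (Q (x q.1) (x q.2)).P K e₀ J F A' u →
      ∀ B' : F.Ω → Prop, Sub B' A' → c₀ * Pe F.p A' ≤ Pe F.p B' →
      |CH (Pool.Agent.H49.Ent.cond F.p B' True) u (fun ω => (z ω, (u₀ ω, y J F ω))) -
        θ (x q.1) (x q.2) * J| ≤ e * J) := by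
    intro q
    by_cases hq : x q.1 ≤ x q.2
    · obtain ⟨η, hη⟩ := hη q.1
      have hqr : (x q.1 : ℝ) ≤ x q.2 := by exact_mod_cast hq
      obtain ⟨k, hk, e₀, he₀, H⟩ := ev_twor hpos hη (RN.of hpos
        (hθ.n₀ _ (hxA q.1) (hxB q.1)) (hθ.n _ _ (hxA q.1) hq (hxB q.2) (hxl q.1 q.2))) hc₀ e he
      exact ⟨k, hk, e₀, he₀, fun K => Bas.mono 0 (H K) fun J _ F A' h1 _ => h1⟩
    · exact ⟨1, one_pos, 1, one_pos, fun K => Bas.mono 0 (pos_bas hpos)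
        fun J _ F A' _ h1 => absurd h1 hq⟩
  choose k1 hk1 e1 he1 H1 using N1
  -- the few bits
  have N2 : ∀ q : ι × ι, ∃ e₀ : ℝ, 0 < e₀ ∧ ∀ K : ℕ, Bas S (fun J F A' => x q.1 ≤ x q.2 →
      ∀ (V : Type) (z : F.Ω → V), Mx f (vg (x q.2 : ℝ)) (c₀ * e / 2) F A' z →
      ∀ u₀ u, Q₀.P K e₀ J F A' u₀ → (Q (x q.1) (x q.2)).P K e₀ J F A' u →
      CH (Pool.Agent.H49.Ent.cond F.p A' True) u (fun ω => (u₀ ω, (z ω, y J F ω))) ≤
        c₀ * e * J) := by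
    intro q
    by_cases hq : x q.1 ≤ x q.2
    · obtain ⟨e₀, he₀, H⟩ := (h.own _ _ (hxA q.1) hq (hxB q.2) (hxl q.1 q.2)).mx hpos
        (c₀ * e) hce
      exact ⟨e₀, he₀, fun K => Bas.mono 0 (H K) fun J _ F A' h1 _ => h1⟩
    · exact ⟨1, one_pos, fun K => Bas.mono 0 (pos_bas hpos)
        fun J _ F A' _ h1 => absurd h1 hq⟩
  choose e2 he2 H2 using N2
  have N3 : ∀ q : ι × ι × ι, ∃ e₀ : ℝ, 0 < e₀ ∧ ∀ K : ℕ, Bas S (fun J F A' =>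
      x q.1 ≤ x q.2.1 → x q.2.1 ≤ x q.2.2 →
      ∀ (V : Type) (z : F.Ω → V), Mx f (vg (x q.2.1 : ℝ)) (c₀ * e / 2) F A' z →
      ∀ u₀ u u₁, Q₀.P K e₀ J F A' u₀ → (Q (x q.1) (x q.2.2)).P K e₀ J F A' u →
      (Q (x q.2.1) (x q.2.2)).P K e₀ J F A' u₁ →
      CH (Pool.Agent.H49.Ent.cond F.p A' True) u₁ (fun ω => ((u₀ ω, u ω), (z ω, y J F ω))) ≤
        c₀ * e * J) := by
    intro q
    by_cases hq : x q.1 ≤ x q.2.1 ∧ x q.2.1 ≤ x q.2.2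
    · obtain ⟨e₀, he₀, H⟩ := (h.chg _ _ _ (hxA q.1) hq.1 hq.2 (hxB q.2.2)
        (hxl q.1 q.2.2)).mx hpos (c₀ * e) hce
      exact ⟨e₀, he₀, fun K => Bas.mono 0 (H K) fun J _ F A' h1 _ _ V z hz u₀ u u₁ h0 h2 h3 =>
        h1 V z hz (fun ω => (u₀ ω, u ω)) u₁ ⟨h0, h2⟩ h3⟩
    · exact ⟨1, one_pos, fun K => Bas.mono 0 (pos_bas hpos)
        fun J _ F A' _ h1 h2 => absurd ⟨h1, h2⟩ hq⟩
  choose e3 he3 H3 using N3
  have N4 : ∀ q : ι × ι × ι, ∃ e₀ : ℝ, 0 < e₀ ∧ ∀ K : ℕ, Bas S (fun J F A' =>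
      x q.1 ≤ x q.2.1 → x q.2.1 ≤ x q.2.2 →
      ∀ (V : Type) (z : F.Ω → V), Mx f (vg (x q.1 : ℝ)) (c₀ * e / 2) F A' z →
      ∀ u₀ u u₁, Q₀.P K e₀ J F A' u₀ → (Q (x q.1) (x q.2.2)).P K e₀ J F A' u →
      (Q (x q.1) (x q.2.1)).P K e₀ J F A' u₁ →
      CH (Pool.Agent.H49.Ent.cond F.p A' True) u₁ (fun ω => ((u₀ ω, u ω), (z ω, y J F ω))) ≤
        c₀ * e * J) := by
    intro q
    by_cases hq : x q.1 ≤ x q.2.1 ∧ x q.2.1 ≤ x q.2.2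
    · obtain ⟨e₀, he₀, H⟩ := (h.row _ _ _ (hxA q.1) hq.1 hq.2 (hxB q.2.2)
        (hxl q.1 q.2.2)).mx hpos (c₀ * e) hce
      exact ⟨e₀, he₀, fun K => Bas.mono 0 (H K) fun J _ F A' h1 _ _ V z hz u₀ u u₁ h0 h2 h3 =>
        h1 V z hz (fun ω => (u₀ ω, u ω)) u₁ ⟨h0, h2⟩ h3⟩
    · exact ⟨1, one_pos, fun K => Bas.mono 0 (pos_bas hpos)
        fun J _ F A' _ h1 h2 => absurd ⟨h1, h2⟩ hq⟩
  choose e4 he4 H4 using N4
  -- common constants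
  have hmin : ∀ {κ : Type} [Finite κ] (a : κ → ℝ), (∀ i, 0 < a i) → ∃ b : ℝ, 0 < b ∧
      ∀ i, b ≤ a i := by
    intro κ _ a ha
    rcases isEmpty_or_nonempty κ with h | h
    · exact ⟨1, one_pos, fun i => (h.false i).elim⟩
    · obtain ⟨i₀, hi₀⟩ := Finite.exists_min a
      exact ⟨a i₀, ha i₀, hi₀⟩
  obtain ⟨k2, hk2, hk2'⟩ := hmin k1 hk1
  obtain ⟨f1, hf1, hf1'⟩ := hmin e1 he1
  obtain ⟨f2, hf2, hf2'⟩ := hmin e2 he2
  obtain ⟨f3, hf3, hf3'⟩ := hmin e3 he3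
  obtain ⟨f4, hf4, hf4'⟩ := hmin e4 he4
  obtain ⟨e₀, he₀, l1, l2, l3, l4⟩ : ∃ e₀ : ℝ, 0 < e₀ ∧ e₀ ≤ f1 ∧ e₀ ≤ f2 ∧ e₀ ≤ f3 ∧ e₀ ≤ f4 :=
    ⟨min f1 (min f2 (min f3 f4)), by positivity, min_le_left _ _,
      (min_le_right _ _).trans (min_le_left _ _),
      (min_le_right _ _).trans ((min_le_right _ _).trans (min_le_left _ _)),
      (min_le_right _ _).trans ((min_le_right _ _).trans (min_le_right _ _))⟩
  refine ⟨min k2 (c₀ * e / 2), lt_min hk2 (half_pos hce), e₀, he₀, fun K => ?_⟩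
  refine Bas.mono 0 (((((Bas.fin' fun q => H1 q K).and (Bas.fin' fun q => H2 q K)).and
    (Bas.fin' fun q => H3 q K)).and (Bas.fin' fun q => H4 q K)).and (pos_bas hpos)) ?_
  rintro J - F A' ⟨⟨⟨⟨H1, H2⟩, H3⟩, H4⟩, hA'⟩ Z z hz u₀ hu₀ u hu B' hB' hBA
  have hJ0 : (0 : ℝ) ≤ J := Nat.cast_nonneg J
  have hcl := isLaw_cond F.isLaw hA'
  have hBp : 0 < Pe F.p B' := lt_of_lt_of_le (mul_pos hc₀ hA') hBA
  have hclB := isLaw_cond F.isLaw hBp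
  have hz1 : ∀ i, ∀ a : ℝ, min k2 (c₀ * e / 2) ≤ a → Mx f (vg (x i : ℝ)) a F A' (z i) :=
    fun i a ha => ⟨(hz i).1, fun V' z' hz' => ((hz i).2 V' z' hz').trans
      (mul_le_mul_of_nonneg_right ha hJ0)⟩
  have hzk : ∀ q : ι × ι, Mx f (vg (x q.1 : ℝ)) (k1 q) F A' (z q.1) := fun q =>
    hz1 _ _ ((min_le_left _ _).trans (hk2' q))
  have hze : ∀ i, Mx f (vg (x i : ℝ)) (c₀ * e / 2) F A' (z i) := fun i =>
    hz1 _ _ (min_le_right _ _)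
  have key : ∀ {V' W' : Type} (X : F.Ω → V') (Y : F.Ω → W'),
      CH (Pool.Agent.H49.Ent.cond F.p A' True) X Y ≤ c₀ * e * J →
      CH (Pool.Agent.H49.Ent.cond F.p B' True) X Y ≤ e * J := fun X Y hXY =>
    ch_part F.isLaw hB' hA' hc₀ hBA X Y (by rw [← mul_assoc]; exact hXY)
  refine ⟨fun i j hij => ?_, ⟨fun i j k hij hjk => ?_, fun i j hij => ?_, fun i j k hij hjk => ?_,
    fun i j k hij hjk => ?_, fun i j hij => ?_, fun i j hij => ?_⟩⟩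
  · have hij' : (x i : ℝ) ≤ x j := hij
    have h1 : Cl2 (f J F) (vg (x j : ℝ) J F) A' (z i) := by
      obtain ⟨φ, hφ⟩ := vg_mono hij' ((hxB j).le.trans hB) J F
      exact (hz i).1.mono ⟨id, fun _ _ => rfl⟩ ⟨φ, fun ω _ => hφ ω⟩
    have h2 := (hze j).2 _ _ h1
    refine key _ _ (le_trans (CH_mono_cond hcl.nonneg fun _ _ _ _ hh => ?_) (h2.trans
      (mul_le_mul_of_nonneg_right (by linarith) hJ0)))
    exact (Prod.ext_iff.mp hh).1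
  · have hij' : x i ≤ x j := by
      have : (x i : ℝ) ≤ x j := hij
      exact_mod_cast this
    have hjk' : x j ≤ x k := by
      have : (x j : ℝ) ≤ x k := hjk
      exact_mod_cast this
    have h1 := hadd i j k hij' hjk'
    have e5 : θ (x i) (x k) * (J : ℝ) - θ (x i) (x j) * J - θ (x j) (x k) * J =
        (θ (x i) (x k) - θ (x i) (x j) - θ (x j) (x k)) * J := by ring
    rw [e5, abs_mul, abs_of_nonneg hJ0]
    exact mul_le_mul_of_nonneg_right (h1.trans (by linarith)) hJ0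
  · have hij' : x i ≤ x j := by
      have : (x i : ℝ) ≤ x j := hij
      exact_mod_cast this
    have h1 := H2 (i, j) hij' _ (z j) (hze j) u₀ (u i j)
      (Q₀.mono le_rfl (l2.trans (hf2' (i, j))) hu₀) ((Q _ _).mono le_rfl (l2.trans (hf2' (i, j))) (hu i j hij'))
    refine key _ _ (le_trans (CH_mono_cond hcl.nonneg fun _ _ _ _ hh => ?_) h1)
    simp only [Prod.mk.injEq] at hh ⊢
    tauto
  · have hij' : x i ≤ x j := by
      have : (x i : ℝ) ≤ x j := hij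
      exact_mod_cast this
    have hjk' : x j ≤ x k := by
      have : (x j : ℝ) ≤ x k := hjk
      exact_mod_cast this
    have h1 := H3 (i, j, k) hij' hjk' _ (z j) (hze j) u₀ (u i k) (u j k)
      (Q₀.mono le_rfl (l3.trans (hf3' (i, j, k))) hu₀) ((Q _ _).mono le_rfl (l3.trans (hf3' (i, j, k))) (hu i k (hij'.trans hjk')))
      ((Q _ _).mono le_rfl (l3.trans (hf3' (i, j, k))) (hu j k hjk'))
    refine key _ _ (le_trans (CH_mono_cond hcl.nonneg fun ω ω' _ _ hh => ?_) h1)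
    simp only [Prod.mk.injEq] at hh ⊢
    tauto
  · have hij' : x i ≤ x j := by
      have : (x i : ℝ) ≤ x j := hij
      exact_mod_cast this
    have hjk' : x j ≤ x k := by
      have : (x j : ℝ) ≤ x k := hjk
      exact_mod_cast this
    have h1 := H4 (i, j, k) hij' hjk' _ (z i) (hze i) u₀ (u i k) (u i j)
      (Q₀.mono le_rfl (l4.trans (hf4' (i, j, k))) hu₀) ((Q _ _).mono le_rfl (l4.trans (hf4' (i, j, k))) (hu i k (hij'.trans hjk')))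
      ((Q _ _).mono le_rfl (l4.trans (hf4' (i, j, k))) (hu i j hij'))
    refine key _ _ (le_trans (CH_mono_cond hcl.nonneg fun ω ω' _ _ hh => ?_) h1)
    simp only [Prod.mk.injEq] at hh ⊢
    tauto
  all_goals
    have hij' : x i ≤ x j := by
      have : (x i : ℝ) ≤ x j := hij
      exact_mod_cast this
    have h1 := abs_le.1 (H1 (i, j) hij' _ (z i) (hzk (i, j)) u₀ (u i j)
      (Q₀.mono le_rfl (l1.trans (hf1' (i, j))) hu₀) ((Q _ _).mono le_rfl (l1.trans (hf1' (i, j))) (hu i j hij')) B' hB' hBA)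
    have h0 : 0 ≤ κ₀ := (abs_nonneg _).trans (hadd i i i le_rfl le_rfl)
    have h2 : e * J ≤ (κ₀ + e) * J := mul_le_mul_of_nonneg_right (by linarith) hJ0
    linarith [h1.1, h1.2]

end Pool.OWN83
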