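import Pool.Agent.H83.OWN.AddF
import Pool.Agent.H83.OWN.Shf

/-!
# The additive families of a class at shifted rational windows

`add_parS`, `add_relS`: the families `Add` of helper43 for `TwoParS` and `TwoRelS`.
-/

set_option autoImplicit false

namespace Pool.OWN83

open Finset Real
open Pool.Agent.H49.Ent Pool.Agent.H32.Dense Pool.STK Pool.KA Pool.KSAT Pool.K2S Pool.PB Pool.S6C
  Pool.GEN Pool.RCD Pool.LA91

section law

variable {Ω ι Z Y U : Type} [Fintype Ω] {p : Ω → ℝ} {x x' : ι → ℝ} {z : ι → Ω → Z} {y : Ω → Y}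
  {u : ι → ι → Ω → U} {f : ι → ι → ℝ} {κ e : ℝ}

/-- Another order with the same inequalities. -/
theorem Nest.ord (h : Pool.SAT43.Nest p x z y e) (hx : ∀ i j, x' i ≤ x' j → x i ≤ x j) :
    Pool.SAT43.Nest p x' z y e := fun i j hij => h i j (hx i j hij)

theorem Add.ord (h : Pool.SAT43.Add p x z y u f κ e) (hx : ∀ i j, x' i ≤ x' j → x i ≤ x j) :
    Pool.SAT43.Add p x' z y u f κ e :=
  ⟨fun i j k h1 h2 => h.add i j k (hx _ _ h1) (hx _ _ h2), fun i j h1 => h.c1 i j (hx _ _ h1),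
    fun i j k h1 h2 => h.c2 i j k (hx _ _ h1) (hx _ _ h2),
    fun i j k h1 h2 => h.c3 i j k (hx _ _ h1) (hx _ _ h2), fun i j h1 => h.lo i j (hx _ _ h1),
    fun i j h1 => h.hi i j (hx _ _ h1)⟩

end law

variable {m : ℕ} {U₀ U : Type} {α γ : ∀ J : ℕ, Fam m J → Type}
  {f : ∀ (J : ℕ) (F : Fam m J), F.Ω → α J F} {y : ∀ (J : ℕ) (F : Fam m J), F.Ω → γ J F}
  {S : PCl m} {s : ℝ}

/-- **The families `Add` of a class** at shifted rational windows, on all large parts. -/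
theorem add_parS {ι : Type} [Finite ι]
    (hpos : ∀ (τ : ℝ) (J : ℕ) (F : Fam m J) (A : F.Ω → Prop), S.St τ J F A → 0 < Pe F.p A)
    {Q : ℚ → ℚ → Qt m U} {A B lam : ℝ} (h : TwoParS S f y s Q A B lam) {θ : ℚ → ℚ → ℝ}
    (hθ : TNumS S f y s Q A B lam θ) (hB : B + s ≤ 1) (x : ι → ℚ) (hxA : ∀ i, A < x i)
    (hxB : ∀ i, (x i : ℝ) < B) (hxl : ∀ i j, (x j : ℝ) < x i + lam)
    (hη : ∀ i, ∃ η, RNum S f (vg ((x i : ℝ) + s)) η) {κ₀ : ℝ} (hκ : 0 ≤ κ₀)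
    (hadd : ∀ i j k, x i ≤ x j → x j ≤ x k →
      |θ (x i) (x k) - θ (x i) (x j) - θ (x j) (x k)| ≤ κ₀)
    {c₀ : ℝ} (hc₀ : 0 < c₀) {e : ℝ} (he : 0 < e) :
    ∃ k : ℝ, 0 < k ∧ ∃ e₀ : ℝ, 0 < e₀ ∧ ∀ K : ℕ, Bas S (fun J F A' =>
      ∀ (Z : Type) (z : ι → F.Ω → Z), (∀ i, Mx f (vg ((x i : ℝ) + s)) k F A' (z i)) →
      ∀ u : ι → ι → F.Ω → U, (∀ i j, x i ≤ x j → (Q (x i) (x j)).P K e₀ J F A' (u i j)) →
      ∀ B' : F.Ω → Prop, Sub B' A' → c₀ * Pe F.p A' ≤ Pe F.p B' →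
      Pool.SAT43.Nest (Pool.Agent.H49.Ent.cond F.p B' True) (fun i => (x i : ℝ)) z (y J F)
        (e * J) ∧
      Pool.SAT43.Add (Pool.Agent.H49.Ent.cond F.p B' True) (fun i => (x i : ℝ)) z (y J F) u
        (fun i j => θ (x i) (x j) * J) ((κ₀ + e) * J) (e * J)) := by
  have hx : ∀ {i j : ι}, (x i : ℝ) + s ≤ (x j : ℝ) + s → x i ≤ x j := fun {i j} h => by
    have h1 : (x i : ℝ) ≤ x j := by linarith
    exact_mod_cast h1
  obtain ⟨k, hk, e₀, he₀, H⟩ := add_fin hpos (f := f) (y := y) (fun i => (x i : ℝ) + s)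
    (fun i => by linarith [hxB i]) (Q := fun i j => Q (x i) (x j))
    (θ := fun i j => θ (x i) (x j))
    (fun i j k h1 h2 => h.row _ _ _ (hxA i) (hx h1) (hx h2) (hxB k) (hxl i k))
    (fun i j k h1 h2 => h.chg _ _ _ (hxA i) (hx h1) (hx h2) (hxB k) (hxl i k))
    (fun i j h1 => h.own _ _ (hxA i) (hx h1) (hxB j) (hxl i j))
    (fun i j h1 => hθ _ _ (hxA i) (hx h1) (hxB j) (hxl i j)) hη hκ
    (fun i j k h1 h2 => hadd i j k (hx h1) (hx h2)) hc₀ he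
  refine ⟨k, hk, e₀, he₀, fun K => Bas.mono 0 (H K) ?_⟩
  intro J _ F A' H Z z hz u hu B' hB hBA
  obtain ⟨a, b⟩ := H Z z hz u (fun i j hij => hu i j (hx hij)) B' hB hBA
  exact ⟨Nest.ord a fun i j hij => by linarith, Add.ord b fun i j hij => by linarith⟩

/-- **The families `Add` of a class** at shifted rational windows, relative to `Q₀`. -/
theorem add_relS {ι : Type} [Finite ι]
    (hpos : ∀ (τ : ℝ) (J : ℕ) (F : Fam m J) (A : F.Ω → Prop), S.St τ J F A → 0 < Pe F.p A)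
    {Q₀ : Qt m U₀} {Q : ℚ → ℚ → Qt m U} {A B lam : ℝ}
    (h : TwoRelS S f y s (fun _ => Q₀) Q A B lam) {θ₀ : ℚ → ℝ} {θ : ℚ → ℚ → ℝ}
    (hθ : TRelS S f y s (fun _ => Q₀) Q A B lam θ₀ θ) (hB : B + s ≤ 1) (x : ι → ℚ)
    (hxA : ∀ i, A < x i) (hxB : ∀ i, (x i : ℝ) < B) (hxl : ∀ i j, (x j : ℝ) < x i + lam)
    (hη : ∀ i, ∃ η, RNum S f (vg ((x i : ℝ) + s)) η) {κ₀ : ℝ} (hκ : 0 ≤ κ₀)
    (hadd : ∀ i j k, x i ≤ x j → x j ≤ x k →
      |θ (x i) (x k) - θ (x i) (x j) - θ (x j) (x k)| ≤ κ₀)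
    {c₀ : ℝ} (hc₀ : 0 < c₀) {e : ℝ} (he : 0 < e) :
    ∃ k : ℝ, 0 < k ∧ ∃ e₀ : ℝ, 0 < e₀ ∧ ∀ K : ℕ, Bas S (fun J F A' =>
      ∀ (Z : Type) (z : ι → F.Ω → Z), (∀ i, Mx f (vg ((x i : ℝ) + s)) k F A' (z i)) →
      ∀ u₀, Q₀.P K e₀ J F A' u₀ →
      ∀ u : ι → ι → F.Ω → U, (∀ i j, x i ≤ x j → (Q (x i) (x j)).P K e₀ J F A' (u i j)) →
      ∀ B' : F.Ω → Prop, Sub B' A' → c₀ * Pe F.p A' ≤ Pe F.p B' →
      Pool.SAT43.Nest (Pool.Agent.H49.Ent.cond F.p B' True) (fun i => (x i : ℝ)) z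
        (fun ω => (u₀ ω, y J F ω)) (e * J) ∧
      Pool.SAT43.Add (Pool.Agent.H49.Ent.cond F.p B' True) (fun i => (x i : ℝ)) z
        (fun ω => (u₀ ω, y J F ω)) u
        (fun i j => θ (x i) (x j) * J) ((κ₀ + e) * J) (e * J)) := by
  have hx : ∀ {i j : ι}, (x i : ℝ) + s ≤ (x j : ℝ) + s → x i ≤ x j := fun {i j} h => by
    have h1 : (x i : ℝ) ≤ x j := by linarith
    exact_mod_cast h1
  obtain ⟨k, hk, e₀, he₀, H⟩ := add_finr hpos (f := f) (y := y) (fun i => (x i : ℝ) + s)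
    (fun i => by linarith [hxB i]) (Q₀ := Q₀) (Q := fun i j => Q (x i) (x j))
    (θ := fun i j => θ (x i) (x j))
    (fun i j k h1 h2 => h.row _ _ _ (hxA i) (hx h1) (hx h2) (hxB k) (hxl i k))
    (fun i j k h1 h2 => h.chg _ _ _ (hxA i) (hx h1) (hx h2) (hxB k) (hxl i k))
    (fun i j h1 => h.own _ _ (hxA i) (hx h1) (hxB j) (hxl i j))
    (fun i j h1 => RN.of hpos (hθ.n₀ _ (hxA i) (hxB i))
      (hθ.n _ _ (hxA i) (hx h1) (hxB j) (hxl i j))) hη hκ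
    (fun i j k h1 h2 => hadd i j k (hx h1) (hx h2)) hc₀ he
  refine ⟨k, hk, e₀, he₀, fun K => Bas.mono 0 (H K) ?_⟩
  intro J _ F A' H Z z hz u₀ hu₀ u hu B' hB hBA
  obtain ⟨a, b⟩ := H Z z hz u₀ hu₀ u (fun i j hij => hu i j (hx hij)) B' hB hBA
  exact ⟨Nest.ord a fun i j hij => by linarith, Add.ord b fun i j hij => by linarith⟩

end Pool.OWN83
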