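import Mathlib

/-!
# The positions in the box of a point

`p` has the slope `S > 1` at the point `γ`. `v j` (`j ≤ n`) are the balls which know the position to
the places of the blocks, `k j` the balls which know the velocity to the same places.
-/

set_option autoImplicit false

namespace Pool.OWN83

/-- The places, relative to `γ`. -/
noncomputable def pT (L κ : ℝ) (n j : ℕ) : ℝ := L * (1 + κ * (j / n))

/-- **Positions in a box.** -/
structure BoxP (p : ℚ → ℝ) (γ P S r ε : ℝ) (n : ℕ) (w : ℚ) (v k : ℕ → ℚ) (L κ δ : ℝ) : Prop where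
  hL : L = r * (S - 1) / (4 * S * (1 + κ))
  hκ : κ = 1 / (2 * (S - 1))
  hδ : δ = 4 * S * ε / (S - 1)
  w1 : γ < w
  w2 : (w : ℝ) < γ + ε * r
  v1 : ∀ j, j ≤ n → γ + pT L κ n j < v j
  v2 : ∀ j, j ≤ n → (v j : ℝ) < γ + pT L κ n j + ε * r
  k1 : ∀ j, j ≤ n → γ + S / (S - 1) * pT L κ n j + δ * r < k j
  k2 : ∀ j, j ≤ n → (k j : ℝ) < γ + S / (S - 1) * pT L κ n j + δ * r + ε * r
  pp : ∀ x : ℚ, γ - r ≤ x → (x : ℝ) ≤ γ + r → |p x - P - S * (x - γ)| ≤ ε * r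

theorem box_pos {p : ℚ → ℝ} {γ P S : ℝ} (hder : ∀ ε : ℝ, 0 < ε → ∃ r₀ : ℝ, 0 < r₀ ∧ ∀ w : ℚ,
    |(w : ℝ) - γ| ≤ r₀ → |p w - P - S * (w - γ)| ≤ ε * |(w : ℝ) - γ|)
    {ε : ℝ} (hε : 0 < ε) (n : ℕ) : ∃ r₀ : ℝ, 0 < r₀ ∧ ∀ r : ℝ, 0 < r → r < r₀ →
    ∃ (w : ℚ) (v k : ℕ → ℚ) (L κ δ : ℝ), BoxP p γ P S r ε n w v k L κ δ := by
  obtain ⟨r₀, hr₀, H⟩ := hder ε hε
  refine ⟨r₀, hr₀, fun r hr hrr => ?_⟩
  have her : 0 < ε * r := mul_pos hε hr
  obtain ⟨κ, hκ⟩ : ∃ κ : ℝ, κ = 1 / (2 * (S - 1)) := ⟨_, rfl⟩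
  obtain ⟨L, hL⟩ : ∃ L : ℝ, L = r * (S - 1) / (4 * S * (1 + κ)) := ⟨_, rfl⟩
  obtain ⟨δ, hδ⟩ : ∃ δ : ℝ, δ = 4 * S * ε / (S - 1) := ⟨_, rfl⟩
  have hrat : ∀ x : ℝ, ∃ q : ℚ, x < q ∧ (q : ℝ) < x + ε * r := fun x =>
    exists_rat_btwn (by linarith)
  choose q hq1 hq2 using hrat
  refine ⟨q γ, fun j => q (γ + pT L κ n j), fun j => q (γ + S / (S - 1) * pT L κ n j + δ * r),
    L, κ, δ, hL, hκ, hδ, hq1 _, hq2 _, fun j _ => hq1 _, fun j _ => hq2 _, fun j _ => hq1 _,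
    fun j _ => hq2 _, fun x hx1 hx2 => ?_⟩
  have h1 : |(x : ℝ) - γ| ≤ r := by
    rw [abs_le]
    constructor <;> linarith
  exact (H x (h1.trans hrr.le)).trans (mul_le_mul_of_nonneg_left h1 hε.le)

section

variable {p : ℚ → ℝ} {γ P S r ε : ℝ} {n : ℕ} {w : ℚ} {v k : ℕ → ℚ} {L κ δ : ℝ}

/-- The size of the box. -/
theorem BoxP.sz (h : BoxP p γ P S r ε n w v k L κ δ) (hS : 1 < S) (hr : 0 < r) :
    0 < κ ∧ 0 < L ∧ S / (S - 1) = 1 + 2 * κ ∧ S / (S - 1) * (L * (1 + κ)) = r / 4 ∧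
      κ * (2 * (S - 1)) = 1 := by
  have h1 : 0 < S - 1 := by linarith
  have hκ : 0 < κ := by
    rw [h.hκ]
    positivity
  have hL : 0 < L := by
    rw [h.hL]
    positivity
  refine ⟨hκ, hL, ?_, ?_, ?_⟩
  · rw [h.hκ]
    field_simp
    ring
  · rw [h.hL]
    field_simp
  · rw [h.hκ]
    field_simp

theorem pT_le {L κ : ℝ} (hL : 0 < L) (hκ : 0 < κ) {n j : ℕ} (hj : j ≤ n) :
    L ≤ pT L κ n j ∧ pT L κ n j ≤ L * (1 + κ) := by
  have h1 : (0 : ℝ) ≤ (j : ℝ) / n := by positivity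
  have h2 : (j : ℝ) / n ≤ 1 := by
    rcases Nat.eq_zero_or_pos n with h | h
    · rw [h]
      simp
    · rw [div_le_one (by exact_mod_cast h)]
      exact_mod_cast hj
  unfold pT
  constructor
  · nlinarith [mul_nonneg hL.le (mul_nonneg hκ.le h1)]
  · have := mul_le_mul_of_nonneg_left h2 hκ.le
    have := mul_le_mul_of_nonneg_left this hL.le
    nlinarith

theorem pT_zero (L κ : ℝ) (n : ℕ) : pT L κ n 0 = L := by
  unfold pT
  simp

theorem pT_n (L κ : ℝ) {n : ℕ} (hn : 1 ≤ n) : pT L κ n n = L * (1 + κ) := by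
  unfold pT
  have : (n : ℝ) ≠ 0 := by positivity
  rw [div_self this, mul_one]

theorem pT_sub (L κ : ℝ) {n : ℕ} (hn : 1 ≤ n) (j : ℕ) :
    pT L κ n n - pT L κ n j = L * κ * (1 - j / n) := by
  rw [pT_n L κ hn]
  unfold pT
  ring

/-- **All the positions are in the box.** -/
theorem BoxP.bx (h : BoxP p γ P S r ε n w v k L κ δ) (hS : 1 < S) (hr : 0 < r) (hε : 0 < ε)
    (hε1 : ε + δ ≤ 1 / 4) :
    (γ ≤ w ∧ (w : ℝ) ≤ γ + r) ∧ (∀ j, j ≤ n → γ ≤ v j ∧ (v j : ℝ) ≤ γ + r) ∧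
      ∀ j, j ≤ n → γ ≤ k j ∧ (k j : ℝ) ≤ γ + r := by
  obtain ⟨hκ, hL, h1, h2, h3⟩ := h.sz hS hr
  have hδ0 : 0 < δ := by
    rw [h.hδ]
    have : 0 < S - 1 := by linarith
    positivity
  have e1 : (ε + δ) * r ≤ 1 / 4 * r := mul_le_mul_of_nonneg_right hε1 hr.le
  have e2 : 0 < ε * r := mul_pos hε hr
  have e3 : 0 < δ * r := mul_pos hδ0 hr
  have hL4 : L * (1 + κ) ≤ r / 4 := by
    have h5 : L * (1 + κ) * 1 ≤ L * (1 + κ) * (1 + 2 * κ) :=
      mul_le_mul_of_nonneg_left (by linarith) (by positivity)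
    rw [← h1] at h5
    linarith
  refine ⟨⟨h.w1.le, by linarith [h.w2]⟩, fun j hj => ?_, fun j hj => ?_⟩
  · obtain ⟨a1, a2⟩ := pT_le hL hκ hj
    constructor
    · linarith [h.v1 j hj]
    · linarith [h.v2 j hj]
  · obtain ⟨a1, a2⟩ := pT_le hL hκ hj
    have hs : 0 < S / (S - 1) := div_pos (by linarith) (by linarith)
    have b1 : 0 < S / (S - 1) * pT L κ n j := mul_pos hs (by linarith)
    have b2 : S / (S - 1) * pT L κ n j ≤ S / (S - 1) * (L * (1 + κ)) :=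
      mul_le_mul_of_nonneg_left a2 hs.le
    constructor
    · linarith [h.k1 j hj]
    · linarith [h.k2 j hj]

/-- **The order of the positions.** -/
theorem BoxP.ord (h : BoxP p γ P S r ε n w v k L κ δ) (hS : 1 < S) (hr : 0 < r) (hε : 0 < ε)
    (hn : 1 ≤ n) (hεn : ε * r * n ≤ κ * L) (hεL : ε * r ≤ L) :
    (∀ j, j ≤ n → w ≤ v j) ∧ (∀ j, j ≤ n → v j ≤ v n) ∧ (∀ j, j ≤ n → v n ≤ k j) ∧ k 0 ≤ k n := by
  obtain ⟨hκ, hL, h1, h2, h3⟩ := h.sz hS hr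
  have hδ0 : 0 < δ := by
    rw [h.hδ]
    have : 0 < S - 1 := by linarith
    positivity
  have e2 : 0 < ε * r := mul_pos hε hr
  have e3 : 0 < δ * r := mul_pos hδ0 hr
  have hn0 : (0 : ℝ) < n := by exact_mod_cast hn
  have hn1 : (1 : ℝ) ≤ n := by exact_mod_cast hn
  have e4 : ε * r ≤ κ * L := by nlinarith
  have hs : 0 < S / (S - 1) := div_pos (by linarith) (by linarith)
  refine ⟨fun j hj => ?_, fun j hj => ?_, fun j hj => ?_, ?_⟩
  · obtain ⟨a1, a2⟩ := pT_le hL hκ hj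
    have : (w : ℝ) ≤ v j := by linarith [h.w2, h.v1 j hj]
    exact_mod_cast this
  · rcases Nat.lt_or_ge j n with hj' | hj'
    · have a1 := pT_sub L κ hn j
      have a2 : L * κ * (1 / n) ≤ L * κ * (1 - j / n) := by
        refine mul_le_mul_of_nonneg_left ?_ (by positivity)
        have : (j : ℝ) + 1 ≤ n := by exact_mod_cast hj'
        rw [le_sub_iff_add_le, ← add_div, div_le_one hn0]
        linarith
      have a3 : ε * r ≤ L * κ * (1 / n) := by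
        rw [mul_one_div, le_div_iff₀ hn0]
        linarith
      have : (v j : ℝ) ≤ v n := by linarith [h.v2 j hj, h.v1 n le_rfl]
      exact_mod_cast this
    · have : j = n := by omega
      rw [this]
  · obtain ⟨a1, a2⟩ := pT_le hL hκ hj
    have a3 := (pT_le hL hκ (le_refl n)).2
    have b1 : S / (S - 1) * L ≤ S / (S - 1) * pT L κ n j := mul_le_mul_of_nonneg_left a1 hs.le
    have b2 : S / (S - 1) * L = L + 2 * κ * L := by
      rw [h1]
      ring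
    have : (v n : ℝ) ≤ k j := by linarith [h.v2 n le_rfl, h.k1 j hj]
    exact_mod_cast this
  · have a1 := pT_zero L κ n
    have a2 := pT_n L κ hn
    have b1 : S / (S - 1) * (L * (1 + κ)) = S / (S - 1) * L + S / (S - 1) * (L * κ) := by ring
    have b2 : 1 * (L * κ) ≤ S / (S - 1) * (L * κ) :=
      mul_le_mul_of_nonneg_right (by linarith) (by positivity)
    have c1 := h.k2 0 (Nat.zero_le n)
    have c2 := h.k1 n le_rfl
    rw [a1] at c1
    rw [a2] at c2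
    have : (k 0 : ℝ) ≤ k n := by linarith
    exact_mod_cast this

/-- **The precisions.** -/
theorem BoxP.pr (h : BoxP p γ P S r ε n w v k L κ δ) (hS : 1 < S) (hr : 0 < r) (hε : 0 < ε)
    (hε1 : ε + δ ≤ 1 / 4) :
    (∀ j, j ≤ n → P + S * pT L κ n j - ε * r ≤ p (v j) ∧
      p (v j) ≤ P + S * pT L κ n j + (S + 1) * (ε * r)) ∧
    ∀ j, j ≤ n → p (v j) ≤ p (k j) - k j + w ∧
      p (k j) - k j + w ≤ P + S * pT L κ n j + (6 * S) * (ε * r) := by
  obtain ⟨hb1, hb2, hb3⟩ := h.bx hS hr hε hε1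
  have e2 : 0 < ε * r := mul_pos hε hr
  have hS1 : 0 < S - 1 := by linarith
  have key : ∀ j, j ≤ n → P + S * pT L κ n j - ε * r ≤ p (v j) ∧
      p (v j) ≤ P + S * pT L κ n j + (S + 1) * (ε * r) := by
    intro j hj
    have a1 := abs_le.1 (h.pp (v j) (by linarith [(hb2 j hj).1]) (hb2 j hj).2)
    have b1 := mul_lt_mul_of_pos_left (h.v1 j hj) (show 0 < S by linarith)
    have b2 := mul_lt_mul_of_pos_left (h.v2 j hj) (show 0 < S by linarith)
    constructor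
    · linarith [a1.1]
    · linarith [a1.2]
  refine ⟨key, fun j hj => ?_⟩
  have a1 := abs_le.1 (h.pp (k j) (by linarith [(hb3 j hj).1]) (hb3 j hj).2)
  have a2 := (key j hj).2
  have b1 := mul_lt_mul_of_pos_left (h.k1 j hj) hS1
  have b2 := mul_lt_mul_of_pos_left (h.k2 j hj) hS1
  have c1 : (S - 1) * (γ + S / (S - 1) * pT L κ n j + δ * r) =
      (S - 1) * γ + S * pT L κ n j + 4 * S * (ε * r) := by
    rw [h.hδ]
    field_simp
  have c2 : (S - 1) * (γ + S / (S - 1) * pT L κ n j + δ * r + ε * r) =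
      (S - 1) * γ + S * pT L κ n j + 4 * S * (ε * r) + (S - 1) * (ε * r) := by
    rw [h.hδ]
    field_simp
  rw [c1] at b1
  rw [c2] at b2
  have d1 : 1 * (ε * r) < S * (ε * r) := mul_lt_mul_of_pos_right hS e2
  constructor
  · nlinarith [a1.1, h.w1]
  · nlinarith [a1.2, h.w2]

end

end Pool.OWN83
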