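import Pool.Agent.H83.OWN.Bxp

/-!
# The numbers in the box of a point
-/

set_option autoImplicit false

namespace Pool.OWN83

variable {p : ℚ → ℝ} {γ P S r ε : ℝ} {n : ℕ} {w : ℚ} {v k : ℕ → ℚ} {L κ δ : ℝ}

/-- **The defect of the blocks.** -/
theorem num_def (h : BoxP p γ P S r ε n w v k L κ δ) (hS : 1 < S) (hr : 0 < r) (hε : 0 < ε)
    (hn : 1 ≤ n) (hord : ∀ j, j ≤ n → v j ≤ v n) {J g : ℕ} {bj : ℕ → ℝ}
    (hg : ∀ j, j ≤ n → (1 - (j : ℝ) / n) *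
      (S * (κ * L) * J - (S + 2) * (ε * r) * J - 1) ≤ (g : ℝ) - bj j)
    {a b fJ fD τ : ℝ} {j : ℕ} (hj : j ≤ n) (hτ0 : 0 ≤ 1 - τ) (hτ1 : 1 - τ ≤ 1)
    (hf : fJ - fD ≤ (1 - τ) * (S * Real.log 2))
    (ha : |a - fJ * (v n - v j)| ≤ ε * r) (hb : |b - fD * (v n - v j)| ≤ ε * r) :
    a * J - b * J ≤ (1 - τ) * (((g : ℝ) - bj j) * Real.log 2) +
      ((2 * S + 4) * (ε * r) * J + 1) := by
  obtain ⟨hκ, hL, -, -, -⟩ := h.sz hS hr
  have hn0 : (0 : ℝ) < n := by exact_mod_cast hn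
  have hJ0 : (0 : ℝ) ≤ J := Nat.cast_nonneg J
  obtain ⟨e, he⟩ : ∃ e : ℝ, e = ε * r := ⟨_, rfl⟩
  have he0 : 0 < e := by rw [he]; exact mul_pos hε hr
  rw [← he] at ha hb ⊢
  have hg' := hg j hj
  rw [← he] at hg'
  have l0 : 0 < Real.log 2 := Real.log_pos one_lt_two
  have l1 : Real.log 2 ≤ 1 := by
    have := Real.log_two_lt_d9
    linarith
  have a1 := abs_le.1 ha
  have b1 := abs_le.1 hb
  have v1 := h.v2 n le_rfl
  have v2 := h.v1 j hj
  rw [← he] at v1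
  have v3 := pT_sub L κ hn j
  have v4 : (v j : ℝ) ≤ v n := by exact_mod_cast hord j hj
  obtain ⟨d, hd⟩ : ∃ d : ℝ, d = v n - v j := ⟨_, rfl⟩
  rw [← hd] at a1 b1
  have hd0 : 0 ≤ d := by rw [hd]; linarith
  obtain ⟨t, ht⟩ : ∃ t : ℝ, t = 1 - (j : ℝ) / n := ⟨_, rfl⟩
  have ht0 : 0 ≤ t := by
    have : (j : ℝ) / n ≤ 1 := by
      rw [div_le_one hn0]
      exact_mod_cast hj
    rw [ht]
    linarith
  have ht1 : t ≤ 1 := by
    have : (0 : ℝ) ≤ (j : ℝ) / n := by positivity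
    rw [ht]
    linarith
  rw [← ht] at v3 hg'
  have hd1 : d ≤ L * κ * t + e := by rw [hd]; linarith
  have q1 : S * d * J ≤ S * (L * κ * t + e) * J :=
    mul_le_mul_of_nonneg_right (mul_le_mul_of_nonneg_left hd1 (by linarith)) hJ0
  have q2 : t * ((S + 2) * e * J + 1) ≤ 1 * ((S + 2) * e * J + 1) :=
    mul_le_mul_of_nonneg_right ht1 (by positivity)
  have q3 : t * (S * (κ * L) * J - (S + 2) * e * J - 1) = S * (L * κ * t) * J -
      t * ((S + 2) * e * J + 1) := by ring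
  rw [q3] at hg'
  have q4 : S * d * J ≤ ((g : ℝ) - bj j) + ((2 * S + 2) * e * J + 1) := by
    have : S * (L * κ * t + e) * J = S * (L * κ * t) * J + S * e * J := by ring
    linarith
  have q5 : (fJ - fD) * d ≤ (1 - τ) * (S * Real.log 2) * d := mul_le_mul_of_nonneg_right hf hd0
  have q6 : a - b ≤ (1 - τ) * (S * Real.log 2) * d + 2 * e := by linarith [a1.2, b1.1]
  have q7 := mul_le_mul_of_nonneg_right q6 hJ0
  have q8 := mul_le_mul_of_nonneg_left q4 (mul_nonneg hτ0 l0.le)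
  have q9 : (1 - τ) * Real.log 2 ≤ 1 := by
    have := mul_le_mul hτ1 l1 l0.le zero_le_one
    linarith
  have q10 : (1 - τ) * Real.log 2 * ((2 * S + 2) * e * J + 1) ≤
      1 * ((2 * S + 2) * e * J + 1) := mul_le_mul_of_nonneg_right q9 (by positivity)
  linarith

/-- **The two stretches of the velocity.** -/
theorem num_num (h : BoxP p γ P S r ε n w v k L κ δ) (hS : 1 < S) (hr : 0 < r) (hε : 0 < ε)
    (hn : 1 ≤ n) {J : ℕ} {a b fD ρ : ℝ} (hfD : 0 ≤ fD) (hρ : ρ = 2 * (S - 1) / S)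
    (ha : |a - fD * (k 0 - v 0)| ≤ ε * r) (hb : |b - fD * (k n - k 0)| ≤ ε * r) :
    a * J ≤ ρ * (b * J) + (fD * (4 * S / (S - 1) + 3) + 3) * (ε * r) * J := by
  obtain ⟨hκ, hL, hs, -, hκ2⟩ := h.sz hS hr
  have hJ0 : (0 : ℝ) ≤ J := Nat.cast_nonneg J
  have hS1 : 0 < S - 1 := by linarith
  have hS0 : 0 < S := by linarith
  have hρ0 : 0 ≤ ρ := by rw [hρ]; positivity
  have hρ2 : ρ ≤ 2 := by
    rw [hρ, div_le_iff₀ hS0]
    linarith
  have hρs : ρ * (S / (S - 1)) = 2 := by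
    rw [hρ]
    field_simp
  obtain ⟨e, he⟩ : ∃ e : ℝ, e = ε * r := ⟨_, rfl⟩
  have he0 : 0 < e := by rw [he]; exact mul_pos hε hr
  have hδr : δ * r = 4 * S / (S - 1) * e := by
    rw [h.hδ, he]
    ring
  have c1 := h.k2 0 (Nat.zero_le n)
  have c2 := h.k1 n le_rfl
  have c3 := h.k1 0 (Nat.zero_le n)
  have c4 := h.v1 0 (Nat.zero_le n)
  rw [pT_zero] at c1 c3 c4
  rw [pT_n L κ hn] at c2
  rw [hδr] at c1 c2 c3
  rw [← he] at c1 ha hb ⊢
  have a1 := (abs_le.1 ha).2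
  have b1 := (abs_le.1 hb).1
  obtain ⟨s, hs'⟩ : ∃ s : ℝ, s = S / (S - 1) := ⟨_, rfl⟩
  rw [← hs'] at c1 c2 c3 hs hρs
  have d1 : (k 0 : ℝ) - v 0 ≤ 2 * κ * L + (4 * S / (S - 1) * e + e) := by
    rw [hs] at c1
    linarith
  have d2 : s * (κ * L) - e ≤ (k n : ℝ) - k 0 := by
    have : s * (L * (1 + κ)) = s * L + s * (κ * L) := by ring
    linarith
  have d3 := mul_le_mul_of_nonneg_left d1 hfD
  have d4 := mul_le_mul_of_nonneg_left d2 hfD
  have d5 : ρ * (fD * (s * (κ * L) - e) - e) ≤ ρ * b :=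
    mul_le_mul_of_nonneg_left (by linarith) hρ0
  have d6 : ρ * (fD * (s * (κ * L) - e) - e) = fD * (2 * κ * L) - ρ * (fD * e) - ρ * e := by
    linear_combination (fD * (κ * L)) * hρs
  have d7 : ρ * (fD * e) ≤ 2 * (fD * e) := mul_le_mul_of_nonneg_right hρ2 (by positivity)
  have d8 : ρ * e ≤ 2 * e := mul_le_mul_of_nonneg_right hρ2 he0.le
  have d9 : a ≤ ρ * b + (fD * (4 * S / (S - 1) + 3) + 3) * e := by
    have : (fD * (4 * S / (S - 1) + 3) + 3) * e = fD * (4 * S / (S - 1) * e + e) +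
        2 * (fD * e) + 3 * e := by ring
    linarith
  have := mul_le_mul_of_nonneg_right d9 hJ0
  linarith

/-- **The near digits of the position.** -/
theorem num_gX (h : BoxP p γ P S r ε n w v k L κ δ) (hS : 1 < S) (hr : 0 < r) (hε : 0 < ε)
    (hn : 1 ≤ n) (hord : ∀ j, j ≤ n → v j ≤ v n) {J g : ℕ}
    (hg : (g : ℝ) ≤ S * (κ * L) * J + (S + 2) * (ε * r) * J + 1) {a fX : ℝ}
    (hfX : S * Real.log 2 ≤ fX) (ha : |a - fX * (v n - v 0)| ≤ ε * r) :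
    g * Real.log 2 - ((2 * S + 3) * (ε * r) * J + 1) ≤ a * J := by
  obtain ⟨hκ, hL, -, -, -⟩ := h.sz hS hr
  have hJ0 : (0 : ℝ) ≤ J := Nat.cast_nonneg J
  obtain ⟨e, he⟩ : ∃ e : ℝ, e = ε * r := ⟨_, rfl⟩
  have he0 : 0 < e := by rw [he]; exact mul_pos hε hr
  have l0 : 0 < Real.log 2 := Real.log_pos one_lt_two
  have l1 : Real.log 2 ≤ 1 := by
    have := Real.log_two_lt_d9
    linarith
  have v1 := h.v1 n le_rfl
  have v2 := h.v2 0 (Nat.zero_le n)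
  have v3 : (v 0 : ℝ) ≤ v n := by exact_mod_cast hord 0 (Nat.zero_le n)
  rw [pT_n L κ hn] at v1
  rw [pT_zero] at v2
  rw [← he] at v2 ha hg ⊢
  have a1 := (abs_le.1 ha).1
  have d1 : κ * L - e ≤ (v n : ℝ) - v 0 := by linarith
  have d2 : S * Real.log 2 * ((v n : ℝ) - v 0) ≤ fX * ((v n : ℝ) - v 0) :=
    mul_le_mul_of_nonneg_right hfX (by linarith)
  have d3 : S * Real.log 2 * (κ * L - e) ≤ S * Real.log 2 * ((v n : ℝ) - v 0) :=
    mul_le_mul_of_nonneg_left d1 (by positivity)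
  have d4 : S * Real.log 2 * (κ * L - e) - e ≤ a := by linarith
  have d5 := mul_le_mul_of_nonneg_right d4 hJ0
  have d6 := mul_le_mul_of_nonneg_right hg l0.le
  have d7 : Real.log 2 * ((2 * S + 2) * e * J + 1) ≤ 1 * ((2 * S + 2) * e * J + 1) :=
    mul_le_mul_of_nonneg_right l1 (by positivity)
  linarith

end Pool.OWN83
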