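import Pool.Agent.H83.OWN.Stg
import Pool.Agent.H43.OWN.DeadA

/-!
# The inputs of the theorem on one rough coordinate, for one family

`Ix n`: the ball at the base and `2 (n + 1)` further balls. `Scl`: the scales. `StD.inp`: the inputs
`Inp` of helper43 for one law, from the data `StD`, the scales and the additive families.
-/

set_option autoImplicit false

namespace Pool.OWN83

open Finset Real MvPolynomial
open Pool.Agent.H49.Ent Pool.Agent.H32.Dense Pool.STK Pool.KA Pool.KSAT Pool.K2S Pool.PB Pool.GEN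
open Pool.S6C Pool.RCD Pool.LA91
open Pool.PB.Trl (rt rt_mem t_rt)
open Pool.SAT43 (Nest Add Inp DIn)

/-! ### Balls -/

/-- The index set. -/
abbrev Ix (n : ℕ) : Type := Option (Bool × Fin (n + 1))

/-- The ball of the position of the block `j`. -/
def iv (n j : ℕ) : Ix n := some (false, ⟨min j n, by omega⟩)

/-- The ball of the velocity of the block `j`. -/
def ik (n j : ℕ) : Ix n := some (true, ⟨min j n, by omega⟩)

/-- The positions. -/
def xx {n : ℕ} (w : ℚ) (v k : ℕ → ℚ) : Ix n → ℚ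
  | none => w
  | some (false, j) => v j
  | some (true, j) => k j

theorem xx_iv {n : ℕ} (w : ℚ) (v k : ℕ → ℚ) {j : ℕ} (hj : j ≤ n) : xx w v k (iv n j) = v j := by
  unfold iv xx
  simp only [min_eq_left hj]

theorem xx_ik {n : ℕ} (w : ℚ) (v k : ℕ → ℚ) {j : ℕ} (hj : j ≤ n) : xx w v k (ik n j) = k j := by
  unfold ik xx
  simp only [min_eq_left hj]

/-! ### Monotonicity -/

theorem nest_le {Ω ι Z Y : Type} [Fintype Ω] {p : Ω → ℝ} {x : ι → ℝ} {z : ι → Ω → Z} {y : Ω → Y}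
    {e e' : ℝ} (h : Nest p x z y e) (he : e ≤ e') : Nest p x z y e' :=
  fun i j hij => (h i j hij).trans he

theorem add_le {Ω ι Z Y U : Type} [Fintype Ω] {p : Ω → ℝ} {x : ι → ℝ} {z : ι → Ω → Z}
    {y : Ω → Y} {u : ι → ι → Ω → U} {f : ι → ι → ℝ} {κ κ' e e' : ℝ} (h : Add p x z y u f κ e)
    (hκ : κ ≤ κ') (he : e ≤ e') : Add p x z y u f κ' e' :=
  ⟨fun i j k h1 h2 => (h.add i j k h1 h2).trans hκ, fun i j h1 => (h.c1 i j h1).trans he,
    fun i j k h1 h2 => (h.c2 i j k h1 h2).trans he, fun i j k h1 h2 => (h.c3 i j k h1 h2).trans he,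
    fun i k h1 => by linarith [h.lo i k h1], fun i k h1 => by linarith [h.hi i k h1]⟩

/-! ### Integers -/

theorem An_div {Ω : Type} (q g : ℕ) (R : Ω → Polynomial ℝ) (ω : Ω) : An q g R ω / 2 ^ g = 0 := by
  unfold An
  exact Int.ediv_eq_zero_of_lt (ndg_nonneg _ _ _) (ndg_lt _ _ _)

theorem Nn_div {Ω : Type} (q g : ℕ) (R : Ω → Polynomial ℝ) (ω : Ω) : Nn q g R ω / 2 ^ g = 0 := by
  unfold Nn
  exact Int.ediv_eq_zero_of_lt (ndg_nonneg _ _ _) (ndg_lt _ _ _)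

theorem An_abs {Ω : Type} (q g : ℕ) (R : Ω → Polynomial ℝ) (ω : Ω) :
    |An q g R ω| ≤ ((1 * 2 ^ g : ℕ) : ℤ) := by
  unfold An
  rw [abs_of_nonneg (ndg_nonneg _ _ _)]
  push_cast
  rw [one_mul]
  exact (ndg_lt _ _ _).le

/-- Three functions of a condition. -/
theorem inp_aux {Ω A B C D E : Type} [Fintype Ω] {p : Ω → ℝ} (hp : ∀ ω, 0 ≤ p ω) (X : Ω → A)
    (X' : Ω → B) (Z : Ω → C) (Y : Ω → D) (W : Ω → E) {a b : ℝ} (h1 : CH p X W ≤ a)
    (h2 : CH p X' W ≤ b) (h3 : Det p W Z) :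
    CH p (fun ω => (X ω, (X' ω, Z ω))) (fun ω => (Y ω, W ω)) ≤ a + b := by
  have s1 := CH_subadd hp X (fun ω => (X' ω, Z ω)) (fun ω => (Y ω, W ω))
  have s2 := CH_subadd hp X' Z (fun ω => (Y ω, W ω))
  have s3 : CH p Z (fun ω => (Y ω, W ω)) = 0 := CH_eq_zero hp fun ω ω' hω hω' hh =>
    h3 ω ω' hω hω' (Prod.ext_iff.mp hh).2
  have s4 : CH p X (fun ω => (Y ω, W ω)) ≤ CH p X W :=
    CH_mono_cond hp fun ω ω' _ _ hh => (Prod.ext_iff.mp hh).2
  have s5 : CH p X' (fun ω => (Y ω, W ω)) ≤ CH p X' W :=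
    CH_mono_cond hp fun ω ω' _ _ hh => (Prod.ext_iff.mp hh).2
  linarith

/-! ### Scales -/

/-- **The scales.** -/
structure Scl (J w g b n q Q K : ℕ) (sv sd sj : ℕ → ℝ) (a : ℝ) : Prop where
  a1 : 1 ≤ a
  svp : ∀ j, 0 < sv j
  sdp : ∀ j, 0 < sd j
  sjp : ∀ j, 0 < sj j
  v0 : 2 ^ q ≤ 2 * sv 0
  vn : 2 ^ (q + g) ≤ 2 * sv n
  vn' : sv n ≤ 2 * 2 ^ (q + g)
  d0 : 2 ^ q ≤ 2 * (sd 0 * 2 ^ w)
  vj : ∀ j, j ≤ n → sv j ≤ a * 2 ^ (q + b * j)
  dj : ∀ j, j ≤ n → sd j * 2 ^ w ≤ a * 2 ^ (q + b * j)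
  gb : g / b = n
  s2 : sj 2 * (2 ^ w) ^ 2 ≤ a * 2 ^ Q

/-- The constant. -/
noncomputable def cE (m K : ℕ) : ℝ :=
  m * Real.log (2 * 4 + 1) + (K + 4) * Real.log (2 * (2 * ((K + 1 : ℕ) + 1) + 1) + 1) +
    Real.log (2 * 3 + 1) + Real.log (2 * ((K + 1 : ℕ) + 2) + 3) +
    Real.log (2 * ((K + 1 : ℕ) * (K + 1 : ℕ) + 1) + 3) +
    Real.log (2 * (((K + 1 : ℕ) + 1) * ((K + 1) ^ 2 : ℕ)) + 3) + Real.log 3

section

variable {m J : ℕ} {V 𝒵 𝒴 : Type} {F : Fam m J} {r : F.Ω → ℝ} {I : Finset (Fin m)} {k : Fin m}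
  {w g q Q nx l K : ℕ} {z' : LnT F → V} {G : V → MvPolynomial (Option (Fin m)) ℝ}
  {zo : F.Ω → 𝒵} {Y : F.Ω → 𝒴} {sj : ℕ → ℝ} {e : ℝ}

/-- The near digits from the position. -/
theorem StD.LX1 (h : StD F r I k w g q Q nx l K z' G zo Y sj e) {s : ℝ}
    (hs : 2 ^ (q + g) ≤ 2 * s) :
    CH r (Xn (K + 1) q g Q (Ro F k w z' G) (rt F w))
      (fun ω => (⌊s * ojet F k 0 (G (z' (slam F w ω))) ω⌋, ((tc F w g ω : ℤ),
        Wc (K + 1) q Q (Ro F k w z' G) (Mo F I w g nx l z' zo) ω))) ≤ Real.log (2 * 3 + 1) := by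
  have a2 := h.pda.f2 h.law hs
  have h3 : (fun ω => ⌊s * ojet F k 0 (G (z' (slam F w ω))) ω⌋) =
      fun ω => ⌊s * (Ro F k w z' G ω).eval (rt F w ω)⌋ := by
    funext ω
    have := ojet_fl F h.wJ k z' G 0 s ω
    rw [pow_zero, mul_one] at this
    exact this
  have h4 : (fun ω => (⌊s * ojet F k 0 (G (z' (slam F w ω))) ω⌋, ((tc F w g ω : ℤ),
      Wc (K + 1) q Q (Ro F k w z' G) (Mo F I w g nx l z' zo) ω))) =
      fun ω => (⌊s * (Ro F k w z' G ω).eval (rt F w ω)⌋, ((tc F w g ω : ℤ),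
      Wc (K + 1) q Q (Ro F k w z' G) (Mo F I w g nx l z' zo) ω)) := by
    funext ω
    exact Prod.ext (congrFun h3 ω) rfl
  rw [h4]
  exact a2

/-- **The second jet** from the context. -/
theorem StD.j2 (h : StD F r I k w g q Q nx l K z' G zo Y sj e) {s a : ℝ} (hs0 : 0 < s)
    (ha : 1 ≤ a) (hs : s * (2 ^ w) ^ 2 ≤ a * 2 ^ Q) :
    CH r (fun ω => ⌊s * ojet F k 2 (G (z' (slam F w ω))) ω⌋)
      (fun ω => ((tc F w g ω : ℤ),
        Wc (K + 1) q Q (Ro F k w z' G) (Mo F I w g nx l z' zo) ω)) ≤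
      Real.log a + Real.log (2 * (((K + 1 : ℕ) + 1) * ((K + 1) ^ 2 : ℕ)) + 3) := by
  have a2 := h.pda.f8 h.law (i := 2) le_rfl
    (mul_pos hs0 (by positivity : (0 : ℝ) < (2 ^ w) ^ 2)) ha hs
  have h3 : (fun ω => ⌊s * ojet F k 2 (G (z' (slam F w ω))) ω⌋) =
      fun ω => ⌊s * (2 ^ w) ^ 2 *
        (Polynomial.derivative^[2] (Ro F k w z' G ω)).eval (rt F w ω)⌋ := by
    funext ω
    exact ojet_fl F h.wJ k z' G 2 s ω
  rw [h3]
  refine le_trans (CH_mono_cond h.law.nonneg fun ω ω' _ _ hh => ?_) a2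
  simp only [Wc, Prod.mk.injEq] at hh ⊢
  tauto

/-- **The side information**, from the context. -/
theorem StD.fyu {𝒰 𝒴' : Type} {u₀ : F.Ω → 𝒰} {y : F.Ω → 𝒴'}
    (h : StD F r I k w g q Q nx l K z' G zo (fun ω => (u₀ ω, y ω)) sj e)
    (hy : ∃ ψ : ℕ × (Fin m → ℤ) × (Fin m → ℤ) → 𝒴', ∀ ω, y ω = ψ (F.T ω,
      (fun i => if i ∈ I then F.X nx ω i else 0), (fun i => if i ∈ I then F.D l ω i else 0)))
    {s a : ℝ} (hs0 : 0 < s) (ha : 1 ≤ a) (hs : s * (2 ^ w) ^ 2 ≤ a * 2 ^ Q)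
    (hu : CH r u₀ (fun ω => (⌊s * ojet F k 2 (G (z' (slam F w ω))) ω⌋, (zo ω, y ω))) ≤ e) :
    CH r (fun ω => (u₀ ω, y ω)) (fun ω => ((tc F w g ω : ℤ),
        Wc (K + 1) q Q (Ro F k w z' G) (Mo F I w g nx l z' zo) ω)) ≤
      m * Real.log (2 * 4 + 1) + (Real.log a +
        Real.log (2 * (((K + 1 : ℕ) + 1) * ((K + 1) ^ 2 : ℕ)) + 3)) + e := by
  have h0 := h.law.nonneg
  have a1 := h.fy y hy
  have a2 := h.j2 hs0 ha hs
  obtain ⟨C, hC⟩ : ∃ C : F.Ω → ℤ × (𝒵 × V × (Fin m → ℤ) × (Fin m → ℤ) × ℕ × ℕ) × (ℤ × ℤ) ×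
      (Fin (K + 1 + 1) → ℤ), C = fun ω => ((tc F w g ω : ℤ),
        Wc (K + 1) q Q (Ro F k w z' G) (Mo F I w g nx l z' zo) ω) := ⟨_, rfl⟩
  rw [← hC] at a2 ⊢
  obtain ⟨j, hj⟩ : ∃ j : F.Ω → ℤ, j = fun ω => ⌊s * ojet F k 2 (G (z' (slam F w ω))) ω⌋ :=
    ⟨_, rfl⟩
  rw [← hj] at a2
  have a3 : CH r y C ≤ m * Real.log (2 * 4 + 1) := by
    refine le_trans (CH_mono_cond h0 fun ω ω' _ _ hh => ?_) a1
    rw [hC] at hh
    simp only [Wc, Prod.mk.injEq] at hh ⊢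
    tauto
  have a4 := CH_chain h0 u₀ y C
  have a6 := CH_le_add h0 u₀ j (fun ω => (y ω, C ω))
  have a7 : CH r j (fun ω => (y ω, C ω)) ≤ CH r j C :=
    CH_mono_cond h0 fun ω ω' _ _ hh => (Prod.ext_iff.mp hh).2
  have a8 : CH r u₀ (fun ω => (j ω, (y ω, C ω))) ≤ e := by
    refine le_trans (CH_mono_cond h0 fun ω ω' _ _ hh => ?_) hu
    rw [hj, hC] at hh
    simp only [Wc, Mo, Prod.mk.injEq] at hh ⊢
    tauto
  linarith

theorem cE_parts (m K : ℕ) : 0 ≤ m * Real.log (2 * 4 + 1) ∧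
    0 ≤ (K + 4 : ℝ) * Real.log (2 * (2 * ((K + 1 : ℕ) + 1) + 1) + 1) ∧
    0 ≤ Real.log (2 * 3 + 1) ∧ 0 ≤ Real.log (2 * (((K + 1 : ℕ) : ℝ) + 2) + 3) ∧
    0 ≤ Real.log (2 * (((K + 1 : ℕ) : ℝ) * (K + 1 : ℕ) + 1) + 3) ∧
    0 ≤ Real.log (2 * ((((K + 1 : ℕ) : ℝ) + 1) * ((K + 1) ^ 2 : ℕ)) + 3) ∧
    0 ≤ Real.log 3 := by
  have hK : (0 : ℝ) ≤ ((K + 1 : ℕ) : ℝ) := Nat.cast_nonneg _
  have hK2 : (0 : ℝ) ≤ (((K + 1) ^ 2 : ℕ) : ℝ) := Nat.cast_nonneg _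
  refine ⟨?_, ?_, ?_, ?_, ?_, ?_, ?_⟩
  · exact mul_nonneg (Nat.cast_nonneg _) (Real.log_nonneg (by norm_num))
  · exact mul_nonneg (by positivity) (Real.log_nonneg (by linarith))
  · exact Real.log_nonneg (by norm_num)
  · exact Real.log_nonneg (by linarith)
  · exact Real.log_nonneg (by nlinarith)
  · exact Real.log_nonneg (by nlinarith)
  · exact Real.log_nonneg (by norm_num)

/-- **The inputs for one law.** -/
theorem StD.inp {n b : ℕ} {𝒰 𝒴' : Type} {u₀ : F.Ω → 𝒰} {y : F.Ω → 𝒴'} {x : Ix n → ℝ}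
    {z : Ix n → F.Ω → 𝒵}
    (h : StD F r I k w g q Q nx l K z' G (z none) (fun ω => (u₀ ω, y ω)) sj e)
    (hy : ∃ ψ : ℕ × (Fin m → ℤ) × (Fin m → ℤ) → 𝒴', ∀ ω, y ω = ψ (F.T ω,
      (fun i => if i ∈ I then F.X nx ω i else 0), (fun i => if i ∈ I then F.D l ω i else 0)))
    {sv sd : ℕ → ℝ} {a : ℝ} (s : Scl J w g b n q Q K sv sd sj a)
    (hu : CH r u₀ (fun ω => (⌊sj 2 * ojet F k 2 (G (z' (slam F w ω))) ω⌋,
      (z none ω, y ω))) ≤ e)
    {vv dd : Ix n → Ix n → F.Ω → ℤ}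
    (hv : ∀ j, j ≤ n → ∀ ω, vv none (iv n j) ω =
      ⌊sv j * ojet F k 0 (G (z' (slam F w ω))) ω⌋)
    (hd : ∀ j, j ≤ n → ∀ ω, dd none (ik n j) ω =
      ⌊sd j * ojet F k 1 (G (z' (slam F w ω))) ω⌋)
    {gJ gX fD : Ix n → Ix n → ℝ} {κ : ℝ}
    (hN : Nest r x z (fun ω => (u₀ ω, y ω)) e)
    (hJ : Add r x z (fun ω => (u₀ ω, y ω)) (fun i k ω => (vv i k ω, dd i k ω)) gJ κ e)
    (hD : Add r x z (fun ω => (u₀ ω, y ω)) dd fD κ e)
    (hX : Add r x z (fun ω => (u₀ ω, y ω)) vv gX κ e)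
    {E : ℝ} (hE : cE m K + 2 * Real.log a + 4 * e ≤ E) :
    Inp r x z (fun ω => (u₀ ω, y ω)) vv dd none (fun i => iv n (i / b)) (fun i => ik n (i / b)) g b
      (Wc (K + 1) q Q (Ro F k w z' G) (Mo F I w g nx l z' (z none)))
      (An q g (Ro F k w z' G)) (Nn q g (Ro F k w z' G)) (fun ω => (tc F w g ω : ℤ))
      (Xn (K + 1) q g Q (Ro F k w z' G) (rt F w)) (vv none (iv n n)) gJ fD E κ E E := by
  have h0 := h.law.nonneg
  have he0 := h.e0
  obtain ⟨c1, c2, c3, c4, c5, c6, c7⟩ := cE_parts m K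
  have la : 0 ≤ Real.log a := Real.log_nonneg s.a1
  unfold cE at hE
  have heE : e ≤ E := by linarith
  refine ⟨nest_le hN heE, add_le hJ le_rfl heE, add_le hD le_rfl heE, ?_, ?_, ?_, ?_, ?_, ?_⟩
  · intro i j k hij hjk
    exact (hX.c3 i j k hij hjk).trans heE
  · rw [CH_eq_zero h0]
    · linarith
    · intro ω ω' _ _ hh
      have h1 := (Prod.ext_iff.mp hh).1
      simp only [s.gb] at h1
      exact h1
  · have h1 := h.LX1 s.vn
    have h2 : (fun ω => (vv none (iv n n) ω, ((tc F w g ω : ℤ),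
        Wc (K + 1) q Q (Ro F k w z' G) (Mo F I w g nx l z' (z none)) ω))) =
        fun ω => (⌊sv n * ojet F k 0 (G (z' (slam F w ω))) ω⌋, ((tc F w g ω : ℤ),
        Wc (K + 1) q Q (Ro F k w z' G) (Mo F I w g nx l z' (z none)) ω)) := by
      funext ω
      rw [hv n le_rfl ω]
    rw [h2]
    linarith
  · intro i hi hbi
    obtain ⟨j, rfl⟩ := hbi
    rcases Nat.eq_zero_or_pos b with hb | hb
    · have hn : n = 0 := by
        have := s.gb
        rw [hb, Nat.div_zero] at this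
        exact this.symm
      rw [hb] at hi ⊢
      rw [Nat.zero_mul] at hi ⊢
      have h1 := h.Lp hi (s.svp 0) s.a1 (by
        have := s.vj 0 (Nat.zero_le _)
        rwa [Nat.mul_zero] at this)
      have h2 := h.Lv hi (s.sdp 0) s.a1 (by
        have := s.dj 0 (Nat.zero_le _)
        rwa [Nat.mul_zero] at this)
      rw [← funext (hv 0 (Nat.zero_le _))] at h1
      rw [← funext (hd 0 (Nat.zero_le _))] at h2
      rw [Nat.div_zero]
      refine (inp_aux h0 (vv none (iv n 0)) (dd none (ik n 0)) (z none) (fun ω => (u₀ ω, y ω))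
        _ h1 h2 ?_).trans (by linarith)
      intro ω ω' _ _ hh
      simp only [Wc, Mo, Prod.mk.injEq] at hh
      tauto
    · have hj : b * j / b = j := Nat.mul_div_cancel_left j hb
      have hjn : j ≤ n := by
        rw [← s.gb, Nat.le_div_iff_mul_le hb, Nat.mul_comm]
        exact hi
      have h1 := h.Lp hi (s.svp j) s.a1 (s.vj j hjn)
      have h2 := h.Lv hi (s.sdp j) s.a1 (s.dj j hjn)
      rw [← funext (hv j hjn)] at h1
      rw [← funext (hd j hjn)] at h2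
      rw [hj]
      refine (inp_aux h0 (vv none (iv n j)) (dd none (ik n j)) (z none) (fun ω => (u₀ ω, y ω))
        _ h1 h2 ?_).trans (by linarith)
      intro ω ω' _ _ hh
      simp only [Wc, Mo, Prod.mk.injEq] at hh
      tauto
  · have h1 := h.fyu hy (s.sjp 2) s.a1 s.s2 hu
    linarith
  · have := CH_nonneg h0 (fun ω => (u₀ ω, y ω)) (fun ω => ((An q g (Ro F k w z' G) ω,
      Nn q g (Ro F k w z' G) ω), ((tc F w g ω : ℤ),
        Wc (K + 1) q Q (Ro F k w z' G) (Mo F I w g nx l z' (z none)) ω)))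
    linarith

end

/-! ### The theorem of helper43 with the constants in another order -/

open Pool.SAT43 (dead_add logs_small) in
open Pool.OWN68 in
/-- **No defect**, with `η` before the constants `C`, `K`. -/
theorem dead_false' {τ ρ : ℝ} (hτ : 0 < τ) (hρ : 0 ≤ ρ) :
    ∃ η : ℝ, 0 < η ∧ ∀ C K : ℕ, 1 ≤ C → ∃ G₀ : ℕ, ∀ {Ω ι Z Y 𝒱 𝒟 ζ 𝒳 : Type} [Fintype Ω] (p : Ω → ℝ) (x : ι → ℝ)
    (z : ι → Ω → Z) (y : Ω → Y) (vv : ι → ι → Ω → 𝒱) (dd : ι → ι → Ω → 𝒟) (o : ι)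
    (jv jd : ℕ → ι) (g b : ℕ) (W : Ω → ζ) (A N c X : Ω → ℤ) (Xh : Ω → 𝒳) (gJ fD : ι → ι → ℝ)
    (F κ e eT c₀ ec eB : ℝ), G₀ ≤ g → 1 ≤ b → (b : ℝ) ≤ η * g → 0 ≤ c₀ →
    ((g / b : ℕ) + 1) * c₀ ≤ η → κ ≤ η * g → e ≤ η * g → eT ≤ η * g → ec ≤ η * g →
    eB ≤ η * g →
    ¬ DIn p x z y vv dd o jv jd g b W A N c X Xh gJ fD F κ e eT C K τ c₀ ec eB ρ := by
  obtain ⟨t, ht⟩ : ∃ t, t = min 1 τ := ⟨_, rfl⟩
  have t0 : 0 < t := by
    rw [ht]
    exact lt_min one_pos hτ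
  have t1 : t ≤ 1 := by
    rw [ht]
    exact min_le_left _ _
  have t2 : t ≤ τ := by
    rw [ht]
    exact min_le_right _ _
  obtain ⟨η, hη⟩ : ∃ η, η = τ * t / (200 * (1 + ρ)) := ⟨_, rfl⟩
  have η0 : 0 < η := by
    rw [hη]
    positivity
  refine ⟨η, η0, fun C K hC => ?_⟩
  obtain ⟨G₁, hG₁⟩ := logs_small C (Real.log (2 * C + 5) + 2 * Real.log (2 * (K + 1) + 1)) η η0
  obtain ⟨G₂, hG₂⟩ := exists_nat_ge (Real.log (4 * K + 1) / η)
  refine ⟨max 1 (max G₁ G₂), ?_⟩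
  intro Ω ι Z Y 𝒱 𝒟 ζ 𝒳 _ p x z y vv dd o jv jd g b W A N c X Xh gJ fD F κ e eT c₀ ec eB hg hb hbg
    hc₀ hcb hκ he heT hec heB I
  have g1 : 1 ≤ g := (le_max_left _ _).trans hg
  have g2 := hG₁ g (((le_max_left _ _).trans (le_max_right _ _)).trans hg)
  have g3 : Real.log (4 * K + 1) ≤ η * g := by
    have h1 : Real.log (4 * K + 1) / η ≤ (g : ℝ) := hG₂.trans (by
      exact_mod_cast ((le_max_right _ _).trans (le_max_right _ _)).trans hg)
    rw [div_le_iff₀ η0] at h1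
    linarith
  have gp : (0 : ℝ) < g := by exact_mod_cast g1
  obtain ⟨u, hu⟩ : ∃ u, u = η * (g : ℝ) := ⟨_, rfl⟩
  rw [← hu] at hbg hκ he heT hec heB g2 g3
  have u0 : 0 < u := by
    rw [hu]
    positivity
  have l2 : Real.log 2 ≤ 1 := by
    have := Real.log_two_lt_d9
    linarith
  have l2' : (0.69 : ℝ) ≤ Real.log 2 := by
    have := Real.log_two_gt_d9
    linarith
  have b0 : (0 : ℝ) ≤ b := Nat.cast_nonneg b
  have hbl : (b : ℝ) * Real.log 2 ≤ u := by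
    have : (b : ℝ) * Real.log 2 ≤ b * 1 := mul_le_mul_of_nonneg_left l2 b0
    linarith
  have key := dead_add I.hp hC hb I.hA I.hc I.hX hτ hc₀ hρ I.x1 I.x2 I.x3 I.x4 I.hI I.hE I.hdef
    I.hnum I.L0 I.LW I.LA I.LX2 I.hct I.hL (e₁ := 20 * u) (err := 4 * u) (by linarith) (by linarith)
    (by linarith)
  -- the counting term
  have k1 : (((g / b : ℕ) : ℝ) + 1) * (c₀ * (g * Real.log 2)) ≤ u := by
    have h1 : (((g / b : ℕ) : ℝ) + 1) * (c₀ * (g * Real.log 2)) =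
        ((((g / b : ℕ) : ℝ) + 1) * c₀) * (g * Real.log 2) := by ring
    rw [h1]
    have h2 : (0 : ℝ) ≤ g * Real.log 2 := by positivity
    have h3 := mul_le_mul_of_nonneg_right hcb h2
    have h4 : η * (g * Real.log 2) ≤ u := by
      rw [hu]
      have := mul_le_mul_of_nonneg_left l2 (show 0 ≤ η * (g : ℝ) by positivity)
      linarith
    linarith
  have k2 : (20 * u + 4 * u) / τ = 24 * (u / τ) := by ring
  rw [k2] at key
  have k3 : ρ * (((g / b : ℕ) + 1) * (c₀ * (g * Real.log 2)) + 24 * (u / τ) + 4 * u + 7 * e) ≤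
      ρ * (12 * u + 24 * (u / τ)) := mul_le_mul_of_nonneg_left (by linarith) hρ
  have k4 : ρ * (κ + 4 * e) ≤ ρ * (5 * u) := mul_le_mul_of_nonneg_left (by linarith) hρ
  -- everything is small
  have k5 : τ * (g * Real.log 2) ≤ 33 * u + ρ * (17 * u + 24 * (u / τ)) := by
    have : ρ * (17 * u + 24 * (u / τ)) = ρ * (5 * u) + ρ * (12 * u + 24 * (u / τ)) := by ring
    linarith
  have hr : 0 < 1 + ρ := by linarith
  have q1 : (1 + ρ) * u = τ * t / 200 * g := by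
    rw [hu, hη]
    field_simp
  have q2 : τ * t / 200 * g ≤ τ / 200 * g := by
    have : τ * t ≤ τ * 1 := mul_le_mul_of_nonneg_left t1 hτ.le
    have h2 : τ * t / 200 ≤ τ / 200 := by linarith
    exact mul_le_mul_of_nonneg_right h2 gp.le
  have q3 : (1 + ρ) * (u / τ) = t / 200 * g := by
    have : (1 + ρ) * (u / τ) = ((1 + ρ) * u) / τ := by ring
    rw [this, q1]
    field_simp
  have q4 : t / 200 * g ≤ τ / 200 * g := by
    refine mul_le_mul_of_nonneg_right ?_ gp.le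
    linarith
  have r1 : 33 * u + ρ * (17 * u + 24 * (u / τ)) ≤ (1 + ρ) * (33 * u) +
      24 * ((1 + ρ) * (u / τ)) := by
    have s1 : 0 ≤ ρ * u := by positivity
    have s2 : 0 ≤ u / τ := by positivity
    have s3 : (1 + ρ) * (33 * u) + 24 * ((1 + ρ) * (u / τ)) -
        (33 * u + ρ * (17 * u + 24 * (u / τ))) = 16 * (ρ * u) + 24 * (u / τ) := by ring
    linarith
  have r2 : (1 + ρ) * (33 * u) = 33 * ((1 + ρ) * u) := by ring
  have r3 : τ * (g * Real.log 2) ≤ 57 * (τ / 200 * g) := by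
    rw [r2] at r1
    linarith
  have r4 : τ * (g * 0.69) ≤ τ * (g * Real.log 2) :=
    mul_le_mul_of_nonneg_left (mul_le_mul_of_nonneg_left l2' gp.le) hτ.le
  have r5 : 0 < τ * g := by positivity
  linarith

/-- Parts of an event as events of its law. -/
theorem part_of {Ω : Type} [Fintype Ω] {p : Ω → ℝ} {A E : Ω → Prop} (hA : 0 < Pe p A) {c₀ : ℝ}
    (h : c₀ ≤ law (Pool.Agent.H49.Ent.cond p A True) E True) :
    Sub (fun ω => A ω ∧ E ω) A ∧ c₀ * Pe p A ≤ Pe p (fun ω => A ω ∧ E ω) := by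
  refine ⟨fun ω hω => hω.1, ?_⟩
  have h1 : law (Pool.Agent.H49.Ent.cond p A True) E True =
      Pe p (fun ω => A ω ∧ E ω) / Pe p A := Pe_cond E
  rw [h1, le_div_iff₀ hA] at h
  exact h

section

variable {m J : ℕ} {V 𝒵 : Type} {F : Fam m J} {I : Finset (Fin m)} {k : Fin m}
  {w g q Q nx l K : ℕ} {z' : LnT F → V} {G : V → MvPolynomial (Option (Fin m)) ℝ}
  {sj : ℕ → ℝ} {e : ℝ}

/-- The inputs on all large parts of the event. -/
structure Parts {n : ℕ} {𝒰 𝒴' : Type} (F : Fam m J) (A : F.Ω → Prop) (I : Finset (Fin m))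
    (k : Fin m) (w g q Q nx l K : ℕ) (z' : LnT F → V) (G : V → MvPolynomial (Option (Fin m)) ℝ)
    (u₀ : F.Ω → 𝒰) (y : F.Ω → 𝒴') (x : Ix n → ℝ) (z : Ix n → F.Ω → 𝒵) (sj : ℕ → ℝ)
    (vv dd : Ix n → Ix n → F.Ω → ℤ) (gJ gX fD : Ix n → Ix n → ℝ) (κ e : ℝ)
    (r : F.Ω → ℝ) : Prop where
  st : StD F r I k w g q Q nx l K z' G (z none) (fun ω => (u₀ ω, y ω)) sj e
  hu : CH r u₀ (fun ω => (⌊sj 2 * ojet F k 2 (G (z' (slam F w ω))) ω⌋, (z none ω, y ω))) ≤ e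
  hN : Nest r x z (fun ω => (u₀ ω, y ω)) e
  hJ : Add r x z (fun ω => (u₀ ω, y ω)) (fun i k ω => (vv i k ω, dd i k ω)) gJ κ e
  hD : Add r x z (fun ω => (u₀ ω, y ω)) dd fD κ e
  hX : Add r x z (fun ω => (u₀ ω, y ω)) vv gX κ e

/-- **All the inputs** of the theorem on one rough coordinate. -/
theorem din {n b : ℕ} {𝒰 𝒴' : Type} {A : F.Ω → Prop} (hA : 0 < Pe F.p A)
    {u₀ : F.Ω → 𝒰} {y : F.Ω → 𝒴'} {x : Ix n → ℝ} {z : Ix n → F.Ω → 𝒵}
    (hy : ∃ ψ : ℕ × (Fin m → ℤ) × (Fin m → ℤ) → 𝒴', ∀ ω, y ω = ψ (F.T ω,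
      (fun i => if i ∈ I then F.X nx ω i else 0), (fun i => if i ∈ I then F.D l ω i else 0)))
    {sv sd : ℕ → ℝ} {a : ℝ} (s : Scl J w g b n q Q K sv sd sj a)
    {vv dd : Ix n → Ix n → F.Ω → ℤ}
    (hv : ∀ j, j ≤ n → ∀ ω, vv none (iv n j) ω =
      ⌊sv j * ojet F k 0 (G (z' (slam F w ω))) ω⌋)
    (hd : ∀ j, j ≤ n → ∀ ω, dd none (ik n j) ω =
      ⌊sd j * ojet F k 1 (G (z' (slam F w ω))) ω⌋)
    {gJ gX fD : Ix n → Ix n → ℝ} {κ : ℝ} {c₀ : ℝ} (hc1 : c₀ ≤ 1)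
    (hP : ∀ B : F.Ω → Prop, Sub B A → c₀ * Pe F.p A ≤ Pe F.p B →
      Parts F A I k w g q Q nx l K z' G u₀ y x z sj vv dd gJ gX fD κ e
        (Pool.Agent.H49.Ent.cond F.p B True))
    (hzo : ∃ ζ : LnT F → 𝒵, ∀ ω, A ω → z none ω = ζ (slam F w ω))
    (htm : (J : ℝ) * Real.log 2 - e ≤
      CH (Pool.Agent.H49.Ent.cond F.p A True) F.T (fun ω => (F.l ω, F.Z ω)))
    (o1 : ∀ j, j ≤ n → x none ≤ x (iv n j)) (o2 : ∀ j, j ≤ n → x (iv n j) ≤ x (iv n n))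
    (o3 : ∀ j, j ≤ n → x (iv n n) ≤ x (ik n j)) (o4 : x (ik n 0) ≤ x (ik n n)) {τ ρ : ℝ}
    (hdef : ∀ j, j ≤ n → b * j ≤ g → gJ (iv n j) (iv n n) - fD (iv n j) (iv n n) ≤
      (1 - τ) * (((g : ℝ) - (b * j : ℕ)) * Real.log 2) + κ)
    (hnum : fD (iv n 0) (ik n 0) ≤ ρ * fD (ik n 0) (ik n n) + κ) {E : ℝ}
    (hE : cE m K + 2 * Real.log a + 4 * e ≤ E)
    (hgX : g * Real.log 2 - κ ≤ gX (iv n 0) (iv n n)) (hκ : 3 * κ + 2 * e ≤ E) (hκ0 : 0 ≤ κ) :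
    DIn (Pool.Agent.H49.Ent.cond F.p A True) x z (fun ω => (u₀ ω, y ω)) vv dd none
      (fun i => iv n (i / b)) (fun i => ik n (i / b)) g b
      (Wc (K + 1) q Q (Ro F k w z' G) (Mo F I w g nx l z' (z none)))
      (An q g (Ro F k w z' G)) (Nn q g (Ro F k w z' G)) (fun ω => (tc F w g ω : ℤ))
      (Xn (K + 1) q g Q (Ro F k w z' G) (rt F w)) (vv none (iv n n)) gJ fD E κ E E
      1 (K + 1 + 5) τ c₀ E E ρ := by
  have P := hP A (fun _ h => h) (by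
    have := mul_le_mul_of_nonneg_right hc1 hA.le
    linarith)
  have h0 := P.st.law.nonneg
  have he0 := P.st.e0
  obtain ⟨c1, c2, c3, c4, c5, c6, c7⟩ := cE_parts m K
  have la : 0 ≤ Real.log a := Real.log_nonneg s.a1
  have hE' := hE
  unfold cE at hE'
  have hdiv : ∀ i, i ≤ g → i / b ≤ n := fun i hi => by
    rw [← s.gb]
    exact Nat.div_le_div_right hi
  have hw := P.st.wg
  have z0 : (0 : ℕ) / b = 0 := Nat.zero_div b
  refine ⟨P.st.law, fun ω _ => An_abs q g _ ω, fun ω _ => ?_, fun ω _ => ?_,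
    fun i hi => o1 _ (hdiv i hi), fun i hi => ?_, fun i hi => ?_, ?_,
    P.st.inp hy s P.hu hv hd P.hN P.hJ P.hD P.hX hE, ?_, fun i hi hbi => ?_, ?_, ?_, ?_, ?_, ?_,
    ?_, ?_⟩
  · have h1 := tc_lt F hw ω
    rw [abs_of_nonneg (Int.natCast_nonneg _)]
    have : tc F w g ω ≤ 1 * 2 ^ g := by omega
    exact_mod_cast this
  · have h1 := P.st.pda.hX ω
    exact_mod_cast h1
  · simp only [s.gb]
    exact o2 _ (hdiv i hi)
  · simp only [s.gb]
    exact o3 _ (hdiv i hi)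
  · simp only [s.gb, z0]
    exact o4
  · -- the conditional laws
    intro E' _ _ hE2
    obtain ⟨q1, q2⟩ := part_of hA hE2
    rw [Pool.K2S.Piece.cond_inter hA.ne']
    have P' := hP _ q1 q2
    exact P'.st.inp hy s P'.hu hv hd P'.hN P'.hJ P'.hD P'.hX hE
  · obtain ⟨j, rfl⟩ := hbi
    simp only [s.gb]
    rcases Nat.eq_zero_or_pos b with hb | hb
    · have hn : n = 0 := by
        have := s.gb
        rw [hb, Nat.div_zero] at this
        exact this.symm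
      have h1 := hdef 0 (Nat.zero_le _) (by rw [hb]; omega)
      rw [hb, Nat.zero_mul, Nat.div_zero]
      rw [hb] at h1
      push_cast at h1 ⊢
      simpa using h1
    · have hj : b * j / b = j := Nat.mul_div_cancel_left j hb
      have hjn : j ≤ n := by
        rw [← s.gb, Nat.le_div_iff_mul_le hb, Nat.mul_comm]
        exact hi
      rw [hj]
      exact hdef j hjn hi
  · simp only [s.gb, z0]
    exact hnum
  · -- the context knows the position and the velocity to the places of the ball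
    simp only [z0]
    have e0 : (2 : ℕ) ^ 0 = 1 := rfl
    have h1 := P.st.Lp (Nat.zero_le g) (s.svp 0) s.a1 (by
        have := s.vj 0 (Nat.zero_le _)
        rwa [Nat.mul_zero] at this)
    have h2 := P.st.Lv (Nat.zero_le g) (s.sdp 0) s.a1 (by
        have := s.dj 0 (Nat.zero_le _)
        rwa [Nat.mul_zero] at this)
    rw [← funext (hv 0 (Nat.zero_le _))] at h1
    rw [← funext (hd 0 (Nat.zero_le _))] at h2
    rw [Nat.sub_zero] at h1 h2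
    have h3 : ∀ ω, ((tc F w g ω : ℤ), ((An q g (Ro F k w z' G) ω / 2 ^ g,
        Nn q g (Ro F k w z' G) ω / 2 ^ g),
        Wc (K + 1) q Q (Ro F k w z' G) (Mo F I w g nx l z' (z none)) ω)) =
        ((tc F w g ω : ℤ), (((0 : ℤ), (0 : ℤ)),
        Wc (K + 1) q Q (Ro F k w z' G) (Mo F I w g nx l z' (z none)) ω)) := fun ω => by
      rw [An_div, Nn_div]
    rw [funext h3] at h1 h2
    have h4 : ∀ {X : F.Ω → ℤ} {c : ℝ}, CH (Pool.Agent.H49.Ent.cond F.p A True) X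
        (fun ω => ((tc F w g ω : ℤ), (((0 : ℤ), (0 : ℤ)),
        Wc (K + 1) q Q (Ro F k w z' G) (Mo F I w g nx l z' (z none)) ω))) ≤ c →
        CH (Pool.Agent.H49.Ent.cond F.p A True) X (fun ω => ((tc F w g ω : ℤ),
        Wc (K + 1) q Q (Ro F k w z' G) (Mo F I w g nx l z' (z none)) ω)) ≤ c := by
      intro X c hX
      refine le_trans (CH_mono_cond h0 fun ω ω' _ _ hh => ?_) hX
      simp only [Prod.mk.injEq] at hh ⊢
      tauto
    refine (inp_aux h0 (vv none (iv n 0)) (dd none (ik n 0)) (z none) (fun ω => (u₀ ω, y ω))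
      _ (h4 h1) (h4 h2) ?_).trans (by linarith)
    intro ω ω' _ _ hh
    simp only [Wc, Mo, Prod.mk.injEq] at hh
    tauto
  · -- the context from the position and the velocity
    simp only [z0]
    have h1 := P.st.LW s.v0 s.d0
    simp only [← hv 0 (Nat.zero_le _), ← hd 0 (Nat.zero_le _)] at h1
    exact h1.trans (by linarith)
  · simp only [s.gb, z0]
    have h1 := P.st.LA s.d0 (s.sdp n) s.a1 (by
      have h2 := s.dj n le_rfl
      refine h2.trans (mul_le_mul_of_nonneg_left ?_ (by linarith [s.a1]))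
      refine pow_le_pow_right₀ (by norm_num) ?_
      have h3 := Nat.div_mul_le_self g b
      rw [s.gb, Nat.mul_comm] at h3
      omega)
    simp only [← hd 0 (Nat.zero_le _), ← hd n le_rfl] at h1
    have hL : 0 ≤ Real.log (2 * (2 * (((K + 1 : ℕ) : ℝ) + 1) + 1) + 1) := by
      have hK : (0 : ℝ) ≤ ((K + 1 : ℕ) : ℝ) := Nat.cast_nonneg _
      exact Real.log_nonneg (by linarith)
    exact h1.trans (by linarith)
  · have h1 := P.st.LV (s.svp n) s.vn'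
    rw [← funext (hv n le_rfl)] at h1
    exact h1.trans (by linarith)
  · have h1 := P.st.ct (A := A) (fun ω hω => of_eq_true ((cond_pos_iff F.isLaw.nonneg A True ω).mp
      hω).2) hzo htm
    refine le_trans ?_ h1
    linarith
  · simp only [z0]
    have h1 := P.hX.down h0 P.hN (G := fun _ : F.Ω => ()) (eG := 0) (o1 0 (Nat.zero_le _))
      (o2 0 (Nat.zero_le _)) (le_of_eq (CH_eq_zero h0 fun _ _ _ _ _ => rfl))
    have h2 : CH (Pool.Agent.H49.Ent.cond F.p A True) (vv none (iv n n))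
        (fun ω => (z (iv n 0) ω, ((), (z none ω, (u₀ ω, y ω))))) ≤
        CH (Pool.Agent.H49.Ent.cond F.p A True) (vv none (iv n n))
        (fun ω => (z (iv n 0) ω, (u₀ ω, y ω))) := by
      refine CH_mono_cond h0 fun ω ω' _ _ hh => ?_
      simp only [Prod.mk.injEq] at hh ⊢
      tauto
    linarith

end

end Pool.OWN83
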