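import Mathlib

/-!
# The path known to `q` digits: integers

`R` is a polynomial of degree at most `D` (the own path in the relative time). `cd i x` is the
integer `⌊2 ^ (q + i) x⌋`. `pth` is the value at the time `u` of the path with the coefficients
known to `q + i` digits (orders `0` and `1`) and `Q` digits (higher orders). `dic_X`: the near
digits of the position are `N + A c / 2 ^ g`, up to a constant.
-/

set_option autoImplicit false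

namespace Pool.OWN83

open Finset

/-- The first digits of the digits. -/
theorem fl_split (x : ℝ) (g : ℕ) :
    0 ≤ ⌊(2 : ℝ) ^ g * x⌋ - 2 ^ g * ⌊x⌋ ∧ ⌊(2 : ℝ) ^ g * x⌋ - 2 ^ g * ⌊x⌋ < 2 ^ g := by
  have hp : (0 : ℝ) < 2 ^ g := by positivity
  have h1 := Int.floor_le x
  have h2 := Int.lt_floor_add_one x
  have h3 := Int.floor_le ((2 : ℝ) ^ g * x)
  have h4 := Int.lt_floor_add_one ((2 : ℝ) ^ g * x)
  constructor
  · have : (2 : ℤ) ^ g * ⌊x⌋ ≤ ⌊(2 : ℝ) ^ g * x⌋ := by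
      rw [Int.le_floor]
      push_cast
      exact mul_le_mul_of_nonneg_left h1 hp.le
    linarith
  · have : ⌊(2 : ℝ) ^ g * x⌋ < 2 ^ g * (⌊x⌋ + 1) := by
      rw [Int.floor_lt]
      push_cast
      exact mul_lt_mul_of_pos_left h2 hp
    linarith

/-- The first digits of the near digits. -/
theorem fl_div (x : ℝ) {g i : ℕ} (hi : i ≤ g) :
    (⌊(2 : ℝ) ^ g * x⌋ - 2 ^ g * ⌊x⌋) / 2 ^ (g - i) = ⌊(2 : ℝ) ^ i * x⌋ - 2 ^ i * ⌊x⌋ := by
  have hg : (2 : ℤ) ^ g = 2 ^ (g - i) * 2 ^ i := by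
    rw [← pow_add, Nat.sub_add_cancel hi]
  have hgr : (2 : ℝ) ^ g = 2 ^ (g - i) * 2 ^ i := by
    rw [← pow_add, Nat.sub_add_cancel hi]
  have hpz : (0 : ℤ) < 2 ^ (g - i) := by positivity
  have hp : (0 : ℝ) < 2 ^ (g - i) := by positivity
  have e1 : ⌊(2 : ℝ) ^ g * x⌋ - 2 ^ g * ⌊x⌋ =
      ⌊(2 : ℝ) ^ g * x⌋ - 2 ^ (g - i) * (2 ^ i * ⌊x⌋) := by
    rw [hg]
    ring
  rw [e1, Int.sub_mul_ediv_left _ _ hpz.ne']
  congr 1
  rw [hgr, mul_assoc]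
  obtain ⟨y, hy⟩ : ∃ y : ℝ, y = 2 ^ i * x := ⟨_, rfl⟩
  rw [← hy]
  have h1 := Int.floor_le y
  have h2 := Int.lt_floor_add_one y
  have h3 : (2 : ℤ) ^ (g - i) * ⌊y⌋ ≤ ⌊(2 : ℝ) ^ (g - i) * y⌋ := by
    rw [Int.le_floor]
    push_cast
    exact mul_le_mul_of_nonneg_left h1 hp.le
  have h4 : ⌊(2 : ℝ) ^ (g - i) * y⌋ < 2 ^ (g - i) * (⌊y⌋ + 1) := by
    rw [Int.floor_lt]
    push_cast
    exact mul_lt_mul_of_pos_left h2 hp
  have h5 : ⌊(2 : ℝ) ^ (g - i) * y⌋ / 2 ^ (g - i) < ⌊y⌋ + 1 := by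
    rw [Int.ediv_lt_iff_lt_mul hpz]
    linarith
  have h6 : ⌊y⌋ ≤ ⌊(2 : ℝ) ^ (g - i) * y⌋ / 2 ^ (g - i) := by
    rw [Int.le_ediv_iff_mul_le hpz]
    linarith
  linarith

/-- The value of the path with the coefficients known to `n` digits (orders `0`, `1`) and to `Q`
digits. -/
noncomputable def pth (D n Q : ℕ) (a b : ℤ) (C : ℕ → ℤ) (u : ℝ) : ℝ :=
  a + b * u + ∑ j ∈ Icc 2 D, (2 : ℝ) ^ n / 2 ^ Q * C j * u ^ j

/-- The velocity of the path with the coefficients known to `n` digits. -/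
noncomputable def pvl (D n Q : ℕ) (b : ℤ) (C : ℕ → ℤ) (u : ℝ) : ℝ :=
  b + ∑ j ∈ Icc 2 D, (2 : ℝ) ^ n / 2 ^ Q * C j * (j * u ^ (j - 1))

theorem fl_abs (x : ℝ) : |x - ⌊x⌋| ≤ 1 := by
  have h1 := Int.floor_le x
  have h2 := Int.lt_floor_add_one x
  rw [abs_le]
  constructor <;> linarith

theorem eval_sum (D : ℕ) (R : Polynomial ℝ) (hR : R.natDegree ≤ D) (u : ℝ) :
    R.eval u = R.coeff 0 + R.coeff 1 * u + ∑ j ∈ Icc 2 D, R.coeff j * u ^ j := by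
  have h1 : R.eval u = ∑ j ∈ range (D + 2), R.coeff j * u ^ j :=
    Polynomial.eval_eq_sum_range' (by omega) u
  rw [h1, Finset.range_eq_Ico, Finset.sum_eq_sum_Ico_succ_bot (by omega),
    Finset.sum_eq_sum_Ico_succ_bot (by omega)]
  have h2 : Ico (0 + 1 + 1) (D + 2) = Icc 2 (D + 1) := by
    ext j
    simp only [mem_Ico, mem_Icc]
    omega
  rw [h2]
  have h3 : ∑ j ∈ Icc 2 (D + 1), R.coeff j * u ^ j = ∑ j ∈ Icc 2 D, R.coeff j * u ^ j := by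
    refine (Finset.sum_subset (fun j hj => ?_) (fun j hj hj' => ?_)).symm
    · rw [mem_Icc] at hj ⊢
      omega
    · rw [mem_Icc] at hj hj'
      have : j = D + 1 := by omega
      rw [this, Polynomial.coeff_eq_zero_of_natDegree_lt (by omega), zero_mul]
  rw [h3]
  simp only [pow_zero, mul_one, zero_add, pow_one]
  ring

theorem eval_dsum (D : ℕ) (R : Polynomial ℝ) (hR : R.natDegree ≤ D) (u : ℝ) :
    (Polynomial.derivative R).eval u =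
      R.coeff 1 + ∑ j ∈ Icc 2 D, R.coeff j * (j * u ^ (j - 1)) := by
  have h1 : (Polynomial.derivative R).eval u =
      ∑ j ∈ range (D + 2), R.coeff j * (j * u ^ (j - 1)) := by
    conv_lhs => rw [Polynomial.as_sum_range' R (D + 2) (by omega)]
    rw [Polynomial.derivative_sum, Polynomial.eval_finsetSum]
    refine Finset.sum_congr rfl fun j _ => ?_
    rw [← Polynomial.C_mul_X_pow_eq_monomial, Polynomial.derivative_C_mul_X_pow,
      Polynomial.eval_mul, Polynomial.eval_C, Polynomial.eval_pow, Polynomial.eval_X]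
    ring
  rw [h1, Finset.range_eq_Ico, Finset.sum_eq_sum_Ico_succ_bot (by omega),
    Finset.sum_eq_sum_Ico_succ_bot (by omega)]
  have h2 : Ico (0 + 1 + 1) (D + 2) = Icc 2 (D + 1) := by
    ext j
    simp only [mem_Ico, mem_Icc]
    omega
  rw [h2]
  have h3 : ∑ j ∈ Icc 2 (D + 1), R.coeff j * (j * u ^ (j - 1)) =
      ∑ j ∈ Icc 2 D, R.coeff j * (j * u ^ (j - 1)) := by
    refine (Finset.sum_subset (fun j hj => ?_) (fun j hj hj' => ?_)).symm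
    · rw [mem_Icc] at hj ⊢
      omega
    · rw [mem_Icc] at hj hj'
      have : j = D + 1 := by omega
      rw [this, Polynomial.coeff_eq_zero_of_natDegree_lt (by omega), zero_mul]
  rw [h3]
  simp only [Nat.cast_zero, zero_mul, mul_zero, zero_add, Nat.cast_one, Nat.sub_self,
    pow_zero, mul_one]

/-- **The position.** -/
theorem pth_val {D n Q : ℕ} (R : Polynomial ℝ) (hR : R.natDegree ≤ D) (hn : n ≤ Q) {u : ℝ}
    (hu0 : 0 ≤ u) (hu1 : u ≤ 1) :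
    |(2 : ℝ) ^ n * R.eval u - pth D n Q ⌊(2 : ℝ) ^ n * R.coeff 0⌋ ⌊(2 : ℝ) ^ n * R.coeff 1⌋
      (fun j => ⌊(2 : ℝ) ^ Q * R.coeff j⌋) u| ≤ D + 2 := by
  have hQ : (0 : ℝ) < 2 ^ Q := by positivity
  have e1 : (2 : ℝ) ^ n * R.eval u - pth D n Q ⌊(2 : ℝ) ^ n * R.coeff 0⌋
      ⌊(2 : ℝ) ^ n * R.coeff 1⌋ (fun j => ⌊(2 : ℝ) ^ Q * R.coeff j⌋) u =
      ((2 : ℝ) ^ n * R.coeff 0 - ⌊(2 : ℝ) ^ n * R.coeff 0⌋) +
      ((2 : ℝ) ^ n * R.coeff 1 - ⌊(2 : ℝ) ^ n * R.coeff 1⌋) * u +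
      ∑ j ∈ Icc 2 D, (2 : ℝ) ^ n / 2 ^ Q *
        ((2 : ℝ) ^ Q * R.coeff j - ⌊(2 : ℝ) ^ Q * R.coeff j⌋) * u ^ j := by
    rw [eval_sum D R hR u, pth]
    have e2 : ∑ j ∈ Icc 2 D, (2 : ℝ) ^ n / 2 ^ Q *
        ((2 : ℝ) ^ Q * R.coeff j - ⌊(2 : ℝ) ^ Q * R.coeff j⌋) * u ^ j =
        (2 : ℝ) ^ n * ∑ j ∈ Icc 2 D, R.coeff j * u ^ j -
        ∑ j ∈ Icc 2 D, (2 : ℝ) ^ n / 2 ^ Q * ⌊(2 : ℝ) ^ Q * R.coeff j⌋ * u ^ j := by
      rw [Finset.mul_sum, ← Finset.sum_sub_distrib]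
      refine Finset.sum_congr rfl fun j _ => ?_
      field_simp
    rw [e2]
    ring
  rw [e1]
  have hr : (2 : ℝ) ^ n / 2 ^ Q ≤ 1 := by
    rw [div_le_one hQ]
    exact pow_le_pow_right₀ (by norm_num) hn
  have hr0 : 0 ≤ (2 : ℝ) ^ n / 2 ^ Q := by positivity
  have h1 := fl_abs ((2 : ℝ) ^ n * R.coeff 0)
  have h2 : |((2 : ℝ) ^ n * R.coeff 1 - ⌊(2 : ℝ) ^ n * R.coeff 1⌋) * u| ≤ 1 := by
    rw [abs_mul, abs_of_nonneg hu0]
    exact mul_le_one₀ (fl_abs _) hu0 hu1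
  have h3 : |∑ j ∈ Icc 2 D, (2 : ℝ) ^ n / 2 ^ Q *
        ((2 : ℝ) ^ Q * R.coeff j - ⌊(2 : ℝ) ^ Q * R.coeff j⌋) * u ^ j| ≤ D := by
    refine (Finset.abs_sum_le_sum_abs _ _).trans ?_
    have h4 : ∑ j ∈ Icc 2 D, |(2 : ℝ) ^ n / 2 ^ Q *
        ((2 : ℝ) ^ Q * R.coeff j - ⌊(2 : ℝ) ^ Q * R.coeff j⌋) * u ^ j| ≤
        ∑ j ∈ Icc 2 D, (1 : ℝ) := by
      refine Finset.sum_le_sum fun j _ => ?_
      rw [abs_mul, abs_mul, abs_of_nonneg hr0, abs_of_nonneg (pow_nonneg hu0 j)]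
      exact mul_le_one₀ (mul_le_one₀ hr (abs_nonneg _) (fl_abs _)) (pow_nonneg hu0 j)
        (pow_le_one₀ hu0 hu1)
    refine h4.trans ?_
    rw [Finset.sum_const, Nat.card_Icc, nsmul_eq_mul, mul_one]
    exact_mod_cast (by omega : D + 1 - 2 ≤ D)
  refine (abs_add_le _ _).trans ?_
  have h5 := abs_add_le ((2 : ℝ) ^ n * R.coeff 0 - ⌊(2 : ℝ) ^ n * R.coeff 0⌋)
    (((2 : ℝ) ^ n * R.coeff 1 - ⌊(2 : ℝ) ^ n * R.coeff 1⌋) * u)
  linarith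

/-- **The velocity.** -/
theorem pvl_val {D n Q : ℕ} (R : Polynomial ℝ) (hR : R.natDegree ≤ D) (hn : n ≤ Q) {u : ℝ}
    (hu0 : 0 ≤ u) (hu1 : u ≤ 1) :
    |(2 : ℝ) ^ n * (Polynomial.derivative R).eval u - pvl D n Q ⌊(2 : ℝ) ^ n * R.coeff 1⌋
      (fun j => ⌊(2 : ℝ) ^ Q * R.coeff j⌋) u| ≤ D * D + 1 := by
  have hQ : (0 : ℝ) < 2 ^ Q := by positivity
  have e1 : (2 : ℝ) ^ n * (Polynomial.derivative R).eval u - pvl D n Q
      ⌊(2 : ℝ) ^ n * R.coeff 1⌋ (fun j => ⌊(2 : ℝ) ^ Q * R.coeff j⌋) u =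
      ((2 : ℝ) ^ n * R.coeff 1 - ⌊(2 : ℝ) ^ n * R.coeff 1⌋) +
      ∑ j ∈ Icc 2 D, (2 : ℝ) ^ n / 2 ^ Q *
        ((2 : ℝ) ^ Q * R.coeff j - ⌊(2 : ℝ) ^ Q * R.coeff j⌋) * (j * u ^ (j - 1)) := by
    rw [eval_dsum D R hR u, pvl]
    have e2 : ∑ j ∈ Icc 2 D, (2 : ℝ) ^ n / 2 ^ Q *
        ((2 : ℝ) ^ Q * R.coeff j - ⌊(2 : ℝ) ^ Q * R.coeff j⌋) * (j * u ^ (j - 1)) =
        (2 : ℝ) ^ n * ∑ j ∈ Icc 2 D, R.coeff j * (j * u ^ (j - 1)) -
        ∑ j ∈ Icc 2 D, (2 : ℝ) ^ n / 2 ^ Q * ⌊(2 : ℝ) ^ Q * R.coeff j⌋ *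
          (j * u ^ (j - 1)) := by
      rw [Finset.mul_sum, ← Finset.sum_sub_distrib]
      refine Finset.sum_congr rfl fun j _ => ?_
      field_simp
    rw [e2]
    ring
  rw [e1]
  have hr : (2 : ℝ) ^ n / 2 ^ Q ≤ 1 := by
    rw [div_le_one hQ]
    exact pow_le_pow_right₀ (by norm_num) hn
  have hr0 : 0 ≤ (2 : ℝ) ^ n / 2 ^ Q := by positivity
  have h1 := fl_abs ((2 : ℝ) ^ n * R.coeff 1)
  have h3 : |∑ j ∈ Icc 2 D, (2 : ℝ) ^ n / 2 ^ Q *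
        ((2 : ℝ) ^ Q * R.coeff j - ⌊(2 : ℝ) ^ Q * R.coeff j⌋) * (j * u ^ (j - 1))| ≤ D * D := by
    refine (Finset.abs_sum_le_sum_abs _ _).trans ?_
    have h4 : ∑ j ∈ Icc 2 D, |(2 : ℝ) ^ n / 2 ^ Q *
        ((2 : ℝ) ^ Q * R.coeff j - ⌊(2 : ℝ) ^ Q * R.coeff j⌋) * (j * u ^ (j - 1))| ≤
        ∑ j ∈ Icc 2 D, (D : ℝ) := by
      refine Finset.sum_le_sum fun j hj => ?_
      rw [mem_Icc] at hj
      have hjD : (j : ℝ) ≤ D := by exact_mod_cast hj.2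
      have hpw : 0 ≤ u ^ (j - 1) := pow_nonneg hu0 _
      have hpw1 : u ^ (j - 1) ≤ 1 := pow_le_one₀ hu0 hu1
      rw [abs_mul, abs_mul, abs_of_nonneg hr0, abs_of_nonneg (by positivity : (0 : ℝ) ≤
        j * u ^ (j - 1))]
      have h5 : (2 : ℝ) ^ n / 2 ^ Q * |(2 : ℝ) ^ Q * R.coeff j - ⌊(2 : ℝ) ^ Q * R.coeff j⌋| ≤ 1 :=
        mul_le_one₀ hr (abs_nonneg _) (fl_abs _)
      have h6 : (j : ℝ) * u ^ (j - 1) ≤ D := by
        have h7 : (j : ℝ) * u ^ (j - 1) ≤ j * 1 :=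
          mul_le_mul_of_nonneg_left hpw1 (Nat.cast_nonneg j)
        linarith
      have h8 : (0 : ℝ) ≤ j * u ^ (j - 1) := by positivity
      nlinarith
    refine h4.trans ?_
    rw [Finset.sum_const, Nat.card_Icc, nsmul_eq_mul]
    refine mul_le_mul_of_nonneg_right ?_ (Nat.cast_nonneg D)
    exact_mod_cast (by omega : D + 1 - 2 ≤ D)
  have h5 := abs_add_le ((2 : ℝ) ^ n * R.coeff 1 - ⌊(2 : ℝ) ^ n * R.coeff 1⌋)
    (∑ j ∈ Icc 2 D, (2 : ℝ) ^ n / 2 ^ Q *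
        ((2 : ℝ) ^ Q * R.coeff j - ⌊(2 : ℝ) ^ Q * R.coeff j⌋) * (j * u ^ (j - 1)))
  linarith

/-- The near digits. -/
noncomputable def ndg (q g : ℕ) (x : ℝ) : ℤ := ⌊(2 : ℝ) ^ (q + g) * x⌋ - 2 ^ g * ⌊(2 : ℝ) ^ q * x⌋

theorem ndg_nonneg (q g : ℕ) (x : ℝ) : 0 ≤ ndg q g x := by
  have h := (fl_split ((2 : ℝ) ^ q * x) g).1
  rw [← mul_assoc, ← pow_add, add_comm g q] at h
  exact h

theorem ndg_lt (q g : ℕ) (x : ℝ) : ndg q g x < 2 ^ g := by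
  have h := (fl_split ((2 : ℝ) ^ q * x) g).2
  rw [← mul_assoc, ← pow_add, add_comm g q] at h
  exact h

theorem ndg_div (q : ℕ) (x : ℝ) {g i : ℕ} (hi : i ≤ g) :
    2 ^ i * ⌊(2 : ℝ) ^ q * x⌋ + ndg q g x / 2 ^ (g - i) = ⌊(2 : ℝ) ^ (q + i) * x⌋ := by
  have h := fl_div ((2 : ℝ) ^ q * x) hi
  rw [← mul_assoc, ← pow_add, add_comm g q, ← mul_assoc, ← pow_add, add_comm i q] at h
  unfold ndg
  rw [h]
  ring

/-- **The dictionary**: the near digits of the position. -/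
theorem dic_X {D q g Q : ℕ} (R : Polynomial ℝ) (hR : R.natDegree ≤ D) (hn : q + g ≤ Q) {u : ℝ}
    (hu0 : 0 ≤ u) (hu1 : u ≤ 1) {c : ℤ} (hc : (c : ℝ) ≤ 2 ^ g * u)
    (hc' : 2 ^ g * u ≤ c + 1) :
    |2 ^ g * (⌊(2 : ℝ) ^ (q + g) * R.eval u⌋ - ⌊pth D (q + g) Q (2 ^ g * ⌊(2 : ℝ) ^ q * R.coeff 0⌋)
        (2 ^ g * ⌊(2 : ℝ) ^ q * R.coeff 1⌋) (fun j => ⌊(2 : ℝ) ^ Q * R.coeff j⌋) u⌋) -
      (2 ^ g * ndg q g (R.coeff 0) + ndg q g (R.coeff 1) * c)| ≤ ((D + 5 : ℕ) : ℤ) * 2 ^ g := by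
  obtain ⟨P, hP⟩ : ∃ P, P = pth D (q + g) Q (2 ^ g * ⌊(2 : ℝ) ^ q * R.coeff 0⌋)
        (2 ^ g * ⌊(2 : ℝ) ^ q * R.coeff 1⌋) (fun j => ⌊(2 : ℝ) ^ Q * R.coeff j⌋) u := ⟨_, rfl⟩
  obtain ⟨X, hX⟩ : ∃ X, X = (2 : ℝ) ^ (q + g) * R.eval u := ⟨_, rfl⟩
  rw [← hP, ← hX]
  obtain ⟨N, hN⟩ : ∃ N, N = ndg q g (R.coeff 0) := ⟨_, rfl⟩
  obtain ⟨A, hA⟩ : ∃ A, A = ndg q g (R.coeff 1) := ⟨_, rfl⟩
  have hA0 : 0 ≤ A := by rw [hA]; exact ndg_nonneg _ _ _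
  have hA1 : A < 2 ^ g := by rw [hA]; exact ndg_lt _ _ _
  have hval := pth_val R hR hn hu0 hu1
  have e1 : pth D (q + g) Q ⌊(2 : ℝ) ^ (q + g) * R.coeff 0⌋ ⌊(2 : ℝ) ^ (q + g) * R.coeff 1⌋
      (fun j => ⌊(2 : ℝ) ^ Q * R.coeff j⌋) u = P + (N + A * u) := by
    rw [hP, hN, hA]
    unfold pth ndg
    push_cast
    ring
  rw [e1, ← hX] at hval
  rw [← hN, ← hA]
  have hg : (0 : ℝ) < 2 ^ g := by positivity
  have hA0' : (0 : ℝ) ≤ A := by exact_mod_cast hA0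
  have hA1' : (A : ℝ) ≤ 2 ^ g := by exact_mod_cast hA1.le
  -- the rest of the time
  have h1 : |2 ^ g * (A * u) - A * c| ≤ 2 ^ g := by
    have e2 : 2 ^ g * (A * u) - A * c = A * (2 ^ g * u - c) := by ring
    rw [e2, abs_of_nonneg (mul_nonneg hA0' (by linarith))]
    calc (A : ℝ) * (2 ^ g * u - c) ≤ 2 ^ g * 1 :=
        mul_le_mul hA1' (by linarith) (by linarith) hg.le
      _ = 2 ^ g := mul_one _
  have h2 := fl_abs X
  have h3 := fl_abs P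
  have key : |(2 : ℝ) ^ g * (⌊X⌋ - ⌊P⌋) - (2 ^ g * N + A * c)| ≤ (D + 5) * 2 ^ g := by
    have e3 : (2 : ℝ) ^ g * (⌊X⌋ - ⌊P⌋) - (2 ^ g * N + A * c) =
        2 ^ g * (X - (P + (N + A * u))) - 2 ^ g * (X - ⌊X⌋) + 2 ^ g * (P - ⌊P⌋) +
        (2 ^ g * (A * u) - A * c) := by ring
    rw [e3]
    have b1 := abs_le.1 hval
    have b2 := abs_le.1 h2
    have b3 := abs_le.1 h3
    have b4 := abs_le.1 h1
    have f1 := Int.floor_le X
    have f2 := Int.floor_le P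
    have c1 := mul_le_mul_of_nonneg_left b1.1 hg.le
    have c2 := mul_le_mul_of_nonneg_left b1.2 hg.le
    have c3 := mul_le_mul_of_nonneg_left b2.2 hg.le
    have c4 := mul_le_mul_of_nonneg_left b3.2 hg.le
    have c5 : 0 ≤ (2 : ℝ) ^ g * (X - ⌊X⌋) := mul_nonneg hg.le (by linarith)
    have c6 : 0 ≤ (2 : ℝ) ^ g * (P - ⌊P⌋) := mul_nonneg hg.le (by linarith)
    have hDg : 0 ≤ (D : ℝ) * 2 ^ g := by positivity
    rw [abs_le]
    constructor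
    · linarith [b4.1, b4.2]
    · linarith [b4.1, b4.2]
  have h4 : ((|2 ^ g * (⌊X⌋ - ⌊P⌋) - (2 ^ g * N + A * c)| : ℤ) : ℝ) ≤
      (((D + 5 : ℕ) : ℤ) * 2 ^ g : ℤ) := by
    push_cast
    exact key
  exact_mod_cast h4

/-! ### The coefficients from the jets -/

/-- The coefficients from the jets at the time `u`. -/
theorem coeff_jets {D : ℕ} (R : Polynomial ℝ) (hR : R.natDegree ≤ D) (u : ℝ) (j : ℕ) :
    R.coeff j = ∑ i ∈ Icc j D, ((i.choose j : ℝ) / (i.factorial : ℝ) * (-u) ^ (i - j)) *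
      (Polynomial.derivative^[i] R).eval u := by
  have h1 : R = Polynomial.taylor (-u) (Polynomial.taylor u R) := by
    rw [Polynomial.taylor_taylor]
    simp
  have h2 : ∀ i, (Polynomial.taylor u R).coeff i =
      (Polynomial.derivative^[i] R).eval u / (i.factorial : ℝ) := by
    intro i
    rw [Polynomial.taylor_coeff, ← Polynomial.factorial_smul_hasseDeriv]
    have : (i.factorial : ℝ) ≠ 0 := by
      exact_mod_cast Nat.factorial_ne_zero i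
    rw [LinearMap.smul_apply, Polynomial.eval_smul, nsmul_eq_mul]
    field_simp
  have hd : (Polynomial.taylor u R).natDegree ≤ D := by
    rw [Polynomial.natDegree_taylor]
    exact hR
  have h3 : R.coeff j = (Polynomial.hasseDeriv j (Polynomial.taylor u R)).eval (-u) := by
    conv_lhs => rw [h1]
    rw [Polynomial.taylor_coeff]
  rw [h3]
  have h4 : (Polynomial.hasseDeriv j (Polynomial.taylor u R)).eval (-u) =
      ∑ i ∈ range (D + 1), (i.choose j : ℝ) * (Polynomial.taylor u R).coeff i * (-u) ^ (i - j) := by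
    rw [Polynomial.hasseDeriv_apply, Polynomial.sum_over_range' _ (fun i => by simp) (D + 1)
      (by omega), Polynomial.eval_finsetSum]
    refine Finset.sum_congr rfl fun i _ => ?_
    rw [Polynomial.eval_monomial]
  rw [h4]
  have h5 : ∑ i ∈ range (D + 1), (i.choose j : ℝ) * (Polynomial.taylor u R).coeff i *
      (-u) ^ (i - j) = ∑ i ∈ Icc j D, (i.choose j : ℝ) * (Polynomial.taylor u R).coeff i *
      (-u) ^ (i - j) := by
    refine (Finset.sum_subset (fun i hi => ?_) (fun i hi hi' => ?_)).symm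
    · rw [mem_Icc] at hi
      rw [mem_range]
      omega
    · rw [mem_range] at hi
      rw [mem_Icc] at hi'
      have : i < j := by omega
      rw [Nat.choose_eq_zero_of_lt this]
      simp
  rw [h5]
  refine Finset.sum_congr rfl fun i _ => ?_
  rw [h2 i]
  ring

/-- **The digits of the coefficients from the digits of the jets.** -/
theorem coeff_rd {D : ℕ} (R : Polynomial ℝ) (hR : R.natDegree ≤ D) {u : ℝ} (hu0 : 0 ≤ u)
    (hu1 : u ≤ 1) (j : ℕ) {s : ℝ} (hs : 0 < s) (S : ℕ → ℝ) (H : ℕ → ℤ)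
    (h : ∀ i, j ≤ i → i ≤ D → s ≤ 2 * S i ∧
      H i = ⌊S i * (Polynomial.derivative^[i] R).eval u⌋) :
    |s * R.coeff j - ∑ i ∈ Icc j D, ((i.choose j : ℝ) / (i.factorial : ℝ) * (-u) ^ (i - j)) *
      (s / S i * H i)| ≤ 2 * (D + 1) := by
  rw [coeff_jets R hR u j, Finset.mul_sum, ← Finset.sum_sub_distrib]
  refine (Finset.abs_sum_le_sum_abs _ _).trans ?_
  have h1 : ∑ i ∈ Icc j D, |s * (((i.choose j : ℝ) / (i.factorial : ℝ) * (-u) ^ (i - j)) *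
      (Polynomial.derivative^[i] R).eval u) -
      ((i.choose j : ℝ) / (i.factorial : ℝ) * (-u) ^ (i - j)) * (s / S i * H i)| ≤
      ∑ i ∈ Icc j D, (2 : ℝ) := by
    refine Finset.sum_le_sum fun i hi => ?_
    rw [mem_Icc] at hi
    obtain ⟨h2, h3⟩ := h i hi.1 hi.2
    have hSi : 0 < S i := by linarith
    obtain ⟨b, hb⟩ : ∃ b : ℝ, b = (i.choose j : ℝ) / (i.factorial : ℝ) * (-u) ^ (i - j) :=
      ⟨_, rfl⟩
    obtain ⟨x, hx⟩ : ∃ x, x = (Polynomial.derivative^[i] R).eval u := ⟨_, rfl⟩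
    rw [← hx] at h3
    rw [← hb, ← hx, h3]
    have hb1 : |b| ≤ 1 := by
      rw [hb, abs_mul, abs_pow, abs_neg, abs_of_nonneg hu0]
      refine mul_le_one₀ ?_ (pow_nonneg hu0 _) (pow_le_one₀ hu0 hu1)
      rw [abs_of_nonneg (by positivity), div_le_one (by positivity)]
      have : i.choose j ≤ i.factorial := by
        have h4 := Nat.choose_mul_factorial_mul_factorial hi.1
        have h5 : 1 ≤ j.factorial * (i - j).factorial :=
          Nat.mul_pos (Nat.factorial_pos _) (Nat.factorial_pos _)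
        calc i.choose j = i.choose j * 1 := (mul_one _).symm
          _ ≤ i.choose j * (j.factorial * (i - j).factorial) := Nat.mul_le_mul_left _ h5
          _ = i.factorial := by rw [← mul_assoc, h4]
      exact_mod_cast this
    have e1 : s * (b * x) - b * (s / S i * ⌊S i * x⌋) = b * (s / S i * (S i * x - ⌊S i * x⌋)) := by
      field_simp
    rw [e1, abs_mul, abs_mul, abs_of_pos (div_pos hs hSi)]
    have e2 : s / S i ≤ 2 := by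
      rw [div_le_iff₀ hSi]
      exact h2
    have e3 : s / S i * |S i * x - ⌊S i * x⌋| ≤ 2 * 1 :=
      mul_le_mul e2 (fl_abs _) (abs_nonneg _) (by norm_num)
    have e4 : 0 ≤ s / S i * |S i * x - ⌊S i * x⌋| :=
      mul_nonneg (div_pos hs hSi).le (abs_nonneg _)
    nlinarith [abs_nonneg b]
  refine h1.trans ?_
  rw [Finset.sum_const, Nat.card_Icc, nsmul_eq_mul]
  have : ((D + 1 - j : ℕ) : ℝ) ≤ D + 1 := by
    have : D + 1 - j ≤ D + 1 := by omega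
    exact_mod_cast this
  linarith

end Pool.OWN83
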