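import Pool.Agent.H83.OWN.Dst
import Pool.Agent.H83.OWN.Bxp

/-!
# The scales in the box of a point

`scl_of`: for large `J` the positions of `BoxP` give the scales `Scl`.
-/

set_option autoImplicit false

namespace Pool.OWN83

open Finset Real

theorem p2e {x y : ℝ} (h : x ≤ y) : (2 : ℝ) ^ x ≤ 2 ^ y :=
  Real.rpow_le_rpow_of_exponent_le (by norm_num) h

theorem p2n (n : ℕ) : (2 : ℝ) ^ n = (2 : ℝ) ^ ((n : ℕ) : ℝ) := (Real.rpow_natCast 2 n).symm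

theorem p2a (x y : ℝ) : (2 : ℝ) ^ x * 2 ^ y = 2 ^ (x + y) := (Real.rpow_add (by norm_num) x y).symm

theorem p2o : (2 : ℝ) = (2 : ℝ) ^ (1 : ℝ) := (Real.rpow_one 2).symm

theorem p2d (x : ℝ) : 2 * (2 : ℝ) ^ x = 2 ^ (1 + x) := by
  rw [Real.rpow_add (by norm_num), Real.rpow_one]

/-- `(2 ^ w) ^ j`. -/
theorem p2p (w j : ℕ) : ((2 : ℝ) ^ w) ^ j = (2 : ℝ) ^ ((j : ℝ) * (w : ℝ)) := by
  rw [← pow_mul, p2n]
  congr 1
  push_cast
  ring

/-- The scale of the orders of the jets at the ball `x`. -/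
noncomputable def ssc (N : ℝ) (J : ℕ) : ℝ := (2 : ℝ) ^ (N * J)

theorem ssc_pos (N : ℝ) (J : ℕ) : 0 < ssc N J := Real.rpow_pos_of_pos (by norm_num) _

/-- **The scales in the box.** -/
theorem scl_of {p : ℚ → ℝ} {γ P S r ε : ℝ} {n : ℕ} {w : ℚ} {v k : ℕ → ℚ} {L κ δ : ℝ}
    (h : BoxP p γ P S r ε n w v k L κ δ) (hS : 1 < S) (hr : 0 < r) (hε : 0 < ε) (hn : 1 ≤ n)
    (hε1 : ε + δ ≤ 1 / 4) (hε2 : 2 * ((S + 2) * (ε * r)) ≤ S * (κ * L)) (hp0 : 0 ≤ p (v 0))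
    {sh : ℝ} (hw0 : 0 ≤ (w : ℝ) + sh)
    (hw1 : (w : ℝ) + sh + (S * (κ * L) + (S + 2) * (ε * r)) < 1) {Pm : ℝ}
    (hPm : p (v n) < Pm) (K : ℕ) :
    ∃ J₀ : ℕ, ∀ J : ℕ, J₀ ≤ J → ∃ q g b Q : ℕ,
      Scl J ⌊((w : ℝ) + sh) * J⌋₊ g b n q Q K (fun j => ssc (p (v j) - ((0 : ℕ) : ℝ) * (v j + sh)) J)
        (fun j => ssc (p (k j) - ((1 : ℕ) : ℝ) * (k j + sh)) J) (fun j => ssc (Pm - j * (w + sh)) J)
        (2 ^ (10 * S * (ε * r) * J + n + K + 4)) ∧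
      ⌊((w : ℝ) + sh) * J⌋₊ + g ≤ J ∧ q + g ≤ Q ∧
      (∀ j, 2 ≤ j → j ≤ K + 1 → 2 ^ Q ≤ 2 * (ssc (Pm - j * (w + sh)) J * (2 ^ ⌊((w : ℝ) + sh) * J⌋₊) ^ j)) ∧
      1 ≤ b ∧ b * n ≤ g ∧
      S * (κ * L) * J - (S + 2) * (ε * r) * J - 1 ≤ g ∧
      (g : ℝ) ≤ S * (κ * L) * J + (S + 2) * (ε * r) * J + 1 ∧
      ∀ j, j ≤ n → (1 - (j : ℝ) / n) * (S * (κ * L) * J - (S + 2) * (ε * r) * J - 1) ≤
        (g : ℝ) - (b * j : ℕ) := by
  obtain ⟨hκ, hL, -, -, -⟩ := h.sz hS hr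
  obtain ⟨pv, pk⟩ := h.pr hS hr hε hε1
  have hn0 : (0 : ℝ) < n := by exact_mod_cast hn
  obtain ⟨ε', hε'⟩ : ∃ ε' : ℝ, ε' = ε * r := ⟨_, rfl⟩
  rw [← hε'] at hε2 hw1 pv pk ⊢
  have hε0 : 0 < ε' := by rw [hε']; exact mul_pos hε hr
  obtain ⟨c, hc⟩ : ∃ c : ℝ, c = S * (κ * L) := ⟨_, rfl⟩
  rw [← hc] at hε2 hw1 ⊢
  have hc0 : 0 < c := by rw [hc]; positivity
  -- the precisions at the ends
  have v0 := pv 0 (Nat.zero_le n)
  have vn := pv n le_rfl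
  rw [pT_zero] at v0
  rw [pT_n L κ hn] at vn
  have eT : ∀ j, j ≤ n → S * pT L κ n j = S * L + j / n * c := fun j _ => by
    rw [hc]
    unfold pT
    ring
  have eTn : S * (L * (1 + κ)) = S * L + c := by
    rw [hc]
    ring
  rw [eTn] at vn
  obtain ⟨d, hd⟩ : ∃ d : ℝ, d = Pm - p (v n) := ⟨_, rfl⟩
  have hd0 : 0 < d := by rw [hd]; linarith
  obtain ⟨d', hd'⟩ : ∃ d' : ℝ, d' = 1 - ((w : ℝ) + sh + (c + (S + 2) * ε')) := ⟨_, rfl⟩
  have hd'0 : 0 < d' := by rw [hd']; linarith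
  have hpn0 : p (v 0) ≤ p (v n) := by
    have : (S + 2) * ε' ≤ c := by
      have : 0 < (S + 2) * ε' := by positivity
      linarith
    linarith [v0.2, vn.1]
  obtain ⟨J₀, hJ₀⟩ := exists_nat_ge ((2 * (n : ℝ) * n + 4) / c + ((K : ℝ) + 2) / d + 1 / d')
  refine ⟨J₀, fun J hJ => ?_⟩
  have hJ' : (2 * (n : ℝ) * n + 4) / c + ((K : ℝ) + 2) / d + 1 / d' ≤ (J : ℝ) :=
    hJ₀.trans (by exact_mod_cast hJ)
  have hJ0 : (0 : ℝ) ≤ J := Nat.cast_nonneg J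
  have t1 : 0 ≤ (2 * (n : ℝ) * n + 4) / c := by positivity
  have t2 : 0 ≤ ((K : ℝ) + 2) / d := by positivity
  have t3 : 0 ≤ 1 / d' := by positivity
  have f1 : 2 * (n : ℝ) * n + 4 ≤ c * J := by
    have : (2 * (n : ℝ) * n + 4) / c ≤ J := by linarith
    rw [div_le_iff₀ hc0] at this
    linarith
  have f2 : (K : ℝ) + 2 ≤ d * J := by
    have : ((K : ℝ) + 2) / d ≤ J := by linarith
    rw [div_le_iff₀ hd0] at this
    linarith
  have f3 : 1 ≤ d' * J := by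
    have : 1 / d' ≤ J := by linarith
    rw [div_le_iff₀ hd'0] at this
    linarith
  -- the integers
  obtain ⟨t0, ht0⟩ : ∃ t : ℝ, t = p (v 0) * J := ⟨_, rfl⟩
  obtain ⟨tn, htn⟩ : ∃ t : ℝ, t = p (v n) * J := ⟨_, rfl⟩
  obtain ⟨q, hq⟩ : ∃ q : ℕ, q = ⌊t0⌋₊ := ⟨_, rfl⟩
  obtain ⟨G, hG⟩ : ∃ G : ℕ, G = ⌊tn⌋₊ := ⟨_, rfl⟩
  have ht00 : 0 ≤ t0 := by rw [ht0]; positivity
  have htn0 : t0 ≤ tn := by rw [ht0, htn]; exact mul_le_mul_of_nonneg_right hpn0 hJ0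
  have q1 : (q : ℝ) ≤ t0 := by rw [hq]; exact Nat.floor_le ht00
  have q2 : t0 < q + 1 := by rw [hq]; exact Nat.lt_floor_add_one t0
  have G1 : (G : ℝ) ≤ tn := by rw [hG]; exact Nat.floor_le (ht00.trans htn0)
  have G2 : tn < G + 1 := by rw [hG]; exact Nat.lt_floor_add_one tn
  have hqG : q ≤ G := by rw [hq, hG]; exact Nat.floor_le_floor htn0
  obtain ⟨g, hg⟩ : ∃ g : ℕ, g = G - q := ⟨_, rfl⟩
  have hgG : q + g = G := by omega
  have hgr : (g : ℝ) = G - q := by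
    have : ((q + g : ℕ) : ℝ) = G := by exact_mod_cast hgG
    push_cast at this
    linarith
  obtain ⟨b, hb⟩ : ∃ b : ℕ, b = g / n := ⟨_, rfl⟩
  obtain ⟨Q, hQ⟩ : ∃ Q : ℕ, Q = ⌊Pm * J⌋₊ - K := ⟨_, rfl⟩
  -- the size of `g`
  have a0 : (P + S * L - ε') * J ≤ t0 := by
    rw [ht0]; exact mul_le_mul_of_nonneg_right v0.1 hJ0
  have a0' : t0 ≤ (P + S * L + (S + 1) * ε') * J := by
    rw [ht0]; exact mul_le_mul_of_nonneg_right v0.2 hJ0
  have an : (P + (S * L + c) - ε') * J ≤ tn := by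
    rw [htn]; exact mul_le_mul_of_nonneg_right vn.1 hJ0
  have an' : tn ≤ (P + (S * L + c) + (S + 1) * ε') * J := by
    rw [htn]; exact mul_le_mul_of_nonneg_right vn.2 hJ0
  have g1 : c * J - (S + 2) * ε' * J - 1 ≤ g := by
    rw [hgr]
    linarith
  have g2 : (g : ℝ) ≤ c * J + (S + 2) * ε' * J + 1 := by
    rw [hgr]
    linarith
  have g3 : (S + 2) * ε' * J ≤ c / 2 * J := mul_le_mul_of_nonneg_right (by linarith) hJ0
  have g4 : (n : ℝ) * n + 1 ≤ g := by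
    have : c / 2 * J = c * J / 2 := by ring
    linarith
  have hng : n * n ≤ g := by
    have : ((n * n : ℕ) : ℝ) ≤ g := by
      push_cast
      linarith
    exact_mod_cast this
  have hnb : n ≤ b := by
    rw [hb, Nat.le_div_iff_mul_le (by omega)]
    exact hng
  have hbn : b * n ≤ g := by
    rw [hb]
    exact Nat.div_mul_le_self g n
  have hbn' : g < b * n + n := by
    have h1 := Nat.div_add_mod g n
    have h2 := Nat.mod_lt g (show 0 < n by omega)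
    rw [hb]
    have h3 : n * (g / n) = g / n * n := Nat.mul_comm _ _
    omega
  have hb1 : 1 ≤ b := hn.trans hnb
  have hgb : g / b = n := by
    refine Nat.div_eq_of_lt_le ?_ ?_
    · rw [Nat.mul_comm]
      exact hbn
    · have h1 : (n + 1) * b = b * n + b := by ring
      rw [h1]
      omega
  have bj : ∀ j, j ≤ n → (g : ℝ) * (j / n) - n ≤ (b * j : ℕ) ∧ ((b * j : ℕ) : ℝ) ≤ g * (j / n) := by
    intro j hj
    have hj1 : (j : ℝ) / n ≤ 1 := by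
      rw [div_le_one hn0]
      exact_mod_cast hj
    have hj0 : (0 : ℝ) ≤ (j : ℝ) / n := by positivity
    have h1 : ((g : ℕ) : ℝ) < b * n + n := by exact_mod_cast hbn'
    have h2 : (b : ℝ) * n ≤ g := by exact_mod_cast hbn
    have e1 : ((b * j : ℕ) : ℝ) = (b * n) * (j / n) := by
      push_cast
      field_simp
    rw [e1]
    constructor
    · have h3 : (g : ℝ) * (j / n) ≤ (b * n + n) * (j / n) := mul_le_mul_of_nonneg_right h1.le hj0
      have h4 : (n : ℝ) * (j / n) ≤ n * 1 := mul_le_mul_of_nonneg_left hj1 hn0.le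
      linarith
    · exact mul_le_mul_of_nonneg_right h2 hj0
  have hQ1 : Pm * J - 1 - K ≤ Q := by
    have h1 := Nat.lt_floor_add_one (Pm * (J : ℝ))
    have h2 : ⌊Pm * (J : ℝ)⌋₊ ≤ Q + K := by omega
    have h3 : ((⌊Pm * (J : ℝ)⌋₊ : ℕ) : ℝ) ≤ Q + K := by exact_mod_cast h2
    linarith
  have hPJ : tn + ((K : ℝ) + 2) ≤ Pm * J := by
    have : Pm * J = tn + d * J := by rw [htn, hd]; ring
    linarith
  have hQ2 : (Q : ℝ) ≤ Pm * J - K := by
    have h1 : ((⌊Pm * (J : ℝ)⌋₊ : ℕ) : ℝ) ≤ Pm * J := Nat.floor_le (by linarith)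
    have h2 : K ≤ ⌊Pm * (J : ℝ)⌋₊ := Nat.le_floor (by linarith)
    have h3 : Q + K = ⌊Pm * (J : ℝ)⌋₊ := by omega
    have h4 : (Q : ℝ) + K = ⌊Pm * (J : ℝ)⌋₊ := by exact_mod_cast h3
    linarith
  have hGQ : G ≤ Q := by
    have : (G : ℝ) ≤ Q := by linarith
    exact_mod_cast this
  -- the window
  obtain ⟨W, hW⟩ : ∃ W : ℕ, W = ⌊((w : ℝ) + sh) * J⌋₊ := ⟨_, rfl⟩
  have W1 : (W : ℝ) ≤ (w + sh) * J := by
    rw [hW]
    exact Nat.floor_le (mul_nonneg hw0 hJ0)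
  have W2 : ((w : ℝ) + sh) * J < W + 1 := by rw [hW]; exact Nat.lt_floor_add_one _
  rw [← hW]
  have hWg : W + g ≤ J := by
    have h1 : ((w : ℝ) + sh) * J + (c + (S + 2) * ε') * J + d' * J = J := by rw [hd']; ring
    have : ((W + g : ℕ) : ℝ) ≤ J := by
      push_cast
      linarith
    exact_mod_cast this
  -- the lower bounds for the places of the blocks
  have low : ∀ j, j ≤ n → (P + S * pT L κ n j) * J - (S + 3) * ε' * J - 2 - n ≤
      q + (b * j : ℕ) := by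
    intro j hj
    have hj1 : (j : ℝ) / n ≤ 1 := by
      rw [div_le_one hn0]
      exact_mod_cast hj
    have hj0 : (0 : ℝ) ≤ (j : ℝ) / n := by positivity
    have h1 := (bj j hj).1
    have h2 := mul_le_mul_of_nonneg_right g1 hj0
    have h3 : (c * J - (S + 2) * ε' * J - 1) * (j / n) =
        c * J * (j / n) - ((S + 2) * ε' * J + 1) * (j / n) := by ring
    have h4 : ((S + 2) * ε' * J + 1) * (j / n) ≤ ((S + 2) * ε' * J + 1) * 1 :=
      mul_le_mul_of_nonneg_left hj1 (by positivity)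
    rw [eT j hj]
    have h5 : (P + (S * L + j / n * c)) * J = (P + S * L) * J + c * J * (j / n) := by ring
    rw [h5]
    linarith
  have hSε : 0 ≤ (S - 1) * ε' * J := mul_nonneg (mul_nonneg (by linarith) hε0.le) hJ0
  refine ⟨q, g, b, Q, ⟨?_, fun j => ssc_pos _ _, fun j => ssc_pos _ _, fun j => ssc_pos _ _, ?_,
    ?_, ?_, ?_, ?_, ?_, hgb, ?_⟩, hWg, by omega, ?_, hb1, hbn, g1, g2, ?_⟩
  · rw [← Real.rpow_zero 2]
    refine p2e ?_
    have : 0 ≤ 10 * S * ε' * J := by positivity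
    positivity
  · -- v0
    unfold ssc
    rw [p2n, p2d]
    refine p2e ?_
    push_cast
    linarith
  · unfold ssc
    rw [hgG, p2n, p2d]
    refine p2e ?_
    push_cast
    linarith
  · unfold ssc
    rw [hgG, p2n, p2d]
    refine p2e ?_
    push_cast
    linarith
  · unfold ssc
    rw [p2n, p2n W, p2a, p2d]
    refine p2e ?_
    have h1 := (pk 0 (Nat.zero_le n)).1
    have h2 := mul_le_mul_of_nonneg_right h1 hJ0
    push_cast
    linarith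
  · intro j hj
    unfold ssc
    rw [p2n, p2a]
    refine p2e ?_
    have h1 := mul_le_mul_of_nonneg_right (pv j hj).2 hJ0
    have h2 := low j hj
    have hK : (0 : ℝ) ≤ K := Nat.cast_nonneg K
    push_cast at h2 ⊢
    linarith
  · intro j hj
    unfold ssc
    rw [p2n W, p2n, p2a, p2a]
    refine p2e ?_
    have h1 := mul_le_mul_of_nonneg_right (pk j hj).2 hJ0
    have h2 := low j hj
    have hK : (0 : ℝ) ≤ K := Nat.cast_nonneg K
    push_cast at h2 ⊢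
    linarith
  · unfold ssc
    rw [p2p, p2n Q, p2a, p2a]
    refine p2e ?_
    have h1 : 0 ≤ 10 * S * ε' * J := by positivity
    push_cast
    linarith
  · intro j _ hj
    unfold ssc
    rw [p2p, p2n Q, p2a, p2d]
    refine p2e ?_
    have hj' : (j : ℝ) ≤ K + 1 := by exact_mod_cast hj
    have hj0 : (0 : ℝ) ≤ j := Nat.cast_nonneg j
    have h1 := mul_le_mul_of_nonneg_left W2.le hj0
    linarith
  · intro j hj
    have hj1 : (j : ℝ) / n ≤ 1 := by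
      rw [div_le_one hn0]
      exact_mod_cast hj
    have h1 := (bj j hj).2
    have h2 := mul_le_mul_of_nonneg_left g1 (show 0 ≤ 1 - (j : ℝ) / n by linarith)
    linarith

end Pool.OWN83
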