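import Pool.Agent.H83.OWN.Fdl

/-!
# One family, one label: the inputs of the theorem on one rough coordinate

`StD`: the data of one stage, for one law `r`. `Mo` is the part of the context without the path,
`Ro` the own path over the label. The theorems `StD.LW`, `StD.LM`, `StD.LX`, `StD.LV`, `StD.Lp`,
`StD.Lv`, `StD.fy` are the inputs.
-/

set_option autoImplicit false

namespace Pool.OWN83

open Finset Real MvPolynomial
open Pool.Agent.H49.Ent Pool.Agent.H32.Dense Pool.STK Pool.KA Pool.KSAT Pool.K2S Pool.PB Pool.GEN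
open Pool.S6C Pool.RCD Pool.LA91
open Pool.PB.Trl (rt rt_mem t_rt)

variable {m J : ℕ}

/-- The part of the context without the path. -/
noncomputable def Mo {V 𝒵 : Type} (F : Fam m J) (I : Finset (Fin m)) (w g n l : ℕ)
    (z' : LnT F → V) (zo : F.Ω → 𝒵) (ω : F.Ω) :
    𝒵 × V × (Fin m → ℤ) × (Fin m → ℤ) × ℕ × ℕ :=
  (zo ω, z' (slam F w ω), xz F I w n ω, (fun i => if i ∈ I then F.D l ω i else 0), F.T1 w ω,
    td F w g ω)

/-- The own path over the label. -/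
noncomputable def Ro {V : Type} (F : Fam m J) (k : Fin m) (w : ℕ) (z' : LnT F → V)
    (G : V → MvPolynomial (Option (Fin m)) ℝ) (ω : F.Ω) : Polynomial ℝ :=
  dv w (fun s _ => G (z' s)) k (slam F w ω)

/-- The digits of the jets of order at least `2`. -/
noncomputable def Hj {V : Type} (F : Fam m J) (k : Fin m) (w K : ℕ) (z' : LnT F → V)
    (G : V → MvPolynomial (Option (Fin m)) ℝ) (sj : ℕ → ℝ) (ω : F.Ω) : Fin (K + 2) → ℤ :=
  fun j => if 2 ≤ (j : ℕ) then ⌊sj j * ojet F k (j : ℕ) (G (z' (slam F w ω))) ω⌋ else 0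

/-- **The data of one stage.** -/
structure StD {V 𝒵 𝒴 : Type} (F : Fam m J) (r : F.Ω → ℝ) (I : Finset (Fin m)) (k : Fin m)
    (w g q Q n l K : ℕ) (z' : LnT F → V) (G : V → MvPolynomial (Option (Fin m)) ℝ)
    (zo : F.Ω → 𝒵) (Y : F.Ω → 𝒴) (sj : ℕ → ℝ) (e : ℝ) : Prop where
  law : IsLaw r
  wg : w + g ≤ J
  qgQ : q + g ≤ Q
  deg : ∀ v, (G v).totalDegree ≤ K
  nl : n ≤ w + l + 1
  lab : CH r (fun ω => z' (slam F w ω)) zo ≤ e
  Yk : ∃ φ : 𝒴 → ℕ × (Fin m → ℤ) × (Fin m → ℤ), ∀ ω, φ (Y ω) = (F.T ω,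
    (fun i => if i ∈ I then F.X n ω i else 0), (fun i => if i ∈ I then F.D l ω i else 0))
  jet : CH r (Hj F k w K z' G sj) (fun ω => (zo ω, Y ω)) ≤ e
  sjQ : ∀ j, 2 ≤ j → j ≤ K + 1 → 2 ^ Q ≤ 2 * (sj j * (2 ^ w) ^ j)
  e0 : 0 ≤ e

section

variable {V 𝒵 𝒴 : Type} {F : Fam m J} {r : F.Ω → ℝ} {I : Finset (Fin m)} {k : Fin m}
  {w g q Q n l K : ℕ} {z' : LnT F → V} {G : V → MvPolynomial (Option (Fin m)) ℝ}
  {zo : F.Ω → 𝒵} {Y : F.Ω → 𝒴} {sj : ℕ → ℝ} {e : ℝ}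

theorem StD.wJ (h : StD F r I k w g q Q n l K z' G zo Y sj e) : w ≤ J := by
  have := h.wg
  omega

theorem StD.pda (h : StD F r I k w g q Q n l K z' G zo Y sj e) :
    PDa (K + 1) q g Q (Ro F k w z' G) (rt F w) (fun ω => (tc F w g ω : ℤ))
      (Mo F I w g n l z' zo) where
  deg ω := natDegree_dv w (fun s _ => h.deg (z' s)) k (slam F w ω)
  u0 ω := (rt_mem F w ω).1
  u1 ω := (rt_mem F w ω).2
  clo ω := by
    have := rt_lo F h.wg ω
    push_cast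
    exact this
  chi ω := by
    have := rt_hi F h.wg ω
    push_cast
    exact this
  fu := ⟨fun x => (2 ^ (J - w - g) * (x.1 : ℝ) + (x.2.2.2.2.2.2 : ℝ)) / 2 ^ (J - w), fun ω => by
    rw [rt_tc F h.wg ω]
    simp only [Mo]
    push_cast
    rfl⟩
  qgQ := h.qgQ

/-- The number of the basic constants. -/
noncomputable def cB (m K : ℕ) : ℝ := m * Real.log (2 * 4 + 1) +
  (K + 4) * Real.log (2 * (2 * ((K + 1 : ℕ) + 1) + 1) + 1) +
  Real.log (2 * 3 + 1)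

theorem ojet_fl (F : Fam m J) {w : ℕ} (hw : w ≤ J) (k : Fin m) {V : Type} (z' : LnT F → V)
    (G : V → MvPolynomial (Option (Fin m)) ℝ) (j : ℕ) (s : ℝ) (ω : F.Ω) :
    ⌊s * ojet F k j (G (z' (slam F w ω))) ω⌋ = ⌊(s * (2 ^ w) ^ j) *
      (Polynomial.derivative^[j] (Ro F k w z' G ω)).eval (rt F w ω)⌋ :=
  fl_jet F hw (fun s => G (z' s)) k j s ω

/-- `rt` is a function of `T`. -/
theorem rt_T (F : Fam m J) (w : ℕ) (ω : F.Ω) :
    rt F w ω = ((F.T ω % 2 ^ (J - w) : ℕ) : ℝ) / ((2 ^ (J - w) : ℕ) : ℝ) := rfl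

/-- **The context without the height**, from the velocity. -/
theorem StD.LM (h : StD F r I k w g q Q n l K z' G zo Y sj e) {s₁ : ℝ}
    (hs₁ : 2 ^ q ≤ 2 * (s₁ * 2 ^ w)) :
    CH r (fun ω => ((tc F w g ω : ℤ), (Mo F I w g n l z' zo ω,
      (⌊(2 : ℝ) ^ q * (Ro F k w z' G ω).coeff 1⌋, Cv (K + 1) Q (Ro F k w z' G ω)))))
      (fun ω => (⌊s₁ * ojet F k 1 (G (z' (slam F w ω))) ω⌋, (zo ω, Y ω))) ≤
      m * Real.log (2 * 4 + 1) + (K + 3) * Real.log (2 * (2 * ((K + 1 : ℕ) + 1) + 1) + 1) +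
        2 * e := by
  have h0 := h.law.nonneg
  have P := h.pda
  have hw := h.wJ
  obtain ⟨φ, hφ⟩ := h.Yk
  obtain ⟨L, hL⟩ : ∃ L : ℝ, L = Real.log (2 * (2 * ((K + 1 : ℕ) + 1) + 1) + 1) := ⟨_, rfl⟩
  rw [← hL]
  obtain ⟨E, hE⟩ : ∃ E : F.Ω → ℤ × 𝒵 × 𝒴, E = fun ω =>
    (⌊s₁ * ojet F k 1 (G (z' (slam F w ω))) ω⌋, (zo ω, Y ω)) := ⟨_, rfl⟩
  rw [← hE]
  -- the jets
  obtain ⟨H, hH⟩ : ∃ H : F.Ω → Fin (K + 2) → ℤ, H = fun ω (j : Fin (K + 2)) =>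
    if 2 ≤ (j : ℕ) then ⌊sj j * ojet F k (j : ℕ) (G (z' (slam F w ω))) ω⌋ else 0 := ⟨_, rfl⟩
  have hHc : CH r H E ≤ e := by
    rw [hH]
    refine le_trans (CH_mono_cond h0 fun ω ω' _ _ hh => ?_) h.jet
    rw [hE] at hh
    exact (Prod.ext_iff.mp hh).2
  -- everything given the jets and `E`
  have a1 := CH_le_add h0 (fun ω => ((tc F w g ω : ℤ), (Mo F I w g n l z' zo ω,
      (⌊(2 : ℝ) ^ q * (Ro F k w z' G ω).coeff 1⌋, Cv (K + 1) Q (Ro F k w z' G ω))))) H E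
  obtain ⟨E', hE'⟩ : ∃ E' : F.Ω → (Fin (K + 2) → ℤ) × (ℤ × 𝒵 × 𝒴), E' = fun ω =>
    (H ω, E ω) := ⟨_, rfl⟩
  rw [← hE'] at a1
  have a2 := CH_subadd h0 (fun ω => (tc F w g ω : ℤ)) (fun ω => (Mo F I w g n l z' zo ω,
      (⌊(2 : ℝ) ^ q * (Ro F k w z' G ω).coeff 1⌋, Cv (K + 1) Q (Ro F k w z' G ω)))) E'
  have a3 := CH_subadd h0 (Mo F I w g n l z' zo) (fun ω =>
      (⌊(2 : ℝ) ^ q * (Ro F k w z' G ω).coeff 1⌋, Cv (K + 1) Q (Ro F k w z' G ω))) E'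
  have a4 := CH_subadd h0 (fun ω => ⌊(2 : ℝ) ^ q * (Ro F k w z' G ω).coeff 1⌋)
    (fun ω => Cv (K + 1) Q (Ro F k w z' G ω)) E'
  -- `T` is known
  have hT : ∀ ω ω', E' ω = E' ω' → F.T ω = F.T ω' := by
    intro ω ω' hh
    rw [hE', hE] at hh
    simp only [Prod.mk.injEq] at hh
    have h1 := hφ ω
    rw [hh.2.2.2, hφ ω'] at h1
    exact (Prod.ext_iff.mp h1).1.symm
  have b1 : CH r (fun ω => (tc F w g ω : ℤ)) E' = 0 := CH_eq_zero h0 fun ω ω' _ _ hh => by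
    have := hT ω ω' hh
    unfold tc
    rw [this]
  -- the middle part
  have b2 : CH r (Mo F I w g n l z' zo) E' ≤ e + m * Real.log (2 * 4 + 1) := by
    have c1 := CH_subadd h0 (fun ω => z' (slam F w ω)) (xz F I w n) E'
    have c2 : CH r (fun ω => z' (slam F w ω)) E' ≤ e := by
      refine le_trans (CH_mono_cond h0 fun ω ω' _ _ hh => ?_) h.lab
      rw [hE', hE] at hh
      simp only [Prod.mk.injEq] at hh
      exact hh.2.2.1
    have c3 : CH r (xz F I w n) E' ≤ m * Real.log (2 * 4 + 1) := by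
      refine vline2 F h.law I hw h.nl E' ⟨fun x => ((φ x.2.2.2).2.1, (φ x.2.2.2).2.2,
        (((φ x.2.2.2).1 % 2 ^ (J - w) : ℕ) : ℝ) / ((2 ^ (J - w) : ℕ) : ℝ)), fun ω => ?_⟩
      rw [hE', hE]
      simp only [hφ ω]
      rfl
    have c4 : CH r (Mo F I w g n l z' zo) E' ≤
        CH r (fun ω => (z' (slam F w ω), xz F I w n ω)) E' := by
      refine CH_mono_left h0 fun ω ω' _ _ hh => ?_
      have h1 := (Prod.ext_iff.mp hh).2
      have h2 := (Prod.ext_iff.mp hh).1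
      have h3 := hT ω ω' h1
      rw [hE', hE] at h1
      simp only [Prod.mk.injEq] at h1 h2
      have h4 := hφ ω
      rw [h1.2.2.2, hφ ω'] at h4
      have h5 := (Prod.ext_iff.mp (Prod.ext_iff.mp h4).2).2
      simp only [Mo, Prod.mk.injEq]
      refine ⟨h1.2.2.1, h2.1, h2.2, h5.symm, ?_, ?_⟩
      · unfold Fam.T1
        rw [h3]
      · unfold td
        rw [h3]
    linarith
  -- the coefficients
  have hS : ∀ i, 1 ≤ i → i ≤ K + 1 → (2 : ℝ) ^ q ≤ 2 * ((if i = 1 then s₁ else sj i) *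
      (2 ^ w) ^ i) := by
    intro i h1 h2
    by_cases hi : i = 1
    · rw [hi, if_pos rfl, pow_one]
      exact hs₁
    · rw [if_neg hi]
      refine le_trans ?_ (h.sjQ i (by omega) h2)
      exact pow_le_pow_right₀ (by norm_num) (by have := h.qgQ; omega)
  have hψ : ∀ j : ℕ, 1 ≤ j → ∃ ψ : (Fin (K + 2) → ℤ) × (ℤ × 𝒵 × 𝒴) → (ℕ → ℤ) × ℝ,
      ∀ ω, (ψ (E' ω)).2 = rt F w ω ∧ ∀ i, j ≤ i → i ≤ K + 1 → (ψ (E' ω)).1 i =
        ⌊((if i = 1 then s₁ else sj i) * (2 ^ w) ^ i) *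
          (Polynomial.derivative^[i] (Ro F k w z' G ω)).eval (rt F w ω)⌋ := by
    intro j hj
    refine ⟨fun x => (fun i => if i = 1 then x.2.1 else if hi : i < K + 2 then x.1 ⟨i, hi⟩ else 0,
      (((φ x.2.2.2).1 % 2 ^ (J - w) : ℕ) : ℝ) / ((2 ^ (J - w) : ℕ) : ℝ)), fun ω => ⟨?_, ?_⟩⟩
    · rw [hE', hE]
      simp only [hφ ω]
      rfl
    · intro i h1 h2
      rw [hE', hE, hH]
      by_cases hi : i = 1
      · simp only [if_pos hi]
        rw [← ojet_fl F hw k z' G i s₁ ω, hi]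
      · simp only [if_neg hi]
        rw [dif_pos (by omega), if_pos (by omega), ← ojet_fl F hw k z' G i (sj i) ω]
  have b3 : CH r (fun ω => ⌊(2 : ℝ) ^ q * (Ro F k w z' G ω).coeff 1⌋) E' ≤ L := by
    rw [hL]
    exact P.f6 h.law 1 (by positivity) _ hS E' (hψ 1 le_rfl)
  have b4 : CH r (fun ω => Cv (K + 1) Q (Ro F k w z' G ω)) E' ≤ ((K + 1 : ℕ) + 1) * L := by
    rw [hL]
    refine P.f7 h.law (fun i => (if i = 1 then s₁ else sj i) * (2 ^ w) ^ i) ?_ E' ?_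
    · intro i h1 h2
      have hi : i ≠ 1 := by omega
      simp only [if_neg hi]
      exact h.sjQ i h1 h2
    · obtain ⟨ψ, hψ⟩ := hψ 1 le_rfl
      exact ⟨ψ, fun ω => ⟨(hψ ω).1, fun i h1 h2 => (hψ ω).2 i (by omega) h2⟩⟩
  push_cast at b4
  linarith

/-- **The height**, from the position and the velocity. -/
theorem StD.LN (h : StD F r I k w g q Q n l K z' G zo Y sj e) {s₀ s₁ : ℝ}
    (hs₀ : 2 ^ q ≤ 2 * s₀) (hs₁ : 2 ^ q ≤ 2 * (s₁ * 2 ^ w)) :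
    CH r (fun ω => ⌊(2 : ℝ) ^ q * (Ro F k w z' G ω).coeff 0⌋)
      (fun ω => (⌊s₀ * ojet F k 0 (G (z' (slam F w ω))) ω⌋,
        (⌊s₁ * ojet F k 1 (G (z' (slam F w ω))) ω⌋, (zo ω, Y ω)))) ≤
      Real.log (2 * (2 * ((K + 1 : ℕ) + 1) + 1) + 1) + e := by
  have h0 := h.law.nonneg
  have P := h.pda
  have hw := h.wJ
  obtain ⟨φ, hφ⟩ := h.Yk
  obtain ⟨L, hL⟩ : ∃ L : ℝ, L = Real.log (2 * (2 * ((K + 1 : ℕ) + 1) + 1) + 1) := ⟨_, rfl⟩
  rw [← hL]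
  obtain ⟨E, hE⟩ : ∃ E : F.Ω → ℤ × ℤ × 𝒵 × 𝒴, E = fun ω =>
    (⌊s₀ * ojet F k 0 (G (z' (slam F w ω))) ω⌋,
        (⌊s₁ * ojet F k 1 (G (z' (slam F w ω))) ω⌋, (zo ω, Y ω))) := ⟨_, rfl⟩
  rw [← hE]
  obtain ⟨H, hH⟩ : ∃ H : F.Ω → Fin (K + 2) → ℤ, H = fun ω (j : Fin (K + 2)) =>
    if 2 ≤ (j : ℕ) then ⌊sj j * ojet F k (j : ℕ) (G (z' (slam F w ω))) ω⌋ else 0 := ⟨_, rfl⟩
  have hHc : CH r H E ≤ e := by
    rw [hH]
    refine le_trans (CH_mono_cond h0 fun ω ω' _ _ hh => ?_) h.jet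
    rw [hE] at hh
    exact (Prod.ext_iff.mp (Prod.ext_iff.mp hh).2).2
  have a1 := CH_le_add h0 (fun ω => ⌊(2 : ℝ) ^ q * (Ro F k w z' G ω).coeff 0⌋) H E
  have b3 : CH r (fun ω => ⌊(2 : ℝ) ^ q * (Ro F k w z' G ω).coeff 0⌋)
      (fun ω => (H ω, E ω)) ≤ L := by
    rw [hL]
    refine P.f6 h.law 0 (by positivity)
      (fun i => (if i = 0 then s₀ else if i = 1 then s₁ else sj i) * (2 ^ w) ^ i) ?_ _
      ⟨fun x => (fun i => if i = 0 then x.2.1 else if i = 1 then x.2.2.1 else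
        if hi : i < K + 2 then x.1 ⟨i, hi⟩ else 0,
        (((φ x.2.2.2.2).1 % 2 ^ (J - w) : ℕ) : ℝ) / ((2 ^ (J - w) : ℕ) : ℝ)), fun ω => ⟨?_, ?_⟩⟩
    · intro i _ h2
      by_cases hi0 : i = 0
      · rw [if_pos hi0, hi0, pow_zero, mul_one]
        exact hs₀
      · rw [if_neg hi0]
        by_cases hi : i = 1
        · rw [if_pos hi, hi, pow_one]
          exact hs₁
        · rw [if_neg hi]
          refine le_trans ?_ (h.sjQ i (by omega) h2)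
          exact pow_le_pow_right₀ (by norm_num) (by have := h.qgQ; omega)
    · rw [hE]
      simp only [hφ ω]
      rfl
    · intro i h1 h2
      rw [hE, hH]
      by_cases hi0 : i = 0
      · simp only [if_pos hi0]
        rw [← ojet_fl F hw k z' G i s₀ ω, hi0]
      · simp only [if_neg hi0]
        by_cases hi : i = 1
        · simp only [if_pos hi]
          rw [← ojet_fl F hw k z' G i s₁ ω, hi]
        · simp only [if_neg hi]
          rw [dif_pos (by omega), if_pos (by omega), ← ojet_fl F hw k z' G i (sj i) ω]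
  linarith

/-- **The context**, from the position and the velocity. -/
theorem StD.LW (h : StD F r I k w g q Q n l K z' G zo Y sj e) {s₀ s₁ : ℝ}
    (hs₀ : 2 ^ q ≤ 2 * s₀) (hs₁ : 2 ^ q ≤ 2 * (s₁ * 2 ^ w)) :
    CH r (fun ω => ((tc F w g ω : ℤ), Wc (K + 1) q Q (Ro F k w z' G) (Mo F I w g n l z' zo) ω))
      (fun ω => (⌊s₀ * ojet F k 0 (G (z' (slam F w ω))) ω⌋,
        (⌊s₁ * ojet F k 1 (G (z' (slam F w ω))) ω⌋, (zo ω, Y ω)))) ≤
      m * Real.log (2 * 4 + 1) + (K + 4) * Real.log (2 * (2 * ((K + 1 : ℕ) + 1) + 1) + 1) +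
        3 * e := by
  have h0 := h.law.nonneg
  have a1 := h.LM hs₁
  have a2 := h.LN hs₀ hs₁
  have a3 := CH_subadd h0 (fun ω => ((tc F w g ω : ℤ), (Mo F I w g n l z' zo ω,
      (⌊(2 : ℝ) ^ q * (Ro F k w z' G ω).coeff 1⌋, Cv (K + 1) Q (Ro F k w z' G ω)))))
    (fun ω => ⌊(2 : ℝ) ^ q * (Ro F k w z' G ω).coeff 0⌋)
    (fun ω => (⌊s₀ * ojet F k 0 (G (z' (slam F w ω))) ω⌋,
        (⌊s₁ * ojet F k 1 (G (z' (slam F w ω))) ω⌋, (zo ω, Y ω))))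
  have a4 : CH r (fun ω => ((tc F w g ω : ℤ), (Mo F I w g n l z' zo ω,
      (⌊(2 : ℝ) ^ q * (Ro F k w z' G ω).coeff 1⌋, Cv (K + 1) Q (Ro F k w z' G ω)))))
      (fun ω => (⌊s₀ * ojet F k 0 (G (z' (slam F w ω))) ω⌋,
        (⌊s₁ * ojet F k 1 (G (z' (slam F w ω))) ω⌋, (zo ω, Y ω)))) ≤
      CH r (fun ω => ((tc F w g ω : ℤ), (Mo F I w g n l z' zo ω,
      (⌊(2 : ℝ) ^ q * (Ro F k w z' G ω).coeff 1⌋, Cv (K + 1) Q (Ro F k w z' G ω)))))
      (fun ω => (⌊s₁ * ojet F k 1 (G (z' (slam F w ω))) ω⌋, (zo ω, Y ω))) := by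
    refine CH_mono_cond h0 fun ω ω' _ _ hh => ?_
    exact (Prod.ext_iff.mp hh).2
  have a5 : CH r (fun ω => ((tc F w g ω : ℤ), Wc (K + 1) q Q (Ro F k w z' G)
      (Mo F I w g n l z' zo) ω))
      (fun ω => (⌊s₀ * ojet F k 0 (G (z' (slam F w ω))) ω⌋,
        (⌊s₁ * ojet F k 1 (G (z' (slam F w ω))) ω⌋, (zo ω, Y ω)))) ≤
      CH r (fun ω => (((tc F w g ω : ℤ), (Mo F I w g n l z' zo ω,
        (⌊(2 : ℝ) ^ q * (Ro F k w z' G ω).coeff 1⌋, Cv (K + 1) Q (Ro F k w z' G ω)))),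
        ⌊(2 : ℝ) ^ q * (Ro F k w z' G ω).coeff 0⌋))
      (fun ω => (⌊s₀ * ojet F k 0 (G (z' (slam F w ω))) ω⌋,
        (⌊s₁ * ojet F k 1 (G (z' (slam F w ω))) ω⌋, (zo ω, Y ω)))) := by
    refine CH_mono_left h0 fun ω ω' _ _ hh => ?_
    have hh := (Prod.ext_iff.mp hh).1
    simp only [Wc, Prod.mk.injEq] at hh ⊢
    tauto
  linarith

/-- **The near digits of the position**, from the position. -/
theorem StD.LX (h : StD F r I k w g q Q n l K z' G zo Y sj e) {s₀ s₁ s : ℝ}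
    (hs₀ : 2 ^ q ≤ 2 * s₀) (hs₁ : 2 ^ q ≤ 2 * (s₁ * 2 ^ w)) (hs : 2 ^ (q + g) ≤ 2 * s) :
    CH r (Xn (K + 1) q g Q (Ro F k w z' G) (rt F w))
      (fun ω => (⌊s * ojet F k 0 (G (z' (slam F w ω))) ω⌋,
        (⌊s₀ * ojet F k 0 (G (z' (slam F w ω))) ω⌋,
        (⌊s₁ * ojet F k 1 (G (z' (slam F w ω))) ω⌋, (zo ω, Y ω))))) ≤
      Real.log (2 * 3 + 1) + (m * Real.log (2 * 4 + 1) +
        (K + 4) * Real.log (2 * (2 * ((K + 1 : ℕ) + 1) + 1) + 1) + 3 * e) := by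
  have h0 := h.law.nonneg
  have P := h.pda
  have hw := h.wJ
  have a1 := h.LW hs₀ hs₁
  have a2 := P.f2 h.law hs
  obtain ⟨E, hE⟩ : ∃ E : F.Ω → ℤ × ℤ × ℤ × 𝒵 × 𝒴, E = fun ω =>
    (⌊s * ojet F k 0 (G (z' (slam F w ω))) ω⌋,
        (⌊s₀ * ojet F k 0 (G (z' (slam F w ω))) ω⌋,
        (⌊s₁ * ojet F k 1 (G (z' (slam F w ω))) ω⌋, (zo ω, Y ω)))) := ⟨_, rfl⟩
  rw [← hE]
  have a3 := CH_le_add h0 (Xn (K + 1) q g Q (Ro F k w z' G) (rt F w))
    (fun ω => ((tc F w g ω : ℤ), Wc (K + 1) q Q (Ro F k w z' G) (Mo F I w g n l z' zo) ω)) E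
  have a4 : CH r (fun ω => ((tc F w g ω : ℤ), Wc (K + 1) q Q (Ro F k w z' G)
      (Mo F I w g n l z' zo) ω)) E ≤
      CH r (fun ω => ((tc F w g ω : ℤ), Wc (K + 1) q Q (Ro F k w z' G) (Mo F I w g n l z' zo) ω))
      (fun ω => (⌊s₀ * ojet F k 0 (G (z' (slam F w ω))) ω⌋,
        (⌊s₁ * ojet F k 1 (G (z' (slam F w ω))) ω⌋, (zo ω, Y ω)))) := by
    refine CH_mono_cond h0 fun ω ω' _ _ hh => ?_
    rw [hE] at hh
    exact (Prod.ext_iff.mp hh).2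
  have a5 : CH r (Xn (K + 1) q g Q (Ro F k w z' G) (rt F w)) (fun ω => (((tc F w g ω : ℤ),
      Wc (K + 1) q Q (Ro F k w z' G) (Mo F I w g n l z' zo) ω), E ω)) ≤
      Real.log (2 * 3 + 1) := by
    refine le_trans (CH_mono_cond h0 fun ω ω' _ _ hh => ?_) a2
    rw [hE] at hh
    have h1 := (Prod.ext_iff.mp hh).1
    have h2 := (Prod.ext_iff.mp (Prod.ext_iff.mp hh).2).1
    simp only at h2
    have h3 : ∀ ω, ⌊s * (Ro F k w z' G ω).eval (rt F w ω)⌋ =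
        ⌊s * ojet F k 0 (G (z' (slam F w ω))) ω⌋ := fun ω => by
      have := ojet_fl F hw k z' G 0 s ω
      rw [pow_zero, mul_one] at this
      exact this.symm
    rw [h3, h3]
    exact Prod.ext h2 h1
  linarith

/-- **The position**, from its near digits. -/
theorem StD.LV (h : StD F r I k w g q Q n l K z' G zo Y sj e) {s : ℝ} (hs0 : 0 < s)
    (hs : s ≤ 2 * 2 ^ (q + g)) :
    CH r (fun ω => ⌊s * ojet F k 0 (G (z' (slam F w ω))) ω⌋)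
      (fun ω => (Xn (K + 1) q g Q (Ro F k w z' G) (rt F w) ω, ((tc F w g ω : ℤ),
        Wc (K + 1) q Q (Ro F k w z' G) (Mo F I w g n l z' zo) ω))) ≤
      Real.log (2 * 3 + 1) := by
  have a2 := h.pda.f1 h.law hs0 hs
  have h3 : (fun ω => ⌊s * ojet F k 0 (G (z' (slam F w ω))) ω⌋) =
      fun ω => ⌊s * (Ro F k w z' G ω).eval (rt F w ω)⌋ := by
    funext ω
    have := ojet_fl F h.wJ k z' G 0 s ω
    rw [pow_zero, mul_one] at this
    exact this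
  rw [h3]
  exact a2

/-- **The position to `q + i` digits.** -/
theorem StD.Lp (h : StD F r I k w g q Q n l K z' G zo Y sj e) {i : ℕ} (hi : i ≤ g) {s a : ℝ}
    (hs0 : 0 < s) (ha : 1 ≤ a) (hs : s ≤ a * 2 ^ (q + i)) :
    CH r (fun ω => ⌊s * ojet F k 0 (G (z' (slam F w ω))) ω⌋)
      (fun ω => ((tc F w g ω : ℤ), ((An q g (Ro F k w z' G) ω / 2 ^ (g - i),
        Nn q g (Ro F k w z' G) ω / 2 ^ (g - i)),
        Wc (K + 1) q Q (Ro F k w z' G) (Mo F I w g n l z' zo) ω))) ≤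
      Real.log a + Real.log (2 * ((K + 1 : ℕ) + 2) + 3) := by
  have a2 := h.pda.f3 h.law hi hs0 ha hs
  have h3 : (fun ω => ⌊s * ojet F k 0 (G (z' (slam F w ω))) ω⌋) =
      fun ω => ⌊s * (Ro F k w z' G ω).eval (rt F w ω)⌋ := by
    funext ω
    have := ojet_fl F h.wJ k z' G 0 s ω
    rw [pow_zero, mul_one] at this
    exact this
  rw [h3]
  exact a2

/-- **The velocity to `q + i` digits.** -/
theorem StD.Lv (h : StD F r I k w g q Q n l K z' G zo Y sj e) {i : ℕ} (hi : i ≤ g) {s a : ℝ}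
    (hs0 : 0 < s) (ha : 1 ≤ a) (hs : s * 2 ^ w ≤ a * 2 ^ (q + i)) :
    CH r (fun ω => ⌊s * ojet F k 1 (G (z' (slam F w ω))) ω⌋)
      (fun ω => ((tc F w g ω : ℤ), ((An q g (Ro F k w z' G) ω / 2 ^ (g - i),
        Nn q g (Ro F k w z' G) ω / 2 ^ (g - i)),
        Wc (K + 1) q Q (Ro F k w z' G) (Mo F I w g n l z' zo) ω))) ≤
      Real.log a + Real.log (2 * ((K + 1 : ℕ) * (K + 1 : ℕ) + 1) + 3) := by
  have a2 := h.pda.f4' h.law hi (mul_pos hs0 (by positivity : (0 : ℝ) < 2 ^ w)) ha hs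
  have h3 : (fun ω => ⌊s * ojet F k 1 (G (z' (slam F w ω))) ω⌋) =
      fun ω => ⌊s * 2 ^ w * (Polynomial.derivative (Ro F k w z' G ω)).eval (rt F w ω)⌋ := by
    funext ω
    have := ojet_fl F h.wJ k z' G 1 s ω
    rw [pow_one, Function.iterate_one] at this
    exact this
  rw [h3]
  exact a2

/-- **The velocity to `q + g` digits**, from the near digits and the velocity to `q` digits. -/
theorem StD.LA (h : StD F r I k w g q Q n l K z' G zo Y sj e) {s₁ s a : ℝ}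
    (hs₁ : 2 ^ q ≤ 2 * (s₁ * 2 ^ w)) (hs0 : 0 < s) (ha : 1 ≤ a)
    (hs : s * 2 ^ w ≤ a * 2 ^ (q + g)) :
    CH r (fun ω => ⌊s * ojet F k 1 (G (z' (slam F w ω))) ω⌋)
      (fun ω => (An q g (Ro F k w z' G) ω,
        (⌊s₁ * ojet F k 1 (G (z' (slam F w ω))) ω⌋, (zo ω, Y ω)))) ≤
      Real.log a + Real.log (2 * ((K + 1 : ℕ) * (K + 1 : ℕ) + 1) + 3) +
        (m * Real.log (2 * 4 + 1) + (K + 3) * Real.log (2 * (2 * ((K + 1 : ℕ) + 1) + 1) + 1) +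
        2 * e) := by
  have h0 := h.law.nonneg
  have a1 := h.LM hs₁
  have a2 := h.pda.f4 h.law le_rfl (mul_pos hs0 (by positivity : (0 : ℝ) < 2 ^ w)) ha hs
  have h3 : (fun ω => ⌊s * ojet F k 1 (G (z' (slam F w ω))) ω⌋) =
      fun ω => ⌊s * 2 ^ w * (Polynomial.derivative (Ro F k w z' G ω)).eval (rt F w ω)⌋ := by
    funext ω
    have := ojet_fl F h.wJ k z' G 1 s ω
    rw [pow_one, Function.iterate_one] at this
    exact this
  rw [← h3] at a2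
  have a3 := CH_le_add h0 (fun ω => ⌊s * ojet F k 1 (G (z' (slam F w ω))) ω⌋)
    (fun ω => ((tc F w g ω : ℤ), (Mo F I w g n l z' zo ω,
      (⌊(2 : ℝ) ^ q * (Ro F k w z' G ω).coeff 1⌋, Cv (K + 1) Q (Ro F k w z' G ω)))))
    (fun ω => (An q g (Ro F k w z' G) ω,
        (⌊s₁ * ojet F k 1 (G (z' (slam F w ω))) ω⌋, (zo ω, Y ω))))
  have a4 : CH r (fun ω => ((tc F w g ω : ℤ), (Mo F I w g n l z' zo ω,
      (⌊(2 : ℝ) ^ q * (Ro F k w z' G ω).coeff 1⌋, Cv (K + 1) Q (Ro F k w z' G ω)))))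
      (fun ω => (An q g (Ro F k w z' G) ω,
        (⌊s₁ * ojet F k 1 (G (z' (slam F w ω))) ω⌋, (zo ω, Y ω)))) ≤
      CH r (fun ω => ((tc F w g ω : ℤ), (Mo F I w g n l z' zo ω,
      (⌊(2 : ℝ) ^ q * (Ro F k w z' G ω).coeff 1⌋, Cv (K + 1) Q (Ro F k w z' G ω)))))
      (fun ω => (⌊s₁ * ojet F k 1 (G (z' (slam F w ω))) ω⌋, (zo ω, Y ω))) := by
    refine CH_mono_cond h0 fun ω ω' _ _ hh => ?_
    exact (Prod.ext_iff.mp hh).2
  have a5 : CH r (fun ω => ⌊s * ojet F k 1 (G (z' (slam F w ω))) ω⌋)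
      (fun ω => (((tc F w g ω : ℤ), (Mo F I w g n l z' zo ω,
      (⌊(2 : ℝ) ^ q * (Ro F k w z' G ω).coeff 1⌋, Cv (K + 1) Q (Ro F k w z' G ω)))),
      (An q g (Ro F k w z' G) ω,
        (⌊s₁ * ojet F k 1 (G (z' (slam F w ω))) ω⌋, (zo ω, Y ω))))) ≤
      CH r (fun ω => ⌊s * ojet F k 1 (G (z' (slam F w ω))) ω⌋)
      (fun ω => ((tc F w g ω : ℤ), (An q g (Ro F k w z' G) ω / 2 ^ (g - g),
        (Mo F I w g n l z' zo ω, (⌊(2 : ℝ) ^ q * (Ro F k w z' G ω).coeff 1⌋,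
          Cv (K + 1) Q (Ro F k w z' G ω)))))) := by
    refine CH_mono_cond h0 fun ω ω' _ _ hh => ?_
    simp only [Prod.mk.injEq] at hh ⊢
    rw [hh.2.1]
    tauto
  linarith

/-- **The time and the line over `I`**, from the context. -/
theorem StD.fy (h : StD F r I k w g q Q n l K z' G zo Y sj e) {𝒴' : Type} (y : F.Ω → 𝒴')
    (hy : ∃ ψ : ℕ × (Fin m → ℤ) × (Fin m → ℤ) → 𝒴', ∀ ω, y ω = ψ (F.T ω,
      (fun i => if i ∈ I then F.X n ω i else 0), (fun i => if i ∈ I then F.D l ω i else 0))) :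
    CH r y (fun ω => ((tc F w g ω : ℤ), Mo F I w g n l z' zo ω)) ≤
      m * Real.log (2 * 4 + 1) := by
  have h0 := h.law.nonneg
  obtain ⟨ψ, hψ⟩ := hy
  have hT : ∀ ω ω', tc F w g ω = tc F w g ω' → Mo F I w g n l z' zo ω =
      Mo F I w g n l z' zo ω' → F.T ω = F.T ω' := by
    intro ω ω' h1 h2
    simp only [Mo, Prod.mk.injEq] at h2
    have c1 := Nat.div_add_mod (F.T ω) (2 ^ (J - w))
    have c2 := Nat.div_add_mod (F.T ω') (2 ^ (J - w))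
    rw [tc_split F h.wg] at c1 c2
    have c3 : F.T ω / 2 ^ (J - w) = F.T ω' / 2 ^ (J - w) := h2.2.2.2.2.1
    rw [← c1, ← c2, c3, h1, h2.2.2.2.2.2]
  have a1 := vline1 F h.law I h.wJ h.nl (fun ω => ((tc F w g ω : ℤ), Mo F I w g n l z' zo ω))
    ⟨fun x => (x.2.2.2.1, x.2.2.2.2.1,
      (2 ^ (J - w - g) * (x.1 : ℝ) + (x.2.2.2.2.2.2 : ℝ)) / 2 ^ (J - w)), fun ω => by
      rw [rt_tc F h.wg ω]
      simp only [Mo]
      push_cast
      rfl⟩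
  refine le_trans (CH_mono_left h0 fun ω ω' _ _ hh => ?_) a1
  have h1 := (Prod.ext_iff.mp hh).1
  have h2 := (Prod.ext_iff.mp (Prod.ext_iff.mp hh).2)
  have h3' : ((tc F w g ω : ℕ) : ℤ) = ((tc F w g ω' : ℕ) : ℤ) := h2.1
  have h3 : tc F w g ω = tc F w g ω' := by exact_mod_cast h3'
  have h4 := hT ω ω' h3 h2.2
  have h5 := h2.2
  simp only [Mo, Prod.mk.injEq] at h5
  rw [hψ ω, hψ ω', h4, h5.2.2.2.1]
  simp only at h1
  rw [h1]

/-- **The digits of the time are full** given everything else. -/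
theorem StD.ct (h : StD F r I k w g q Q n l K z' G zo Y sj e) {A : F.Ω → Prop}
    (hrA : ∀ ω, 0 < r ω → A ω) (hzo : ∃ ζ : LnT F → 𝒵, ∀ ω, A ω → zo ω = ζ (slam F w ω))
    {e' : ℝ} (he : (J : ℝ) * Real.log 2 - e' ≤ CH r F.T (fun ω => (F.l ω, F.Z ω))) :
    Real.log (2 * (1 * 2 ^ g : ℕ) + 1) - (Real.log 3 + e') ≤
      CH r (fun ω => (tc F w g ω : ℤ)) (fun ω => ((An q g (Ro F k w z' G) ω,
        Nn q g (Ro F k w z' G) ω),
        Wc (K + 1) q Q (Ro F k w z' G) (Mo F I w g n l z' zo) ω)) := by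
  have h0 := h.law.nonneg
  obtain ⟨ζ, hζ⟩ := hzo
  have a1 := ct_low F h.law h.wg he
  have a2 : CH r (tc F w g) (fun ω => (slam F w ω, td F w g ω)) ≤
      CH r (fun ω => (tc F w g ω : ℤ)) (fun ω => (slam F w ω, td F w g ω)) := by
    refine CH_mono_left h0 fun ω ω' _ _ hh => ?_
    have h3' : ((tc F w g ω : ℕ) : ℤ) = ((tc F w g ω' : ℕ) : ℤ) := (Prod.ext_iff.mp hh).1
    exact_mod_cast h3'
  have a3 : CH r (fun ω => (tc F w g ω : ℤ)) (fun ω => (slam F w ω, td F w g ω)) ≤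
      CH r (fun ω => (tc F w g ω : ℤ)) (fun ω => ((An q g (Ro F k w z' G) ω,
        Nn q g (Ro F k w z' G) ω),
        Wc (K + 1) q Q (Ro F k w z' G) (Mo F I w g n l z' zo) ω)) := by
    refine CH_mono_cond h0 fun ω ω' hω hω' hh => ?_
    have h1 := (Prod.ext_iff.mp hh).1
    have h2 := (Prod.ext_iff.mp hh).2
    simp only at h1 h2
    have hR : Ro F k w z' G ω = Ro F k w z' G ω' := by
      unfold Ro
      rw [h1]
    have hz : zo ω = zo ω' := by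
      rw [hζ ω (hrA ω hω), hζ ω' (hrA ω' hω'), h1]
    have hl : F.l ω = F.l ω' := (Prod.ext_iff.mp h1).1
    have hT1 : F.T1 w ω = F.T1 w ω' := (Prod.ext_iff.mp (Prod.ext_iff.mp h1).2).2
    have hu : F.u ω = F.u ω' := (Prod.ext_iff.mp hl).1
    have hd : F.d ω = F.d ω' := (Prod.ext_iff.mp hl).2
    have hx1 : F.x1 w ω = F.x1 w ω' := by
      funext i
      unfold Fam.x1
      rw [hT1, hu, hd]
    have hD : F.D l ω = F.D l ω' := by
      unfold Fam.D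
      rw [hd]
    have hM : Mo F I w g n l z' zo ω = Mo F I w g n l z' zo ω' := by
      unfold Mo xz
      rw [hz, h1, hx1, hD, hT1, h2]
    have hAn : An q g (Ro F k w z' G) ω = An q g (Ro F k w z' G) ω' := by
      unfold An
      rw [hR]
    have hNn : Nn q g (Ro F k w z' G) ω = Nn q g (Ro F k w z' G) ω' := by
      unfold Nn
      rw [hR]
    have hW : Wc (K + 1) q Q (Ro F k w z' G) (Mo F I w g n l z' zo) ω =
        Wc (K + 1) q Q (Ro F k w z' G) (Mo F I w g n l z' zo) ω' := by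
      unfold Wc
      rw [hM, hR]
    exact Prod.ext (Prod.ext hAn hNn) hW
  have a4 : Real.log (2 * (1 * 2 ^ g : ℕ) + 1) ≤ g * Real.log 2 + Real.log 3 := by
    have h1 : (g : ℝ) * Real.log 2 + Real.log 3 = Real.log (2 ^ g * 3) := by
      rw [Real.log_mul (by positivity) (by norm_num), Real.log_pow]
    rw [h1]
    refine Real.log_le_log (by positivity) ?_
    push_cast
    have : (1 : ℝ) ≤ 2 ^ g := one_le_pow₀ (by norm_num)
    linarith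
  linarith

end

end Pool.OWN83
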